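import Mathlib

/-!
# One-tape nondeterministic Turing machines with bounded nondeterminism
-/

namespace Pool.Agent.helper24.OT

/-- A one-tape nondeterministic Turing machine over the input alphabet `A`.  The tape is two-way
infinite; `δ q γ` is the set of possible moves (new state, written symbol, head move) in state `q`
reading `γ`. -/
structure NTM (A : Type) where
  /-- the states -/
  Q : Type
  /-- the tape symbols -/
  Γ : Type
  /-- there are finitely many states -/
  finQ : Finite Q
  /-- there are finitely many tape symbols -/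
  finΓ : Finite Γ
  /-- the blank symbol -/
  blank : Γ
  /-- how the input letters are written on the tape -/
  inp : A → Γ
  /-- the initial state -/
  start : Q
  /-- the accepting states -/
  acc : Set Q
  /-- the transition relation -/
  δ : Q → Γ → Set (Q × Γ × SignType)

/-- A configuration: state, head position, tape contents. -/
structure Cfg {A : Type} (M : NTM A) where
  /-- the current state -/
  q : M.Q
  /-- the position of the head -/
  pos : ℤ
  /-- the contents of the tape -/
  tape : ℤ → M.Γ

namespace NTM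

variable {A : Type} (M : NTM A)

/-- The moves available in a configuration. -/
def moves (c : Cfg M) : Set (M.Q × M.Γ × SignType) := M.δ c.q (c.tape c.pos)

/-- The configuration reached from `c` by the move `r`. -/
def next (c : Cfg M) (r : M.Q × M.Γ × SignType) : Cfg M :=
  ⟨r.1, c.pos + (r.2.2 : ℤ), Function.update c.tape c.pos r.2.1⟩

open Classical in
/-- `1` if the configuration offers a genuine choice (at least two different moves), else `0`. -/
noncomputable def cost (c : Cfg M) : ℕ := if (M.moves c).Nontrivial then 1 else 0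

/-- `M.Comp c T G c'`: there is a computation from `c` to `c'` with exactly `T` steps, exactly `G`
of which are nondeterministic. -/
inductive Comp : Cfg M → ℕ → ℕ → Cfg M → Prop
  | refl (c : Cfg M) : Comp c 0 0 c
  | step {c c' : Cfg M} {T G : ℕ} (r : M.Q × M.Γ × SignType) (hr : r ∈ M.moves c)
      (h : Comp (M.next c r) T G c') : Comp c (T + 1) (G + M.cost c) c'

/-- The initial configuration on the input word `w`, written on the cells `0, …, |w| - 1`. -/
def init (w : List A) : Cfg M :=
  ⟨M.start, 0, fun i => if 0 ≤ i then (w[i.toNat]?).elim M.blank M.inp else M.blank⟩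

/-- `M` accepts `w` by some computation with exactly `T` steps and exactly `G` nondeterministic
steps. -/
def AcceptsIn (w : List A) (T G : ℕ) : Prop :=
  ∃ c : Cfg M, M.Comp (M.init w) T G c ∧ c.q ∈ M.acc

end NTM

/-- `NONDET₁ t g`: the languages `L` accepted by a one-tape machine which accepts every `w ∈ L` by
a computation with at most `t |w|` steps, at most `g |w|` of which are nondeterministic. -/
def NONDET₁ (A : Type) (t g : ℕ → ℝ) : Set (Set (List A)) :=
  {L | ∃ M : NTM A, (∀ w T G, M.AcceptsIn w T G → w ∈ L) ∧
    ∀ w ∈ L, ∃ T G : ℕ, M.AcceptsIn w T G ∧ (T : ℝ) ≤ t w.length ∧ (G : ℝ) ≤ g w.length}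

/-- `ND τ a`: one-tape time `O(n^τ)` with `O(n^a)` nondeterministic steps. -/
def ND (A : Type) (τ a : ℝ) : Set (Set (List A)) :=
  {L | ∃ C : ℝ, L ∈ NONDET₁ A (fun n => C * ((n : ℝ) + 1) ^ τ) (fun n => C * ((n : ℝ) + 1) ^ a)}

/-! ### The words used for the lower bound -/

/-- `;` followed by the bits of `x` (letters `0`, `1`; `;` is the letter `2`). -/
def subw {m : ℕ} (x : Fin m → Bool) : List (Fin 5) :=
  2 :: List.ofFn (fun j => if x j then (1 : Fin 5) else 0)

/-- the concatenation of the `r` blocks `; x i` -/
def part {r m : ℕ} (x : Fin r → Fin m → Bool) : List (Fin 5) :=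
  (List.ofFn fun i => subw (x i)).flatten

/-- a region: `#`, the part of `x`, a padding of the same length, the part of `y`
(`#` is the letter `3`, the padding letter is `4`). -/
def region {r m : ℕ} (x y : Fin r → Fin m → Bool) : List (Fin 5) :=
  3 :: (part x ++ List.replicate (r * (m + 1)) 4 ++ part y)

/-- `s` regions, one after the other -/
def word {s r m : ℕ} (z : Fin s → (Fin r → Fin m → Bool) × (Fin r → Fin m → Bool)) :
    List (Fin 5) :=
  (List.ofFn fun k => region (z k).1 (z k).2).flatten

/-- all pairs of blocks intersect -/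
def Yes {s r m : ℕ} (z : Fin s → (Fin r → Fin m → Bool) × (Fin r → Fin m → Bool)) : Prop :=
  ∀ k i, ∃ j, (z k).1 i j = true ∧ (z k).2 i j = true

/-- Module D (the explicit machine), as a statement. -/
def ModuleD : Prop :=
  ∀ KA KS KR : ℕ, 2 ≤ KA → 2 ≤ KS → 2 ≤ KR → ∃ M : NTM (Fin 5),
    (∀ w T G, M.AcceptsIn w T G → ∃ T' G' e S R : ℕ, M.AcceptsIn w T' G' ∧
      S ≤ KS ^ e ∧ R ≤ KR ^ e ∧ KA ^ (e - 1) ≤ w.length + 1 ∧
      T' ≤ (2 * w.length + 2) * (e + (R + 2) * (Nat.log 2 (w.length + 2) + 3) + 3) ∧
      G' ≤ S * (R + 2) * (Nat.log 2 (w.length + 2) + 3)) ∧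
    ∀ (s r m e : ℕ) (z : Fin s → (Fin r → Fin m → Bool) × (Fin r → Fin m → Bool)),
      1 ≤ m → 1 ≤ r → 1 ≤ s → 1 ≤ e → s ≤ KS ^ e → 2 * r ≤ KR ^ e →
      2 * KA ^ (e - 1) ≤ (word z).length →
      ((∃ T G, M.AcceptsIn (word z) T G) ↔ Yes z)

end Pool.Agent.helper24.OT
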