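import Pool.Agent.helper24.OT.Prog5

/-!
# The explicit logarithmic space machine
-/

namespace Pool.Agent.helper24.OT.Pg

section
variable (KS KR KA : ℕ) (hS : 2 ≤ KS) (hR : 2 ≤ KR) (hA : 2 ≤ KA)


variable {M e : ℕ} {s r m : ℕ} (z : Fin s → (Fin r → Fin m → Bool) × (Fin r → Fin m → Bool))

/-- the position of region `k` -/
def pk (r m k : ℕ) : ℤ := ((k * (3 * (r * (m + 1)) + 1) : ℕ) : ℤ)

lemma pk_succ (r m k : ℕ) : pk r m k + (3 * (r * (m + 1)) + 1 : ℕ) = pk r m (k + 1) := by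
  unfold pk; push_cast; ring

theorem yes_fwd (hr : 0 < r) (hh : r * (m + 1) < KA ^ e) : ∀ c k, k + c = s → 0 < c →
    ∀ r0 h0 x0 j0 K g, (prog KS KR KA hS hR hA).RA (word z) M .s2 (pk r m k) (vv k r0 h0 x0 j0) e K g →
    ∀ k' : Fin s, k ≤ k'.val → ∀ i, ∃ j, (z k').1 i j = true ∧ (z k').2 i j = true := by
  intro c
  induction c with
  | zero => intro k _ h; omega
  | succ c ih =>
    intro k hk _ r0 h0 x0 j0 K g hra k' hk'
    obtain ⟨k0, hk0⟩ : ∃ k0 : Fin s, k0.val = k := ⟨⟨k, by omega⟩, rfl⟩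
    subst hk0
    obtain ⟨h1, r1, h1', x1, j1, K1, g1, h2⟩ := reg_fwd KS KR KA hS hR hA (rl_word z k0) hr hh hra
    rcases Nat.lt_or_ge k0.val k'.val with h | h
    · have h3 : MTM.read (word z) (pk r m (k0.val + 1)) = some 3 :=
        (rl_word z ⟨k0.val + 1, by have := k'.isLt; omega⟩).h3
      have e1 := pk_succ r m k0.val
      unfold pk at e1 h3
      rw [e1] at h2
      obtain ⟨K2, rfl, h4⟩ := (d_s15b KS KR KA hS hR hA h3).inv h2
      exact ih (k0.val + 1) (by omega) (by have := k'.isLt; omega) _ _ _ _ _ _ h4 k' h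
    · have : k' = k0 := Fin.ext (by omega)
      subst this
      exact h1

theorem yes_bwd (hr : 0 < r) (hh : r * (m + 1) < KA ^ e) (hr' : r < KR ^ e) (hs : s < KS ^ e)
    (hY : Yes z) : ∀ c k, k + c = s → ∀ r0 h0 x0 j0, ∃ K g,
      (prog KS KR KA hS hR hA).RA (word z) e .s15 (pk r m k) (vv k r0 h0 x0 j0) e K g := by
  intro c
  induction c with
  | zero =>
    intro k hk r0 h0 x0 j0
    rw [add_zero] at hk
    subst hk
    refine ⟨1, 0, RM.ra_of_acc (M := prog KS KR KA hS hR hA) (q := PSt.s15) (f := true) (v' := vv k r0 h0 x0 j0)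
      (by intro r; simp [pop]) (opf_nop KS KR KA hS hR hA _) ?_ le_rfl⟩
    have h1 : MTM.read (word z) (pk r m k) = none := by
      unfold pk
      rw [read_nat]
      simp [word_length']
    change pctl .s15 true _ = _
    simp [pctl, h1]
  | succ c ih =>
    intro k hk r0 h0 x0 j0
    obtain ⟨k0, hk0⟩ : ∃ k0 : Fin s, k0.val = k := ⟨⟨k, by omega⟩, rfl⟩
    subst hk0
    have h3 : MTM.read (word z) (pk r m k0.val) = some 3 := (rl_word z k0).h3
    obtain ⟨K, g, h4⟩ := reg_bwd KS KR KA hS hR hA (M := e) (κ := k0.val) (rl_word z k0) hr hh hr'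
      (by omega) (hY k0) (by
        have e1 := pk_succ r m k0.val
        unfold pk at e1
        rw [e1]
        exact ih (k0.val + 1) (by omega)) r0 h0 x0 j0
    exact ⟨_, _, (d_s15b KS KR KA hS hR hA h3).ra h4⟩

theorem start_bwd (hs0 : 0 < s) (hr : 0 < r) (hh : r * (m + 1) < KA ^ e) (hr' : r < KR ^ e)
    (hs : s < KS ^ e) (hY : Yes z) (r0 h0 x0 j0 : ℕ) : ∃ K g,
      (prog KS KR KA hS hR hA).RA (word z) e .s2 0 (vv 0 r0 h0 x0 j0) e K g := by
  have h1 := reg_bwd KS KR KA hS hR hA (M := e) (κ := 0) (rl_word z ⟨0, hs0⟩) hr hh hr'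
    (by omega) (hY _) (by
      have e1 := pk_succ r m 0
      unfold pk at e1
      simp only
      rw [e1]
      exact yes_bwd KS KR KA hS hR hA z hr hh hr' hs hY (s - 1) 1 (by omega)) r0 h0 x0 j0
  simpa using h1

theorem acc_iff (hs0 : 0 < s) (hr : 0 < r) (he : 0 < e) (hs : 2 * s ≤ KS ^ e)
    (hr' : 2 * r ≤ KR ^ e) (hn : 2 * KA ^ (e - 1) ≤ (word z).length) :
    (∃ T G S, (prog KS KR KA hS hR hA).toMac.toMTM.AcceptsIn (word z) T G S) ↔ Yes z := by
  obtain ⟨e0, X, X', h2, h3, h4⟩ := phase KS KR KA hS hR hA (w := word z)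
  have hlen := word_length' z
  have hee : e ≤ e0 := by
    by_contra hlt
    push Not at hlt
    have h5 : (word z).length < gs KA (e0 + 1) := by
      have : gs KA (e0 + 1) = gs KA e0 + KA ^ e0 := rfl
      omega
    have h6 : gs KA (e0 + 1) ≤ gs KA e := gs_mono KA hlt
    have h7 := gs_le hA (e - 1)
    rw [Nat.sub_add_cancel he] at h7
    omega
  have hs' : s < KS ^ e0 := by
    have : KS ^ e ≤ KS ^ e0 := Nat.pow_le_pow_right (by omega) hee
    omega
  have hr'' : r < KR ^ e0 := by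
    have : KR ^ e ≤ KR ^ e0 := Nat.pow_le_pow_right (by omega) hee
    omega
  have hh : r * (m + 1) < KA ^ e0 := by
    have h5 : (word z).length < gs KA (e0 + 1) := by
      have : gs KA (e0 + 1) = gs KA e0 + KA ^ e0 := rfl
      omega
    have h7 := gs_le hA e0
    have h8 : 3 * (r * (m + 1)) + 1 ≤ s * (3 * (r * (m + 1)) + 1) := Nat.le_mul_of_pos_left _ hs0
    omega
  constructor
  · rintro ⟨T, G, S, h⟩
    obtain ⟨M, k, h5⟩ := (prog KS KR KA hS hR hA).ra_of_accepts h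
    obtain ⟨k1, rfl, h6⟩ := h4.inv h5
    have h7 := yes_fwd KS KR KA hS hR hA z (M := M) hr hh s 0 (by omega) hs0 0 0 X' 0 k1 G
      (by simpa [pk] using h6)
    exact fun k' => h7 k' (Nat.zero_le _)
  · intro hY
    obtain ⟨K, g, h5⟩ := start_bwd KS KR KA hS hR hA z hs0 hr hh hr'' hs' hY 0 0 X' 0
    obtain ⟨T, _, h6⟩ := (prog KS KR KA hS hR hA).accepts_of_ra (h4.ra h5)
    exact ⟨T, g, _, h6⟩

end

lemma aux1 {T e R n l : ℕ} (he : e ≤ l + 1)
    (h : T ≤ (2 * e + 3) * ((5 + 10 * R) * n + (2 * n + 2))) :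
    T ≤ 20 * (n + 2) * (R + 2) * (l + 3) :=
  calc T ≤ (2 * e + 3) * ((5 + 10 * R) * n + (2 * n + 2)) := h
    _ ≤ (2 * (l + 3)) * (10 * ((n + 2) * (R + 2))) := by
      refine Nat.mul_le_mul (by omega) ?_
      nlinarith
    _ = 20 * (n + 2) * (R + 2) * (l + 3) := by ring

lemma aux2 {G e R K l : ℕ} (he : e ≤ l + 1) (h : G ≤ K * (R * e)) :
    G ≤ 20 * K * (R + 2) * (l + 3) :=
  calc G ≤ K * (R * e) := h
    _ ≤ K * ((R + 2) * (l + 3)) := Nat.mul_le_mul_left K (Nat.mul_le_mul (by omega) (by omega))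
    _ ≤ 20 * (K * ((R + 2) * (l + 3))) := Nat.le_mul_of_pos_left _ (by norm_num)
    _ = _ := by ring

theorem moduleE : ModuleE := by
  intro N u v hu hv
  have hS : 2 ≤ 2 ^ (v + 1) := by
    calc 2 = 2 ^ 1 := rfl
      _ ≤ 2 ^ (v + 1) := Nat.pow_le_pow_right (by norm_num) (by omega)
  have hR : 2 ≤ 2 ^ (u + 1) := by
    calc 2 = 2 ^ 1 := rfl
      _ ≤ 2 ^ (u + 1) := Nat.pow_le_pow_right (by norm_num) (by omega)
  have hA : 2 ≤ 2 ^ N := by
    calc 2 = 2 ^ 1 := rfl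
      _ ≤ 2 ^ N := Nat.pow_le_pow_right (by norm_num) (by omega)
  refine ⟨(prog (2 ^ (v + 1)) (2 ^ (u + 1)) (2 ^ N) hS hR hA).toMac.toMTM, 20, ?_, ?_⟩
  · intro w T G S h
    obtain ⟨T', G', S', e, h1, h2, h3, h4, h5⟩ := main_bound _ _ _ hS hR hA h
    refine ⟨T', G', S', e, (2 ^ (v + 1)) ^ e, (2 ^ (u + 1)) ^ e, h1, ?_, ?_, ?_, ?_, ?_, ?_⟩
    · rw [← pow_mul]
    · rw [← pow_mul]
    · rw [pow_mul]; exact h2
    · exact aux1 (by
        have h6 : 2 ^ (e - 1) ≤ w.length + 2 := by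
          calc 2 ^ (e - 1) ≤ (2 ^ N) ^ (e - 1) := Nat.pow_le_pow_left hA _
            _ ≤ w.length + 2 := by omega
        have := (Nat.le_log_iff_pow_le (by norm_num) (by omega)).mpr h6
        omega) h3
    · exact aux2 (by
        have h6 : 2 ^ (e - 1) ≤ w.length + 2 := by
          calc 2 ^ (e - 1) ≤ (2 ^ N) ^ (e - 1) := Nat.pow_le_pow_left hA _
            _ ≤ w.length + 2 := by omega
        have := (Nat.le_log_iff_pow_le (by norm_num) (by omega)).mpr h6
        omega) h4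
    · have h6 : 2 ^ (e - 1) ≤ w.length + 2 := by
        calc 2 ^ (e - 1) ≤ (2 ^ N) ^ (e - 1) := Nat.pow_le_pow_left hA _
          _ ≤ w.length + 2 := by omega
      have := (Nat.le_log_iff_pow_le (by norm_num) (by omega)).mpr h6
      omega
  · intro s r m e z hm hr hs he h1 h2 h3
    rw [pow_mul] at h1 h2 h3
    exact acc_iff _ _ _ hS hR hA z hs hr he h1 h2 h3

end Pool.Agent.helper24.OT.Pg
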