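import Pool.Agent.helper24.OT.Defs

/-!
# One-tape machines with additional memory
-/

namespace Pool.Agent.helper24.OT

/-- `NONDETM A t g S`: the languages `L` accepted by one-tape machines with `S n` bits of additional
memory, even non-uniformly: there are a bound `d` on the number of possible moves in one step and,
for each input length `n`, a machine `M n` with at most `2 ^ S n` states, which accepts no word of
length `n` outside `L` and accepts each `w ∈ L` of length `n` by a computation with at most `t n`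
steps, at most `g n` of which are nondeterministic. -/
def NONDETM (A : Type) (t g S : ℕ → ℝ) : Set (Set (List A)) :=
  {L | ∃ (d : ℕ) (M : ℕ → NTM A), ∀ n : ℕ,
    (Nat.card (M n).Q : ℝ) ≤ 2 ^ S n ∧ (∀ q γ, ((M n).δ q γ).encard ≤ d) ∧
    (∀ w : List A, w.length = n → ∀ T G : ℕ, (M n).AcceptsIn w T G → w ∈ L) ∧
    ∀ w ∈ L, w.length = n →
      ∃ T G : ℕ, (M n).AcceptsIn w T G ∧ (T : ℝ) ≤ t n ∧ (G : ℝ) ≤ g n}

/-- `NDM τ a μ`: one-tape time `O(n^τ)` with `O(n^a)` nondeterministic steps and `O(n^μ)` bits of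
additional memory. -/
def NDM (A : Type) (τ a μ : ℝ) : Set (Set (List A)) :=
  {L | ∃ C : ℝ, L ∈ NONDETM A (fun n => C * ((n : ℝ) + 1) ^ τ) (fun n => C * ((n : ℝ) + 1) ^ a)
    (fun n => C * ((n : ℝ) + 1) ^ μ)}

/-- Without memory. -/
theorem ND_subset_NDM {A : Type} {τ a μ : ℝ} (hμ : 0 ≤ μ) : ND A τ a ⊆ NDM A τ a μ := by
  rintro L ⟨C, M, h1, h2⟩
  have := M.finQ
  have := M.finΓ
  obtain ⟨k, hk⟩ : ∃ k : ℕ, Nat.card M.Q ≤ 2 ^ k := ⟨_, Nat.lt_two_pow_self.le⟩
  obtain ⟨C', hC'⟩ : ∃ C' : ℝ, C' = max C k := ⟨_, rfl⟩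
  have hCC : C ≤ C' := by rw [hC']; exact le_max_left _ _
  have hCk : (k:ℝ) ≤ C' := by rw [hC']; exact le_max_right _ _
  have hpos : ∀ (n : ℕ) (α : ℝ), 0 ≤ ((n:ℝ) + 1) ^ α := fun n α => by positivity
  refine ⟨C', Nat.card (M.Q × M.Γ × SignType), fun _ => M, fun n => ⟨?_, ?_, ?_, ?_⟩⟩
  · have h3 : (1:ℝ) ≤ ((n:ℝ) + 1) ^ μ :=
      Real.one_le_rpow (by have : (0:ℝ) ≤ n := Nat.cast_nonneg n
                           linarith) hμ
    have h4 : (k:ℝ) ≤ C' * ((n:ℝ) + 1) ^ μ := by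
      have : (0:ℝ) ≤ k := Nat.cast_nonneg k
      nlinarith
    calc (Nat.card M.Q : ℝ) ≤ 2 ^ k := by exact_mod_cast hk
      _ = (2:ℝ) ^ (k:ℝ) := (Real.rpow_natCast 2 k).symm
      _ ≤ (2:ℝ) ^ (C' * ((n:ℝ) + 1) ^ μ) := Real.rpow_le_rpow_of_exponent_le (by norm_num) h4
  · intro q γ
    calc (M.δ q γ).encard ≤ (Set.univ : Set (M.Q × M.Γ × SignType)).encard :=
          Set.encard_le_encard (Set.subset_univ _)
      _ = (Nat.card (M.Q × M.Γ × SignType) : ℕ∞) := by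
          rw [Set.encard_univ, ENat.card_eq_coe_natCard]
  · intro w _ T G h; exact h1 w T G h
  · intro w hw hn
    obtain ⟨T, G, h3, h4, h5⟩ := h2 w hw
    subst hn
    exact ⟨T, G, h3, h4.trans (mul_le_mul_of_nonneg_right hCC (hpos _ _)),
      h5.trans (mul_le_mul_of_nonneg_right hCC (hpos _ _))⟩

end Pool.Agent.helper24.OT
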