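import Pool.Agent.helper24.OT.Lower
import Pool.Agent.helper24.OT.Mem

/-!
# Asymptotics of the lower bound
-/

namespace Pool.Agent.helper24.OT

open Finset Filter

lemma ev_pow (K : ℝ) {α α' : ℝ} (h : α < α') : ∀ᶠ X : ℝ in atTop, K * X ^ α ≤ X ^ α' := by
  filter_upwards [(tendsto_rpow_atTop (sub_pos.mpr h)).eventually_ge_atTop K,
    eventually_gt_atTop 0] with X h1 h2
  have : X ^ α' = X ^ (α' - α) * X ^ α := by
    rw [← Real.rpow_add h2]; congr 1; ring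
  rw [this]
  exact mul_le_mul_of_nonneg_right h1 (Real.rpow_nonneg h2.le _)

lemma ev_log {K K' α α' : ℝ} (hK : 0 ≤ K) (hK' : 0 < K') (h : α < α') :
    ∀ᶠ X : ℝ in atTop, K * X ^ α * Real.log (K' * X) ≤ X ^ α' := by
  obtain ⟨δ, hδ⟩ : ∃ δ, δ = (α' - α) / 2 := ⟨_, rfl⟩
  have hδ0 : 0 < δ := by rw [hδ]; linarith
  filter_upwards [ev_pow (K * (K' ^ δ / δ)) (show α + δ < α' by rw [hδ]; linarith),
    eventually_gt_atTop 0] with X h1 h2
  refine le_trans ?_ h1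
  have h3 : Real.log (K' * X) ≤ (K' * X) ^ δ / δ := Real.log_le_rpow_div (by positivity) hδ0
  have h4 : (K' * X) ^ δ = K' ^ δ * X ^ δ := Real.mul_rpow hK'.le h2.le
  rw [Real.rpow_add h2]
  calc K * X ^ α * Real.log (K' * X) ≤ K * X ^ α * ((K' * X) ^ δ / δ) :=
        mul_le_mul_of_nonneg_left h3 (by positivity)
    _ = _ := by rw [h4]; ring

lemma pow_eq_rpow {N k t : ℕ} (hN : 0 < N) :
    ((2:ℝ) ^ (k * t)) = ((2:ℝ) ^ (N * t)) ^ ((k:ℝ) / N) := by
  have hN' : (N:ℝ) ≠ 0 := by positivity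
  rw [← Real.rpow_natCast, ← Real.rpow_natCast, ← Real.rpow_mul (by norm_num)]
  congr 1
  push_cast
  field_simp

lemma exists_pick {A : Type} (M : NTM A) {d : ℕ} (hd : 0 < d)
    (h : ∀ q γ, (M.δ q γ).encard ≤ d) :
    ∃ pick : M.Q → M.Γ → Fin d → Mv M, ∀ q γ, M.δ q γ ⊆ Set.range (pick q γ) := by
  have key : ∀ q γ, ∃ f : Fin d → Mv M, M.δ q γ ⊆ Set.range f := by
    intro q γ
    have hfin : (M.δ q γ).Finite := by
      apply Set.finite_of_encard_le_coe (h q γ)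
    have hc : (M.δ q γ).ncard ≤ d := by
      have := h q γ
      rw [← hfin.cast_ncard_eq] at this
      exact_mod_cast this
    have : Finite (M.δ q γ) := hfin
    have hcard : Nat.card (M.δ q γ) ≤ d := hc
    let e := Finite.equivFin (M.δ q γ)
    refine ⟨fun i => if hi : i.val < Nat.card (M.δ q γ) then (e.symm ⟨i.val, hi⟩ : Mv M)
      else (M.start, M.blank, 0), ?_⟩
    intro r hr
    refine ⟨⟨(e ⟨r, hr⟩).val, lt_of_lt_of_le (e ⟨r, hr⟩).isLt hcard⟩, ?_⟩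
    have h1 : (e ⟨r, hr⟩).val < Nat.card (M.δ q γ) := (e ⟨r, hr⟩).isLt
    dsimp only
    rw [dif_pos h1]
    exact congrArg Subtype.val (e.symm_apply_apply ⟨r, hr⟩)
  choose pick hpick using key
  exact ⟨pick, hpick⟩

/-- **Asymptotic lower bound.** -/
theorem not_mem {L : Set (List (Fin 5))} {u v w : ℕ} {τ a μ : ℝ} (hw : 1 ≤ w) (hτ1 : 1 ≤ τ)
    (ha0 : 0 ≤ a) (ha1 : a < 1) (hμ : 0 ≤ μ) (h1 : a * ((u:ℝ) + v + w) < u + v)
    (h2 : (v:ℝ) < (2 - (τ + μ)) * ((u:ℝ) + v + w))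
    (hL : ∀ (t : ℕ) (z : Fin (2 ^ (v * t)) → BX (2 ^ (u * t)) (2 ^ (w * t)) × BX (2 ^ (u * t)) (2 ^ (w * t))),
      word z ∈ L ↔ Yes z) : L ∉ NDM (Fin 5) τ a μ := by
  rintro ⟨C, d0, Mf, hMf⟩
  obtain ⟨N, hN⟩ : ∃ N, N = u + v + w := ⟨_, rfl⟩
  have hN0 : 0 < N := by omega
  have hNr : (N:ℝ) = (u:ℝ) + v + w := by rw [hN]; push_cast; ring
  have hNr0 : (0:ℝ) < N := by exact_mod_cast hN0
  rw [← hNr] at h1 h2
  obtain ⟨C0, hC0⟩ : ∃ C0, C0 = max C 1 := ⟨_, rfl⟩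
  have hC1 : 1 ≤ C0 := by rw [hC0]; exact le_max_right _ _
  have hCC : C ≤ C0 := by rw [hC0]; exact le_max_left _ _
  have hvσ : τ - 1 + μ < ((u + w : ℕ) : ℝ) / N := by
    rw [lt_div_iff₀ hNr0]
    have e1 : ((u + w : ℕ) : ℝ) = N - v := by rw [hNr]; push_cast; ring
    rw [e1]
    linarith
  have hvσ' : τ - 1 < ((u + w : ℕ) : ℝ) / N := by linarith
  have hgσ : a < ((u + v : ℕ) : ℝ) / N := by
    rw [lt_div_iff₀ hNr0]; push_cast; linarith
  obtain ⟨d, hd⟩ : ∃ d, d = max d0 1 := ⟨_, rfl⟩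
  have hd1 : 1 ≤ d := by rw [hd]; exact le_max_right _ _
  have hdd : d0 ≤ d := by rw [hd]; exact le_max_left _ _
  obtain ⟨D, hD⟩ : ∃ D : ℝ, D = (d : ℝ) := ⟨_, rfl⟩
  have hD1 : 1 ≤ D := by rw [hD]; exact_mod_cast hd1
  have hX : Tendsto (fun t : ℕ => (2:ℝ) ^ (N * t)) atTop atTop := by
    have h3 : Tendsto (fun t : ℕ => N * t) atTop atTop := by
      exact Filter.tendsto_id.const_mul_atTop' hN0
    exact (tendsto_pow_atTop_atTop_of_one_lt (by norm_num)).comp h3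
  have hm : Tendsto (fun t : ℕ => (2:ℝ) ^ (w * t)) atTop atTop := by
    have h3 : Tendsto (fun t : ℕ => w * t) atTop atTop := by
      exact Filter.tendsto_id.const_mul_atTop' (by omega)
    exact (tendsto_pow_atTop_atTop_of_one_lt (by norm_num)).comp h3
  have e1 := hX.eventually (ev_log (K := 4800000 * (80 * C0 * 8 ^ τ)) (K' := 10 * C0)
    (by positivity) (by positivity) hvσ')
  have e4 := hX.eventually (ev_pow (4800000 * (80 * C0 * 8 ^ τ) * (C0 * 8 ^ μ)) hvσ)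
  have e2 := hX.eventually (ev_pow ((C0 * 8 ^ a * Real.log D + 1) * (100 / 9)) hgσ)
  have e3 := hm.eventually_ge_atTop 80002
  obtain ⟨t, e1, e4, e2, e3⟩ := (e1.and (e4.and (e2.and e3))).exists
  obtain ⟨X, hXe⟩ : ∃ X : ℝ, X = 2 ^ (N * t) := ⟨_, rfl⟩
  have hX1 : 1 ≤ X := by rw [hXe]; exact one_le_pow₀ (by norm_num)
  have hX0 : 0 < X := by linarith
  rw [← pow_eq_rpow hN0, ← hXe] at e1 e2 e4
  obtain ⟨r, hr⟩ : ∃ r, r = 2 ^ (u * t) := ⟨_, rfl⟩
  obtain ⟨s, hs⟩ : ∃ s, s = 2 ^ (v * t) := ⟨_, rfl⟩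
  obtain ⟨m, hmm⟩ : ∃ m, m = 2 ^ (w * t) := ⟨_, rfl⟩
  have hr1 : 1 ≤ r := by rw [hr]; exact Nat.one_le_two_pow
  have hs1 : 1 ≤ s := by rw [hs]; exact Nat.one_le_two_pow
  have hm1 : 80002 ≤ m := by
    have : (80002:ℝ) ≤ (m:ℝ) := by rw [hmm]; push_cast; exact e3
    exact_mod_cast this
  have hmr : (80002:ℝ) ≤ (m:ℝ) := by exact_mod_cast hm1
  have hrsm : (r:ℝ) * s * m = X := by
    rw [hr, hs, hmm, hXe, hN]; push_cast; rw [← pow_add, ← pow_add]; congr 1; ring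
  have hrm : (2:ℝ) ^ ((u + w) * t) = r * m := by
    rw [hr, hmm]; push_cast; rw [← pow_add]; congr 1; ring
  have hrs : (2:ℝ) ^ ((u + v) * t) = r * s := by
    rw [hr, hs]; push_cast; rw [← pow_add]; congr 1; ring
  rw [hrm] at e1 e4
  rw [hrs] at e2
  have hr1' : (1:ℝ) ≤ r := by exact_mod_cast hr1
  have hs1' : (1:ℝ) ≤ s := by exact_mod_cast hs1
  -- the machine for this length
  obtain ⟨n, hn⟩ : ∃ n, n = s * (3 * (r * (m + 1)) + 1) := ⟨_, rfl⟩
  have hlz : ∀ z : Fin s → BX r m × BX r m, (word z).length = n := by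
    intro z; rw [length_word, hn]
  have hlen : (n : ℝ) + 1 ≤ 8 * X := by
    rw [hn, ← hrsm]
    push_cast
    have p1 : (1:ℝ) * 1 ≤ s * r := mul_le_mul hs1' hr1' (by norm_num) (by linarith)
    have p2 : (s:ℝ) * 1 ≤ s * r := mul_le_mul_of_nonneg_left hr1' (by linarith)
    have p3 : (s:ℝ) * r * 5 ≤ s * r * m := mul_le_mul_of_nonneg_left (by linarith) (by linarith)
    linarith
  have hn1 : (1:ℝ) ≤ (n:ℝ) + 1 := by
    have : (0:ℝ) ≤ (n:ℝ) := Nat.cast_nonneg n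
    linarith
  obtain ⟨hQ, hδ, hM1, hM2⟩ := hMf n
  obtain ⟨M, hM⟩ : ∃ M, M = Mf n := ⟨_, rfl⟩
  rw [← hM] at hQ hδ hM1 hM2
  have := M.finQ
  have hne : Nonempty M.Q := ⟨M.start⟩
  obtain ⟨pick, hpick⟩ := exists_pick M (d := d) hd1
    (fun q γ => (hδ q γ).trans (by exact_mod_cast hdd))
  have hQ1 : 1 ≤ Nat.card M.Q := Nat.card_pos
  have hQ1' : (1:ℝ) ≤ Nat.card M.Q := by exact_mod_cast hQ1
  have hlogQ : Real.log (Nat.card M.Q) ≤ C0 * 8 ^ μ * X ^ μ := by
    have h3 : (Nat.card M.Q : ℝ) ≤ 2 ^ (C0 * (8 * X) ^ μ) := by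
      refine hQ.trans (Real.rpow_le_rpow_of_exponent_le (by norm_num) ?_)
      calc C * ((n:ℝ) + 1) ^ μ ≤ C0 * ((n:ℝ) + 1) ^ μ :=
            mul_le_mul_of_nonneg_right hCC (by positivity)
        _ ≤ C0 * (8 * X) ^ μ :=
            mul_le_mul_of_nonneg_left (Real.rpow_le_rpow (by linarith) hlen hμ) (by linarith)
    have h4 := Real.log_le_log (by linarith) h3
    rw [Real.log_rpow (by norm_num)] at h4
    have h5 : Real.log 2 ≤ 1 := by have := Real.log_two_lt_d9; linarith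
    calc _ ≤ _ := h4
      _ ≤ C0 * (8 * X) ^ μ * 1 := mul_le_mul_of_nonneg_left h5 (by positivity)
      _ = _ := by rw [Real.mul_rpow (by norm_num) hX0.le]; ring
  -- the parameters
  obtain ⟨T, hT⟩ : ∃ T, T = ⌊C0 * (8 * X) ^ τ⌋₊ := ⟨_, rfl⟩
  obtain ⟨g, hg⟩ : ∃ g, g = ⌊C0 * (8 * X) ^ a⌋₊ := ⟨_, rfl⟩
  obtain ⟨c, hc⟩ : ∃ c, c = ⌊80 * C0 * 8 ^ τ * X ^ (τ - 1)⌋₊ := ⟨_, rfl⟩
  have hTle : (T:ℝ) ≤ C0 * (8 * X) ^ τ := by rw [hT]; exact Nat.floor_le (by positivity)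
  have hgle : (g:ℝ) ≤ C0 * (8 * X) ^ a := by rw [hg]; exact Nat.floor_le (by positivity)
  have hcle : (c:ℝ) ≤ 80 * C0 * 8 ^ τ * X ^ (τ - 1) := by rw [hc]; exact Nat.floor_le (by positivity)
  have hclt : 80 * C0 * 8 ^ τ * X ^ (τ - 1) < c + 1 := by rw [hc]; exact Nat.lt_floor_add_one _
  obtain ⟨q, hq⟩ : ∃ q : ℝ, q = ((m:ℝ) - 1) / 80000 := ⟨_, rfl⟩
  have hq1 : 1 < q := by rw [hq, lt_div_iff₀ (by norm_num)]; linarith
  have hpq : (Real.conjExponent q).HolderConjugate q := (Real.HolderConjugate.conjExponent hq1).symm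
  have hLz : ∀ z : Fin s → BX r m × BX r m, word z ∈ L ↔ Yes z := by
    subst hr; subst hs; subst hmm; exact hL t
  refine lower (M := M) hpick hd1 (s := s) (r := r) (m := m) (g := g) (T := T) (c := c) hpq (by omega)
    (by rw [hq]; linarith) hr1 hs1 ?_ ?_ ?_ ?_ ?_
  · -- time
    have h3 : (80:ℝ) * T ≤ (c + 1) * (r * (m + 1)) * s := by
      calc (80:ℝ) * T ≤ 80 * (C0 * (8 * X) ^ τ) := by linarith
        _ = (80 * C0 * 8 ^ τ * X ^ (τ - 1)) * X := by
            have : X ^ τ = X ^ (τ - 1) * X := by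
              nth_rewrite 3 [← Real.rpow_one X]
              rw [← Real.rpow_add hX0]; congr 1; ring
            rw [Real.mul_rpow (by norm_num) hX0.le, this]; ring
        _ ≤ (c + 1) * X := mul_le_mul_of_nonneg_right hclt.le hX0.le
        _ ≤ (c + 1) * (r * (m + 1)) * s := by
            rw [← hrsm]
            have : (0:ℝ) ≤ (c + 1) * (r * s) := by positivity
            linarith
    have h4 : (((80 * T : ℕ)) : ℝ) ≤ (((c + 1) * (r * (m + 1)) * s : ℕ) : ℝ) := by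
      push_cast; exact h3
    exact_mod_cast h4
  · -- crossing sequences
    obtain ⟨B, hB⟩ : ∃ B, B = Nat.card M.Q * (g + 1) + 1 := ⟨_, rfl⟩
    have hB1 : (1:ℝ) ≤ (B:ℝ) := by
      have : 1 ≤ B := by rw [hB]; omega
      exact_mod_cast this
    rw [← hB]
    have hBle : (B:ℝ) ≤ Nat.card M.Q * (10 * C0 * X) := by
      have h3 : (8 * X) ^ a ≤ 8 * X := by
        calc (8 * X) ^ a ≤ (8 * X) ^ (1:ℝ) := Real.rpow_le_rpow_of_exponent_le (by linarith) ha1.le
          _ = 8 * X := Real.rpow_one _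
      have h3' : C0 * (8 * X) ^ a ≤ C0 * (8 * X) := mul_le_mul_of_nonneg_left h3 (by linarith)
      have h3'' : 1 * 1 ≤ C0 * X := mul_le_mul hC1 hX1 (by norm_num) (by linarith)
      have h4 : (g:ℝ) + 1 + 1 ≤ 10 * C0 * X := by linarith
      rw [hB]; push_cast
      have h5 : (Nat.card M.Q : ℝ) * (g + 1 + 1) ≤ (Nat.card M.Q : ℝ) * (10 * C0 * X) :=
        mul_le_mul_of_nonneg_left h4 (by linarith)
      linarith
    have hlog : Real.log B ≤ C0 * 8 ^ μ * X ^ μ + Real.log (10 * C0 * X) := by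
      have h3 := Real.log_le_log (by linarith) hBle
      rw [Real.log_mul (by positivity) (by positivity)] at h3
      linarith
    have hlog0 : 0 ≤ Real.log B := Real.log_nonneg hB1
    have hmain : (c:ℝ) * Real.log B ≤ q * (r * (1 / 15)) := by
      have h3 : (c:ℝ) * Real.log B ≤ 80 * C0 * 8 ^ τ * X ^ (τ - 1) *
          (C0 * 8 ^ μ * X ^ μ + Real.log (10 * C0 * X)) :=
        mul_le_mul hcle hlog hlog0 (by positivity)
      have h4 : 4800000 * (80 * C0 * 8 ^ τ * X ^ (τ - 1) * Real.log (10 * C0 * X)) ≤ r * m := by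
        calc _ = 4800000 * (80 * C0 * 8 ^ τ) * X ^ (τ - 1) * Real.log (10 * C0 * X) := by ring
          _ ≤ _ := e1
      have h4' : 4800000 * (80 * C0 * 8 ^ τ * X ^ (τ - 1) * (C0 * 8 ^ μ * X ^ μ)) ≤ r * m := by
        calc _ = 4800000 * (80 * C0 * 8 ^ τ) * (C0 * 8 ^ μ) * X ^ (τ - 1 + μ) := by
              rw [Real.rpow_add hX0]; ring
          _ ≤ _ := e4
      have h5 : q * (r * (1 / 15)) = r * (m - 1) / 1200000 := by rw [hq]; ring
      rw [h5, le_div_iff₀ (by norm_num)]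
      have h6 : (0:ℝ) ≤ r * (m - 2) := mul_nonneg (by linarith) (by linarith)
      rw [mul_add] at h3
      linarith
    have hfin : Real.log (((B ^ c : ℕ) : ℝ) ^ (1 / q)) ≤ Real.log ((15 / 14 : ℝ) ^ r) := by
      have hBc : (0:ℝ) < ((B ^ c : ℕ) : ℝ) := by
        have : 0 < B := by rw [hB]; omega
        exact_mod_cast pow_pos this c
      rw [Real.log_rpow hBc, Real.log_pow]
      have h6 : Real.log (((B ^ c : ℕ) : ℝ)) = c * Real.log B := by push_cast; rw [Real.log_pow]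
      rw [h6]
      have h7 : (1:ℝ) / 15 ≤ Real.log (15 / 14) := by
        have := Real.one_sub_inv_le_log_of_pos (show (0:ℝ) < 15 / 14 by norm_num)
        refine le_trans (by norm_num) this
      have hq0 : 0 < q := by linarith
      calc 1 / q * (c * Real.log B) ≤ 1 / q * (q * (r * (1 / 15))) :=
            mul_le_mul_of_nonneg_left hmain (by positivity)
        _ = r * (1 / 15) := by field_simp
        _ ≤ r * Real.log (15 / 14) := mul_le_mul_of_nonneg_left h7 (by positivity)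
    refine (Real.log_le_log_iff ?_ (by positivity)).mp hfin
    have : 0 < B := by rw [hB]; omega
    have : (0:ℝ) < ((B ^ c : ℕ) : ℝ) := by exact_mod_cast pow_pos this c
    positivity
  · -- guesses
    rw [← hD]
    have h3 : D ^ g = Real.exp (g * Real.log D) := by
      rw [mul_comm, Real.exp_mul, Real.exp_log (by linarith), Real.rpow_natCast]
    have h4 : (91 / 100 : ℝ) ^ (r * s) ≤ Real.exp (-(9 / 100) * (r * s)) := by
      have h5 : (91 / 100 : ℝ) ≤ Real.exp (-(9 / 100)) := by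
        have := Real.add_one_le_exp (-(9 / 100 : ℝ))
        linarith
      calc (91 / 100 : ℝ) ^ (r * s) ≤ (Real.exp (-(9 / 100))) ^ (r * s) :=
            pow_le_pow_left₀ (by norm_num) h5 _
        _ = _ := by rw [← Real.exp_nat_mul]; congr 1; push_cast; ring
    have h6 : (g:ℝ) * Real.log D + 1 ≤ 9 / 100 * (r * s) := by
      have hlogD : 0 ≤ Real.log D := Real.log_nonneg hD1
      have h7 : (g:ℝ) * Real.log D ≤ C0 * 8 ^ a * Real.log D * X ^ a := by
        calc (g:ℝ) * Real.log D ≤ C0 * (8 * X) ^ a * Real.log D :=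
              mul_le_mul_of_nonneg_right hgle hlogD
          _ = _ := by rw [Real.mul_rpow (by norm_num) hX0.le]; ring
      have h8 : 1 ≤ X ^ a := Real.one_le_rpow hX1 ha0
      linarith
    calc D ^ g * (91 / 100) ^ (r * s) ≤ Real.exp (g * Real.log D) * Real.exp (-(9 / 100) * (r * s)) := by
          rw [h3]; exact mul_le_mul_of_nonneg_left h4 (Real.exp_nonneg _)
      _ = Real.exp (g * Real.log D + -(9 / 100) * (r * s)) := by rw [Real.exp_add]
      _ ≤ Real.exp (-1) := Real.exp_le_exp.mpr (by linarith)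
      _ < 1 / 2 := by
          rw [Real.exp_neg, ← one_div]
          have : (2:ℝ) < Real.exp 1 := by
            have := Real.exp_one_gt_d9; linarith
          exact one_div_lt_one_div_of_lt (by norm_num) this
  · -- acceptance
    intro z hz
    obtain ⟨T', G, hacc, hT', hG⟩ := hM2 (word z) ((hLz z).mpr hz) (hlz z)
    refine ⟨T', G, hacc, ?_, ?_⟩
    · rw [hT]
      apply Nat.le_floor
      calc (T':ℝ) ≤ C * ((n : ℝ) + 1) ^ τ := hT'
        _ ≤ C0 * ((n : ℝ) + 1) ^ τ := mul_le_mul_of_nonneg_right hCC (by positivity)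
        _ ≤ C0 * (8 * X) ^ τ :=
            mul_le_mul_of_nonneg_left (Real.rpow_le_rpow (by linarith) hlen (by linarith)) (by linarith)
    · rw [hg]
      apply Nat.le_floor
      calc (G:ℝ) ≤ C * ((n : ℝ) + 1) ^ a := hG
        _ ≤ C0 * ((n : ℝ) + 1) ^ a := mul_le_mul_of_nonneg_right hCC (by positivity)
        _ ≤ C0 * (8 * X) ^ a :=
            mul_le_mul_of_nonneg_left (Real.rpow_le_rpow (by linarith) hlen ha0) (by linarith)
  · intro z T' G hacc
    exact (hLz z).mp (hM1 _ (hlz z) _ _ hacc)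

end Pool.Agent.helper24.OT
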