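import Mathlib

/-!
# Crossing sequences of deterministic one-tape computations
-/

namespace Pool.Agent.helper24.OT

open Finset

variable {S Γ : Type}

/-- `1` if moving from cell `i` to cell `i'` crosses the cut between the cells `c - 1` and `c` -/
def cr (i i' : ℤ) (c : ℤ) : ℕ := if (i < c ↔ i' < c) then 0 else 1

/-- Accepting run with its crossing sequence at the cut `p`, the numbers of crossings of all cuts
and the number of steps. -/
inductive Run (tr : S → Γ → Option (S × Γ × SignType)) (acc : S → Prop) (p : ℤ) :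
    S → ℤ → (ℤ → Γ) → List S → (ℤ → ℕ) → ℕ → Prop
  | acc {s : S} {i : ℤ} {T : ℤ → Γ} (h : acc s) : Run tr acc p s i T [] 0 0
  | same {s : S} {i : ℤ} {T : ℤ → Γ} {s' : S} {γ : Γ} {d : SignType} {l : List S} {κ : ℤ → ℕ} {n : ℕ}
      (h : ¬ acc s) (ht : tr s (T i) = some (s', γ, d)) (hs : i < p ↔ i + (d : ℤ) < p)
      (hr : Run tr acc p s' (i + (d : ℤ)) (Function.update T i γ) l κ n) :
      Run tr acc p s i T l (κ + cr i (i + (d : ℤ))) (n + 1)
  | cross {s : S} {i : ℤ} {T : ℤ → Γ} {s' : S} {γ : Γ} {d : SignType} {l : List S} {κ : ℤ → ℕ} {n : ℕ}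
      (h : ¬ acc s) (ht : tr s (T i) = some (s', γ, d)) (hs : ¬ (i < p ↔ i + (d : ℤ) < p))
      (hr : Run tr acc p s' (i + (d : ℤ)) (Function.update T i γ) l κ n) :
      Run tr acc p s i T (s' :: l) (κ + cr i (i + (d : ℤ))) (n + 1)

/-- the cell `i` lies on the side `b` of the cut `p` (`true`: left) -/
def Side (p : ℤ) (b : Bool) (i : ℤ) : Prop := if b then i < p else p ≤ i

/-- the cell where the head enters the side `b` -/
def ent (p : ℤ) (b : Bool) : ℤ := if b then p - 1 else p

/-- The part of a run on the side `b`, given the crossing sequence. -/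
inductive SRun (tr : S → Γ → Option (S × Γ × SignType)) (acc : S → Prop) (p : ℤ) (b : Bool) :
    S → ℤ → (ℤ → Γ) → List S → (ℤ → ℕ) → ℕ → Prop
  | acc {s : S} {i : ℤ} {T : ℤ → Γ} (h : acc s) : SRun tr acc p b s i T [] 0 0
  | same {s : S} {i : ℤ} {T : ℤ → Γ} {s' : S} {γ : Γ} {d : SignType} {l : List S} {κ : ℤ → ℕ} {n : ℕ}
      (h : ¬ acc s) (ht : tr s (T i) = some (s', γ, d)) (hs : Side p b (i + (d : ℤ)))
      (hr : SRun tr acc p b s' (i + (d : ℤ)) (Function.update T i γ) l κ n) :
      SRun tr acc p b s i T l (κ + cr i (i + (d : ℤ))) (n + 1)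
  | exitEnd {s : S} {i : ℤ} {T : ℤ → Γ} {s' : S} {γ : Γ} {d : SignType}
      (h : ¬ acc s) (ht : tr s (T i) = some (s', γ, d)) (hs : ¬ Side p b (i + (d : ℤ))) :
      SRun tr acc p b s i T [s'] (cr i (i + (d : ℤ))) 1
  | exitRe {s : S} {i : ℤ} {T : ℤ → Γ} {s' s'' : S} {γ : Γ} {d : SignType} {l : List S}
      {κ : ℤ → ℕ} {n : ℕ}
      (h : ¬ acc s) (ht : tr s (T i) = some (s', γ, d)) (hs : ¬ Side p b (i + (d : ℤ)))
      (hr : SRun tr acc p b s'' (ent p b) (Function.update T i γ) l κ n) :
      SRun tr acc p b s i T (s' :: s'' :: l) (κ + cr i (i + (d : ℤ))) (n + 1)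

/-- The waiting side. -/
def SWait (tr : S → Γ → Option (S × Γ × SignType)) (acc : S → Prop) (p : ℤ) (b : Bool)
    (T : ℤ → Γ) (l : List S) (κ : ℤ → ℕ) (n : ℕ) : Prop :=
  (l = [] ∧ κ = 0 ∧ n = 0) ∨ ∃ s l', l = s :: l' ∧ SRun tr acc p b s (ent p b) T l' κ n

variable {tr : S → Γ → Option (S × Γ × SignType)} {acc : S → Prop} {p : ℤ}

lemma sign_cases (d : SignType) : (d : ℤ) = -1 ∨ (d : ℤ) = 0 ∨ (d : ℤ) = 1 := by
  cases d <;> simp

lemma side_ent (p : ℤ) (b : Bool) : Side p b (ent p b) := by
  cases b <;> simp [Side, ent]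

lemma side_not {p : ℤ} {b : Bool} {i : ℤ} : Side p (!b) i ↔ ¬ Side p b i := by
  cases b <;> simp [Side]

lemma exit_eq {p : ℤ} {b : Bool} {i : ℤ} {d : SignType} (h : Side p b i)
    (h' : ¬ Side p b (i + (d : ℤ))) : i + (d : ℤ) = ent p (!b) := by
  rcases sign_cases d with hd | hd | hd <;> rw [hd] at h' ⊢ <;> cases b <;>
    simp [Side, ent] at h h' ⊢ <;> omega

lemma side_iff {p : ℤ} {b : Bool} {i i' : ℤ} (h : Side p b i) : (i < p ↔ i' < p) ↔ Side p b i' := by
  cases b <;> simp [Side] at h ⊢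
  · constructor
    · intro h1; by_contra h2; push Not at h2; have := h1.mpr h2; omega
    · intro h1; constructor <;> intro <;> omega
  · constructor
    · intro h1; exact h1.mp h
    · intro h1; exact ⟨fun _ => h1, fun _ => h⟩

lemma SRun.congr {b : Bool} {s : S} {i : ℤ} {T : ℤ → Γ} {l : List S} {κ : ℤ → ℕ} {n : ℕ}
    (h : SRun tr acc p b s i T l κ n) (hi : Side p b i) :
    ∀ {T' : ℤ → Γ}, (∀ j, Side p b j → T j = T' j) → SRun tr acc p b s i T' l κ n := by
  have aux : ∀ (i : ℤ) (γ : Γ) {T T' : ℤ → Γ}, (∀ j, Side p b j → T j = T' j) →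
      ∀ j, Side p b j → Function.update T i γ j = Function.update T' i γ j := by
    intro i γ T T' hT j hj
    by_cases hji : j = i
    · subst hji; simp
    · rw [Function.update_of_ne hji, Function.update_of_ne hji]; exact hT j hj
  induction h with
  | acc h => intro T' _; exact SRun.acc h
  | same h ht hs hr ih =>
    intro T' hT
    exact SRun.same h (by rw [← hT _ hi]; exact ht) hs (ih hs (aux _ _ hT))
  | exitEnd h ht hs =>
    intro T' hT
    exact SRun.exitEnd h (by rw [← hT _ hi]; exact ht) hs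
  | exitRe h ht hs hr ih =>
    intro T' hT
    exact SRun.exitRe h (by rw [← hT _ hi]; exact ht) hs (ih (side_ent p b) (aux _ _ hT))

lemma SWait.congr {b : Bool} {T : ℤ → Γ} {l : List S} {κ : ℤ → ℕ} {n : ℕ}
    (h : SWait tr acc p b T l κ n) {T' : ℤ → Γ} (hT : ∀ j, Side p b j → T j = T' j) :
    SWait tr acc p b T' l κ n := by
  rcases h with h | ⟨s, l', hl, h⟩
  · exact Or.inl h
  · exact Or.inr ⟨s, l', hl, h.congr (side_ent p b) hT⟩

/-- Decomposition of a run into its two sides. -/
theorem Run.split {s : S} {i : ℤ} {T : ℤ → Γ} {l : List S} {κ : ℤ → ℕ} {n : ℕ}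
    (h : Run tr acc p s i T l κ n) :
    ∀ b, Side p b i → ∃ κ1 κ2 n1 n2, κ = κ1 + κ2 ∧ n = n1 + n2 ∧
      SRun tr acc p b s i T l κ1 n1 ∧ SWait tr acc p (!b) T l κ2 n2 := by
  induction h with
  | acc h =>
    intro b _
    exact ⟨0, 0, 0, 0, by simp, rfl, SRun.acc h, Or.inl ⟨rfl, rfl, rfl⟩⟩
  | @same s i T s' γ d l κ n h ht hs hr ih =>
    intro b hb
    have hb' : Side p b (i + (d : ℤ)) := (side_iff hb).mp hs
    obtain ⟨κ1, κ2, n1, n2, hκ, hn, h1, h2⟩ := ih b hb'
    refine ⟨κ1 + cr i (i + (d : ℤ)), κ2, n1 + 1, n2, ?_, by omega, SRun.same h ht hb' h1, ?_⟩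
    · rw [hκ]; funext c; simp only [Pi.add_apply]; ring
    · refine h2.congr fun j hj => ?_
      have : j ≠ i := by rintro rfl; exact (side_not.mp hj) hb
      rw [Function.update_of_ne this]
  | @cross s i T s' γ d l κ n h ht hs hr ih =>
    intro b hb
    have hnb : ¬ Side p b (i + (d : ℤ)) := fun hc => hs ((side_iff hb).mpr hc)
    have hb' : Side p (!b) (i + (d : ℤ)) := side_not.mpr hnb
    have he := exit_eq hb hnb
    obtain ⟨κ1, κ2, n1, n2, hκ, hn, h1, h2⟩ := ih (!b) hb'
    rw [Bool.not_not] at h2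
    refine ⟨κ2 + cr i (i + (d : ℤ)), κ1, n2 + 1, n1, ?_, by omega, ?_, ?_⟩
    · rw [hκ]; funext c; simp only [Pi.add_apply]; ring
    · rcases h2 with ⟨hl, hκ2, hn2⟩ | ⟨s'', l', hl, h2⟩
      · subst hl; subst hκ2; subst hn2
        simpa using SRun.exitEnd (b := b) h ht hnb
      · subst hl
        exact SRun.exitRe h ht hnb h2
    · right
      refine ⟨s', l, rfl, ?_⟩
      rw [← he]
      refine h1.congr hb' fun j hj => ?_
      have : j ≠ i := by rintro rfl; exact (side_not.mp hj) hb
      rw [Function.update_of_ne this]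

/-- Composition of two compatible sides. -/
theorem Run.merge (N : ℕ) : ∀ (b : Bool) (s : S) (i : ℤ) (T T2 T3 : ℤ → Γ) (l : List S)
    (κ1 κ2 : ℤ → ℕ) (n1 n2 : ℕ), n1 + n2 ≤ N → Side p b i → SRun tr acc p b s i T l κ1 n1 →
    SWait tr acc p (!b) T2 l κ2 n2 → (∀ j, Side p b j → T3 j = T j) →
    (∀ j, Side p (!b) j → T3 j = T2 j) → Run tr acc p s i T3 l (κ1 + κ2) (n1 + n2) := by
  induction N with
  | zero =>
    intro b s i T T2 T3 l κ1 κ2 n1 n2 hN hb h1 h2 hT hT2
    cases h1 with
    | acc h =>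
      rcases h2 with ⟨_, hκ2, hn2⟩ | ⟨s', l', hl, _⟩
      · subst hκ2; subst hn2
        simpa using Run.acc (tr := tr) (p := p) (i := i) (T := T3) h
      · exact absurd hl (by simp)
    | same => omega
    | exitEnd => omega
    | exitRe => omega
  | succ N ih =>
    intro b s i T T2 T3 l κ1 κ2 n1 n2 hN hb h1 h2 hT hT2
    have hi2 : ∀ j, Side p (!b) j → j ≠ i := by
      intro j hj hji; subst hji; exact (side_not.mp hj) hb
    cases h1 with
    | acc h =>
      rcases h2 with ⟨_, hκ2, hn2⟩ | ⟨s', l', hl, _⟩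
      · subst hκ2; subst hn2
        simpa using Run.acc (tr := tr) (p := p) (i := i) (T := T3) h
      · exact absurd hl (by simp)
    | @same _ _ _ s' γ d _ κ n h ht hs hr =>
      have hrun := ih b s' (i + (d : ℤ)) (Function.update T i γ) T2 (Function.update T3 i γ) l κ κ2 n n2
        (by omega) hs hr h2
        (by
          intro j hj
          by_cases hji : j = i
          · subst hji; simp
          · rw [Function.update_of_ne hji, Function.update_of_ne hji]; exact hT j hj)
        (by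
          intro j hj
          rw [Function.update_of_ne (hi2 j hj)]; exact hT2 j hj)
      have := Run.same (T := T3) h (by rw [hT i hb]; exact ht) ((side_iff hb).mpr hs) hrun
      have e1 : κ + κ2 + cr i (i + (d : ℤ)) = κ + cr i (i + (d : ℤ)) + κ2 := by
        funext c; simp only [Pi.add_apply]; ring
      have e2 : n + n2 + 1 = n + 1 + n2 := by omega
      rw [e1, e2] at this
      exact this
    | @exitEnd _ _ _ s' γ d h ht hs =>
      have he := exit_eq hb hs
      have hb' : Side p (!b) (i + (d : ℤ)) := side_not.mpr hs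
      rcases h2 with ⟨hl, _, _⟩ | ⟨s0, l0, hl, h2⟩
      · exact absurd hl (by simp)
      · obtain ⟨rfl, rfl⟩ : s' = s0 ∧ l0 = [] := by
          simp only [List.cons.injEq] at hl; exact ⟨hl.1, hl.2.symm⟩
        have hrun := ih (!b) s' (i + (d : ℤ)) T2 (Function.update T i γ) (Function.update T3 i γ) [] κ2 0 n2 0
          (by omega) hb' (by rw [he]; exact h2) (by rw [Bool.not_not]; exact Or.inl ⟨rfl, rfl, rfl⟩)
          (by
            intro j hj
            rw [Function.update_of_ne (hi2 j hj)]; exact hT2 j hj)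
          (by
            intro j hj
            rw [Bool.not_not] at hj
            by_cases hji : j = i
            · subst hji; simp
            · rw [Function.update_of_ne hji, Function.update_of_ne hji]; exact hT j hj)
        have := Run.cross (T := T3) h (by rw [hT i hb]; exact ht)
          (fun hc => hs ((side_iff hb).mp hc)) hrun
        have e1 : κ2 + 0 + cr i (i + (d : ℤ)) = cr i (i + (d : ℤ)) + κ2 := by
          funext c; simp only [Pi.add_apply, Pi.zero_apply]; ring
        have e2 : n2 + 0 + 1 = 1 + n2 := by omega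
        rw [e1, e2] at this
        exact this
    | @exitRe _ _ _ s' s'' γ d l'' κ n h ht hs hr =>
      have he := exit_eq hb hs
      have hb' : Side p (!b) (i + (d : ℤ)) := side_not.mpr hs
      rcases h2 with ⟨hl, _, _⟩ | ⟨s0, l0, hl, h2⟩
      · exact absurd hl (by simp)
      · obtain ⟨rfl, rfl⟩ : s' = s0 ∧ l0 = s'' :: l'' := by
          simp only [List.cons.injEq] at hl; exact ⟨hl.1, hl.2.symm⟩
        have hrun := ih (!b) s' (i + (d : ℤ)) T2 (Function.update T i γ) (Function.update T3 i γ)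
          (s'' :: l'') κ2 κ n2 n
          (by omega) hb' (by rw [he]; exact h2)
          (by rw [Bool.not_not]; exact Or.inr ⟨s'', l'', rfl, hr⟩)
          (by
            intro j hj
            rw [Function.update_of_ne (hi2 j hj)]; exact hT2 j hj)
          (by
            intro j hj
            rw [Bool.not_not] at hj
            by_cases hji : j = i
            · subst hji; simp
            · rw [Function.update_of_ne hji, Function.update_of_ne hji]; exact hT j hj)
        have := Run.cross (T := T3) h (by rw [hT i hb]; exact ht)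
          (fun hc => hs ((side_iff hb).mp hc)) hrun
        have e1 : κ2 + κ + cr i (i + (d : ℤ)) = κ + cr i (i + (d : ℤ)) + κ2 := by
          funext c; simp only [Pi.add_apply]; ring
        have e2 : n2 + n + 1 = n + 1 + n2 := by omega
        rw [e1, e2] at this
        exact this

/-- Determinism. -/
theorem Run.unique {s : S} {i : ℤ} {T : ℤ → Γ} {l : List S} {κ : ℤ → ℕ} {n : ℕ}
    (h : Run tr acc p s i T l κ n) : ∀ {l' : List S} {κ' : ℤ → ℕ} {n' : ℕ},
    Run tr acc p s i T l' κ' n' → l = l' ∧ κ = κ' ∧ n = n' := by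
  induction h with
  | acc h =>
    intro l' κ' n' h'
    cases h' with
    | acc _ => exact ⟨rfl, rfl, rfl⟩
    | same h2 => exact absurd h h2
    | cross h2 => exact absurd h h2
  | same h ht hs hr ih =>
    intro l' κ' n' h'
    cases h' with
    | acc h2 => exact absurd h2 h
    | same h2 ht2 hs2 hr2 =>
      rw [ht] at ht2
      simp only [Option.some.injEq, Prod.mk.injEq] at ht2
      obtain ⟨rfl, rfl, rfl⟩ := ht2
      obtain ⟨rfl, rfl, rfl⟩ := ih hr2
      exact ⟨rfl, rfl, rfl⟩
    | cross h2 ht2 hs2 hr2 =>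
      rw [ht] at ht2
      simp only [Option.some.injEq, Prod.mk.injEq] at ht2
      obtain ⟨rfl, rfl, rfl⟩ := ht2
      exact absurd hs hs2
  | cross h ht hs hr ih =>
    intro l' κ' n' h'
    cases h' with
    | acc h2 => exact absurd h2 h
    | same h2 ht2 hs2 hr2 =>
      rw [ht] at ht2
      simp only [Option.some.injEq, Prod.mk.injEq] at ht2
      obtain ⟨rfl, rfl, rfl⟩ := ht2
      exact absurd hs2 hs
    | cross h2 ht2 hs2 hr2 =>
      rw [ht] at ht2
      simp only [Option.some.injEq, Prod.mk.injEq] at ht2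
      obtain ⟨rfl, rfl, rfl⟩ := ht2
      obtain ⟨rfl, rfl, rfl⟩ := ih hr2
      exact ⟨rfl, rfl, rfl⟩

/-- Change of the cut. -/
theorem Run.recut {s : S} {i : ℤ} {T : ℤ → Γ} {l : List S} {κ : ℤ → ℕ} {n : ℕ}
    (h : Run tr acc p s i T l κ n) (p' : ℤ) : ∃ l', Run tr acc p' s i T l' κ n := by
  induction h with
  | acc h => exact ⟨[], Run.acc h⟩
  | @same s i T s' γ d l κ n h ht hs hr ih =>
    obtain ⟨l', ih⟩ := ih
    by_cases hc : (i < p' ↔ i + (d : ℤ) < p')
    · exact ⟨_, Run.same h ht hc ih⟩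
    · exact ⟨_, Run.cross h ht hc ih⟩
  | @cross s i T s' γ d l κ n h ht hs hr ih =>
    obtain ⟨l', ih⟩ := ih
    by_cases hc : (i < p' ↔ i + (d : ℤ) < p')
    · exact ⟨_, Run.same h ht hc ih⟩
    · exact ⟨_, Run.cross h ht hc ih⟩

/-- The length of the crossing sequence. -/
theorem Run.length {s : S} {i : ℤ} {T : ℤ → Γ} {l : List S} {κ : ℤ → ℕ} {n : ℕ}
    (h : Run tr acc p s i T l κ n) : l.length = κ p := by
  induction h with
  | acc h => rfl
  | same h ht hs hr ih => simp [cr, hs, ih]
  | cross h ht hs hr ih => simp [cr, hs, ih]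

/-- The total number of crossings is at most the number of steps. -/
theorem Run.total {s : S} {i : ℤ} {T : ℤ → Γ} {l : List S} {κ : ℤ → ℕ} {n : ℕ}
    (h : Run tr acc p s i T l κ n) (F : Finset ℤ) : ∑ c ∈ F, κ c ≤ n := by
  have key : ∀ (i : ℤ) (d : SignType), ∑ c ∈ F, cr i (i + (d : ℤ)) c ≤ 1 := by
    intro i d
    have : ∀ c, cr i (i + (d : ℤ)) c ≤ if c = (if (d : ℤ) = 1 then i + 1 else i) then 1 else 0 := by
      intro c
      unfold cr
      rcases sign_cases d with hd | hd | hd <;> simp only [hd] <;> split_ifs <;> first | omega | contradiction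
    calc ∑ c ∈ F, cr i (i + (d : ℤ)) c
        ≤ ∑ c ∈ F, (if c = (if (d : ℤ) = 1 then i + 1 else i) then 1 else 0) :=
          Finset.sum_le_sum fun c _ => this c
      _ ≤ 1 := by
          rw [Finset.sum_ite_eq']
          split_ifs <;> omega
  induction h with
  | acc h => simp
  | same h ht hs hr ih =>
    simp only [Pi.add_apply, Finset.sum_add_distrib]
    have := key ‹ℤ› ‹SignType›
    omega
  | cross h ht hs hr ih =>
    simp only [Pi.add_apply, Finset.sum_add_distrib]
    have := key ‹ℤ› ‹SignType›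
    omega

/-- The left side does not cross the cuts on the right and vice versa. -/
theorem SRun.far {b : Bool} {s : S} {i : ℤ} {T : ℤ → Γ} {l : List S} {κ : ℤ → ℕ} {n : ℕ}
    (h : SRun tr acc p b s i T l κ n) (hi : Side p b i) (c : ℤ) (hc : if b then p < c else c < p) :
    κ c = 0 := by
  have key : ∀ (i : ℤ) (d : SignType), Side p b i → cr i (i + (d : ℤ)) c = 0 := by
    intro i d hi
    unfold cr
    rcases sign_cases d with hd | hd | hd <;> rw [hd] <;> cases b <;>
      simp [Side] at hi hc ⊢ <;> constructor <;> intro <;> omega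
  induction h with
  | acc h => rfl
  | same h ht hs hr ih => simp only [Pi.add_apply]; rw [ih hs, key _ _ hi]
  | exitEnd h ht hs => exact key _ _ hi
  | exitRe h ht hs hr ih => simp only [Pi.add_apply]; rw [ih (side_ent p b), key _ _ hi]

theorem SWait.far {b : Bool} {T : ℤ → Γ} {l : List S} {κ : ℤ → ℕ} {n : ℕ}
    (h : SWait tr acc p b T l κ n) (c : ℤ) (hc : if b then p < c else c < p) : κ c = 0 := by
  rcases h with ⟨_, hκ, _⟩ | ⟨s, l', _, h⟩
  · rw [hκ]; rfl
  · exact h.far (side_ent p b) c hc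

end Pool.Agent.helper24.OT
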