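import Pool.Agent.helper24.OT.Direct

/-!
# The direct product recursion
-/

namespace Pool.Agent.helper24.OT

open Finset

variable {X Y F : Type} [Fintype X] [Fintype Y] [Fintype F]

/-- the joint weight of a pair -/
def jw (μ : F → ℝ) (P : F → X → ℝ) (Q : F → Y → ℝ) : X × Y → ℝ :=
  fun z => ∑ T, μ T * (P T z.1 * Q T z.2)

/-- The accepted set decomposes, at the cut in region `k`, into at most `N` disjoint rectangles. -/
def HasCut {s : ℕ} (Acc : (Fin s → X × Y) → Prop) (k : Fin s) (N : ℕ) : Prop :=
  ∃ (S : Type) (_ : Fintype S) (PL PR : S → (Fin s → X × Y) → Prop), Fintype.card S ≤ N ∧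
    (∀ i z z', (∀ j, j < k → z j = z' j) → (z k).1 = (z' k).1 → PL i z → PL i z') ∧
    (∀ i z z', (∀ j, k < j → z j = z' j) → (z k).2 = (z' k).2 → PR i z → PR i z') ∧
    (∀ z, Acc z ↔ ∃ i, PL i z ∧ PR i z) ∧
    (∀ z i i', PL i z → PR i z → PL i' z → PR i' z → i = i')

open Classical in
/-- indicator -/
noncomputable def ind {β : Type} (p : β → Prop) (z : β) : ℝ := if p z then 1 else 0

lemma ind_nonneg {β : Type} (p : β → Prop) (z : β) : 0 ≤ ind p z := by
  unfold ind; split_ifs <;> norm_num

lemma ind_le_one {β : Type} (p : β → Prop) (z : β) : ind p z ≤ 1 := by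
  unfold ind; split_ifs <;> norm_num

/-- **Direct product recursion.** -/
theorem dp [Inhabited X] [Inhabited Y] {μ ν : F → ℝ} {P : F → X → ℝ} {Q : F → Y → ℝ}
    {R : X → Y → Prop} {p q L : ℝ} (hpq : p.HolderConjugate q)
    (hν : ∀ T, 0 ≤ ν T) (hν1 : ∑ T, ν T = 1)
    (hP : ∀ T x, 0 ≤ P T x) (hQ : ∀ T y, 0 ≤ Q T y)
    (hP1 : ∀ T, ∑ x, P T x = 1) (hQ1 : ∀ T, ∑ y, Q T y = 1)
    (hL : 0 ≤ L) (h : Cmp μ ν P Q R p L) {s N : ℕ}
    {Acc : (Fin s → X × Y) → Prop} (hAcc : ∀ z, Acc z → ∀ k, R (z k).1 (z k).2) (I : Finset (Fin s)) :
    (∀ k ∈ I, HasCut Acc k N) → ∀ ρ : Fin s → X × Y → ℝ, (∀ k z, 0 ≤ ρ k z) →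
      (∀ k, ∑ z, ρ k z = 1) → (∀ k ∈ I, ρ k = jw μ P Q) →
      EE ρ (ind Acc) ≤ (L * (N : ℝ) ^ (1 / q)) ^ I.card := by
  classical
  induction I using Finset.induction_on with
  | empty =>
    intro _ ρ hρ hρ1 _
    simp only [Finset.card_empty, pow_zero]
    calc EE ρ (ind Acc) ≤ EE ρ (fun _ => 1) := EE_mono hρ fun z => ind_le_one _ _
      _ = 1 := EE_one ρ hρ1
  | insert k I hkI ih =>
    intro hcut ρ hρ hρ1 hρI
    have ih' := ih (fun k' hk' => hcut k' (Finset.mem_insert_of_mem hk'))
    set B : ℝ := (L * (N : ℝ) ^ (1 / q)) ^ I.card with hBdef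
    have hq0 := hpq.symm.pos
    have hB0 : 0 ≤ B := pow_nonneg (mul_nonneg hL (Real.rpow_nonneg (Nat.cast_nonneg _) _)) _
    obtain ⟨S, _, PL, PR, hcard, hPL, hPR, hiff, huniq⟩ := hcut k (Finset.mem_insert_self _ _)
    -- the two families
    set a : S → X → ℝ := fun i x => EE ρ (fun z => ind (PL i) (Function.update z k (x, default))) with ha
    set b : S → Y → ℝ := fun i y => EE ρ (fun z => ind (PR i) (Function.update z k (default, y))) with hb
    have ha0 : ∀ i x, 0 ≤ a i x := fun i x => EE_nonneg hρ fun z => ind_nonneg _ _
    have hb0 : ∀ i y, 0 ≤ b i y := fun i y => EE_nonneg hρ fun z => ind_nonneg _ _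
    have hab : ∀ i x y, a i x * b i y
        = EE ρ (fun z => ind (PL i) (Function.update z k (x, y)) * ind (PR i) (Function.update z k (x, y))) := by
      intro i x y
      have e1 : ∀ z, ind (PL i) (Function.update z k (x, default)) = ind (PL i) (Function.update z k (x, y)) := by
        intro z
        unfold ind
        congr 1
        apply propext
        constructor
        · apply hPL
          · intro j hj; rw [Function.update_of_ne hj.ne, Function.update_of_ne hj.ne]
          · simp
        · apply hPL
          · intro j hj; rw [Function.update_of_ne hj.ne, Function.update_of_ne hj.ne]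
          · simp
      have e2 : ∀ z, ind (PR i) (Function.update z k (default, y)) = ind (PR i) (Function.update z k (x, y)) := by
        intro z
        unfold ind
        congr 1
        apply propext
        constructor
        · apply hPR
          · intro j hj; rw [Function.update_of_ne hj.ne', Function.update_of_ne hj.ne']
          · simp
        · apply hPR
          · intro j hj; rw [Function.update_of_ne hj.ne', Function.update_of_ne hj.ne']
          · simp
      simp only [ha, hb, e1, e2]
      rw [← EE_indep ρ hρ1 (fun j => j < k)]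
      · intro z z' hz
        unfold ind
        congr 1
        apply propext
        constructor
        · apply hPL
          · intro j hj; rw [Function.update_of_ne hj.ne, Function.update_of_ne hj.ne]; exact hz j hj
          · simp
        · apply hPL
          · intro j hj; rw [Function.update_of_ne hj.ne, Function.update_of_ne hj.ne]; exact (hz j hj).symm
          · simp
      · intro z z' hz
        unfold ind
        congr 1
        apply propext
        constructor
        · apply hPR
          · intro j hj; rw [Function.update_of_ne hj.ne', Function.update_of_ne hj.ne']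
            exact hz j (not_lt.mpr hj.le)
          · simp
        · apply hPR
          · intro j hj; rw [Function.update_of_ne hj.ne', Function.update_of_ne hj.ne']
            exact (hz j (not_lt.mpr hj.le)).symm
          · simp
    have hacc : ∀ z, ind Acc z = ∑ i, ind (PL i) z * ind (PR i) z := by
      intro z
      unfold ind
      by_cases hz : Acc z
      · rw [if_pos hz]
        obtain ⟨i, hi1, hi2⟩ := (hiff z).mp hz
        rw [Finset.sum_eq_single i]
        · rw [if_pos hi1, if_pos hi2, one_mul]
        · intro i' _ hi'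
          by_cases h1 : PL i' z
          · by_cases h2 : PR i' z
            · exact absurd (huniq z i' i h1 h2 hi1 hi2) hi'
            · rw [if_neg h2, mul_zero]
          · rw [if_neg h1, zero_mul]
        · intro hi'; exact absurd (Finset.mem_univ _) hi'
      · rw [if_neg hz]
        symm
        refine Finset.sum_eq_zero fun i _ => ?_
        by_cases h1 : PL i z
        · by_cases h2 : PR i z
          · exact absurd ((hiff z).mpr ⟨i, h1, h2⟩) hz
          · rw [if_neg h2, mul_zero]
        · rw [if_neg h1, zero_mul]
    -- expectation after replacing the weight of the region `k`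
    have hupd : ∀ w : X × Y → ℝ, EE (Function.update ρ k w) (ind Acc) = ∑ ζ : X × Y, w ζ * ∑ i, a i ζ.1 * b i ζ.2 := by
      intro w
      rw [EE_update ρ k (hρ1 k)]
      refine Finset.sum_congr rfl fun ζ _ => ?_
      congr 1
      simp_rw [hacc, hab]
      rw [EE_sum]
    have hupdB : ∀ w : X × Y → ℝ, (∀ ζ, 0 ≤ w ζ) → ∑ ζ, w ζ = 1 →
        EE (Function.update ρ k w) (ind Acc) ≤ B := by
      intro w hw hw1
      refine ih' (Function.update ρ k w) ?_ ?_ ?_
      · intro k' z
        by_cases hk' : k' = k
        · subst hk'; simp [hw z]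
        · rw [Function.update_of_ne hk']; exact hρ k' z
      · intro k'
        by_cases hk' : k' = k
        · subst hk'; simp [hw1]
        · rw [Function.update_of_ne hk']; exact hρ1 k'
      · intro k' hk'
        have : k' ≠ k := fun e => hkI (e ▸ hk')
        rw [Function.update_of_ne this]
        exact hρI k' (Finset.mem_insert_of_mem hk')
    have hjw : ∀ κ : F → ℝ, ∑ ζ : X × Y, jw κ P Q ζ * ∑ i, a i ζ.1 * b i ζ.2
        = ∑ i, ∑ T, κ T * (mean (P T) (a i) * mean (Q T) (b i)) := by
      intro κ
      unfold jw mean
      simp only [Finset.sum_mul, Finset.mul_sum]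
      rw [Fintype.sum_prod_type]
      have e1 : ∀ x : X, ∑ y : Y, ∑ i : S, ∑ T : F, κ T * (P T x * Q T y) * (a i x * b i y)
          = ∑ i : S, ∑ T : F, ∑ y : Y, κ T * (P T x * Q T y) * (a i x * b i y) := by
        intro x
        rw [Finset.sum_comm]
        refine Finset.sum_congr rfl fun i _ => ?_
        rw [Finset.sum_comm]
      simp only [e1]
      rw [Finset.sum_comm]
      refine Finset.sum_congr rfl fun i _ => ?_
      rw [Finset.sum_comm]
      refine Finset.sum_congr rfl fun T _ => ?_
      rw [Finset.sum_comm]
      refine Finset.sum_congr rfl fun y _ => Finset.sum_congr rfl fun x _ => by ring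
    -- bound with `ν`
    have hsum : ∑ i, ∑ T, ν T * (mean (P T) (a i) * mean (Q T) (b i)) ≤ B := by
      rw [← hjw ν, ← hupd]
      refine hupdB _ ?_ ?_
      · intro ζ; exact Finset.sum_nonneg fun T _ => mul_nonneg (hν T) (mul_nonneg (hP T _) (hQ T _))
      · unfold jw
        rw [Finset.sum_comm]
        have : ∀ T, ∑ z : X × Y, ν T * (P T z.1 * Q T z.2) = ν T := by
          intro T
          rw [← Finset.mul_sum, Fintype.sum_prod_type]
          have : ∑ x, ∑ y, P T x * Q T y = 1 := by
            rw [← Finset.sum_mul_sum, hP1, hQ1, one_mul]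
          rw [this, mul_one]
        simp only [this, hν1]
    -- pointwise bound
    have hpt : ∀ i x y, a i x * b i y ≤ B := by
      intro i x y
      have h1 : EE (Function.update ρ k (fun ζ => if ζ = (x, y) then (1:ℝ) else 0)) (ind Acc) ≤ B := by
        refine hupdB _ ?_ ?_
        · intro ζ; split_ifs <;> norm_num
        · simp
      rw [hupd] at h1
      have h2 : ∑ ζ : X × Y, (if ζ = (x, y) then (1:ℝ) else 0) * ∑ i, a i ζ.1 * b i ζ.2
          = ∑ i, a i x * b i y := by
        simp
      rw [h2] at h1
      exact (Finset.single_le_sum (f := fun i => a i x * b i y)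
        (fun i _ => mul_nonneg (ha0 i x) (hb0 i y)) (Finset.mem_univ i)).trans h1
    -- rectangles
    have hR : ∀ i x y, 0 < a i x → 0 < b i y → R x y := by
      intro i x y hx hy
      have h1 : 0 < a i x * b i y := mul_pos hx hy
      rw [hab] at h1
      have h2 : ∃ z : Fin s → X × Y, PL i (Function.update z k (x, y)) ∧ PR i (Function.update z k (x, y)) := by
        by_contra hcon
        push Not at hcon
        have : EE ρ (fun z => ind (PL i) (Function.update z k (x, y)) * ind (PR i) (Function.update z k (x, y))) = 0 := by
          unfold EE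
          refine Finset.sum_eq_zero fun z _ => ?_
          have : ind (PL i) (Function.update z k (x, y)) * ind (PR i) (Function.update z k (x, y)) = 0 := by
            unfold ind
            by_cases h1 : PL i (Function.update z k (x, y))
            · rw [if_neg (hcon z h1), mul_zero]
            · rw [if_neg h1, zero_mul]
          exact mul_eq_zero_of_right _ this
        rw [this] at h1
        exact lt_irrefl _ h1
      obtain ⟨z, hz1, hz2⟩ := h2
      have := hAcc _ ((hiff _).mpr ⟨i, hz1, hz2⟩) k
      simpa using this
    have hfam := family (μ := μ) hpq hν hν1 hP hQ hL h a b ha0 hb0 hR hB0 hpt hsum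
    have hself : EE ρ (ind Acc) = ∑ i, ∑ T, μ T * (mean (P T) (a i) * mean (Q T) (b i)) := by
      rw [← hjw μ, ← hupd, ← hρI k (Finset.mem_insert_self _ _), Function.update_eq_self]
    rw [hself, Finset.card_insert_of_notMem hkI, pow_succ']
    refine hfam.trans ?_
    refine mul_le_mul_of_nonneg_right ?_ hB0
    refine mul_le_mul_of_nonneg_left ?_ hL
    exact Real.rpow_le_rpow (Nat.cast_nonneg _) (by exact_mod_cast hcard) (by positivity)

end Pool.Agent.helper24.OT
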