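import Pool.Agent.helper24.OT.Guess
import Pool.Agent.helper24.OT.Direct2

/-!
# The accepted inputs decompose into rectangles at every cut
-/

namespace Pool.Agent.helper24.OT

open Finset

/-- blocks of one side of a region -/
abbrev BX (r m : ℕ) : Type := Fin r → Fin m → Bool

lemma length_flatten_const {α : Type} {c : ℕ} : ∀ l : List (List α), (∀ x ∈ l, x.length = c) →
    l.flatten.length = l.length * c
  | [], _ => by simp
  | x :: l, h => by
    rw [List.flatten_cons, List.length_append, length_flatten_const l (fun y hy => h y (by simp [hy])),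
      h x (by simp), List.length_cons]
    ring

lemma length_part {r m : ℕ} (x : BX r m) : (part x).length = r * (m + 1) := by
  unfold part
  rw [length_flatten_const (c := m + 1)]
  · simp
  · intro y hy
    rw [List.mem_ofFn] at hy
    obtain ⟨i, rfl⟩ := hy
    simp [subw]

lemma length_region {r m : ℕ} (x y : BX r m) : (region x y).length = 3 * (r * (m + 1)) + 1 := by
  unfold region
  simp [length_part]
  ring

variable {s r m : ℕ}

/-- the list of the regions -/
def regs (z : Fin s → BX r m × BX r m) : List (List (Fin 5)) :=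
  List.ofFn fun k => region (z k).1 (z k).2

lemma word_eq (z : Fin s → BX r m × BX r m) : word z = (regs z).flatten := rfl

lemma length_word (z : Fin s → BX r m × BX r m) : (word z).length = s * (3 * (r * (m + 1)) + 1) := by
  rw [word_eq, length_flatten_const (c := 3 * (r * (m + 1)) + 1)]
  · simp [regs]
  · intro y hy
    unfold regs at hy
    rw [List.mem_ofFn] at hy
    obtain ⟨i, rfl⟩ := hy
    exact length_region _ _

/-- the cut with offset `o` in region `j` -/
def cutpos (r m : ℕ) (j o : ℕ) : ℕ := j * (3 * (r * (m + 1)) + 1) + 1 + r * (m + 1) + o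

/-- the part of the word left of the cut -/
def pre (z : Fin s → BX r m × BX r m) (k : Fin s) (o : ℕ) : List (Fin 5) :=
  ((regs z).take k).flatten ++ (3 :: part (z k).1) ++ List.replicate o 4

/-- the part of the word right of the cut -/
def suf (z : Fin s → BX r m × BX r m) (k : Fin s) (o : ℕ) : List (Fin 5) :=
  List.replicate (r * (m + 1) - o) 4 ++ part (z k).2 ++ ((regs z).drop (k + 1)).flatten

lemma word_split (z : Fin s → BX r m × BX r m) (k : Fin s) {o : ℕ} (ho : o ≤ r * (m + 1)) :
    word z = pre z k o ++ suf z k o := by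
  have hk : (k : ℕ) < (regs z).length := by simp [regs]
  have h1 : regs z = (regs z).take k ++ ((regs z)[(k:ℕ)] :: (regs z).drop (k + 1)) := by
    rw [List.getElem_cons_drop, List.take_append_drop]
  have h2 : (regs z)[(k:ℕ)] = region (z k).1 (z k).2 := by simp [regs]
  rw [word_eq]
  conv_lhs => rw [h1, h2]
  rw [List.flatten_append, List.flatten_cons]
  unfold pre suf region
  have h3 : List.replicate (r * (m + 1)) (4 : Fin 5)
      = List.replicate o 4 ++ List.replicate (r * (m + 1) - o) 4 := by
    rw [← List.replicate_add]; congr 1; omega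
  rw [h3]
  simp only [List.append_assoc, List.cons_append]

lemma length_pre (z : Fin s → BX r m × BX r m) (k : Fin s) (o : ℕ) :
    (pre z k o).length = cutpos r m k o := by
  unfold pre cutpos
  have h : ((regs z).take k).flatten.length = k * (3 * (r * (m + 1)) + 1) := by
    rw [length_flatten_const (c := 3 * (r * (m + 1)) + 1)]
    · congr 1
      simp [regs]
    · intro y hy
      have hy' := List.mem_of_mem_take hy
      unfold regs at hy'
      rw [List.mem_ofFn] at hy'
      obtain ⟨i, rfl⟩ := hy'
      exact length_region _ _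
  simp only [List.length_append, List.length_cons, List.length_replicate, h, length_part]
  omega

lemma take_regs {z z' : Fin s → BX r m × BX r m} {k : Fin s} (h : ∀ j, j < k → z j = z' j) :
    (regs z).take k = (regs z').take k := by
  apply List.ext_getElem
  · simp [regs]
  · intro i h1 h2
    simp only [regs, List.getElem_take, List.getElem_ofFn]
    have hi : i < (k : ℕ) := by
      simp only [List.length_take] at h1; omega
    have := h ⟨i, by omega⟩ (Fin.lt_def.mpr hi)
    rw [this]

lemma drop_regs {z z' : Fin s → BX r m × BX r m} {k : Fin s} (h : ∀ j, k < j → z j = z' j) :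
    (regs z).drop (k + 1) = (regs z').drop (k + 1) := by
  apply List.ext_getElem
  · simp [regs]
  · intro i h1 h2
    simp only [regs, List.getElem_drop, List.getElem_ofFn]
    have hi : (k : ℕ) + 1 + i < s := by
      simp only [regs, List.length_drop, List.length_ofFn] at h1; omega
    have := h ⟨k + 1 + i, hi⟩ (Fin.lt_def.mpr (by simp; omega))
    rw [this]

lemma pre_congr {z z' : Fin s → BX r m × BX r m} {k : Fin s} {o : ℕ} (h : ∀ j, j < k → z j = z' j)
    (h' : (z k).1 = (z' k).1) : pre z k o = pre z' k o := by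
  unfold pre; rw [take_regs h, h']

lemma suf_congr {z z' : Fin s → BX r m × BX r m} {k : Fin s} {o : ℕ} (h : ∀ j, k < j → z j = z' j)
    (h' : (z k).2 = (z' k).2) : suf z k o = suf z' k o := by
  unfold suf; rw [drop_regs h, h']

variable (M : NTM (Fin 5)) (g : ℕ)

lemma init_tape (w : List (Fin 5)) (i : ℤ) :
    (M.init w).tape i = if 0 ≤ i then (w[i.toNat]?).elim M.blank M.inp else M.blank := rfl

lemma tape_left {z z' : Fin s → BX r m × BX r m} {k : Fin s} {o : ℕ} (ho : o ≤ r * (m + 1))
    (h : ∀ j, j < k → z j = z' j) (h' : (z k).1 = (z' k).1) (i : ℤ) (hi : i < cutpos r m k o) :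
    (M.init (word z)).tape i = (M.init (word z')).tape i := by
  rw [init_tape, init_tape]
  split_ifs with h0
  · have hi' : i.toNat < (pre z k o).length := by rw [length_pre]; omega
    have hi'' : i.toNat < (pre z' k o).length := by rw [length_pre]; omega
    rw [word_split z k ho, word_split z' k ho, List.getElem?_append_left hi',
      List.getElem?_append_left hi'', pre_congr h h']
  · rfl

lemma tape_right {z z' : Fin s → BX r m × BX r m} {k : Fin s} {o : ℕ} (ho : o ≤ r * (m + 1))
    (h : ∀ j, k < j → z j = z' j) (h' : (z k).2 = (z' k).2) (i : ℤ) (hi : cutpos r m k o ≤ i) :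
    (M.init (word z)).tape i = (M.init (word z')).tape i := by
  rw [init_tape, init_tape]
  split_ifs with h0
  · have hi' : (pre z k o).length ≤ i.toNat := by rw [length_pre]; omega
    have hi'' : (pre z' k o).length ≤ i.toNat := by rw [length_pre]; omega
    rw [word_split z k ho, word_split z' k ho, List.getElem?_append_right hi',
      List.getElem?_append_right hi'', suf_congr h h', length_pre, length_pre]
  · rfl

/-- the initial control state -/
def st0 : St M g := (M.start, ⟨0, Nat.succ_pos g⟩)

/-- accepted following `ω`, with at most `c` crossings of the cut in each region of `J` -/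
def AccP (ω : Fin g → M.Q → M.Γ → Mv M) (J : Finset (Fin s)) (c o : ℕ) (z : Fin s → BX r m × BX r m) : Prop :=
  ∃ l κ n, Run (trw M g ω) accw 0 (st0 M g) 0 (M.init (word z)).tape l κ n ∧
    ∀ j ∈ J, κ (cutpos r m j o) ≤ c

lemma code_inj {S : Type} {c : ℕ} {l l' : List S} (hl : l.length ≤ c) (hl' : l'.length ≤ c)
    (h : (fun i : Fin c => l[i.val]?) = fun i : Fin c => l'[i.val]?) : l = l' := by
  apply List.ext_getElem?
  intro i
  by_cases hi : i < c
  · exact congrFun h ⟨i, hi⟩
  · rw [List.getElem?_eq_none (by omega), List.getElem?_eq_none (by omega)]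

lemma cutpos_lt {j k o : ℕ} (h : j < k) : cutpos r m j o < cutpos r m k o := by
  unfold cutpos
  have : j * (3 * (r * (m + 1)) + 1) < k * (3 * (r * (m + 1)) + 1) :=
    Nat.mul_lt_mul_of_pos_right h (by omega)
  omega

theorem hasCut (ω : Fin g → M.Q → M.Γ → Mv M) (J : Finset (Fin s)) (c o : ℕ) (ho : o ≤ r * (m + 1))
    {k : Fin s} (hk : k ∈ J) :
    HasCut (AccP M g ω J c o : (Fin s → BX r m × BX r m) → Prop) k
      ((Nat.card M.Q * (g + 1) + 1) ^ c) := by
  have := M.finQ
  have : Fintype M.Q := Fintype.ofFinite _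
  obtain ⟨p, hp⟩ : ∃ p : ℤ, p = ((cutpos r m k o : ℕ) : ℤ) := ⟨_, rfl⟩
  have hp0 : Side p true 0 := by
    simp only [Side, hp, if_true]
    unfold cutpos
    push_cast
    positivity
  refine ⟨Fin c → Option (St M g), inferInstance,
    fun v z => ∃ l κ n, (fun i : Fin c => l[i.val]?) = v ∧ l.length ≤ c ∧
      SRun (trw M g ω) accw p true (st0 M g) 0 (M.init (word z)).tape l κ n ∧
      ∀ j ∈ J, j < k → κ (cutpos r m j o) ≤ c,
    fun v z => ∃ l κ n, (fun i : Fin c => l[i.val]?) = v ∧ l.length ≤ c ∧
      SWait (trw M g ω) accw p false (M.init (word z)).tape l κ n ∧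
      ∀ j ∈ J, k < j → κ (cutpos r m j o) ≤ c, ?_, ?_, ?_, ?_, ?_⟩
  · rw [Fintype.card_fun, Fintype.card_fin, Fintype.card_option, Fintype.card_prod, Fintype.card_fin,
      Nat.card_eq_fintype_card]
  · rintro v z z' hz hz1 ⟨l, κ, n, hv, hl, hr, hκ⟩
    refine ⟨l, κ, n, hv, hl, hr.congr hp0 fun i hi => ?_, hκ⟩
    exact tape_left M ho hz hz1 i (by simpa [Side, hp] using hi)
  · rintro v z z' hz hz1 ⟨l, κ, n, hv, hl, hr, hκ⟩
    refine ⟨l, κ, n, hv, hl, hr.congr fun i hi => ?_, hκ⟩
    exact tape_right M ho hz hz1 i (by simpa [Side, hp] using hi)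
  · intro z
    constructor
    · rintro ⟨l0, κ, n, hr0, hκ⟩
      obtain ⟨l, hr⟩ := hr0.recut p
      obtain ⟨κ1, κ2, n1, n2, hκe, hne, h1, h2⟩ := hr.split true hp0
      have hlen : l.length ≤ c := by rw [hr.length, hp]; exact hκ k hk
      refine ⟨fun i : Fin c => l[i.val]?, ⟨l, κ1, n1, rfl, hlen, h1, ?_⟩, ⟨l, κ2, n2, rfl, hlen, h2, ?_⟩⟩
      · intro j hj _
        have := hκ j hj
        rw [hκe] at this
        simp only [Pi.add_apply] at this
        omega
      · intro j hj _
        have := hκ j hj
        rw [hκe] at this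
        simp only [Pi.add_apply] at this
        omega
    · rintro ⟨v, ⟨l, κ1, n1, hv, hl, h1, hκ1⟩, ⟨l', κ2, n2, hv', hl', h2, hκ2⟩⟩
      have hll : l = l' := code_inj hl hl' (hv.trans hv'.symm)
      subst hll
      have hrun := Run.merge (n1 + n2) true (st0 M g) 0 _ _ (M.init (word z)).tape l κ1 κ2 n1 n2 le_rfl
        hp0 h1 h2 (fun _ _ => rfl) (fun _ _ => rfl)
      obtain ⟨l0, hrun0⟩ := hrun.recut 0
      refine ⟨l0, κ1 + κ2, n1 + n2, hrun0, ?_⟩
      intro j hj
      rcases lt_trichotomy j k with hjk | hjk | hjk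
      · have e := SWait.far (p := p) h2 (cutpos r m j o)
          (by simp only [hp, Bool.false_eq_true, if_false]; exact_mod_cast cutpos_lt hjk)
        simp only [Pi.add_apply, e, add_zero]
        exact hκ1 j hj hjk
      · subst hjk
        have := hrun.length
        rw [← hp, ← this]; exact hl
      · have e := SRun.far (p := p) h1 hp0 (cutpos r m j o)
          (by simp only [hp, if_true]; exact_mod_cast cutpos_lt hjk)
        simp only [Pi.add_apply, e, zero_add]
        exact hκ2 j hj hjk
  · rintro z v v' ⟨l, κ1, n1, hv, hl, h1, _⟩ ⟨l', κ2, n2, hv', hl', h2, _⟩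
      ⟨l1, κ3, n3, hv1, hl1, h3, _⟩ ⟨l1', κ4, n4, hv1', hl1', h4, _⟩
    have hll : l = l' := code_inj hl hl' (hv.trans hv'.symm)
    have hll1 : l1 = l1' := code_inj hl1 hl1' (hv1.trans hv1'.symm)
    subst hll; subst hll1
    have hrun := Run.merge (n1 + n2) true (st0 M g) 0 _ _ (M.init (word z)).tape l κ1 κ2 n1 n2 le_rfl
        hp0 h1 h2 (fun _ _ => rfl) (fun _ _ => rfl)
    have hrun' := Run.merge (n3 + n4) true (st0 M g) 0 _ _ (M.init (word z)).tape l1 κ3 κ4 n3 n4 le_rfl
        hp0 h3 h4 (fun _ _ => rfl) (fun _ _ => rfl)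
    obtain ⟨h5, _, _⟩ := hrun.unique hrun'
    rw [← hv, ← hv1, h5]

end Pool.Agent.helper24.OT
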