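import Pool.Agent.helper24.OT.Tensor

/-!
# Family inequality and the direct product recursion over the regions
-/

namespace Pool.Agent.helper24.OT

open Finset

variable {X Y F : Type} [Fintype X] [Fintype Y] [Fintype F]

lemma lpn_mul_le {p q : ℝ} (hpq : p.HolderConjugate q) {w : X → ℝ} {w' : Y → ℝ}
    (hw : ∀ x, 0 ≤ w x) (hw' : ∀ x, 0 ≤ w' x) {a : X → ℝ} {b : Y → ℝ} (ha : ∀ x, 0 ≤ a x)
    (hb : ∀ y, 0 ≤ b y) {B : ℝ} (hB0 : 0 ≤ B) (hB : ∀ x y, a x * b y ≤ B) :
    lpn w p a * lpn w' p b ≤ (mean w a * mean w' b) ^ (1 / p) * B ^ (1 / q) := by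
  have hp0 : 0 < p := hpq.pos
  have hp1 : 1 < p := hpq.lt
  have hsa : 0 ≤ ∑ x, w x * a x ^ p :=
    Finset.sum_nonneg fun x _ => mul_nonneg (hw x) (Real.rpow_nonneg (ha x) _)
  have hsb : 0 ≤ ∑ x, w' x * b x ^ p :=
    Finset.sum_nonneg fun x _ => mul_nonneg (hw' x) (Real.rpow_nonneg (hb x) _)
  have hma := mean_nonneg hw ha
  have hmb := mean_nonneg hw' hb
  unfold lpn
  rw [← Real.mul_rpow hsa hsb]
  have h1 : (∑ x, w x * a x ^ p) * (∑ y, w' y * b y ^ p) ≤ (mean w a * mean w' b) * B ^ (p - 1) := by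
    unfold mean
    rw [Finset.sum_mul_sum, Finset.sum_mul_sum, Finset.sum_mul]
    refine Finset.sum_le_sum fun x _ => ?_
    rw [Finset.sum_mul]
    refine Finset.sum_le_sum fun y _ => ?_
    have e : a x ^ p * b y ^ p ≤ (a x * b y) * B ^ (p - 1) := by
      rw [← Real.mul_rpow (ha x) (hb y)]
      have hab : 0 ≤ a x * b y := mul_nonneg (ha x) (hb y)
      rcases hab.eq_or_lt with h0 | hpos
      · rw [← h0, Real.zero_rpow hp0.ne', zero_mul]
      · have : (a x * b y) ^ p = (a x * b y) * (a x * b y) ^ (p - 1) := by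
          rw [← Real.rpow_one_add' hab (by linarith)]; congr 1; ring
        rw [this]
        refine mul_le_mul_of_nonneg_left ?_ hab
        exact Real.rpow_le_rpow hab (hB x y) (by linarith)
    calc w x * a x ^ p * (w' y * b y ^ p) = (w x * w' y) * (a x ^ p * b y ^ p) := by ring
      _ ≤ (w x * w' y) * ((a x * b y) * B ^ (p - 1)) :=
          mul_le_mul_of_nonneg_left e (mul_nonneg (hw x) (hw' y))
      _ = w x * a x * (w' y * b y) * B ^ (p - 1) := by ring
  calc _ ≤ ((mean w a * mean w' b) * B ^ (p - 1)) ^ (1 / p) :=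
        Real.rpow_le_rpow (mul_nonneg hsa hsb) h1 (by positivity)
    _ = (mean w a * mean w' b) ^ (1 / p) * B ^ (1 / q) := by
        rw [Real.mul_rpow (mul_nonneg hma hmb) (Real.rpow_nonneg hB0 _), ← Real.rpow_mul hB0]
        congr 2
        have := hpq.inv_add_inv_eq_one
        have hq0 := hpq.symm.pos
        field_simp at this ⊢
        linarith

/-- **Family inequality.** -/
theorem family {μ ν : F → ℝ} {P : F → X → ℝ} {Q : F → Y → ℝ} {R : X → Y → Prop} {p q L : ℝ}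
    (hpq : p.HolderConjugate q)
    (hν : ∀ T, 0 ≤ ν T) (hν1 : ∑ T, ν T = 1) (hP : ∀ T x, 0 ≤ P T x) (hQ : ∀ T y, 0 ≤ Q T y)
    (hL : 0 ≤ L) (h : Cmp μ ν P Q R p L) {S : Type} [Fintype S] (a : S → X → ℝ) (b : S → Y → ℝ)
    (ha : ∀ s x, 0 ≤ a s x) (hb : ∀ s y, 0 ≤ b s y)
    (hR : ∀ s x y, 0 < a s x → 0 < b s y → R x y) {B : ℝ} (hB0 : 0 ≤ B)
    (hB : ∀ s x y, a s x * b s y ≤ B)
    (hsum : ∑ s, ∑ T, ν T * (mean (P T) (a s) * mean (Q T) (b s)) ≤ B) :
    ∑ s, ∑ T, μ T * (mean (P T) (a s) * mean (Q T) (b s))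
      ≤ L * (Fintype.card S : ℝ) ^ (1 / q) * B := by
  have hp0 : 0 < p := hpq.pos
  have hq0 := hpq.symm.pos
  have h1 : ∑ s, ∑ T, μ T * (mean (P T) (a s) * mean (Q T) (b s))
      ≤ ∑ s, L * ∑ T, ν T * (lpn (P T) p (a s) * lpn (Q T) p (b s)) :=
    Finset.sum_le_sum fun s _ => h (a s) (b s) (ha s) (hb s) (hR s)
  have h2 : ∑ s, ∑ T, ν T * (lpn (P T) p (a s) * lpn (Q T) p (b s))
      ≤ ∑ s, ∑ T, ν T * ((mean (P T) (a s) * mean (Q T) (b s)) ^ (1 / p) * B ^ (1 / q)) :=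
    Finset.sum_le_sum fun s _ => Finset.sum_le_sum fun T _ =>
      mul_le_mul_of_nonneg_left (lpn_mul_le hpq (hP T) (hQ T) (ha s) (hb s) hB0 (hB s)) (hν T)
  set m : S × F → ℝ := fun z => mean (P z.2) (a z.1) * mean (Q z.2) (b z.1) with hm
  have hmn : ∀ z, 0 ≤ m z := fun z => mul_nonneg (mean_nonneg (hP _) (ha _)) (mean_nonneg (hQ _) (hb _))
  have h3 : ∑ z : S × F, ν z.2 * m z ^ (1 / p)
      ≤ (∑ z : S × F, ν z.2 * m z) ^ (1 / p) * (∑ z : S × F, ν z.2) ^ (1 / q) := by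
    have hh := Real.inner_le_Lp_mul_Lq_of_nonneg (s := (Finset.univ : Finset (S × F))) hpq
      (f := fun z => (ν z.2 * m z) ^ (1 / p)) (g := fun z => ν z.2 ^ (1 / q))
      (fun z _ => Real.rpow_nonneg (mul_nonneg (hν _) (hmn z)) _)
      (fun z _ => Real.rpow_nonneg (hν _) _)
    have e1 : ∀ z : S × F, (ν z.2 * m z) ^ (1 / p) * ν z.2 ^ (1 / q) = ν z.2 * m z ^ (1 / p) := by
      intro z
      rw [Real.mul_rpow (hν _) (hmn z)]
      have : ν z.2 ^ (1 / p) * ν z.2 ^ (1 / q) = ν z.2 := by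
        rw [← Real.rpow_add_of_nonneg (hν _) (by positivity) (by positivity)]
        have := hpq.inv_add_inv_eq_one
        rw [one_div, one_div, this, Real.rpow_one]
      calc ν z.2 ^ (1 / p) * m z ^ (1 / p) * ν z.2 ^ (1 / q)
          = (ν z.2 ^ (1 / p) * ν z.2 ^ (1 / q)) * m z ^ (1 / p) := by ring
        _ = _ := by rw [this]
    have e2 : ∀ z : S × F, ((ν z.2 * m z) ^ (1 / p)) ^ p = ν z.2 * m z := by
      intro z
      rw [← Real.rpow_mul (mul_nonneg (hν _) (hmn z)), one_div_mul_cancel hp0.ne', Real.rpow_one]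
    have e3 : ∀ z : S × F, (ν z.2 ^ (1 / q)) ^ q = ν z.2 := by
      intro z
      rw [← Real.rpow_mul (hν _), one_div_mul_cancel hq0.ne', Real.rpow_one]
    simpa only [e1, e2, e3] using hh
  have h4 : ∑ z : S × F, ν z.2 = Fintype.card S := by
    rw [Fintype.sum_prod_type]; simp [hν1]
  have h5 : ∑ z : S × F, ν z.2 * m z ≤ B := by
    rw [Fintype.sum_prod_type]; exact hsum
  have h6 : 0 ≤ ∑ z : S × F, ν z.2 * m z := Finset.sum_nonneg fun z _ => mul_nonneg (hν _) (hmn z)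
  have h7 : ∑ s, ∑ T, ν T * ((mean (P T) (a s) * mean (Q T) (b s)) ^ (1 / p) * B ^ (1 / q))
      = (∑ z : S × F, ν z.2 * m z ^ (1 / p)) * B ^ (1 / q) := by
    rw [Fintype.sum_prod_type, Finset.sum_mul]
    refine Finset.sum_congr rfl fun s _ => ?_
    rw [Finset.sum_mul]
    refine Finset.sum_congr rfl fun T _ => by simp only [hm]; ring
  have h8 : B ^ (1 / p) * B ^ (1 / q) = B := by
    rw [← Real.rpow_add_of_nonneg hB0 (by positivity) (by positivity)]
    have := hpq.inv_add_inv_eq_one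
    rw [one_div, one_div, this, Real.rpow_one]
  calc _ ≤ _ := h1
    _ = L * ∑ s, ∑ T, ν T * (lpn (P T) p (a s) * lpn (Q T) p (b s)) := by rw [Finset.mul_sum]
    _ ≤ L * (((∑ z : S × F, ν z.2 * m z) ^ (1 / p) * (∑ z : S × F, ν z.2) ^ (1 / q)) * B ^ (1 / q)) := by
        refine mul_le_mul_of_nonneg_left (h2.trans ?_) hL
        rw [h7]
        exact mul_le_mul_of_nonneg_right h3 (Real.rpow_nonneg hB0 _)
    _ ≤ L * ((B ^ (1 / p) * (Fintype.card S : ℝ) ^ (1 / q)) * B ^ (1 / q)) := by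
        rw [h4]
        have h9 : (∑ z : S × F, ν z.2 * m z) ^ (1 / p) ≤ B ^ (1 / p) :=
          Real.rpow_le_rpow h6 h5 (by positivity)
        refine mul_le_mul_of_nonneg_left ?_ hL
        refine mul_le_mul_of_nonneg_right ?_ (Real.rpow_nonneg hB0 _)
        exact mul_le_mul_of_nonneg_right h9 (Real.rpow_nonneg (Nat.cast_nonneg _) _)
    _ = L * (Fintype.card S : ℝ) ^ (1 / q) * B := by
        calc _ = L * (Fintype.card S : ℝ) ^ (1 / q) * (B ^ (1 / p) * B ^ (1 / q)) := by ring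
          _ = _ := by rw [h8]

/-! ### Expectations over products -/

variable {s : ℕ} {Z : Type} [Fintype Z]

/-- expectation with respect to the product of the weights `ρ k` -/
def EE (ρ : Fin s → Z → ℝ) (f : (Fin s → Z) → ℝ) : ℝ := ∑ z, (∏ k, ρ k (z k)) * f z

lemma EE_one (ρ : Fin s → Z → ℝ) (h : ∀ k, ∑ z, ρ k z = 1) : EE ρ (fun _ => 1) = 1 := by
  unfold EE
  simp only [mul_one]
  have := (Finset.prod_univ_sum (fun _ : Fin s => (Finset.univ : Finset Z)) (fun k z => ρ k z)).symm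
  simp only [Fintype.piFinset_univ] at this
  rw [this]; simp [h]

lemma EE_mono {ρ : Fin s → Z → ℝ} (hρ : ∀ k z, 0 ≤ ρ k z) {f g : (Fin s → Z) → ℝ}
    (h : ∀ z, f z ≤ g z) : EE ρ f ≤ EE ρ g :=
  Finset.sum_le_sum fun z _ => mul_le_mul_of_nonneg_left (h z) (Finset.prod_nonneg fun _ _ => hρ _ _)

lemma EE_nonneg {ρ : Fin s → Z → ℝ} (hρ : ∀ k z, 0 ≤ ρ k z) {f : (Fin s → Z) → ℝ}
    (h : ∀ z, 0 ≤ f z) : 0 ≤ EE ρ f :=
  Finset.sum_nonneg fun z _ => mul_nonneg (Finset.prod_nonneg fun _ _ => hρ _ _) (h z)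

lemma EE_sum {S : Type} [Fintype S] (ρ : Fin s → Z → ℝ) (f : S → (Fin s → Z) → ℝ) :
    EE ρ (fun z => ∑ i, f i z) = ∑ i, EE ρ (f i) := by
  unfold EE
  simp only [Finset.mul_sum]
  rw [Finset.sum_comm]

lemma EE_indep (ρ : Fin s → Z → ℝ) (h1 : ∀ k, ∑ z, ρ k z = 1) (A : Fin s → Prop)
    {f h : (Fin s → Z) → ℝ} (hf : ∀ z z', (∀ k, A k → z k = z' k) → f z = f z')
    (hh : ∀ z z', (∀ k, ¬ A k → z k = z' k) → h z = h z') :
    EE ρ (fun z => f z * h z) = EE ρ f * EE ρ h := by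
  classical
  let mix : (Fin s → Z) × (Fin s → Z) → (Fin s → Z) × (Fin s → Z) := fun w =>
    (fun k => if A k then w.1 k else w.2 k, fun k => if A k then w.2 k else w.1 k)
  have hmix : Function.Involutive mix := by
    intro w
    ext k <;> by_cases hk : A k <;> simp [mix, hk]
  let e : (Fin s → Z) × (Fin s → Z) ≃ (Fin s → Z) × (Fin s → Z) := hmix.toPerm
  have hone := EE_one ρ h1
  have r1 : EE ρ f * EE ρ h = ∑ w : (Fin s → Z) × (Fin s → Z),
      ((∏ k, ρ k (w.1 k)) * (∏ k, ρ k (w.2 k))) * (f w.1 * h w.2) := by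
    unfold EE
    rw [Finset.sum_mul_sum, Fintype.sum_prod_type]
    refine Finset.sum_congr rfl fun z _ => Finset.sum_congr rfl fun z' _ => by ring
  have r2 : EE ρ (fun z => f z * h z) = ∑ w : (Fin s → Z) × (Fin s → Z),
      ((∏ k, ρ k (w.1 k)) * (∏ k, ρ k (w.2 k))) * (f w.1 * h w.1) := by
    calc EE ρ (fun z => f z * h z) = EE ρ (fun z => f z * h z) * EE ρ (fun _ => 1) := by
          rw [hone, mul_one]
      _ = _ := by
          unfold EE
          rw [Finset.sum_mul_sum, Fintype.sum_prod_type]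
          refine Finset.sum_congr rfl fun z _ => Finset.sum_congr rfl fun z' _ => by ring
  rw [r1, r2, ← Equiv.sum_comp e (fun w => ((∏ k, ρ k (w.1 k)) * (∏ k, ρ k (w.2 k))) * (f w.1 * h w.1))]
  refine Finset.sum_congr rfl fun w _ => ?_
  have e1 : (∏ k, ρ k ((e w).1 k)) * (∏ k, ρ k ((e w).2 k))
      = (∏ k, ρ k (w.1 k)) * (∏ k, ρ k (w.2 k)) := by
    rw [← Finset.prod_mul_distrib, ← Finset.prod_mul_distrib]
    refine Finset.prod_congr rfl fun k _ => ?_
    change ρ k (if A k then w.1 k else w.2 k) * ρ k (if A k then w.2 k else w.1 k) = _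
    split_ifs
    · rfl
    · ring
  have e2 : f ((e w).1) = f w.1 := hf _ _ fun k hk => by
    change (if A k then w.1 k else w.2 k) = w.1 k
    rw [if_pos hk]
  have e3 : h ((e w).1) = h w.2 := hh _ _ fun k hk => by
    change (if A k then w.1 k else w.2 k) = w.2 k
    rw [if_neg hk]
  rw [e1, e2, e3]

lemma EE_update (ρ : Fin s → Z → ℝ) (k : Fin s) (hk : ∑ z, ρ k z = 1) (w : Z → ℝ)
    (f : (Fin s → Z) → ℝ) :
    EE (Function.update ρ k w) f = ∑ ζ, w ζ * EE ρ (fun z => f (Function.update z k ζ)) := by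
  classical
  let sw : (Fin s → Z) × Z → (Fin s → Z) × Z := fun v => (Function.update v.1 k v.2, v.1 k)
  have hsw : Function.Involutive sw := by
    intro v
    simp only [sw]
    ext
    · simp
    · simp
  let e : (Fin s → Z) × Z ≃ (Fin s → Z) × Z := hsw.toPerm
  have r1 : ∑ ζ, w ζ * EE ρ (fun z => f (Function.update z k ζ))
      = ∑ v : (Fin s → Z) × Z, (∏ i, ρ i (v.1 i)) * w v.2 * f (Function.update v.1 k v.2) := by
    unfold EE
    rw [Fintype.sum_prod_type, Finset.sum_comm]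
    refine Finset.sum_congr rfl fun ζ _ => ?_
    rw [Finset.mul_sum]
    refine Finset.sum_congr rfl fun z _ => by ring
  have r2 : EE (Function.update ρ k w) f
      = ∑ v : (Fin s → Z) × Z, (∏ i, Function.update ρ k w i (v.1 i)) * ρ k v.2 * f v.1 := by
    unfold EE
    rw [Fintype.sum_prod_type]
    refine Finset.sum_congr rfl fun z _ => ?_
    have : ∑ y, (∏ i, Function.update ρ k w i (z i)) * ρ k y * f z
        = (∏ i, Function.update ρ k w i (z i)) * f z * ∑ y, ρ k y := by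
      rw [Finset.mul_sum]
      exact Finset.sum_congr rfl fun y _ => by ring
    exact (this.trans (by rw [hk, mul_one])).symm
  rw [r1, r2, ← Equiv.sum_comp e (fun v : (Fin s → Z) × Z =>
    (∏ i, Function.update ρ k w i (v.1 i)) * ρ k v.2 * f v.1)]
  refine Finset.sum_congr rfl fun v _ => ?_
  have e1 : (∏ i, Function.update ρ k w i ((e v).1 i)) * ρ k (e v).2 = (∏ i, ρ i (v.1 i)) * w v.2 := by
    change (∏ i, Function.update ρ k w i (Function.update v.1 k v.2 i)) * ρ k (v.1 k) = _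
    rw [Fintype.prod_eq_mul_prod_compl k, Fintype.prod_eq_mul_prod_compl k (fun i => ρ i (v.1 i))]
    simp only [Function.update_self]
    have : ∏ i ∈ {k}ᶜ, Function.update ρ k w i (Function.update v.1 k v.2 i)
        = ∏ i ∈ {k}ᶜ, ρ i (v.1 i) := by
      refine Finset.prod_congr rfl fun i hi => ?_
      have hik : i ≠ k := by simpa using hi
      rw [Function.update_of_ne hik, Function.update_of_ne hik]
    rw [this]; ring
  have e2 : f ((e v).1) = f (Function.update v.1 k v.2) := rfl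
  rw [e1, e2]

end Pool.Agent.helper24.OT
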