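import Pool.Agent.helper24.OT.Regm

/-!
# Deterministic stretches of register machines
-/

namespace Pool.Agent.helper24.OT

namespace RM

variable {A : Type} (M : RM A)

/-- what is required after the decision -/
def Nx (w : List A) (m : ℕ) : Verd M.Q → ℤ → (Fin 5 → ℕ) → ℕ → ℕ → ℕ → Prop
  | .acc, _, _, _, k, g => k = 1 ∧ g = 0
  | .rej, _, _, _, _, _ => False
  | .cont q gr d, i, v, e, k, g => ∃ k', k = k' + 1 ∧
      M.RA w m q (i + (d : ℤ)) v (if gr then e + 1 else e) k' g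

theorem opv_det {o : Op} (hd : Det o) {v : Fin 5 → ℕ} {e g : ℕ} {f : Bool} {v' : Fin 5 → ℕ} :
    M.OpV o v e g f v' ↔ g = 0 ∧ (f, v') = M.opf o v e := by
  cases o with
  | guess r => exact absurd rfl (hd r)
  | nop => rfl
  | inc r => rfl
  | reset r => rfl
  | eq r r' => rfl

theorem ra_le {w : List A} {m : ℕ} {q : M.Q} {i : ℤ} {v : Fin 5 → ℕ} {e k g : ℕ}
    (h : M.RA w m q i v e k g) : e ≤ m := by
  cases h with
  | last hm => exact hm
  | more hm => exact hm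

theorem ra_iff_det {w : List A} {m : ℕ} {q : M.Q} {i : ℤ} {v : Fin 5 → ℕ} {e k g : ℕ}
    (hd : Det (M.op q)) : M.RA w m q i v e k g ↔ e ≤ m ∧
      M.Nx w m (M.ctl q (M.opf (M.op q) v e).1 (MTM.read w i)) i (M.opf (M.op q) v e).2 e k g := by
  constructor
  · intro h
    refine ⟨M.ra_le h, ?_⟩
    cases h with
    | @last _ _ _ _ _ f v' hm h hf =>
      obtain ⟨h1, h2⟩ := (M.opv_det hd).mp h
      rw [← h2, hf]
      exact ⟨rfl, h1⟩
    | @more _ q' _ _ _ g1 f gr v' d k g' hm h hf h' =>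
      obtain ⟨h1, h2⟩ := (M.opv_det hd).mp h
      rw [← h2, hf]
      refine ⟨k, rfl, ?_⟩
      rw [h1, zero_add]
      exact h'
  · rintro ⟨hm, h⟩
    obtain ⟨f, v', ho⟩ : ∃ f v', M.opf (M.op q) v e = (f, v') := ⟨_, _, rfl⟩
    rw [ho] at h
    cases hc : M.ctl q f (MTM.read w i) with
    | acc =>
      rw [hc] at h
      obtain ⟨rfl, rfl⟩ := h
      exact RA.last hm ((M.opv_det hd).mpr ⟨rfl, ho.symm⟩) hc
    | rej =>
      rw [hc] at h
      exact h.elim
    | cont q' gr d =>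
      rw [hc] at h
      obtain ⟨k', rfl, h'⟩ := h
      have := RA.more hm ((M.opv_det hd).mpr ⟨rfl, ho.symm⟩) hc h'
      rwa [zero_add] at this

/-- deterministic computations of the register machine -/
inductive DR (w : List A) : M.Q → ℤ → (Fin 5 → ℕ) → ℕ → ℕ → M.Q → ℤ → (Fin 5 → ℕ) → ℕ → Prop
  | refl (q : M.Q) (i : ℤ) (v : Fin 5 → ℕ) (e : ℕ) : DR w q i v e 0 q i v e
  | step {q q' q'' : M.Q} {i i' i'' : ℤ} {v v' v'' : Fin 5 → ℕ} {e e' e'' k : ℕ} {f gr : Bool}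
      {d : SignType} (hd : Det (M.op q)) (ho : M.opf (M.op q) v e = (f, v'))
      (hc : M.ctl q f (MTM.read w i) = .cont q' gr d) (hi : i' = i + (d : ℤ))
      (he : e' = if gr then e + 1 else e) (h : DR w q' i' v' e' k q'' i'' v'' e'') :
      DR w q i v e (k + 1) q'' i'' v'' e''

variable {M}

theorem DR.trans {w : List A} {q q' q'' : M.Q} {i i' i'' : ℤ} {v v' v'' : Fin 5 → ℕ}
    {e e' e'' k k' : ℕ} (h : M.DR w q i v e k q' i' v' e') (h' : M.DR w q' i' v' e' k' q'' i'' v'' e'') :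
    M.DR w q i v e (k + k') q'' i'' v'' e'' := by
  induction h with
  | refl q i v e => rw [zero_add]; exact h'
  | step hd ho hc hi he h ih =>
    have h1 := DR.step hd ho hc hi he (ih h')
    have e1 : ∀ a b : ℕ, a + b + 1 = a + 1 + b := by intros; omega
    rw [e1] at h1
    exact h1

theorem DR.le {w : List A} {q q' : M.Q} {i i' : ℤ} {v v' : Fin 5 → ℕ}
    {e e' k : ℕ} (h : M.DR w q i v e k q' i' v' e') : e ≤ e' := by
  induction h with
  | refl q i v e => exact le_rfl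
  | step hd ho hc hi he h ih =>
    rw [he] at ih
    split_ifs at ih <;> omega

theorem DR.ra {w : List A} {m : ℕ} {q q' : M.Q} {i i' : ℤ} {v v' : Fin 5 → ℕ}
    {e e' n k g : ℕ} (h : M.DR w q i v e n q' i' v' e') (h' : M.RA w m q' i' v' e' k g) :
    M.RA w m q i v e (k + n) g := by
  have hle := M.ra_le h'
  induction h with
  | refl q i v e => exact h'
  | @step q q' q'' i i' i'' v v' v'' e e' e'' n f gr d hd ho hc hi he h ih =>
    rw [M.ra_iff_det hd]
    have h0 : M.DR w q i v e (n + 1) q'' i'' v'' e'' := DR.step hd ho hc hi he h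
    refine ⟨h0.le.trans hle, ?_⟩
    rw [ho]
    simp only [hc]
    refine ⟨k + n, rfl, ?_⟩
    rw [← hi, ← he]
    exact ih h' hle

theorem DR.inv {w : List A} {m : ℕ} {q q' : M.Q} {i i' : ℤ} {v v' : Fin 5 → ℕ}
    {e e' n k g : ℕ} (h : M.DR w q i v e n q' i' v' e') (h' : M.RA w m q i v e k g) :
    ∃ k', k = k' + n ∧ M.RA w m q' i' v' e' k' g := by
  induction h generalizing k with
  | refl q i v e => exact ⟨k, rfl, h'⟩
  | @step q q' q'' i i' i'' v v' v'' e e' e'' n f gr d hd ho hc hi he h ih =>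
    rw [M.ra_iff_det hd] at h'
    obtain ⟨hm, h'⟩ := h'
    rw [ho] at h'
    simp only [hc] at h'
    obtain ⟨k1, rfl, h1⟩ := h'
    rw [← hi, ← he] at h1
    obtain ⟨k2, rfl, h2⟩ := ih h1
    exact ⟨k2, by omega, h2⟩

theorem ra_guess_inv {w : List A} {m : ℕ} {q q' : M.Q} {i : ℤ} {v : Fin 5 → ℕ} {e k g : ℕ}
    {r : Fin 5} {d : SignType} (ho : M.op q = .guess r)
    (hc : ∀ f, M.ctl q f (MTM.read w i) = .cont q' false d)
    (hr : M.RA w m q i v e k g) : ∃ k' g' x, x < M.b r ^ e ∧ k = k' + 1 ∧ g = e + g' ∧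
      M.RA w m q' (i + (d : ℤ)) (Function.update v r x) e k' g' := by
  cases hr with
  | @last _ _ _ _ _ f v' hm h1 hf =>
    rw [hc] at hf
    cases hf
  | @more _ q' _ _ _ g1 f gr v' d k g' hm h1 hf h' =>
    rw [hc] at hf
    cases hf
    rw [ho] at h1
    obtain ⟨rfl, rfl, x, hx, rfl⟩ := h1
    exact ⟨k, g', x, hx, rfl, rfl, by simpa using h'⟩

theorem ra_guess {w : List A} {m : ℕ} {q q' : M.Q} {i : ℤ} {v : Fin 5 → ℕ} {e k g : ℕ}
    {r : Fin 5} {d : SignType} (ho : M.op q = .guess r)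
    (hc : ∀ f, M.ctl q f (MTM.read w i) = .cont q' false d) {x : ℕ} (hx : x < M.b r ^ e)
    (hr : M.RA w m q' (i + (d : ℤ)) (Function.update v r x) e k g) :
    M.RA w m q i v e (k + 1) (e + g) := by
  refine RA.more (q' := q') (gr := false) (d := d) (f := true)
    (v' := Function.update v r x) (M.ra_le hr) ?_ (hc true) (by simpa using hr)
  rw [ho]
  exact ⟨rfl, rfl, x, hx, rfl⟩

theorem ra_rej {w : List A} {m : ℕ} {q : M.Q} {i : ℤ} {v v' : Fin 5 → ℕ} {e k g : ℕ} {f : Bool}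
    (hd : Det (M.op q)) (ho : M.opf (M.op q) v e = (f, v')) (hc : M.ctl q f (MTM.read w i) = .rej)
    (hr : M.RA w m q i v e k g) : False := by
  obtain ⟨_, h⟩ := (M.ra_iff_det hd).mp hr
  rw [ho] at h
  simp only [hc] at h
  exact h

theorem ra_acc {w : List A} {m : ℕ} {q : M.Q} {i : ℤ} {v v' : Fin 5 → ℕ} {e k g : ℕ} {f : Bool}
    (hd : Det (M.op q)) (ho : M.opf (M.op q) v e = (f, v')) (hc : M.ctl q f (MTM.read w i) = .acc)
    (hr : M.RA w m q i v e k g) : k = 1 ∧ g = 0 := by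
  obtain ⟨_, h⟩ := (M.ra_iff_det hd).mp hr
  rw [ho] at h
  simp only [hc] at h
  exact h

theorem ra_of_acc {w : List A} {m : ℕ} {q : M.Q} {i : ℤ} {v v' : Fin 5 → ℕ} {e : ℕ} {f : Bool}
    (hd : Det (M.op q)) (ho : M.opf (M.op q) v e = (f, v')) (hc : M.ctl q f (MTM.read w i) = .acc)
    (hm : e ≤ m) : M.RA w m q i v e 1 0 := by
  rw [M.ra_iff_det hd]
  refine ⟨hm, ?_⟩
  rw [ho]
  simp only [hc]
  exact ⟨rfl, rfl⟩

theorem ra_rebase {w : List A} {P : M.Q → Prop}
    (hP : ∀ q f σ q' gr d, P q → M.ctl q f σ = .cont q' gr d → gr = false ∧ P q')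
    {m : ℕ} {q : M.Q} {i : ℤ} {v : Fin 5 → ℕ} {e k g : ℕ}
    (h : M.RA w m q i v e k g) (hq : P q) : M.RA w e q i v e k g := by
  induction h with
  | last hm h hf => exact RM.RA.last le_rfl h hf
  | @more q q' i v e g f gr v' d k g' hm h hf h' ih =>
    obtain ⟨rfl, hq'⟩ := hP q f _ q' gr d hq hf
    exact RM.RA.more le_rfl h hf (ih hq')

end RM

end Pool.Agent.helper24.OT
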