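import Pool.Agent.helper24.OT.Asym

/-!
# The hierarchy theorem, from the explicit machine
-/

namespace Pool.Agent.helper24.OT

open Finset Filter

lemma pow_le_of {N k e : ℕ} {y : ℝ} (hN : 0 < N) (hy : 1 ≤ y) (h : ((2:ℝ) ^ N) ^ (e - 1) ≤ y) :
    ((2:ℝ) ^ k) ^ e ≤ 2 ^ k * y ^ ((k:ℝ) / N) := by
  rcases Nat.eq_zero_or_pos e with he | he
  · subst he
    rw [pow_zero]
    have h1 : (1:ℝ) ≤ 2 ^ k := one_le_pow₀ (by norm_num)
    have h2 : (1:ℝ) ≤ y ^ ((k:ℝ) / N) := Real.one_le_rpow hy (by positivity)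
    nlinarith
  · obtain ⟨e', rfl⟩ := Nat.exists_eq_add_of_le' he
    rw [Nat.add_sub_cancel, ← pow_mul] at h
    rw [pow_succ', ← pow_mul, pow_eq_rpow hN]
    refine mul_le_mul_of_nonneg_left ?_ (by positivity)
    exact Real.rpow_le_rpow (by positivity) h (by positivity)

/-- The upper bound for the explicit machine. -/
theorem mem_upper {M : NTM (Fin 5)} {N u v : ℕ} (hN : 0 < N) {σ b : ℝ}
    (h1 : (u:ℝ) + v + 2 < b * N) (h2 : (u:ℝ) + 1 < (σ - 1) * N)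
    (hM : ∀ w T G, M.AcceptsIn w T G → ∃ T' G' e S R : ℕ, M.AcceptsIn w T' G' ∧
      S ≤ (2 ^ (v + 1)) ^ e ∧ R ≤ (2 ^ (u + 1)) ^ e ∧ (2 ^ N) ^ (e - 1) ≤ w.length + 1 ∧
      T' ≤ (2 * w.length + 2) * (e + (R + 2) * (Nat.log 2 (w.length + 2) + 3) + 3) ∧
      G' ≤ S * (R + 2) * (Nat.log 2 (w.length + 2) + 3)) :
    {w | ∃ T G, M.AcceptsIn w T G} ∈ ND (Fin 5) σ b := by
  have hNr : (0:ℝ) < N := by exact_mod_cast hN
  have hcu : (((u + 1 : ℕ) : ℝ)) / N < σ - 1 := by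
    rw [div_lt_iff₀ hNr]; push_cast; exact h2
  have hcb : (((v + 1 : ℕ) : ℝ)) / N + (((u + 1 : ℕ) : ℝ)) / N < b := by
    rw [← add_div, div_lt_iff₀ hNr]; push_cast; linarith
  obtain ⟨δ, hδ⟩ : ∃ δ, δ = min (σ - 1 - (((u + 1 : ℕ) : ℝ)) / N)
    (b - ((((v + 1 : ℕ) : ℝ)) / N + (((u + 1 : ℕ) : ℝ)) / N)) := ⟨_, rfl⟩
  have hδ0 : 0 < δ := by rw [hδ]; exact lt_min (by linarith) (by linarith)
  have hδ1 : δ ≤ σ - 1 - (((u + 1 : ℕ) : ℝ)) / N := by rw [hδ]; exact min_le_left _ _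
  have hδ2 : δ ≤ b - ((((v + 1 : ℕ) : ℝ)) / N + (((u + 1 : ℕ) : ℝ)) / N) := by
    rw [hδ]; exact min_le_right _ _
  obtain ⟨K1, hK1⟩ : ∃ K1 : ℝ, K1 = 2 ^ δ / δ / Real.log 2 + 4 := ⟨_, rfl⟩
  have hlog2 : 0 < Real.log 2 := Real.log_pos (by norm_num)
  have hK10 : 0 < K1 := by rw [hK1]; positivity
  refine ⟨2 * 2 ^ (v + 1) * (2 ^ (u + 1) + 3) * K1, M, fun w T G h => ⟨T, G, h⟩, ?_⟩
  rintro w ⟨T, G, hTG⟩
  obtain ⟨T', G', e, S, R, hacc, hS, hR, he, hT', hG'⟩ := hM w T G hTG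
  refine ⟨T', G', hacc, ?_, ?_⟩
  all_goals
    obtain ⟨y, hy⟩ : ∃ y : ℝ, y = (w.length : ℝ) + 1 := ⟨_, rfl⟩
    have hy1 : 1 ≤ y := by rw [hy]; have : (0:ℝ) ≤ w.length := by positivity
                           linarith
    have hy0 : 0 < y := by linarith
    obtain ⟨l, hl⟩ : ∃ l, l = Nat.log 2 (w.length + 2) := ⟨_, rfl⟩
    have hA : (l:ℝ) + 4 ≤ K1 * y ^ δ := by
      have h3 : 2 ^ l ≤ w.length + 2 := by rw [hl]; exact Nat.pow_log_le_self 2 (by omega)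
      have h4 : (2:ℝ) ^ l ≤ 2 * y := by
        have : ((2 ^ l : ℕ) : ℝ) ≤ ((w.length + 2 : ℕ) : ℝ) := by exact_mod_cast h3
        push_cast at this
        rw [hy]
        have : (0:ℝ) ≤ w.length := by positivity
        linarith
      have h5 : (l:ℝ) * Real.log 2 ≤ (2 * y) ^ δ / δ := by
        have h6 := Real.log_le_log (by positivity) h4
        rw [Real.log_pow] at h6
        exact h6.trans (Real.log_le_rpow_div (by positivity) hδ0)
      rw [Real.mul_rpow (by norm_num) hy0.le] at h5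
      have h7 : (l:ℝ) ≤ 2 ^ δ / δ / Real.log 2 * y ^ δ := by
        rw [div_mul_eq_mul_div, le_div_iff₀ hlog2]
        calc _ ≤ _ := h5
          _ = _ := by ring
      have h8 : 1 ≤ y ^ δ := Real.one_le_rpow hy1 hδ0.le
      rw [hK1, add_mul]
      linarith
    have hB : (e:ℝ) ≤ l + 1 := by
      have h3 : e - 1 ≤ l := by
        rw [hl]
        apply Nat.le_log_of_pow_le (by norm_num)
        calc 2 ^ (e - 1) ≤ (2 ^ N) ^ (e - 1) :=
              Nat.pow_le_pow_left (Nat.le_self_pow hN.ne' 2) _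
          _ ≤ w.length + 2 := by omega
      have : e ≤ l + 1 := by omega
      exact_mod_cast this
    have hey : ((2:ℝ) ^ N) ^ (e - 1) ≤ y := by
      have : (((2 ^ N) ^ (e - 1) : ℕ) : ℝ) ≤ ((w.length + 1 : ℕ) : ℝ) := by exact_mod_cast he
      push_cast at this
      rw [hy]; exact this
    have hRy : (R:ℝ) ≤ 2 ^ (u + 1) * y ^ ((((u + 1 : ℕ) : ℝ)) / N) := by
      have h3 : ((R : ℕ) : ℝ) ≤ (((2 ^ (u + 1)) ^ e : ℕ) : ℝ) := by exact_mod_cast hR
      refine h3.trans ?_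
      push_cast
      have := pow_le_of (k := u + 1) hN hy1 hey
      push_cast at this
      exact this
    have hSy : (S:ℝ) ≤ 2 ^ (v + 1) * y ^ ((((v + 1 : ℕ) : ℝ)) / N) := by
      have h3 : ((S : ℕ) : ℝ) ≤ (((2 ^ (v + 1)) ^ e : ℕ) : ℝ) := by exact_mod_cast hS
      refine h3.trans ?_
      push_cast
      have := pow_le_of (k := v + 1) hN hy1 hey
      push_cast at this
      exact this
    have hR3 : (R:ℝ) + 3 ≤ (2 ^ (u + 1) + 3) * y ^ ((((u + 1 : ℕ) : ℝ)) / N) := by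
      have : 1 ≤ y ^ ((((u + 1 : ℕ) : ℝ)) / N) := Real.one_le_rpow hy1 (by positivity)
      rw [add_mul]; linarith
    have hR0 : (0:ℝ) ≤ R := by positivity
    have hl0 : (0:ℝ) ≤ l := by positivity
    have hS0 : (0:ℝ) ≤ S := by positivity
    have h2v : (1:ℝ) ≤ 2 ^ (v + 1) := one_le_pow₀ (by norm_num)
    dsimp only
    rw [← hy]
  · have h3 : (T':ℝ) ≤ 2 * y * ((R + 3) * (l + 4)) := by
      have h4 : ((T' : ℕ) : ℝ) ≤ (((2 * w.length + 2) * (e + (R + 2) * (Nat.log 2 (w.length + 2) + 3) + 3) : ℕ) : ℝ) := by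
        exact_mod_cast hT'
      rw [← hl] at h4
      push_cast at h4
      refine h4.trans ?_
      have h5 : (2 * (w.length : ℝ) + 2) = 2 * y := by rw [hy]; ring
      rw [h5]
      refine mul_le_mul_of_nonneg_left ?_ (by positivity)
      nlinarith
    calc (T':ℝ) ≤ 2 * y * ((R + 3) * (l + 4)) := h3
      _ ≤ 2 * y * (((2 ^ (u + 1) + 3) * y ^ ((((u + 1 : ℕ) : ℝ)) / N)) * (K1 * y ^ δ)) := by
          refine mul_le_mul_of_nonneg_left ?_ (by positivity)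
          exact mul_le_mul hR3 hA (by positivity) (by positivity)
      _ = 2 * (2 ^ (u + 1) + 3) * K1 * y ^ (1 + (((u + 1 : ℕ) : ℝ)) / N + δ) := by
          rw [Real.rpow_add hy0, Real.rpow_add hy0, Real.rpow_one]; ring
      _ ≤ 2 * (2 ^ (u + 1) + 3) * K1 * y ^ σ := by
          refine mul_le_mul_of_nonneg_left ?_ (by positivity)
          exact Real.rpow_le_rpow_of_exponent_le hy1 (by linarith)
      _ ≤ 2 * 2 ^ (v + 1) * (2 ^ (u + 1) + 3) * K1 * y ^ σ := by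
          refine mul_le_mul_of_nonneg_right ?_ (by positivity)
          refine mul_le_mul_of_nonneg_right ?_ hK10.le
          refine mul_le_mul_of_nonneg_right ?_ (by positivity)
          linarith
  · have h3 : (G':ℝ) ≤ S * ((R + 3) * (l + 4)) := by
      have h4 : ((G' : ℕ) : ℝ) ≤ ((S * (R + 2) * (Nat.log 2 (w.length + 2) + 3) : ℕ) : ℝ) := by
        exact_mod_cast hG'
      rw [← hl] at h4
      push_cast at h4
      refine h4.trans ?_
      rw [mul_assoc]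
      refine mul_le_mul_of_nonneg_left ?_ (by positivity)
      nlinarith
    calc (G':ℝ) ≤ S * ((R + 3) * (l + 4)) := h3
      _ ≤ (2 ^ (v + 1) * y ^ ((((v + 1 : ℕ) : ℝ)) / N)) *
            (((2 ^ (u + 1) + 3) * y ^ ((((u + 1 : ℕ) : ℝ)) / N)) * (K1 * y ^ δ)) := by
          refine mul_le_mul hSy ?_ (by positivity) (by positivity)
          exact mul_le_mul hR3 hA (by positivity) (by positivity)
      _ = 2 ^ (v + 1) * (2 ^ (u + 1) + 3) * K1 *
            y ^ ((((v + 1 : ℕ) : ℝ)) / N + (((u + 1 : ℕ) : ℝ)) / N + δ) := by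
          rw [Real.rpow_add hy0, Real.rpow_add hy0]; ring
      _ ≤ 2 ^ (v + 1) * (2 ^ (u + 1) + 3) * K1 * y ^ b := by
          refine mul_le_mul_of_nonneg_left ?_ (by positivity)
          exact Real.rpow_le_rpow_of_exponent_le hy1 (by linarith)
      _ ≤ 2 * 2 ^ (v + 1) * (2 ^ (u + 1) + 3) * K1 * y ^ b := by
          refine mul_le_mul_of_nonneg_right ?_ (by positivity)
          refine mul_le_mul_of_nonneg_right ?_ hK10.le
          refine mul_le_mul_of_nonneg_right ?_ (by positivity)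
          linarith

/-- choice of the exponents -/
lemma exists_params {σ τ a b : ℝ} (hσ : 1 < σ) (hτ : τ < 2) (ha0 : 0 ≤ a) (ha1 : a < 1)
    (hab : a < b) (h : τ < σ + 1 - a) : ∃ u v w : ℕ, 1 ≤ w ∧
      a * ((u:ℝ) + v + w) < u + v ∧ (u:ℝ) + v + 2 < b * ((u + v + w : ℕ) : ℝ) ∧
      (u:ℝ) + 1 < (σ - 1) * ((u + v + w : ℕ) : ℝ) ∧ (v:ℝ) < (2 - τ) * ((u:ℝ) + v + w) := by
  obtain ⟨N, hN⟩ := exists_nat_gt (max (3 / (b - a)) (max (2 / (1 - a)) (max (3 / (σ - 1))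
    (max (3 / (σ + 1 - a - τ)) 1))))
  have p1 : 3 < (b - a) * N := by
    have : 3 / (b - a) < N := lt_of_le_of_lt (le_max_left _ _) hN
    rw [div_lt_iff₀ (by linarith)] at this; linarith
  have hN1 := lt_of_le_of_lt (le_max_right _ _) hN
  have p2 : 2 < (1 - a) * N := by
    have : 2 / (1 - a) < N := lt_of_le_of_lt (le_max_left _ _) hN1
    rw [div_lt_iff₀ (by linarith)] at this; linarith
  have hN2 := lt_of_le_of_lt (le_max_right _ _) hN1
  have p3 : 3 < (σ - 1) * N := by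
    have : 3 / (σ - 1) < N := lt_of_le_of_lt (le_max_left _ _) hN2
    rw [div_lt_iff₀ (by linarith)] at this; linarith
  have hN3 := lt_of_le_of_lt (le_max_right _ _) hN2
  have p4 : 3 < (σ + 1 - a - τ) * N := by
    have : 3 / (σ + 1 - a - τ) < N := lt_of_le_of_lt (le_max_left _ _) hN3
    rw [div_lt_iff₀ (by linarith)] at this; linarith
  have p5 : (1:ℝ) < N := lt_of_le_of_lt (le_max_right _ _) hN3
  obtain ⟨n, hn⟩ : ∃ n, n = ⌊a * N⌋₊ + 1 := ⟨_, rfl⟩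
  have haN : 0 ≤ a * N := by positivity
  have n1 : a * N < n := by rw [hn]; push_cast; exact Nat.lt_floor_add_one _
  have n2 : (n:ℝ) ≤ a * N + 1 := by
    rw [hn]; push_cast; have := Nat.floor_le haN; linarith
  obtain ⟨k, hk⟩ : ∃ k, k = ⌈(σ - 1) * N⌉₊ - 2 := ⟨_, rfl⟩
  have hk2 : ((σ - 1) * N : ℝ) ≤ (⌈(σ - 1) * N⌉₊ : ℝ) := Nat.le_ceil _
  have hk3 : (⌈(σ - 1) * N⌉₊ : ℝ) < (σ - 1) * N + 1 := Nat.ceil_lt_add_one (by linarith)
  have hk4 : 2 ≤ ⌈(σ - 1) * N⌉₊ := by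
    have : (2:ℝ) ≤ (⌈(σ - 1) * N⌉₊ : ℝ) := by linarith
    exact_mod_cast this
  have hkr : (k:ℝ) = (⌈(σ - 1) * N⌉₊ : ℝ) - 2 := by rw [hk, Nat.cast_sub hk4]; norm_num
  have hnN : n < N := by
    have : (n:ℝ) < N := by linarith
    exact_mod_cast this
  refine ⟨min n k, n - min n k, N - n, by omega, ?_, ?_, ?_, ?_⟩
  all_goals
    have m1 : ((min n k : ℕ) : ℝ) + ((n - min n k : ℕ) : ℝ) = n := by
      have : min n k + (n - min n k) = n := by omega
      exact_mod_cast this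
    have m2 : ((N - n : ℕ) : ℝ) = N - n := by rw [Nat.cast_sub hnN.le]
    have m3 : (((min n k : ℕ) + (n - min n k : ℕ) + (N - n : ℕ) : ℕ) : ℝ) = N := by
      have : min n k + (n - min n k) + (N - n) = N := by omega
      exact_mod_cast this
  · rw [m1, m2]; linarith
  · rw [m1, m3]; linarith
  · rw [m3]
    have : ((min n k : ℕ) : ℝ) ≤ k := by exact_mod_cast min_le_right n k
    linarith
  · rw [m1, m2]
    rcases le_total n k with hh | hh
    · have : min n k = n := min_eq_left hh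
      rw [this, Nat.sub_self]
      push_cast
      have : 0 < (2 - τ) * N := mul_pos (by linarith) (by linarith)
      linarith
    · have : min n k = k := min_eq_right hh
      rw [this, Nat.cast_sub hh]
      linarith

/-- **The trade-off theorem, from the explicit machine.** -/
theorem tradeoff (hD : ModuleD) {σ τ a b μ : ℝ} (hσ : 1 < σ) (hτ1 : 1 ≤ τ) (hμ : 0 ≤ μ)
    (hτ : τ + μ < 2) (ha0 : 0 ≤ a) (ha1 : a < 1) (hab : a < b) (h : τ + μ < σ + 1 - a) :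
    ∃ L : Set (List (Fin 5)), L ∈ ND (Fin 5) σ b ∧ L ∉ NDM (Fin 5) τ a μ := by
  obtain ⟨u, v, w, hw, h1, h2, h3, h4⟩ := exists_params hσ hτ ha0 ha1 hab h
  obtain ⟨M, hM1, hM2⟩ := hD (2 ^ (u + v + w)) (2 ^ (v + 1)) (2 ^ (u + 1))
    (Nat.le_self_pow (by omega) 2) (Nat.le_self_pow (by omega) 2) (Nat.le_self_pow (by omega) 2)
  refine ⟨{w | ∃ T G, M.AcceptsIn w T G}, mem_upper (N := u + v + w) (u := u) (v := v) (by omega) h2 h3 hM1, ?_⟩
  refine not_mem (u := u) (v := v) (w := w) hw hτ1 ha0 ha1 hμ h1 h4 ?_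
  intro t z
  refine hM2 (2 ^ (v * t)) (2 ^ (u * t)) (2 ^ (w * t)) (t + 1) z Nat.one_le_two_pow
    Nat.one_le_two_pow Nat.one_le_two_pow (by omega) ?_ ?_ ?_
  · rw [← pow_mul]
    exact Nat.pow_le_pow_right (by norm_num) (by nlinarith)
  · rw [← pow_mul, ← pow_succ']
    exact Nat.pow_le_pow_right (by norm_num) (by nlinarith)
  · rw [length_word, Nat.add_sub_cancel, ← pow_mul]
    have e : 2 ^ ((u + v + w) * t) = 2 ^ (v * t) * (2 ^ (u * t) * 2 ^ (w * t)) := by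
      rw [← pow_add, ← pow_add]; congr 1; ring
    rw [e]
    nlinarith [Nat.zero_le (2 ^ (v * t) * (2 ^ (u * t) * 2 ^ (w * t))),
      Nat.zero_le (2 ^ (v * t) * 2 ^ (u * t)), Nat.zero_le (2 ^ (v * t))]

end Pool.Agent.helper24.OT
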