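import Pool.Agent.helper24.OT.Multi

/-!
# Multi-tape machines of bounded space are machines with memory
-/

namespace Pool.Agent.helper24.OT

namespace MTM

variable {A : Type}

/-- positions in the window -/
abbrev Win (S : ℕ) : Type := {i : ℤ // |i| ≤ S}

/-- the move of the window machine which corresponds to a move of the multi-tape machine -/
def wmove (M : MTM A) (S : ℕ) (s : M.Q × (Fin M.k → Win S → M.Γ) × (Fin M.k → Win S)) (γ : Option A)
    (r : M.Q × (Fin M.k → M.Γ) × SignType × (Fin M.k → SignType))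
    (h : ∀ j, |((s.2.2 j : ℤ)) + (r.2.2.2 j : ℤ)| ≤ S) :
    (M.Q × (Fin M.k → Win S → M.Γ) × (Fin M.k → Win S)) × Option A × SignType :=
  ((r.1, fun j => Function.update (s.2.1 j) (s.2.2 j) (r.2.1 j), fun j => ⟨_, h j⟩), γ, r.2.2.1)

instance Win.finite (S : ℕ) : Finite (Win S) := by
  have : Finite (Set.Icc (-(S:ℤ)) S) := inferInstance
  refine Finite.of_injective (β := Set.Icc (-(S:ℤ)) S) (fun i => ⟨i.1, abs_le.mp i.2⟩) ?_
  intro i j h
  simp only [Subtype.mk.injEq] at h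
  exact Subtype.ext h

lemma Win.card (S : ℕ) : Nat.card (Win S) = 2 * S + 1 := by
  have e : Win S ≃ Set.Icc (-(S:ℤ)) S := Equiv.subtypeEquivRight fun i => by
    rw [abs_le, Set.mem_Icc]
  rw [Nat.card_congr e, Nat.card_eq_fintype_card, Fintype.card_ofFinset]
  simp
  omega

/-- the window machine -/
@[reducible] def toWin [Finite A] (M : MTM A) (S : ℕ) : NTM A where
  Q := M.Q × (Fin M.k → Win S → M.Γ) × (Fin M.k → Win S)
  Γ := Option A
  finQ := by
    have := M.finQ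
    have := M.finΓ
    infer_instance
  finΓ := inferInstance
  blank := none
  inp := some
  start := (M.start, fun _ _ => M.blank, fun _ => ⟨0, by simp⟩)
  acc := {s | s.1 ∈ M.acc}
  δ := fun s γ => {r | ∃ r' ∈ M.δ s.1 γ (fun j => s.2.1 j (s.2.2 j)),
    ∃ h : ∀ j, |((s.2.2 j : ℤ)) + (r'.2.2.2 j : ℤ)| ≤ S, r = M.wmove S s γ r' h}

variable [Finite A] (M : MTM A) (S : ℕ) (w : List A)

/-- the encoding of configurations -/
def enc (c : MCfg M) (h : ∀ j, |c.head j| ≤ S) : Cfg (M.toWin S) :=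
  ⟨(c.q, fun j i => c.tape j i.1, fun j => ⟨c.head j, h j⟩), c.pos, read w⟩

variable {M S w}

lemma enc_next {c : MCfg M} {h : ∀ j, |c.head j| ≤ S}
    {r : M.Q × (Fin M.k → M.Γ) × SignType × (Fin M.k → SignType)}
    (h' : ∀ j, |(M.next c r).head j| ≤ S) :
    (M.toWin S).next (enc M S w c h)
      (M.wmove S (enc M S w c h).q ((enc M S w c h).tape c.pos) r h') = enc M S w (M.next c r) h' := by
  unfold NTM.next enc wmove MTM.next
  simp only
  congr 1
  · congr 1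
    congr 1
    · funext j i
      by_cases hi : i.1 = c.head j
      · have : i = ⟨c.head j, h j⟩ := Subtype.ext hi
        subst this
        simp
      · have : i ≠ ⟨c.head j, h j⟩ := fun e => hi (congrArg Subtype.val e)
        rw [Function.update_of_ne this, Function.update_of_ne hi]
  · exact Function.update_eq_self _ _

lemma wmove_mem {c : MCfg M} {h : ∀ j, |c.head j| ≤ S}
    {r : M.Q × (Fin M.k → M.Γ) × SignType × (Fin M.k → SignType)} (hr : r ∈ M.moves w c)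
    (h' : ∀ j, |(M.next c r).head j| ≤ S) :
    M.wmove S (enc M S w c h).q ((enc M S w c h).tape c.pos) r h' ∈
      (M.toWin S).moves (enc M S w c h) := ⟨r, hr, h', rfl⟩

lemma of_wmove_mem {c : MCfg M} {h : ∀ j, |c.head j| ≤ S} {x} (hx : x ∈ (M.toWin S).moves (enc M S w c h)) :
    ∃ r ∈ M.moves w c, ∃ h' : ∀ j, |(M.next c r).head j| ≤ S,
      x = M.wmove S (enc M S w c h).q ((enc M S w c h).tape c.pos) r h' := by
  obtain ⟨r, hr, h', e⟩ := hx
  exact ⟨r, hr, h', e⟩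

lemma cost_le (c : MCfg M) (h : ∀ j, |c.head j| ≤ S) :
    (M.toWin S).cost (enc M S w c h) ≤ M.cost w c := by
  unfold NTM.cost MTM.cost
  by_cases h1 : (M.moves w c).Nontrivial
  · rw [if_pos h1]; split_ifs <;> omega
  · rw [if_neg h1, if_neg]
    rintro ⟨x, hx, y, hy, hxy⟩
    obtain ⟨r, hr, h2, e⟩ := of_wmove_mem hx
    obtain ⟨r', hr', h2', e'⟩ := of_wmove_mem hy
    apply h1
    refine ⟨r, hr, r', hr', ?_⟩
    rintro rfl
    exact hxy (e.trans e'.symm)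

omit [Finite A] in
lemma Comp.hS {c c' : MCfg M} {T G : ℕ} (h : M.Comp w S c T G c') : ∀ j, |c.head j| ≤ S := by
  cases h with
  | refl _ h1 => exact h1
  | step _ h1 _ _ => exact h1

omit [Finite A] in
lemma Comp.mono {S' : ℕ} (hSS : S ≤ S') {c c' : MCfg M} {T G : ℕ} (h : M.Comp w S c T G c') :
    M.Comp w S' c T G c' := by
  induction h with
  | refl c hS => exact Comp.refl c fun j => (hS j).trans (by exact_mod_cast hSS)
  | step r hS hr h ih => exact Comp.step r (fun j => (hS j).trans (by exact_mod_cast hSS)) hr ih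

theorem comp_win {c c' : MCfg M} {T G : ℕ} (h : M.Comp w S c T G c') :
    ∀ (hc : ∀ j, |c.head j| ≤ S), ∃ (G' : ℕ) (hc' : ∀ j, |c'.head j| ≤ S), G' ≤ G ∧
      (M.toWin S).Comp (enc M S w c hc) T G' (enc M S w c' hc') := by
  induction h with
  | refl c hS => exact fun hc => ⟨0, hc, le_rfl, NTM.Comp.refl _⟩
  | @step c c' T G r hS hr h ih =>
    intro hc
    obtain ⟨G', hc', hG, hcomp⟩ := ih h.hS
    refine ⟨G' + (M.toWin S).cost (enc M S w c hc), hc', ?_, ?_⟩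
    · have := cost_le (w := w) c hc
      omega
    · exact NTM.Comp.step _ (wmove_mem hr h.hS) (by rw [enc_next]; exact hcomp)

theorem win_comp {x y : Cfg (M.toWin S)} {T G : ℕ} (h : (M.toWin S).Comp x T G y) :
    ∀ (c : MCfg M) (hc : ∀ j, |c.head j| ≤ S), x = enc M S w c hc →
      ∃ (G' : ℕ) (c' : MCfg M) (hc' : ∀ j, |c'.head j| ≤ S), y = enc M S w c' hc' ∧
        M.Comp w S c T G' c' := by
  induction h with
  | refl x => exact fun c hc e => ⟨0, c, hc, e, Comp.refl c hc⟩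
  | @step x y T G r hr h ih =>
    rintro c hc rfl
    obtain ⟨r', hr', h', e⟩ := of_wmove_mem hr
    subst e
    obtain ⟨G', c', hc', e', hcomp⟩ := ih (M.next c r') h' (enc_next h')
    exact ⟨_, c', hc', e', Comp.step r' hc hr' hcomp⟩

lemma init_win : (M.toWin S).init w = enc M S w M.init (by simp [MTM.init]) := by
  unfold NTM.init enc MTM.init
  congr 1
  funext i
  unfold read
  split_ifs with h
  · cases w[i.toNat]? <;> rfl
  · rfl

theorem accepts_win {T G : ℕ} (h : M.AcceptsIn w T G S) :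
    ∃ G' ≤ G, (M.toWin S).AcceptsIn w T G' := by
  obtain ⟨c, hc, ha⟩ := h
  obtain ⟨G', hc', hG, hcomp⟩ := comp_win hc (by simp [MTM.init])
  refine ⟨G', hG, enc M S w c hc', ?_, ha⟩
  rw [init_win]; exact hcomp

theorem win_accepts {T G : ℕ} (h : (M.toWin S).AcceptsIn w T G) : ∃ G', M.AcceptsIn w T G' S := by
  obtain ⟨y, hy, ha⟩ := h
  rw [init_win] at hy
  obtain ⟨G', c', hc', e, hcomp⟩ := win_comp hy _ _ rfl
  subst e
  exact ⟨G', c', hcomp, ha⟩

lemma delta_le (q) (γ : Option A) : ((M.toWin S).δ q γ).encard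
    ≤ (Nat.card (M.Q × (Fin M.k → M.Γ) × SignType × (Fin M.k → SignType)) : ℕ∞) := by
  classical
  have := M.finQ
  have := M.finΓ
  have h1 : (M.toWin S).δ q γ ⊆ (fun r => if h : ∀ j, |((q.2.2 j : ℤ)) + (r.2.2.2 j : ℤ)| ≤ S then
      M.wmove S q γ r h else (q, γ, 0)) '' Set.univ := by
    rintro x ⟨r, hr, h, e⟩
    refine ⟨r, Set.mem_univ _, ?_⟩
    dsimp only
    rw [dif_pos h, e]
  calc ((M.toWin S).δ q γ).encard ≤ _ := Set.encard_le_encard h1
    _ ≤ (Set.univ : Set (M.Q × (Fin M.k → M.Γ) × SignType × (Fin M.k → SignType))).encard :=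
        Set.encard_image_le _ _
    _ = _ := by rw [Set.encard_univ, ENat.card_eq_coe_natCard]

lemma card_win : Nat.card (M.toWin S).Q
    = Nat.card M.Q * ((Nat.card M.Γ ^ (2 * S + 1)) ^ M.k * (2 * S + 1) ^ M.k) := by
  have := M.finQ
  have := M.finΓ
  have : Fintype M.Γ := Fintype.ofFinite _
  have : Fintype (Win S) := Fintype.ofFinite _
  have h1 : Fintype.card (Win S) = 2 * S + 1 := by rw [← Nat.card_eq_fintype_card, Win.card]
  change Nat.card (M.Q × (Fin M.k → Win S → M.Γ) × (Fin M.k → Win S)) = _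
  rw [Nat.card_prod, Nat.card_prod, Nat.card_fun, Nat.card_fun, Nat.card_fun]
  simp [h1]

end MTM

/-- Multi-tape machines of space `O(n^μ)` are machines with `O(n^μ)` bits of memory. -/
theorem TSG_subset_NDM {A : Type} [Finite A] {τ a μ : ℝ} (hμ : 0 ≤ μ) :
    TSG A τ a μ ⊆ NDM A τ a μ := by
  rintro L ⟨C, M, h1, h2⟩
  have := M.finQ
  have := M.finΓ
  obtain ⟨p, hp⟩ : ∃ p : ℕ, Nat.card M.Q ≤ 2 ^ p := ⟨_, Nat.lt_two_pow_self.le⟩
  obtain ⟨g, hg⟩ : ∃ g : ℕ, Nat.card M.Γ ≤ 2 ^ g := ⟨_, Nat.lt_two_pow_self.le⟩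
  obtain ⟨C', hC'⟩ : ∃ C' : ℝ, C' = p + (g + 1) * M.k * (2 * |C| + 1) + |C| := ⟨_, rfl⟩
  have hCC : C ≤ C' := by
    rw [hC']
    have h3 : (0:ℝ) ≤ p + (g + 1) * M.k * (2 * |C| + 1) := by positivity
    have := le_abs_self C
    linarith
  have hpos : ∀ (n : ℕ) (α : ℝ), 0 ≤ ((n:ℝ) + 1) ^ α := fun n α => by positivity
  refine ⟨C', Nat.card (M.Q × (Fin M.k → M.Γ) × SignType × (Fin M.k → SignType)),
    fun n => M.toWin ⌊C * ((n:ℝ) + 1) ^ μ⌋₊, fun n => ⟨?_, ?_, ?_, ?_⟩⟩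
  · have h3 : (1:ℝ) ≤ ((n:ℝ) + 1) ^ μ :=
      Real.one_le_rpow (by have : (0:ℝ) ≤ n := Nat.cast_nonneg n
                           linarith) hμ
    obtain ⟨S, hS⟩ : ∃ S, S = ⌊C * ((n:ℝ) + 1) ^ μ⌋₊ := ⟨_, rfl⟩
    have hSle : (S:ℝ) ≤ |C| * ((n:ℝ) + 1) ^ μ := by
      rw [hS]
      have h4 : (⌊C * ((n:ℝ) + 1) ^ μ⌋₊ : ℝ) ≤ ⌊|C| * ((n:ℝ) + 1) ^ μ⌋₊ := by
        exact_mod_cast Nat.floor_mono (mul_le_mul_of_nonneg_right (le_abs_self C) (hpos _ _))
      exact h4.trans (Nat.floor_le (by positivity))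
    have hcard : Nat.card (M.toWin S).Q ≤ 2 ^ (p + (g + 1) * M.k * (2 * S + 1)) := by
      rw [MTM.card_win]
      have e1 : (Nat.card M.Γ ^ (2 * S + 1)) ^ M.k ≤ 2 ^ (g * (2 * S + 1) * M.k) := by
        rw [pow_mul, pow_mul]
        exact Nat.pow_le_pow_left (Nat.pow_le_pow_left hg _) _
      have e2 : (2 * S + 1) ^ M.k ≤ 2 ^ ((2 * S + 1) * M.k) := by
        rw [pow_mul]
        exact Nat.pow_le_pow_left Nat.lt_two_pow_self.le _
      calc _ ≤ 2 ^ p * (2 ^ (g * (2 * S + 1) * M.k) * 2 ^ ((2 * S + 1) * M.k)) :=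
            Nat.mul_le_mul hp (Nat.mul_le_mul e1 e2)
        _ = _ := by rw [← pow_add, ← pow_add]; congr 1; ring
    dsimp only
    rw [← hS]
    have hexp : ((p + (g + 1) * M.k * (2 * S + 1) : ℕ) : ℝ) ≤ C' * ((n:ℝ) + 1) ^ μ := by
      push_cast
      have e3 : (2 * (S:ℝ) + 1) ≤ (2 * |C| + 1) * ((n:ℝ) + 1) ^ μ := by linarith
      have e4 : ((g:ℝ) + 1) * M.k * (2 * S + 1)
          ≤ ((g:ℝ) + 1) * M.k * ((2 * |C| + 1) * ((n:ℝ) + 1) ^ μ) :=
        mul_le_mul_of_nonneg_left e3 (by positivity)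
      have e5 : (p:ℝ) * 1 ≤ p * ((n:ℝ) + 1) ^ μ := mul_le_mul_of_nonneg_left h3 (by positivity)
      have e6 : 0 ≤ |C| * ((n:ℝ) + 1) ^ μ := by positivity
      rw [hC']
      linarith
    calc (Nat.card (M.toWin S).Q : ℝ) ≤ 2 ^ (p + (g + 1) * M.k * (2 * S + 1)) := by
          exact_mod_cast hcard
      _ = (2:ℝ) ^ ((p + (g + 1) * M.k * (2 * S + 1) : ℕ) : ℝ) := (Real.rpow_natCast 2 _).symm
      _ ≤ (2:ℝ) ^ (C' * ((n:ℝ) + 1) ^ μ) := Real.rpow_le_rpow_of_exponent_le (by norm_num) hexp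
  · intro q γ; exact MTM.delta_le q γ
  · intro w _ T G h
    obtain ⟨G', h'⟩ := MTM.win_accepts h
    exact h1 w _ _ _ h'
  · intro w hw hn
    obtain ⟨T, G, S, h3, h4, h5, h6⟩ := h2 w hw
    subst hn
    obtain ⟨c, hc, ha⟩ := h3
    have h7 : M.AcceptsIn w T G ⌊C * ((w.length:ℝ) + 1) ^ μ⌋₊ :=
      ⟨c, hc.mono (Nat.le_floor h6), ha⟩
    obtain ⟨G', hG', h8⟩ := MTM.accepts_win h7
    refine ⟨T, G', h8, h4.trans (mul_le_mul_of_nonneg_right hCC (hpos _ _)), ?_⟩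
    have h9 : (G' : ℝ) ≤ G := by exact_mod_cast hG'
    exact h9.trans (h5.trans (mul_le_mul_of_nonneg_right hCC (hpos _ _)))

end Pool.Agent.helper24.OT
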