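import Pool.Agent.helper24.OT.Final
import Pool.Agent.helper24.OT.Window

/-!
# The hierarchy theorem for multi-tape machines, from the explicit machine
-/

namespace Pool.Agent.helper24.OT

open Finset Filter

/-- The upper bound for the explicit logarithmic space machine. -/
theorem mem_upper2 {M : MTM (Fin 5)} {c N u v : ℕ} (hN : 0 < N) {σ b : ℝ}
    (h1 : (u:ℝ) + v + 2 < b * N) (h2 : (u:ℝ) + 1 < (σ - 1) * N)
    (hM : ∀ w T G S, M.AcceptsIn w T G S → ∃ T' G' S' e K R : ℕ, M.AcceptsIn w T' G' S' ∧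
      K ≤ 2 ^ ((v + 1) * e) ∧ R ≤ 2 ^ ((u + 1) * e) ∧ 2 ^ (N * (e - 1)) ≤ w.length + 1 ∧
      T' ≤ c * (w.length + 2) * (R + 2) * (Nat.log 2 (w.length + 2) + 3) ∧
      G' ≤ c * K * (R + 2) * (Nat.log 2 (w.length + 2) + 3) ∧
      S' ≤ c * (Nat.log 2 (w.length + 2) + 3)) :
    {w | ∃ T G S, M.AcceptsIn w T G S} ∈ TLG (Fin 5) σ b := by
  have hNr : (0:ℝ) < N := by exact_mod_cast hN
  have hcu : (((u + 1 : ℕ) : ℝ)) / N < σ - 1 := by
    rw [div_lt_iff₀ hNr]; push_cast; exact h2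
  have hcb : (((v + 1 : ℕ) : ℝ)) / N + (((u + 1 : ℕ) : ℝ)) / N < b := by
    rw [← add_div, div_lt_iff₀ hNr]; push_cast; linarith
  obtain ⟨δ, hδ⟩ : ∃ δ, δ = min (σ - 1 - (((u + 1 : ℕ) : ℝ)) / N)
    (b - ((((v + 1 : ℕ) : ℝ)) / N + (((u + 1 : ℕ) : ℝ)) / N)) := ⟨_, rfl⟩
  have hδ0 : 0 < δ := by rw [hδ]; exact lt_min (by linarith) (by linarith)
  have hδ1 : δ ≤ σ - 1 - (((u + 1 : ℕ) : ℝ)) / N := by rw [hδ]; exact min_le_left _ _
  have hδ2 : δ ≤ b - ((((v + 1 : ℕ) : ℝ)) / N + (((u + 1 : ℕ) : ℝ)) / N) := by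
    rw [hδ]; exact min_le_right _ _
  obtain ⟨K1, hK1⟩ : ∃ K1 : ℝ, K1 = 2 ^ δ / δ / Real.log 2 + 4 := ⟨_, rfl⟩
  have hlog2 : 0 < Real.log 2 := Real.log_pos (by norm_num)
  have hK10 : 0 < K1 := by rw [hK1]; positivity
  obtain ⟨C1, hC1⟩ : ∃ C1 : ℝ, C1 = 2 * 2 ^ (v + 1) * (2 ^ (u + 1) + 3) * K1 * c := ⟨_, rfl⟩
  obtain ⟨C2, hC2⟩ : ∃ C2 : ℝ, C2 = 4 * c / Real.log 2 := ⟨_, rfl⟩
  have hC10 : 0 ≤ C1 := by rw [hC1]; positivity
  have hC20 : 0 ≤ C2 := by rw [hC2]; positivity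
  refine ⟨C1 + C2, M, fun w T G S h => ⟨T, G, S, h⟩, ?_⟩
  rintro w ⟨T, G, S, hTG⟩
  obtain ⟨T', G', S', e, K, R, hacc, hK, hR, he, hT', hG', hS'⟩ := hM w T G S hTG
  obtain ⟨y, hy⟩ : ∃ y : ℝ, y = (w.length : ℝ) + 1 := ⟨_, rfl⟩
  have hw0 : (0:ℝ) ≤ w.length := by positivity
  have hy1 : 1 ≤ y := by rw [hy]; linarith
  have hy0 : 0 < y := by linarith
  obtain ⟨l, hl⟩ : ∃ l, l = Nat.log 2 (w.length + 2) := ⟨_, rfl⟩
  have h2l : (2:ℝ) ^ l ≤ (w.length : ℝ) + 2 := by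
    have h3 : 2 ^ l ≤ w.length + 2 := by rw [hl]; exact Nat.pow_log_le_self 2 (by omega)
    exact_mod_cast h3
  have hA : (l:ℝ) + 4 ≤ K1 * y ^ δ := by
    have h4 : (2:ℝ) ^ l ≤ 2 * y := by rw [hy]; linarith
    have h5 : (l:ℝ) * Real.log 2 ≤ (2 * y) ^ δ / δ := by
      have h6 := Real.log_le_log (by positivity) h4
      rw [Real.log_pow] at h6
      exact h6.trans (Real.log_le_rpow_div (by positivity) hδ0)
    rw [Real.mul_rpow (by norm_num) hy0.le] at h5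
    have h7 : (l:ℝ) ≤ 2 ^ δ / δ / Real.log 2 * y ^ δ := by
      rw [div_mul_eq_mul_div, le_div_iff₀ hlog2]
      calc _ ≤ _ := h5
        _ = _ := by ring
    have h8 : 1 ≤ y ^ δ := Real.one_le_rpow hy1 hδ0.le
    rw [hK1, add_mul]
    linarith
  have hey : ((2:ℝ) ^ N) ^ (e - 1) ≤ y := by
    have : ((2 ^ (N * (e - 1)) : ℕ) : ℝ) ≤ ((w.length + 1 : ℕ) : ℝ) := by exact_mod_cast he
    push_cast at this
    rw [hy, ← pow_mul]; exact this
  have hRy : (R:ℝ) ≤ 2 ^ (u + 1) * y ^ ((((u + 1 : ℕ) : ℝ)) / N) := by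
    have h3 : ((R : ℕ) : ℝ) ≤ ((2 ^ ((u + 1) * e) : ℕ) : ℝ) := by exact_mod_cast hR
    refine h3.trans ?_
    push_cast
    have := pow_le_of (k := u + 1) hN hy1 hey
    push_cast at this
    rw [pow_mul]; exact this
  have hKy : (K:ℝ) ≤ 2 ^ (v + 1) * y ^ ((((v + 1 : ℕ) : ℝ)) / N) := by
    have h3 : ((K : ℕ) : ℝ) ≤ ((2 ^ ((v + 1) * e) : ℕ) : ℝ) := by exact_mod_cast hK
    refine h3.trans ?_
    push_cast
    have := pow_le_of (k := v + 1) hN hy1 hey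
    push_cast at this
    rw [pow_mul]; exact this
  have hR3 : (R:ℝ) + 2 ≤ (2 ^ (u + 1) + 3) * y ^ ((((u + 1 : ℕ) : ℝ)) / N) := by
    have : 1 ≤ y ^ ((((u + 1 : ℕ) : ℝ)) / N) := Real.one_le_rpow hy1 (by positivity)
    rw [add_mul]; linarith
  have hR0 : (0:ℝ) ≤ R := by positivity
  have hl0 : (0:ℝ) ≤ l := by positivity
  have hK0 : (0:ℝ) ≤ K := by positivity
  have hc0 : (0:ℝ) ≤ c := by positivity
  have h2v : (1:ℝ) ≤ 2 ^ (v + 1) := one_le_pow₀ (by norm_num)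
  refine ⟨T', G', S', hacc, ?_, ?_, ?_⟩
  · have h3 : (T':ℝ) ≤ c * (2 * y) * ((R + 2) * (l + 4)) := by
      have h4 : ((T' : ℕ) : ℝ) ≤ ((c * (w.length + 2) * (R + 2) * (Nat.log 2 (w.length + 2) + 3) : ℕ) : ℝ) := by
        exact_mod_cast hT'
      rw [← hl] at h4
      push_cast at h4
      refine h4.trans ?_
      rw [mul_assoc (c * _ : ℝ)]
      refine mul_le_mul ?_ ?_ (by positivity) (by positivity)
      · exact mul_le_mul_of_nonneg_left (by rw [hy]; linarith) hc0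
      · exact mul_le_mul_of_nonneg_left (by linarith) (by positivity)
    dsimp only
    rw [← hy]
    calc (T':ℝ) ≤ c * (2 * y) * ((R + 2) * (l + 4)) := h3
      _ ≤ c * (2 * y) * (((2 ^ (u + 1) + 3) * y ^ ((((u + 1 : ℕ) : ℝ)) / N)) * (K1 * y ^ δ)) := by
          refine mul_le_mul_of_nonneg_left ?_ (by positivity)
          exact mul_le_mul hR3 hA (by positivity) (by positivity)
      _ = 1 * (2 * (2 ^ (u + 1) + 3) * K1 * c * y ^ (1 + (((u + 1 : ℕ) : ℝ)) / N + δ)) := by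
          rw [Real.rpow_add hy0, Real.rpow_add hy0, Real.rpow_one]; ring
      _ ≤ 2 ^ (v + 1) * (2 * (2 ^ (u + 1) + 3) * K1 * c * y ^ σ) := by
          refine mul_le_mul h2v ?_ (by positivity) (by positivity)
          refine mul_le_mul_of_nonneg_left ?_ (by positivity)
          exact Real.rpow_le_rpow_of_exponent_le hy1 (by linarith)
      _ = C1 * y ^ σ := by rw [hC1]; ring
      _ ≤ (C1 + C2) * y ^ σ := mul_le_mul_of_nonneg_right (by linarith) (by positivity)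
  · have h3 : (G':ℝ) ≤ c * K * ((R + 2) * (l + 4)) := by
      have h4 : ((G' : ℕ) : ℝ) ≤ ((c * K * (R + 2) * (Nat.log 2 (w.length + 2) + 3) : ℕ) : ℝ) := by
        exact_mod_cast hG'
      rw [← hl] at h4
      push_cast at h4
      refine h4.trans ?_
      rw [mul_assoc (c * _ : ℝ)]
      refine mul_le_mul_of_nonneg_left ?_ (by positivity)
      exact mul_le_mul_of_nonneg_left (by linarith) (by positivity)
    dsimp only
    rw [← hy]
    calc (G':ℝ) ≤ c * K * ((R + 2) * (l + 4)) := h3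
      _ ≤ c * (2 ^ (v + 1) * y ^ ((((v + 1 : ℕ) : ℝ)) / N)) *
            (((2 ^ (u + 1) + 3) * y ^ ((((u + 1 : ℕ) : ℝ)) / N)) * (K1 * y ^ δ)) := by
          refine mul_le_mul ?_ ?_ (by positivity) (by positivity)
          · exact mul_le_mul_of_nonneg_left hKy hc0
          · exact mul_le_mul hR3 hA (by positivity) (by positivity)
      _ = 1 * (2 ^ (v + 1) * (2 ^ (u + 1) + 3) * K1 * c *
            y ^ ((((v + 1 : ℕ) : ℝ)) / N + (((u + 1 : ℕ) : ℝ)) / N + δ)) := by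
          rw [Real.rpow_add hy0, Real.rpow_add hy0]; ring
      _ ≤ 2 * (2 ^ (v + 1) * (2 ^ (u + 1) + 3) * K1 * c * y ^ b) := by
          refine mul_le_mul (by norm_num) ?_ (by positivity) (by positivity)
          refine mul_le_mul_of_nonneg_left ?_ (by positivity)
          exact Real.rpow_le_rpow_of_exponent_le hy1 (by linarith)
      _ = C1 * y ^ b := by rw [hC1]; ring
      _ ≤ (C1 + C2) * y ^ b := mul_le_mul_of_nonneg_right (by linarith) (by positivity)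
  · have h3 : (S':ℝ) ≤ c * (l + 3) := by
      have h4 : ((S' : ℕ) : ℝ) ≤ ((c * (Nat.log 2 (w.length + 2) + 3) : ℕ) : ℝ) := by
        exact_mod_cast hS'
      rw [← hl] at h4
      push_cast at h4
      exact h4
    dsimp only
    have h5 : (l:ℝ) * Real.log 2 ≤ Real.log ((w.length : ℝ) + 2) := by
      have h6 := Real.log_le_log (by positivity) h2l
      rwa [Real.log_pow] at h6
    have h6 : Real.log 2 ≤ Real.log ((w.length : ℝ) + 2) :=
      Real.log_le_log (by norm_num) (by linarith)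
    calc (S':ℝ) ≤ c * (l + 3) := h3
      _ ≤ c * (4 / Real.log 2 * Real.log ((w.length : ℝ) + 2)) := by
          refine mul_le_mul_of_nonneg_left ?_ hc0
          rw [div_mul_eq_mul_div, le_div_iff₀ hlog2]
          linarith
      _ = C2 * Real.log ((w.length : ℝ) + 2) := by rw [hC2]; ring
      _ ≤ (C1 + C2) * Real.log ((w.length : ℝ) + 2) :=
          mul_le_mul_of_nonneg_right (by linarith) (by linarith)

/-- **The trade-off theorem for multi-tape machines, from the explicit machine.** -/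
theorem tradeoff2 (hE : ModuleE) {σ τ a b μ : ℝ} (hσ : 1 < σ) (hτ1 : 1 ≤ τ) (hμ : 0 ≤ μ)
    (hτ : τ + μ < 2) (ha0 : 0 ≤ a) (ha1 : a < 1) (hab : a < b) (h : τ + μ < σ + 1 - a) :
    ∃ L : Set (List (Fin 5)), L ∈ TLG (Fin 5) σ b ∧ L ∉ TSG (Fin 5) τ a μ ∧
      L ∉ NDM (Fin 5) τ a μ := by
  obtain ⟨u, v, w, hw, h1, h2, h3, h4⟩ := exists_params hσ hτ ha0 ha1 hab h
  obtain ⟨M, c, hM1, hM2⟩ := hE (u + v + w) u v (by omega) (by omega)
  have key : {w | ∃ T G S, M.AcceptsIn w T G S} ∉ NDM (Fin 5) τ a μ := by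
    refine not_mem (u := u) (v := v) (w := w) hw hτ1 ha0 ha1 hμ h1 h4 ?_
    intro t z
    refine hM2 (2 ^ (v * t)) (2 ^ (u * t)) (2 ^ (w * t)) (t + 1) z Nat.one_le_two_pow
      Nat.one_le_two_pow Nat.one_le_two_pow (by omega) ?_ ?_ ?_
    · rw [← pow_succ']
      exact Nat.pow_le_pow_right (by norm_num) (by nlinarith)
    · rw [← pow_succ']
      exact Nat.pow_le_pow_right (by norm_num) (by nlinarith)
    · rw [length_word, Nat.add_sub_cancel]
      have e : 2 ^ ((u + v + w) * t) = 2 ^ (v * t) * (2 ^ (u * t) * 2 ^ (w * t)) := by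
        rw [← pow_add, ← pow_add]; congr 1; ring
      rw [e]
      nlinarith [Nat.zero_le (2 ^ (v * t) * (2 ^ (u * t) * 2 ^ (w * t))),
        Nat.zero_le (2 ^ (v * t) * 2 ^ (u * t)), Nat.zero_le (2 ^ (v * t))]
  exact ⟨_, mem_upper2 (N := u + v + w) (u := u) (v := v) (by omega) h2 h3 hM1,
    fun hc => key (TSG_subset_NDM hμ hc), key⟩

end Pool.Agent.helper24.OT
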