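import Pool.Agent.helper24.OT.Single2
import Pool.Agent.helper24.OT.Direct2

/-!
# The comparison inequality for planted intersections
-/

namespace Pool.Agent.helper24.OT

open Finset

variable {m : ℕ}

/-- frames: two planted positions and the split of the random bits -/
abbrev Frame (m : ℕ) : Type := (Fin m × Fin m) × (Fin m → Bool)

/-- one planted intersection -/
noncomputable def wμ (m : ℕ) (T : Frame m) : ℝ :=
  if T.1.1 = T.1.2 then 1 / ((m : ℝ) * 2 ^ m) else 0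

/-- mostly two planted intersections -/
noncomputable def wν (m : ℕ) (T : Frame m) : ℝ :=
  if T.1.1 = T.1.2 then (1 / 10) / ((m : ℝ) * 2 ^ m)
  else (9 / 10) / ((m : ℝ) * ((m : ℝ) - 1) * 2 ^ m)

/-- law of `x` in a frame -/
noncomputable def kP (T : Frame m) (x : Fin m → Bool) : ℝ :=
  cavg fun r => if pt2 T.1.1 T.1.2 T.2 r = x then 1 else 0

/-- law of `y` in a frame -/
noncomputable def kQ (T : Frame m) (x : Fin m → Bool) : ℝ :=
  cavg fun r => if pt2 T.1.1 T.1.2 (cD T.2) r = x then 1 else 0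

lemma sum_push (φ : (Fin m → Bool) → (Fin m → Bool)) (g : (Fin m → Bool) → ℝ) :
    ∑ x, (cavg fun r => if φ r = x then (1:ℝ) else 0) * g x = cavg fun r => g (φ r) := by
  unfold cavg
  simp only [div_mul_eq_mul_div, ← Finset.sum_div, Finset.sum_mul]
  rw [Finset.sum_comm]
  simp

lemma kP_nonneg (T : Frame m) (x : Fin m → Bool) : 0 ≤ kP T x :=
  cavg_nonneg fun r => by split_ifs <;> norm_num

lemma kQ_nonneg (T : Frame m) (x : Fin m → Bool) : 0 ≤ kQ T x :=
  cavg_nonneg fun r => by split_ifs <;> norm_num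

lemma kP_sum (T : Frame m) : ∑ x, kP T x = 1 := by
  have := sum_push (fun r => pt2 T.1.1 T.1.2 T.2 r) (fun _ => 1)
  simpa [kP, cavg_const] using this

lemma kQ_sum (T : Frame m) : ∑ x, kQ T x = 1 := by
  have := sum_push (fun r => pt2 T.1.1 T.1.2 (cD T.2) r) (fun _ => 1)
  simpa [kQ, cavg_const] using this

lemma mean_kP (T : Frame m) (a : (Fin m → Bool) → ℝ) : mean (kP T) a = pl a T.1.1 T.1.2 T.2 :=
  sum_push _ a

lemma mean_kQ (T : Frame m) (a : (Fin m → Bool) → ℝ) : mean (kQ T) a = pl a T.1.1 T.1.2 (cD T.2) :=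
  sum_push _ a

lemma lpn_kP (T : Frame m) (p : ℝ) (a : (Fin m → Bool) → ℝ) :
    lpn (kP T) p a = nm a p T.1.1 T.1.2 T.2 := by
  unfold lpn nm
  congr 1
  exact sum_push _ fun x => a x ^ p

lemma lpn_kQ (T : Frame m) (p : ℝ) (a : (Fin m → Bool) → ℝ) :
    lpn (kQ T) p a = nm a p T.1.1 T.1.2 (cD T.2) := by
  unfold lpn nm
  congr 1
  exact sum_push _ fun x => a x ^ p

lemma sum_frame (g : Fin m → Fin m → (Fin m → Bool) → ℝ) :
    ∑ T : Frame m, g T.1.1 T.1.2 T.2 = ∑ j, ∑ k, ∑ D, g j k D := by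
  rw [Fintype.sum_prod_type, Fintype.sum_prod_type]

/-- diagonal and off-diagonal parts -/
lemma sum_frame_split (g h : Fin m → Fin m → (Fin m → Bool) → ℝ) :
    ∑ j, ∑ k, ∑ D, (if j = k then g j k D else h j k D)
      = ∑ j, ∑ D, g j j D + ∑ j, ∑ k, (if j = k then 0 else ∑ D, h j k D) := by
  rw [← Finset.sum_add_distrib]
  refine Finset.sum_congr rfl fun j _ => ?_
  have : ∀ k, ∑ D, (if j = k then g j k D else h j k D)
      = (if j = k then ∑ D, g j k D else 0) + (if j = k then 0 else ∑ D, h j k D) := by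
    intro k; split_ifs <;> simp
  simp only [this, Finset.sum_add_distrib]
  simp

lemma wμ_nonneg (T : Frame m) : 0 ≤ wμ m T := by
  unfold wμ; split_ifs <;> positivity

lemma wν_nonneg (hm : 2 ≤ m) (T : Frame m) : 0 ≤ wν m T := by
  have h2 : (2:ℝ) ≤ m := by exact_mod_cast hm
  have h1 : 0 ≤ (m:ℝ) - 1 := by linarith
  unfold wν; split_ifs <;> positivity

lemma wμ_sum (hm : 2 ≤ m) : ∑ T, wμ m T = 1 := by
  have h2 : (2:ℝ) ≤ m := by exact_mod_cast hm
  have h0 : (m:ℝ) ≠ 0 := by positivity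
  have := sum_frame (m := m) (fun j k _ => if j = k then 1 / ((m : ℝ) * 2 ^ m) else 0)
  unfold wμ
  rw [this, sum_frame_split (m := m) (fun _ _ _ => 1 / ((m : ℝ) * 2 ^ m)) (fun _ _ _ => 0)]
  simp
  field_simp

lemma wν_sum (hm : 2 ≤ m) : ∑ T, wν m T = 1 := by
  have h2 : (2:ℝ) ≤ m := by exact_mod_cast hm
  have h0 : (m:ℝ) ≠ 0 := by positivity
  have h1 : (m:ℝ) - 1 ≠ 0 := by linarith
  have := sum_frame (m := m) (fun j k _ => if j = k then (1 / 10) / ((m : ℝ) * 2 ^ m)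
    else (9 / 10) / ((m : ℝ) * ((m : ℝ) - 1) * 2 ^ m))
  unfold wν
  rw [this, sum_frame_split (m := m) (fun _ _ _ => (1 / 10) / ((m : ℝ) * 2 ^ m))
    (fun _ _ _ => (9 / 10) / ((m : ℝ) * ((m : ℝ) - 1) * 2 ^ m))]
  have e : ∀ j : Fin m, ∑ k : Fin m, (if j = k then (0:ℝ)
      else ∑ _D : Fin m → Bool, (9 / 10) / ((m : ℝ) * ((m : ℝ) - 1) * 2 ^ m))
      = ((m:ℝ) - 1) * (2 ^ m * ((9 / 10) / ((m : ℝ) * ((m : ℝ) - 1) * 2 ^ m))) := by
    intro j
    rw [Finset.sum_ite, Finset.sum_const_zero, zero_add, Finset.sum_const]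
    have : (Finset.univ.filter fun k => ¬ j = k).card = m - 1 := by
      have h1 : (Finset.univ.filter fun k => ¬ j = k) = Finset.univ.erase j := by
        ext k; simp [eq_comm]
      rw [h1, Finset.card_erase_of_mem (Finset.mem_univ _), Finset.card_univ, Fintype.card_fin]
    rw [this, nsmul_eq_mul, Nat.cast_sub (by omega)]
    simp
  rw [Finset.sum_congr rfl fun j _ => e j]
  simp
  field_simp
  ring

/-- **The comparison inequality for one copy.** -/
theorem cmp_frame {p q : ℝ} (hpq : p.HolderConjugate q) (hm : 2 ≤ m)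
    (hq : 80000 * q ≤ (m : ℝ) - 1) :
    Cmp (wμ m) (wν m) kP kQ (fun x y => ∃ i, x i = true ∧ y i = true) p (7 / 10) := by
  intro a b ha hb hR
  have h2 : (2:ℝ) ≤ m := by exact_mod_cast hm
  have h0 : 0 < (m:ℝ) := by positivity
  have h1 : 0 < (m:ℝ) - 1 := by linarith
  have hq0 : 0 < q := hpq.symm.pos
  have key := single_sum hpq ha hb hR
  rw [Fintype.card_fin] at key
  set S1 := ∑ j, ∑ D, XY a b j D with hS1
  set S2 := ∑ j, ∑ k, (if j = k then 0 else ∑ D, pl a j k D * pl b j k (cD D)) with hS2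
  set S1p := ∑ j, ∑ D, nm a p j j D * nm b p j j (cD D) with hS1p
  set S2p := ∑ j, ∑ k, (if j = k then 0 else ∑ D, nm a p j k D * nm b p j k (cD D)) with hS2p
  have nma : ∀ j k E, 0 ≤ nm a p j k E := fun j k E => (pl_nonneg ha j k E).trans (pl_le_nm hpq ha j k E)
  have nmb : ∀ j k E, 0 ≤ nm b p j k E := fun j k E => (pl_nonneg hb j k E).trans (pl_le_nm hpq hb j k E)
  have hS12 : S2 ≤ S2p := by
    refine Finset.sum_le_sum fun j _ => Finset.sum_le_sum fun k _ => ?_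
    split_ifs
    · exact le_rfl
    · refine Finset.sum_le_sum fun D _ => ?_
      exact mul_le_mul (pl_le_nm hpq ha _ _ _) (pl_le_nm hpq hb _ _ _) (pl_nonneg hb _ _ _) (nma _ _ _)
  have hS2p0 : 0 ≤ S2p := by
    refine Finset.sum_nonneg fun j _ => Finset.sum_nonneg fun k _ => ?_
    split_ifs
    · exact le_rfl
    · exact Finset.sum_nonneg fun D _ => mul_nonneg (nma _ _ _) (nmb _ _ _)
  have hS1p0 : 0 ≤ S1p :=
    Finset.sum_nonneg fun j _ => Finset.sum_nonneg fun D _ => mul_nonneg (nma _ _ _) (nmb _ _ _)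
  have lhs : ∑ T, wμ m T * (mean (kP T) a * mean (kQ T) b) = S1 / ((m : ℝ) * 2 ^ m) := by
    have e1 : ∀ T : Frame m, wμ m T * (mean (kP T) a * mean (kQ T) b)
        = (fun j k D => if j = k then (1 / ((m : ℝ) * 2 ^ m)) * (pl a j k D * pl b j k (cD D)) else 0)
          T.1.1 T.1.2 T.2 := by
      intro T
      rw [mean_kP, mean_kQ]; unfold wμ
      dsimp only
      split_ifs <;> simp
    refine ((Finset.sum_congr rfl fun T _ => e1 T).trans (sum_frame (fun j k D =>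
      if j = k then (1 / ((m : ℝ) * 2 ^ m)) * (pl a j k D * pl b j k (cD D)) else 0))).trans ?_
    rw [sum_frame_split (fun j k D => (1 / ((m : ℝ) * 2 ^ m)) * (pl a j k D * pl b j k (cD D)))
      (fun _ _ _ => 0)]
    simp only [Finset.sum_const_zero, ite_self, add_zero]
    rw [hS1, Finset.sum_div]
    refine Finset.sum_congr rfl fun j _ => ?_
    rw [Finset.sum_div]
    refine Finset.sum_congr rfl fun D _ => ?_
    unfold XY; ring
  have rhs : ∑ T, wν m T * (lpn (kP T) p a * lpn (kQ T) p b)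
      = (1 / 10) / ((m : ℝ) * 2 ^ m) * S1p
        + (9 / 10) / ((m : ℝ) * ((m : ℝ) - 1) * 2 ^ m) * S2p := by
    have e1 : ∀ T : Frame m, wν m T * (lpn (kP T) p a * lpn (kQ T) p b)
        = (fun j k D => if j = k then ((1 / 10) / ((m : ℝ) * 2 ^ m)) * (nm a p j k D * nm b p j k (cD D))
            else ((9 / 10) / ((m : ℝ) * ((m : ℝ) - 1) * 2 ^ m)) * (nm a p j k D * nm b p j k (cD D)))
          T.1.1 T.1.2 T.2 := by
      intro T
      rw [lpn_kP, lpn_kQ]; unfold wν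
      dsimp only
      split_ifs <;> simp
    refine ((Finset.sum_congr rfl fun T _ => e1 T).trans (sum_frame (fun j k D =>
      if j = k then ((1 / 10) / ((m : ℝ) * 2 ^ m)) * (nm a p j k D * nm b p j k (cD D))
      else ((9 / 10) / ((m : ℝ) * ((m : ℝ) - 1) * 2 ^ m)) * (nm a p j k D * nm b p j k (cD D))))).trans ?_
    rw [sum_frame_split
      (fun j k D => ((1 / 10) / ((m : ℝ) * 2 ^ m)) * (nm a p j k D * nm b p j k (cD D)))
      (fun j k D => ((9 / 10) / ((m : ℝ) * ((m : ℝ) - 1) * 2 ^ m)) * (nm a p j k D * nm b p j k (cD D)))]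
    congr 1
    · rw [hS1p, Finset.mul_sum]
      refine Finset.sum_congr rfl fun j _ => ?_
      rw [Finset.mul_sum]
    · rw [hS2p, Finset.mul_sum]
      refine Finset.sum_congr rfl fun j _ => ?_
      rw [Finset.mul_sum]
      refine Finset.sum_congr rfl fun k _ => ?_
      split_ifs
      · simp
      · rw [Finset.mul_sum]
  rw [lhs, rhs]
  have hmain : ((m:ℝ) - 1) * S1 ≤ 63 / 100 * S2p + 7 / 100 * (((m:ℝ) - 1) * S1p) := by
    have h3 : 5120 * q ≤ 7 / 100 * ((m:ℝ) - 1) := by linarith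
    calc ((m:ℝ) - 1) * S1 ≤ 3 / 5 * S2 + 5120 * q * S1p := key
      _ ≤ 63 / 100 * S2p + (7 / 100 * ((m:ℝ) - 1)) * S1p := by
          refine add_le_add (by linarith) (mul_le_mul_of_nonneg_right h3 hS1p0)
      _ = _ := by ring
  have hpos : 0 < (m:ℝ) * ((m:ℝ) - 1) * 2 ^ m := by positivity
  have e1 : S1 / ((m : ℝ) * 2 ^ m) = (((m:ℝ) - 1) * S1) / ((m:ℝ) * ((m:ℝ) - 1) * 2 ^ m) := by
    field_simp
  have e2 : 7 / 10 * ((1 / 10) / ((m : ℝ) * 2 ^ m) * S1p
        + (9 / 10) / ((m : ℝ) * ((m : ℝ) - 1) * 2 ^ m) * S2p)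
      = (63 / 100 * S2p + 7 / 100 * (((m:ℝ) - 1) * S1p)) / ((m:ℝ) * ((m:ℝ) - 1) * 2 ^ m) := by
    field_simp
    ring
  rw [e1, e2]
  exact div_le_div_of_nonneg_right hmain hpos.le

end Pool.Agent.helper24.OT
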