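import Pool.Agent.helper24.OT.Cross
import Pool.Agent.helper24.OT.Defs

/-!
# Fixing the guesses of a nondeterministic machine
-/

namespace Pool.Agent.helper24.OT

open Finset

variable {A : Type} (M : NTM A) (g : ℕ)

/-- moves of the machine -/
abbrev Mv : Type := M.Q × M.Γ × SignType

/-- control states with a guess counter -/
abbrev St : Type := M.Q × Fin (g + 1)

open Classical in
/-- The deterministic machine which follows the guess strategy `ω`. -/
noncomputable def trw (ω : Fin g → M.Q → M.Γ → Mv M) (s : St M g) (γ : M.Γ) :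
    Option (St M g × M.Γ × SignType) :=
  if (M.δ s.1 γ).Nontrivial then
    (if hk : s.2.val < g then
      (if ω ⟨s.2.val, hk⟩ s.1 γ ∈ M.δ s.1 γ then
        some (((ω ⟨s.2.val, hk⟩ s.1 γ).1, ⟨s.2.val + 1, by omega⟩), (ω ⟨s.2.val, hk⟩ s.1 γ).2.1,
          (ω ⟨s.2.val, hk⟩ s.1 γ).2.2)
      else none)
    else none)
  else if h : (M.δ s.1 γ).Nonempty then some ((h.some.1, s.2), h.some.2.1, h.some.2.2)
  else none

variable {M g}

/-- acceptance for the deterministic machine -/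
def accw (s : St M g) : Prop := s.1 ∈ M.acc

lemma run_step {ω : Fin g → M.Q → M.Γ → Mv M} {p : ℤ} {s s' : St M g} {i : ℤ} {T : ℤ → M.Γ} {γ : M.Γ}
    {d : SignType} (h : ¬ accw s) (ht : trw M g ω s (T i) = some (s', γ, d)) {l : List (St M g)}
    {κ : ℤ → ℕ} {n : ℕ}
    (hr : Run (trw M g ω) accw p s' (i + (d : ℤ)) (Function.update T i γ) l κ n) :
    ∃ l' κ', Run (trw M g ω) accw p s i T l' κ' (n + 1) := by
  by_cases hc : (i < p ↔ i + (d : ℤ) < p)
  · exact ⟨_, _, Run.same h ht hc hr⟩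
  · exact ⟨_, _, Run.cross h ht hc hr⟩

theorem comp_run {d : ℕ} {pick : M.Q → M.Γ → Fin d → Mv M}
    (hpick : ∀ q γ, M.δ q γ ⊆ Set.range (pick q γ)) (p : ℤ) {c c' : Cfg M} {T G : ℕ}
    (h : M.Comp c T G c') (hacc : c'.q ∈ M.acc) :
    ∀ (k : ℕ) (hk : k + G ≤ g) (ω0 : ℕ → Fin d), ∃ ω : ℕ → Fin d, (∀ j, j < k → ω j = ω0 j) ∧
      ∃ l κ n, n ≤ T ∧ Run (trw M g (fun i q γ => pick q γ (ω i))) accw p
        (c.q, (⟨k, by omega⟩ : Fin (g + 1))) c.pos c.tape l κ n := by
  induction h with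
  | refl c =>
    intro k hk ω0
    exact ⟨ω0, fun _ _ => rfl, [], 0, 0, le_rfl, Run.acc hacc⟩
  | @step c c' T G r hr h ih =>
    intro k hk ω0
    by_cases hq : c.q ∈ M.acc
    · exact ⟨ω0, fun _ _ => rfl, [], 0, 0, Nat.zero_le _, Run.acc hq⟩
    · by_cases hnt : (M.moves c).Nontrivial
      · have hcost : M.cost c = 1 := by unfold NTM.cost; rw [if_pos hnt]
        rw [hcost] at hk
        obtain ⟨i0, hi0⟩ := hpick _ _ hr
        obtain ⟨ω, hω, l, κ, n, hn, hrun⟩ := ih hacc (k + 1) (by omega) (Function.update ω0 k i0)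
        refine ⟨ω, ?_, ?_⟩
        · intro j hj
          rw [hω j (by omega), Function.update_of_ne (by omega)]
        · have hωk : pick c.q (c.tape c.pos) (ω k) = r := by rw [hω k (by omega)]; simpa using hi0
          have htr : trw M g (fun i q γ => pick q γ (ω i)) (c.q, (⟨k, by omega⟩ : Fin (g + 1)))
              (c.tape c.pos) = some ((r.1, ⟨k + 1, by omega⟩), r.2.1, r.2.2) := by
            unfold trw
            have h1 : (M.δ c.q (c.tape c.pos)).Nontrivial := hnt
            have h2 : k < g := by omega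
            have h3 : pick c.q (c.tape c.pos) (ω k) ∈ M.δ c.q (c.tape c.pos) := by rw [hωk]; exact hr
            simp only [h1, if_true, h2, dif_pos, h3]
            rw [hωk]
          obtain ⟨l', κ', hr'⟩ := run_step (p := p) (s := (c.q, (⟨k, by omega⟩ : Fin (g + 1)))) hq htr hrun
          exact ⟨l', κ', n + 1, by omega, hr'⟩
      · have hcost : M.cost c = 0 := by unfold NTM.cost; rw [if_neg hnt]
        rw [hcost] at hk
        obtain ⟨ω, hω, l, κ, n, hn, hrun⟩ := ih hacc k (by omega) ω0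
        refine ⟨ω, hω, ?_⟩
        have htr : trw M g (fun i q γ => pick q γ (ω i)) (c.q, (⟨k, by omega⟩ : Fin (g + 1)))
            (c.tape c.pos) = some ((r.1, ⟨k, by omega⟩), r.2.1, r.2.2) := by
          unfold trw
          have h1 : ¬ (M.δ c.q (c.tape c.pos)).Nontrivial := hnt
          have h2 : (M.δ c.q (c.tape c.pos)).Nonempty := ⟨r, hr⟩
          have h3 : h2.some = r := (Set.not_nontrivial_iff.mp h1) h2.some_mem hr
          simp only [h1, if_false, h2, dif_pos]
          rw [h3]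
        obtain ⟨l', κ', hr'⟩ := run_step (p := p) (s := (c.q, (⟨k, by omega⟩ : Fin (g + 1)))) hq htr hrun
        exact ⟨l', κ', n + 1, by omega, hr'⟩

theorem run_comp {ω : Fin g → M.Q → M.Γ → Mv M} {p : ℤ} {s : St M g} {i : ℤ} {T : ℤ → M.Γ}
    {l : List (St M g)} {κ : ℤ → ℕ} {n : ℕ} (h : Run (trw M g ω) accw p s i T l κ n) :
    ∃ T' G' c', M.Comp ⟨s.1, i, T⟩ T' G' c' ∧ c'.q ∈ M.acc := by
  have key : ∀ {s s' : St M g} {i : ℤ} {T : ℤ → M.Γ} {γ : M.Γ} {d : SignType},
      trw M g ω s (T i) = some (s', γ, d) →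
      (∃ T' G' c', M.Comp ⟨s'.1, i + (d : ℤ), Function.update T i γ⟩ T' G' c' ∧ c'.q ∈ M.acc) →
      ∃ T' G' c', M.Comp ⟨s.1, i, T⟩ T' G' c' ∧ c'.q ∈ M.acc := by
    intro s s' i T γ d ht hc
    obtain ⟨T', G', c', hc, ha⟩ := hc
    have hmem : (s'.1, γ, d) ∈ M.δ s.1 (T i) := by
      unfold trw at ht
      split_ifs at ht with h1 h2 h3 h4
      · simp only [Option.some.injEq, Prod.mk.injEq] at ht
        obtain ⟨h5, h6, h7⟩ := ht
        rw [← h5, ← h6, ← h7]; exact h3
      · simp only [Option.some.injEq, Prod.mk.injEq] at ht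
        obtain ⟨h5, h6, h7⟩ := ht
        rw [← h5, ← h6, ← h7]; exact h4.some_mem
    exact ⟨_, _, c', NTM.Comp.step (c := ⟨s.1, i, T⟩) (s'.1, γ, d) hmem hc, ha⟩
  induction h with
  | acc h => exact ⟨0, 0, _, NTM.Comp.refl _, h⟩
  | same h ht hs hr ih => exact key ht ih
  | cross h ht hs hr ih => exact key ht ih

end Pool.Agent.helper24.OT
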