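import Mathlib

/-!
# A level-one inequality on the cube in `L_p` form
-/

namespace Pool.Agent.helper24.OT

open Finset

variable {ι : Type} [Fintype ι] [DecidableEq ι]

/-- average over the cube -/
noncomputable def cavg (f : (ι → Bool) → ℝ) : ℝ := (∑ r, f r) / 2 ^ Fintype.card ι

/-- sign of a bit -/
def sg (b : Bool) : ℝ := if b then 1 else -1

lemma cavg_nonneg {f : (ι → Bool) → ℝ} (hf : ∀ r, 0 ≤ f r) : 0 ≤ cavg f := by
  unfold cavg; exact div_nonneg (Finset.sum_nonneg fun r _ => hf r) (by positivity)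

lemma cavg_add (f g : (ι → Bool) → ℝ) : cavg (fun r => f r + g r) = cavg f + cavg g := by
  unfold cavg; rw [Finset.sum_add_distrib, add_div]

lemma cavg_mul_left (c : ℝ) (f : (ι → Bool) → ℝ) : cavg (fun r => c * f r) = c * cavg f := by
  unfold cavg; rw [← Finset.mul_sum, mul_div_assoc]

lemma cavg_mono {f g : (ι → Bool) → ℝ} (h : ∀ r, f r ≤ g r) : cavg f ≤ cavg g := by
  unfold cavg; gcongr; exact h _

lemma cavg_const (c : ℝ) : cavg (fun _ : ι → Bool => c) = c := by
  unfold cavg
  simp [Finset.sum_const]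

lemma cavg_exp (v : ι → ℝ) :
    cavg (fun r : ι → Bool => Real.exp (∑ k, v k * sg (r k))) = ∏ k, Real.cosh (v k) := by
  unfold cavg
  have h1 : ∀ r : ι → Bool, Real.exp (∑ k, v k * sg (r k)) = ∏ k, Real.exp (v k * sg (r k)) := by
    intro r; rw [Real.exp_sum]
  have h2 : ∑ r : ι → Bool, Real.exp (∑ k, v k * sg (r k))
      = ∏ k, ∑ b : Bool, Real.exp (v k * sg b) := by
    rw [Finset.prod_univ_sum]
    simp only [Fintype.piFinset_univ]
    exact Finset.sum_congr rfl fun r _ => h1 r
  rw [h2]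
  have h3 : ∀ k, ∑ b : Bool, Real.exp (v k * sg b) = 2 * Real.cosh (v k) := by
    intro k
    simp [sg, Real.cosh_eq]; ring
  simp only [h3, Finset.prod_mul_distrib, Finset.prod_const, Finset.card_univ]
  field_simp

/-- Hölder on the cube -/
lemma cavg_holder {p q : ℝ} (hpq : p.HolderConjugate q) {f g : (ι → Bool) → ℝ}
    (hf : ∀ r, 0 ≤ f r) (hg : ∀ r, 0 ≤ g r) :
    cavg (fun r => f r * g r) ≤ (cavg fun r => f r ^ p) ^ (1 / p) * (cavg fun r => g r ^ q) ^ (1 / q) := by
  unfold cavg
  have h := Real.inner_le_Lp_mul_Lq_of_nonneg (s := (Finset.univ : Finset (ι → Bool))) hpq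
    (f := f) (g := g) (fun r _ => hf r) (fun r _ => hg r)
  have h2 : (0:ℝ) < 2 ^ Fintype.card ι := by positivity
  have hp : 0 ≤ ∑ r, f r ^ p := Finset.sum_nonneg fun r _ => Real.rpow_nonneg (hf r) _
  have hq : 0 ≤ ∑ r, g r ^ q := Finset.sum_nonneg fun r _ => Real.rpow_nonneg (hg r) _
  rw [Real.div_rpow hp h2.le, Real.div_rpow hq h2.le, div_mul_div_comm,
    ← Real.rpow_add h2]
  have : 1 / p + 1 / q = 1 := by
    have := hpq.inv_add_inv_eq_one
    simpa [one_div] using this
  rw [this, Real.rpow_one]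
  gcongr

/-- **Level-one inequality.** -/
theorem level_one {p q : ℝ} (hpq : p.HolderConjugate q) {f : (ι → Bool) → ℝ}
    (hf : ∀ r, 0 ≤ f r) (hF : 0 < cavg f) :
    cavg f * ∑ k, (cavg (fun r => f r * sg (r k)) / cavg f) ^ 2
      ≤ 2 * q * (cavg fun r => f r ^ p) ^ (1 / p) := by
  set F := cavg f with hFdef
  set v : ι → ℝ := fun k => cavg (fun r => f r * sg (r k)) / F with hv
  set V : ℝ := ∑ k, v k ^ 2 with hV
  have hV0 : 0 ≤ V := Finset.sum_nonneg fun k _ => sq_nonneg _
  have hq0 : 0 < q := hpq.symm.pos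
  have hp0 : 0 < p := hpq.pos
  -- Jensen
  have hjen : Real.exp (V / q) ≤ cavg (fun r => f r * Real.exp ((∑ k, v k * sg (r k)) / q)) / F := by
    have hJ := (convexOn_exp).map_sum_le (t := (Finset.univ : Finset (ι → Bool)))
      (w := fun r => f r / (F * 2 ^ Fintype.card ι)) (p := fun r => (∑ k, v k * sg (r k)) / q)
      (fun r _ => by have := hf r; positivity)
      (by
        rw [← Finset.sum_div]
        rw [hFdef]; unfold cavg
        have h2 : (0:ℝ) < 2 ^ Fintype.card ι := by positivity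
        have : (∑ r, f r) ≠ 0 := by
          intro h0
          have : cavg f = 0 := by unfold cavg; rw [h0]; simp
          rw [← hFdef] at this; exact hF.ne' this
        field_simp)
      (fun r _ => Set.mem_univ _)
    simp only [smul_eq_mul] at hJ
    have e1 : ∑ r : ι → Bool, f r / (F * 2 ^ Fintype.card ι) * ((∑ k, v k * sg (r k)) / q) = V / q := by
      have e0 : ∀ r : ι → Bool, f r / (F * 2 ^ Fintype.card ι) * ((∑ k, v k * sg (r k)) / q)
          = (∑ k, v k * (f r * sg (r k))) / (F * 2 ^ Fintype.card ι * q) := by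
        intro r
        rw [div_mul_div_comm, Finset.mul_sum]
        congr 1
        exact Finset.sum_congr rfl fun k _ => by ring
      simp_rw [e0]
      rw [← Finset.sum_div, Finset.sum_comm]
      have e2 : ∀ k, ∑ r : ι → Bool, v k * (f r * sg (r k)) = v k ^ 2 * (F * 2 ^ Fintype.card ι) := by
        intro k
        rw [← Finset.mul_sum]
        have : ∑ r : ι → Bool, f r * sg (r k) = v k * (F * 2 ^ Fintype.card ι) := by
          simp only [hv]; unfold cavg
          have h2 : (2:ℝ) ^ Fintype.card ι ≠ 0 := by positivity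
          field_simp
        rw [this]; ring
      simp_rw [e2]
      rw [← Finset.sum_mul]
      have h2 : (0:ℝ) < 2 ^ Fintype.card ι := by positivity
      field_simp
      exact hV.symm
    rw [e1] at hJ
    refine hJ.trans (le_of_eq ?_)
    unfold cavg
    rw [div_div, Finset.sum_div]
    refine Finset.sum_congr rfl fun r _ => ?_
    rw [mul_comm F]
    ring
  have hhol := cavg_holder hpq hf (g := fun r : ι → Bool => Real.exp ((∑ k, v k * sg (r k)) / q))
    (fun r => (Real.exp_pos _).le)
  have e3 : (cavg fun r : ι → Bool => Real.exp ((∑ k, v k * sg (r k)) / q) ^ q)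
      = ∏ k, Real.cosh (v k) := by
    rw [← cavg_exp]
    congr 1
    funext r
    rw [← Real.exp_mul]
    congr 1
    field_simp
  have e4 : ∏ k, Real.cosh (v k) ≤ Real.exp (V / 2) := by
    rw [hV, Finset.sum_div, Real.exp_sum]
    refine Finset.prod_le_prod (fun k _ => (Real.cosh_pos _).le) fun k _ => ?_
    exact Real.cosh_le_exp_half_sq _
  have e5 : (∏ k, Real.cosh (v k)) ^ (1 / q) ≤ Real.exp (V / 2 / q) := by
    have h0 : 0 ≤ ∏ k, Real.cosh (v k) := Finset.prod_nonneg fun k _ => (Real.cosh_pos _).le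
    calc (∏ k, Real.cosh (v k)) ^ (1 / q) ≤ (Real.exp (V / 2)) ^ (1 / q) :=
          Real.rpow_le_rpow h0 e4 (by positivity)
      _ = Real.exp (V / 2 / q) := by rw [← Real.exp_mul]; congr 1; ring
  rw [e3] at hhol
  set N := (cavg fun r => f r ^ p) ^ (1 / p) with hN
  have hN0 : 0 ≤ N := Real.rpow_nonneg (cavg_nonneg fun r => Real.rpow_nonneg (hf r) _) _
  have h6 : F * Real.exp (V / q) ≤ N * Real.exp (V / 2 / q) := by
    rw [le_div_iff₀ hF] at hjen
    calc F * Real.exp (V / q) = Real.exp (V / q) * F := by ring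
      _ ≤ _ := hjen
      _ ≤ _ := hhol
      _ ≤ N * Real.exp (V / 2 / q) := by gcongr
  have h7 : F * Real.exp (V / 2 / q) ≤ N := by
    have hpos := Real.exp_pos (V / 2 / q)
    have : Real.exp (V / q) = Real.exp (V / 2 / q) * Real.exp (V / 2 / q) := by
      rw [← Real.exp_add]; congr 1; ring
    rw [this, ← mul_assoc] at h6
    exact le_of_mul_le_mul_right h6 hpos
  have h8 : V / 2 / q + 1 ≤ Real.exp (V / 2 / q) := Real.add_one_le_exp _
  have h9 : F * (V / 2 / q) ≤ N := by
    calc F * (V / 2 / q) ≤ F * Real.exp (V / 2 / q) := by gcongr; linarith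
      _ ≤ N := h7
  calc F * V = 2 * q * (F * (V / 2 / q)) := by field_simp
    _ ≤ 2 * q * N := by gcongr

end Pool.Agent.helper24.OT
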