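import Pool.Agent.helper24.OT.Cuts
import Pool.Agent.helper24.OT.Frames

/-!
# The lower bound, with explicit parameters
-/

namespace Pool.Agent.helper24.OT

open Finset

lemma pk_sum {n : ℕ} {β γ : Type} [Fintype γ] {P : β → γ → ℝ} (hP : ∀ T, ∑ x, P T x = 1)
    (T : Fin n → β) : ∑ x : Fin n → γ, pk P T x = 1 := by
  unfold pk
  have := (Finset.prod_univ_sum (fun _ : Fin n => (Finset.univ : Finset γ))
    (fun i x => P (T i) x)).symm
  simp only [Fintype.piFinset_univ] at this
  rw [this]; simp [hP]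

lemma pw_sum {n : ℕ} {β : Type} [Fintype β] {w : β → ℝ} (hw : ∑ x, w x = 1) :
    ∑ x : Fin n → β, pw w x = 1 := by
  unfold pw
  have := (Finset.prod_univ_sum (fun _ : Fin n => (Finset.univ : Finset β))
    (fun _ x => w x)).symm
  simp only [Fintype.piFinset_univ] at this
  rw [this]; simp [hw]

lemma jw_sum {X Y F : Type} [Fintype X] [Fintype Y] [Fintype F] {μ : F → ℝ} {P : F → X → ℝ}
    {Q : F → Y → ℝ} (hμ : ∑ T, μ T = 1) (hP1 : ∀ T, ∑ x, P T x = 1) (hQ1 : ∀ T, ∑ y, Q T y = 1) :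
    ∑ z, jw μ P Q z = 1 := by
  unfold jw
  rw [Finset.sum_comm]
  have : ∀ T, ∑ z : X × Y, μ T * (P T z.1 * Q T z.2) = μ T := by
    intro T
    rw [← Finset.mul_sum, Fintype.sum_prod_type]
    have : ∑ x, ∑ y, P T x * Q T y = 1 := by
      rw [← Finset.sum_mul_sum, hP1, hQ1, one_mul]
    rw [this, mul_one]
  simp only [this, hμ]

/-- the weight of a region -/
noncomputable def wreg (r m : ℕ) : BX r m × BX r m → ℝ := jw (pw (wμ m)) (pk kP) (pk kQ)

variable {s r m : ℕ}

lemma wreg_nonneg (z : BX r m × BX r m) : 0 ≤ wreg r m z :=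
  Finset.sum_nonneg fun T _ => mul_nonneg (pw_nonneg wμ_nonneg T)
    (mul_nonneg (pk_nonneg kP_nonneg T _) (pk_nonneg kQ_nonneg T _))

lemma wreg_sum (hm : 2 ≤ m) : ∑ z, wreg r m z = 1 :=
  jw_sum (pw_sum (wμ_sum hm)) (pk_sum kP_sum) (pk_sum kQ_sum)

lemma kP_supp {T : Frame m} {x : Fin m → Bool} (h : kP T x ≠ 0) : x T.1.1 = true := by
  by_contra hc
  apply h
  unfold kP cavg
  rw [Finset.sum_eq_zero, zero_div]
  intro v _
  rw [if_neg]
  intro he
  apply hc
  rw [← he]
  simp [pt2]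

lemma kQ_supp {T : Frame m} {x : Fin m → Bool} (h : kQ T x ≠ 0) : x T.1.1 = true := by
  by_contra hc
  apply h
  unfold kQ cavg
  rw [Finset.sum_eq_zero, zero_div]
  intro v _
  rw [if_neg]
  intro he
  apply hc
  rw [← he]
  simp [pt2]

lemma wreg_supp {z : BX r m × BX r m} (h : wreg r m z ≠ 0) (i : Fin r) :
    ∃ j, z.1 i j = true ∧ z.2 i j = true := by
  unfold wreg jw at h
  obtain ⟨T, _, hT⟩ := Finset.exists_ne_zero_of_sum_ne_zero h
  have h1 := left_ne_zero_of_mul (right_ne_zero_of_mul hT)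
  have h2 := right_ne_zero_of_mul (right_ne_zero_of_mul hT)
  unfold pk at h1 h2
  rw [Finset.prod_ne_zero_iff] at h1 h2
  exact ⟨(T i).1.1, kP_supp (h1 i (Finset.mem_univ _)), kQ_supp (h2 i (Finset.mem_univ _))⟩

lemma cutpos_inj {j j' o o' : ℕ} (ho : o < r * (m + 1)) (ho' : o' < r * (m + 1))
    (h : cutpos r m j o = cutpos r m j' o') : j = j' ∧ o = o' := by
  unfold cutpos at h
  rcases lt_trichotomy j j' with hj | hj | hj
  · exfalso
    have : (j + 1) * (3 * (r * (m + 1)) + 1) ≤ j' * (3 * (r * (m + 1)) + 1) :=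
      Nat.mul_le_mul_right _ hj
    rw [add_mul, one_mul] at this
    omega
  · subst hj; exact ⟨rfl, by omega⟩
  · exfalso
    have : (j' + 1) * (3 * (r * (m + 1)) + 1) ≤ j * (3 * (r * (m + 1)) + 1) :=
      Nat.mul_le_mul_right _ hj
    rw [add_mul, one_mul] at this
    omega

/-- **The lower bound.** -/
theorem lower {M : NTM (Fin 5)} {d : ℕ} {pick : M.Q → M.Γ → Fin d → Mv M}
    (hpick : ∀ q γ, M.δ q γ ⊆ Set.range (pick q γ)) (hd : 0 < d)
    {s r m g T c : ℕ} {p q : ℝ} (hpq : p.HolderConjugate q)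
    (hm : 2 ≤ m) (hq : 80000 * q ≤ (m : ℝ) - 1) (hr : 1 ≤ r) (hs : 1 ≤ s)
    (hT : 80 * T ≤ (c + 1) * (r * (m + 1)) * s)
    (hN : (((Nat.card M.Q * (g + 1) + 1) ^ c : ℕ) : ℝ) ^ (1 / q) ≤ (15 / 14) ^ r)
    (hD : (d : ℝ) ^ g * (91 / 100) ^ (r * s) < 1 / 2)
    (hyes : ∀ z : Fin s → BX r m × BX r m, Yes z →
      ∃ T' G, M.AcceptsIn (word z) T' G ∧ T' ≤ T ∧ G ≤ g)
    (hno : ∀ z : Fin s → BX r m × BX r m, ∀ T' G, M.AcceptsIn (word z) T' G → Yes z) : False := by
  classical
  have := M.finQ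
  have : Fintype M.Q := Fintype.ofFinite _
  have : Inhabited (Fin d) := ⟨⟨0, hd⟩⟩
  obtain ⟨h, hh⟩ : ∃ h, h = r * (m + 1) := ⟨_, rfl⟩
  have hh0 : 0 < h := by rw [hh]; positivity
  -- accepting runs
  have hrun : ∀ z : Fin s → BX r m × BX r m, ∃ (ω : Fin g → Fin d) (κ : ℤ → ℕ), Yes z →
      (∃ l n, Run (trw M g (fun i q γ => pick q γ (ω i))) accw 0 (st0 M g) 0 (M.init (word z)).tape l κ n) ∧
      ∀ F : Finset ℤ, ∑ c ∈ F, κ c ≤ T := by
    intro z
    by_cases hz : Yes z
    · obtain ⟨T', G, ⟨c', hc', ha⟩, hT', hG⟩ := hyes z hz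
      obtain ⟨ω, _, l, κ, n, hn, hr⟩ := comp_run (g := g) hpick 0 hc' ha 0 (by omega) (fun _ => default)
      exact ⟨fun i => ω i, κ, fun _ => ⟨⟨l, n, hr⟩, fun F => ((hr.total F).trans hn).trans hT'⟩⟩
    · exact ⟨fun _ => default, 0, fun h => absurd h hz⟩
  choose ω κ hωκ using hrun
  -- the weights
  set ρ : Fin s → BX r m × BX r m → ℝ := fun _ => wreg r m with hρ
  have hρ0 : ∀ k z, 0 ≤ ρ k z := fun k z => wreg_nonneg z
  have hρ1 : ∀ k, ∑ z, ρ k z = 1 := fun k => wreg_sum hm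
  have hW0 : ∀ z : Fin s → BX r m × BX r m, 0 ≤ ∏ k, ρ k (z k) :=
    fun z => Finset.prod_nonneg fun k _ => hρ0 k _
  have hWyes : ∀ z : Fin s → BX r m × BX r m, ∏ k, ρ k (z k) ≠ 0 → Yes z := by
    intro z hz k i
    rw [Finset.prod_ne_zero_iff] at hz
    exact wreg_supp (hz k (Finset.mem_univ _)) i
  -- number of regions with many crossings
  let X : ℕ → (Fin s → BX r m × BX r m) → ℕ := fun o z =>
    (Finset.univ.filter fun j : Fin s => c < κ z (cutpos r m j o)).card
  have hX : ∀ z, Yes z → (c + 1) * ∑ o ∈ Finset.range h, X o z ≤ T := by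
    intro z hz
    have h1 : ∀ o ∈ Finset.range h, (c + 1) * X o z ≤ ∑ j : Fin s, κ z (cutpos r m j o) := by
      intro o _
      calc (c + 1) * X o z = ∑ j ∈ Finset.univ.filter fun j : Fin s => c < κ z (cutpos r m j o), (c + 1) := by
            rw [Finset.sum_const, smul_eq_mul, mul_comm]
        _ ≤ ∑ j ∈ Finset.univ.filter fun j : Fin s => c < κ z (cutpos r m j o), κ z (cutpos r m j o) :=
            Finset.sum_le_sum fun j hj => (Finset.mem_filter.mp hj).2
        _ ≤ ∑ j : Fin s, κ z (cutpos r m j o) :=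
            Finset.sum_le_sum_of_subset (Finset.filter_subset _ _)
    rw [Finset.mul_sum]
    refine (Finset.sum_le_sum h1).trans ?_
    rw [← Finset.sum_product']
    have h2 := (hωκ z hz).2 ((Finset.range h ×ˢ (Finset.univ : Finset (Fin s))).image
      fun v => ((cutpos r m v.2 v.1 : ℕ) : ℤ))
    rw [Finset.sum_image] at h2
    · exact h2
    · rintro ⟨o, j⟩ hv ⟨o', j'⟩ hv' he
      simp only [Finset.coe_product, Set.mem_prod, Finset.mem_coe, Finset.mem_range,
        Finset.mem_univ, and_true] at hv hv'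
      have he' : cutpos r m j o = cutpos r m j' o' := Nat.cast_injective (R := ℤ) he
      obtain ⟨e1, e2⟩ := cutpos_inj (by omega) (by omega) he'
      rw [e2, Fin.ext e1]
  -- choice of the offset
  obtain ⟨o, hoh, ho⟩ : ∃ o ∈ Finset.range h, EE ρ (fun z => (X o z : ℝ)) ≤ (s : ℝ) / 80 := by
    apply Finset.exists_le_of_sum_le (Finset.nonempty_range_iff.mpr hh0.ne')
    have h1 : ∑ o ∈ Finset.range h, EE ρ (fun z => (X o z : ℝ))
        = ∑ z, (∏ k, ρ k (z k)) * ∑ o ∈ Finset.range h, (X o z : ℝ) := by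
      unfold EE
      rw [Finset.sum_comm]
      simp only [Finset.mul_sum]
    rw [h1]
    have hc1 : (0:ℝ) < (c:ℝ) + 1 := by positivity
    have h2 : ∑ z, (∏ k, ρ k (z k)) * ∑ o ∈ Finset.range h, (X o z : ℝ)
        ≤ ∑ z : Fin s → BX r m × BX r m, (∏ k, ρ k (z k)) * ((T:ℝ) / ((c:ℝ) + 1)) := by
      refine Finset.sum_le_sum fun z _ => ?_
      by_cases hz : ∏ k, ρ k (z k) = 0
      · rw [hz, zero_mul, zero_mul]
      · refine mul_le_mul_of_nonneg_left ?_ (hW0 z)
        rw [le_div_iff₀ hc1]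
        have := hX z (hWyes z hz)
        have h3 : (((c + 1) * ∑ o ∈ Finset.range h, X o z : ℕ) : ℝ) ≤ T := by exact_mod_cast this
        push_cast at h3
        linarith
    refine h2.trans ?_
    have h4 : ∑ z : Fin s → BX r m × BX r m, (∏ k, ρ k (z k)) * ((T:ℝ) / ((c:ℝ) + 1))
        = (T:ℝ) / ((c:ℝ) + 1) := by
      have := EE_one ρ hρ1
      unfold EE at this
      simp only [mul_one] at this
      rw [← Finset.sum_mul, this, one_mul]
    rw [h4, Finset.sum_const, Finset.card_range, nsmul_eq_mul, div_le_iff₀ hc1]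
    have h5 : ((80 * T : ℕ) : ℝ) ≤ (((c + 1) * (r * (m + 1)) * s : ℕ) : ℝ) := by exact_mod_cast hT
    rw [← hh] at h5
    push_cast at h5
    linarith
  have hoh' : o ≤ r * (m + 1) := by rw [← hh]; exact (Finset.mem_range.mp hoh).le
  -- good inputs
  let Gd : (Fin s → BX r m × BX r m) → Prop := fun z => Yes z ∧ 40 * X o z ≤ s
  have hs0 : (0:ℝ) < s := by exact_mod_cast hs
  have hhalf : 1 / 2 ≤ EE ρ (ind Gd) := by
    have h1 : EE ρ (fun z => 1 - 40 / s * (X o z : ℝ)) ≤ EE ρ (ind Gd) := by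
      refine Finset.sum_le_sum fun z _ => ?_
      by_cases hz : ∏ k, ρ k (z k) = 0
      · rw [hz, zero_mul, zero_mul]
      · refine mul_le_mul_of_nonneg_left ?_ (hW0 z)
        by_cases hG : Gd z
        · have : ind Gd z = 1 := if_pos hG
          rw [this]
          have : 0 ≤ 40 / s * (X o z : ℝ) := by positivity
          linarith
        · have : ind Gd z = 0 := if_neg hG
          rw [this]
          have h2 : s < 40 * X o z := by
            by_contra hc
            exact hG ⟨hWyes z hz, not_lt.mp hc⟩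
          have h3 : (s:ℝ) < 40 * (X o z : ℝ) := by exact_mod_cast h2
          have h4 : 1 ≤ 40 / s * (X o z : ℝ) := by
            rw [div_mul_eq_mul_div, le_div_iff₀ hs0]; linarith
          linarith
    have h2 : EE ρ (fun z => 1 - 40 / s * (X o z : ℝ)) = 1 - 40 / s * EE ρ (fun z => (X o z : ℝ)) := by
      have h3 := EE_one ρ hρ1
      unfold EE at h3 ⊢
      rw [Finset.mul_sum]
      simp only [mul_one] at h3
      nth_rewrite 2 [← h3]
      rw [← Finset.sum_sub_distrib]
      refine Finset.sum_congr rfl fun z _ => by ring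
    have h5 : 40 / s * EE ρ (fun z => (X o z : ℝ)) ≤ 1 / 2 := by
      calc 40 / s * EE ρ (fun z => (X o z : ℝ)) ≤ 40 / s * (s / 80) :=
            mul_le_mul_of_nonneg_left ho (by positivity)
        _ = 1 / 2 := by field_simp; norm_num
    linarith
  -- union bound
  have hpt : ∀ z, ind Gd z ≤ ∑ w : Fin g → Fin d, ∑ J : Finset (Fin s),
      ((53 / 50 : ℝ) ^ (r * s) * ((1 / 10) ^ r) ^ (s - J.card)) * ind (AccP M g (fun i q γ => pick q γ (w i)) J c o) z := by
    intro z
    have hnn : ∀ (w : Fin g → Fin d) (J : Finset (Fin s)),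
        0 ≤ ((53 / 50 : ℝ) ^ (r * s) * ((1 / 10) ^ r) ^ (s - J.card)) * ind (AccP M g (fun i q γ => pick q γ (w i)) J c o) z :=
      fun w J => mul_nonneg (by positivity) (ind_nonneg _ _)
    by_cases hG : Gd z
    · have hi : ind Gd z = 1 := if_pos hG
      rw [hi]
      set J : Finset (Fin s) := Finset.univ.filter fun j : Fin s => ¬ c < κ z (cutpos r m j o) with hJ
      have hJc : s - J.card = X o z := by
        have := Finset.card_filter_add_card_filter_not (s := (Finset.univ : Finset (Fin s)))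
          (fun j : Fin s => c < κ z (cutpos r m j o))
        rw [Finset.card_univ, Fintype.card_fin, ← hJ] at this
        change s - J.card = (Finset.univ.filter fun j : Fin s => c < κ z (cutpos r m j o)).card
        omega
      have hA : AccP M g (fun i q γ => pick q γ (ω z i)) J c o z := by
        obtain ⟨⟨l, n, hrn⟩, _⟩ := hωκ z hG.1
        refine ⟨l, κ z, n, hrn, fun j hj => ?_⟩
        exact not_lt.mp (Finset.mem_filter.mp hj).2
      have h1 : (1:ℝ) ≤ ((53 / 50 : ℝ) ^ (r * s) * ((1 / 10) ^ r) ^ (s - J.card)) * ind (AccP M g (fun i q γ => pick q γ (ω z i)) J c o) z := by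
        have : ind (AccP M g (fun i q γ => pick q γ (ω z i)) J c o) z = 1 := if_pos hA
        rw [this, mul_one, hJc, ← pow_mul, one_div, inv_pow, ← div_eq_mul_inv, le_div_iff₀ (by positivity), one_mul]
        calc (10:ℝ) ^ (r * X o z) ≤ ((53 / 50 : ℝ) ^ 40) ^ (r * X o z) :=
              pow_le_pow_left₀ (by norm_num) (by norm_num) _
          _ = (53 / 50 : ℝ) ^ (40 * (r * X o z)) := by rw [← pow_mul]
          _ ≤ (53 / 50 : ℝ) ^ (r * s) := by
              refine pow_le_pow_right₀ (by norm_num) ?_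
              calc 40 * (r * X o z) = r * (40 * X o z) := by ring
                _ ≤ r * s := Nat.mul_le_mul_left _ hG.2
      refine h1.trans ((Finset.single_le_sum (f := fun J : Finset (Fin s) =>
        ((53 / 50 : ℝ) ^ (r * s) * ((1 / 10) ^ r) ^ (s - J.card)) * ind (AccP M g (fun i q γ => pick q γ (ω z i)) J c o) z)
        (fun J _ => hnn (ω z) J) (Finset.mem_univ J)).trans ?_)
      exact Finset.single_le_sum (f := fun w : Fin g → Fin d => ∑ J : Finset (Fin s),
        ((53 / 50 : ℝ) ^ (r * s) * ((1 / 10) ^ r) ^ (s - J.card)) * ind (AccP M g (fun i q γ => pick q γ (w i)) J c o) z)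
        (fun w _ => Finset.sum_nonneg fun J _ => hnn w J) (Finset.mem_univ (ω z))
    · have hi : ind Gd z = 0 := if_neg hG
      rw [hi]
      exact Finset.sum_nonneg fun w _ => Finset.sum_nonneg fun J _ => hnn w J
  -- the bound for each guess string and each set of regions
  have hp1 : 1 ≤ p := hpq.lt.le
  have hdp : ∀ (w : Fin g → Fin d) (J : Finset (Fin s)),
      EE ρ (ind (AccP M g (fun i q γ => pick q γ (w i)) J c o)) ≤ ((3 / 4 : ℝ) ^ r) ^ J.card := by
    intro w J
    have hcmp := (cmp_frame hpq hm hq).tensor wμ_nonneg (wν_nonneg hm) kP_nonneg kQ_nonneg hp1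
      (by norm_num) r
    have h1 := dp (X := BX r m) (Y := BX r m) hpq (pw_nonneg (wν_nonneg hm)) (pw_sum (wν_sum hm))
      (pk_nonneg kP_nonneg) (pk_nonneg kQ_nonneg) (pk_sum kP_sum) (pk_sum kQ_sum) (by positivity)
      hcmp (Acc := AccP M g (fun i q γ => pick q γ (w i)) J c o) (s := s) (N := (Nat.card M.Q * (g + 1) + 1) ^ c)
      (by
        rintro z ⟨l, κ', n, hrn, _⟩ k i
        obtain ⟨T', G', c', hc', ha⟩ := run_comp hrn
        exact hno z T' G' ⟨c', hc', ha⟩ k i) J
      (fun k hk => hasCut M g (fun i q γ => pick q γ (w i)) J c o hoh' hk) ρ hρ0 hρ1 (fun k _ => rfl)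
    refine h1.trans ?_
    refine pow_le_pow_left₀ (by positivity) ?_ _
    calc (7 / 10 : ℝ) ^ r * (((Nat.card M.Q * (g + 1) + 1) ^ c : ℕ) : ℝ) ^ (1 / q)
        ≤ (7 / 10 : ℝ) ^ r * (15 / 14) ^ r := mul_le_mul_of_nonneg_left hN (by positivity)
      _ = (3 / 4 : ℝ) ^ r := by rw [← mul_pow]; norm_num
  have hfin : EE ρ (ind Gd) ≤ (d : ℝ) ^ g * (91 / 100) ^ (r * s) := by
    calc EE ρ (ind Gd) ≤ EE ρ (fun z => ∑ w : Fin g → Fin d, ∑ J : Finset (Fin s),
          ((53 / 50 : ℝ) ^ (r * s) * ((1 / 10) ^ r) ^ (s - J.card)) * ind (AccP M g (fun i q γ => pick q γ (w i)) J c o) z) :=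
          EE_mono hρ0 hpt
      _ = ∑ w : Fin g → Fin d, ∑ J : Finset (Fin s),
          ((53 / 50 : ℝ) ^ (r * s) * ((1 / 10) ^ r) ^ (s - J.card)) * EE ρ (ind (AccP M g (fun i q γ => pick q γ (w i)) J c o)) := by
          rw [EE_sum ρ (fun (w : Fin g → Fin d) z => ∑ J : Finset (Fin s),
            ((53 / 50 : ℝ) ^ (r * s) * ((1 / 10) ^ r) ^ (s - J.card)) * ind (AccP M g (fun i q γ => pick q γ (w i)) J c o) z)]
          refine Finset.sum_congr rfl fun w _ => ?_
          rw [EE_sum ρ (fun J z =>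
            ((53 / 50 : ℝ) ^ (r * s) * ((1 / 10) ^ r) ^ (s - J.card)) * ind (AccP M g (fun i q γ => pick q γ (w i)) J c o) z)]
          refine Finset.sum_congr rfl fun J _ => ?_
          unfold EE
          rw [Finset.mul_sum]
          refine Finset.sum_congr rfl fun z _ => by ring
      _ ≤ ∑ w : Fin g → Fin d, ∑ J : Finset (Fin s),
          ((53 / 50 : ℝ) ^ (r * s) * ((1 / 10) ^ r) ^ (s - J.card)) * ((3 / 4 : ℝ) ^ r) ^ J.card :=
          Finset.sum_le_sum fun w _ => Finset.sum_le_sum fun J _ =>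
            mul_le_mul_of_nonneg_left (hdp w J) (by positivity)
      _ = (d : ℝ) ^ g * ((53 / 50 : ℝ) ^ (r * s) * ((3 / 4 : ℝ) ^ r + (1 / 10) ^ r) ^ s) := by
          have h1 := Fintype.sum_pow_mul_eq_add_pow (Fin s) ((3 / 4 : ℝ) ^ r) ((1 / 10 : ℝ) ^ r)
          rw [Fintype.card_fin] at h1
          rw [Finset.sum_const, Finset.card_univ, Fintype.card_fun, Fintype.card_fin,
            nsmul_eq_mul, Fintype.card_fin, ← h1]
          push_cast
          congr 1
          rw [Finset.mul_sum]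
          refine Finset.sum_congr rfl fun J _ => by ring
      _ ≤ (d : ℝ) ^ g * ((53 / 50 : ℝ) ^ (r * s) * ((17 / 20 : ℝ) ^ r) ^ s) := by
          have h2 : (3 / 4 : ℝ) ^ r + (1 / 10) ^ r ≤ (17 / 20) ^ r := by
            have := pow_add_pow_le (show (0:ℝ) ≤ 3 / 4 by norm_num) (show (0:ℝ) ≤ 1 / 10 by norm_num)
              (show r ≠ 0 by omega)
            refine this.trans (le_of_eq ?_)
            norm_num
          refine mul_le_mul_of_nonneg_left ?_ (by positivity)
          refine mul_le_mul_of_nonneg_left ?_ (by positivity)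
          exact pow_le_pow_left₀ (by positivity) h2 _
      _ ≤ (d : ℝ) ^ g * (91 / 100) ^ (r * s) := by
          refine mul_le_mul_of_nonneg_left ?_ (by positivity)
          rw [← pow_mul, ← mul_pow]
          exact pow_le_pow_left₀ (by norm_num) (by norm_num) _
  linarith

end Pool.Agent.helper24.OT
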