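import Pool.Agent.helper24.OT.Multi

/-!
# Macro machines

A machine with one work tape which works in macro steps: a left-to-right sweep over the work tape,
then one move of the input head.
-/

namespace Pool.Agent.helper24.OT

/-- the decision at the right end of a sweep -/
inductive Verd (P : Type) where
  | acc : Verd P
  | rej : Verd P
  | cont (p : P) (grow : Bool) (d : SignType) : Verd P

/-- A macro machine. -/
structure Mac (A : Type) where
  /-- states -/
  P : Type
  /-- cell contents -/
  C : Type
  /-- finitely many states -/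
  finP : Finite P
  /-- finitely many cell contents -/
  finC : Finite C
  /-- a new cell -/
  c0 : C
  /-- initial state -/
  start : P
  /-- one step of the transducer -/
  st : P → C → Set (P × C)
  /-- the decision at the right end -/
  fin : P → Option A → Verd P

/-- the states of the Turing machine of a macro machine -/
inductive MSt (P : Type) where
  | R (p : P) : MSt P
  | L (p : P) : MSt P
  | acc : MSt P

theorem MSt.finite {P : Type} [Finite P] : Finite (MSt P) := by
  let f : MSt P → Option (P ⊕ P) := fun s => match s with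
    | .R p => some (Sum.inl p)
    | .L p => some (Sum.inr p)
    | .acc => none
  refine Finite.of_injective f ?_
  rintro (p | p | _) (p' | p' | _) h <;> simp_all [f]

namespace Mac

variable {A : Type} (W : Mac A)

open Classical in
/-- `1` if the step offers a genuine choice -/
noncomputable def ncost (p : W.P) (c : W.C) : ℕ := if (W.st p c).Nontrivial then 1 else 0

/-- one sweep over a list of cells, with the number of genuine choices -/
inductive Sw : W.P → List W.C → ℕ → W.P → List W.C → Prop
  | nil (p : W.P) : Sw p [] 0 p []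
  | cons {p p1 : W.P} {c c1 : W.C} {l : List W.C} {n : ℕ} {p' : W.P} {l' : List W.C}
      (hb : (p1, c1) ∈ W.st p c) (h : Sw p1 l n p' l') : Sw p (c :: l) (W.ncost p c + n) p' (c1 :: l')

/-- the work tape after a macro step -/
def ext (g : Bool) (l : List W.C) : List W.C := if g then l ++ [W.c0] else l

/-- acceptance, with the number of sweeps, the number of genuine choices and a bound for the length
of the work tape -/
inductive MA (w : List A) (m : ℕ) : W.P → ℤ → List W.C → ℕ → ℕ → Prop
  | last {p p' : W.P} {i : ℤ} {l l' : List W.C} {G : ℕ} (hm : l.length ≤ m) (h : W.Sw p l G p' l')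
      (hf : W.fin p' (MTM.read w i) = Verd.acc) : MA w m p i l 1 G
  | more {p p' p'' : W.P} {i : ℤ} {l l' : List W.C} {g : Bool} {d : SignType} {k G G' : ℕ}
      (hm : l.length ≤ m) (h : W.Sw p l G p' l')
      (hf : W.fin p' (MTM.read w i) = Verd.cont p'' g d)
      (h' : MA w m p'' (i + (d : ℤ)) (W.ext g l') k G') : MA w m p i l (k + 1) (G + G')

/-- a move of the Turing machine -/
abbrev Mov : Type := MSt W.P × (Fin 1 → Option W.C) × SignType × (Fin 1 → SignType)

/-- the move with the given components -/
def mov (s : MSt W.P) (x : Option W.C) (d d' : SignType) : W.Mov := (s, fun _ => x, d, fun _ => d')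

/-- the transition relation of the Turing machine -/
def delta : MSt W.P → Option A → Option W.C → Set W.Mov
  | .R p, _, some c => {r | ∃ p' c', (p', c') ∈ W.st p c ∧ r = W.mov (.R p') (some c') 0 1}
  | .R p, σ, none => match W.fin p σ with
    | .acc => {W.mov .acc none 0 0}
    | .rej => ∅
    | .cont p' g d => {W.mov (.L p') (if g then some W.c0 else none) d (-1)}
  | .L p, _, some c => {W.mov (.L p) (some c) 0 (-1)}
  | .L p, _, none => {W.mov (.R p) none 0 1}
  | .acc, _, _ => ∅

/-- the Turing machine -/
@[reducible] def toMTM : MTM A where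
  k := 1
  Q := MSt W.P
  Γ := Option W.C
  finQ := by
    have := W.finP
    exact MSt.finite
  finΓ := by
    have := W.finC
    infer_instance
  blank := none
  start := MSt.R W.start
  acc := {MSt.acc}
  δ := fun s σ x => W.delta s σ (x 0)

/-- the tape with contents `l` -/
def tp (l : List W.C) : ℤ → Option W.C := fun i => if 0 ≤ i then l[i.toNat]? else none

theorem tp_neg (l : List W.C) : W.tp l (-1) = none := by simp [tp]

theorem tp_end (l : List W.C) : W.tp l (l.length : ℤ) = none := by simp [tp]

theorem tp_mid (pre suf : List W.C) (c : W.C) :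
    W.tp (pre ++ c :: suf) (pre.length : ℤ) = some c := by
  simp [tp]

theorem tp_update (pre suf : List W.C) (c c' : W.C) :
    Function.update (W.tp (pre ++ c :: suf)) (pre.length : ℤ) (some c') =
      W.tp (pre ++ c' :: suf) := by
  funext i
  by_cases h : i = (pre.length : ℤ)
  · subst h
    rw [Function.update_self, tp_mid]
  · rw [Function.update_of_ne h]
    unfold tp
    by_cases h0 : 0 ≤ i
    · simp only [h0, if_true]
      have hne : i.toNat ≠ pre.length := by omega
      rcases lt_or_gt_of_ne hne with hlt | hgt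
      · rw [List.getElem?_append_left hlt, List.getElem?_append_left hlt]
      · rw [List.getElem?_append_right hgt.le, List.getElem?_append_right hgt.le]
        obtain ⟨k, hk⟩ : ∃ k, i.toNat - pre.length = k + 1 := ⟨i.toNat - pre.length - 1, by omega⟩
        rw [hk]
        simp
    · simp [h0]

theorem tp_update_end (l : List W.C) (g : Bool) :
    Function.update (W.tp l) (l.length : ℤ) (if g then some W.c0 else none) = W.tp (W.ext g l) := by
  cases g with
  | false =>
    simp only [ext, Bool.false_eq_true, if_false]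
    rw [← W.tp_end l]
    exact Function.update_eq_self _ _
  | true =>
    simp only [ext, if_true]
    funext i
    by_cases h : i = (l.length : ℤ)
    · subst h
      rw [Function.update_self]
      exact (W.tp_mid l [] W.c0).symm
    · rw [Function.update_of_ne h]
      unfold tp
      by_cases h0 : 0 ≤ i
      · simp only [h0, if_true]
        have hne : i.toNat ≠ l.length := by omega
        rcases lt_or_gt_of_ne hne with hlt | hgt
        · rw [List.getElem?_append_left hlt]
        · rw [List.getElem?_append_right hgt.le, List.getElem?_eq_none (by omega),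
            List.getElem?_eq_none (by simp; omega)]
      · simp [h0]

theorem update_self (l : List W.C) (i : ℤ) : Function.update (W.tp l) i (W.tp l i) = W.tp l :=
  Function.update_eq_self _ _

/-- a configuration -/
def cfg (q : MSt W.P) (i : ℤ) (j : ℤ) (l : List W.C) : MCfg W.toMTM :=
  ⟨q, i, fun _ => W.tp l, fun _ => j⟩

theorem init_eq : W.toMTM.init = W.cfg (.R W.start) 0 0 [] := by
  unfold MTM.init cfg
  congr 1
  funext _ i
  unfold tp
  split_ifs <;> simp

variable (w : List A)

theorem moves_eq (q : MSt W.P) (i j : ℤ) (l : List W.C) :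
    W.toMTM.moves w (W.cfg q i j l) = W.delta q (MTM.read w i) (W.tp l j) := rfl

theorem next_eq (q q' : MSt W.P) (i j : ℤ) (l : List W.C) (x : Option W.C) (d d' : SignType) :
    W.toMTM.next (W.cfg q i j l) (W.mov q' x d d') =
      ⟨q', i + (d : ℤ), fun _ => Function.update (W.tp l) j x, fun _ => j + (d' : ℤ)⟩ := rfl

theorem cost_R_some (p : W.P) (i : ℤ) (pre suf : List W.C) (c : W.C) :
    W.toMTM.cost w (W.cfg (.R p) i pre.length (pre ++ c :: suf)) = W.ncost p c := by
  unfold MTM.cost ncost
  rw [moves_eq, tp_mid]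
  simp only [delta]
  by_cases h : (W.st p c).Nontrivial
  · rw [if_pos h, if_pos]
    obtain ⟨⟨p1, c1⟩, h1, ⟨p2, c2⟩, h2, hne⟩ := h
    refine ⟨_, ⟨p1, c1, h1, rfl⟩, _, ⟨p2, c2, h2, rfl⟩, ?_⟩
    intro e
    apply hne
    simp only [mov, Prod.mk.injEq, MSt.R.injEq, and_true] at e
    have e2 := congrFun e.2 0
    simp only [Option.some.injEq] at e2
    rw [e.1, e2]
  · rw [if_neg h, if_neg]
    rintro ⟨r, ⟨p1, c1, h1, rfl⟩, r', ⟨p2, c2, h2, rfl⟩, hne⟩
    apply h
    refine ⟨_, h1, _, h2, ?_⟩
    intro e
    apply hne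
    simp only [Prod.mk.injEq] at e
    rw [e.1, e.2]

theorem cost_sub {c : MCfg W.toMTM} {a : W.Mov} (h : W.toMTM.moves w c ⊆ {a}) :
    W.toMTM.cost w c = 0 := by
  unfold MTM.cost
  rw [if_neg]
  rintro ⟨r, hr, r', hr', hne⟩
  exact hne ((h hr).trans (h hr').symm)

theorem next_R_some (p p1 : W.P) (i : ℤ) (pre suf : List W.C) (c c1 : W.C) :
    W.toMTM.next (W.cfg (.R p) i pre.length (pre ++ c :: suf)) (W.mov (.R p1) (some c1) 0 1) =
      W.cfg (.R p1) i (pre ++ [c1]).length ((pre ++ [c1]) ++ suf) := by
  rw [next_eq, tp_update]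
  unfold cfg
  simp

theorem moves_L (p : W.P) (i j : ℤ) (l : List W.C) (h0 : 0 ≤ j) (h1 : j < l.length) :
    W.toMTM.moves w (W.cfg (.L p) i j l) = {W.mov (.L p) (W.tp l j) 0 (-1)} := by
  rw [moves_eq]
  obtain ⟨c, hc⟩ : ∃ c, W.tp l j = some c := by
    unfold tp
    rw [if_pos h0]
    have : j.toNat < l.length := by omega
    exact ⟨l[j.toNat], List.getElem?_eq_getElem this⟩
  rw [hc]
  rfl

theorem moves_L_end (p : W.P) (i : ℤ) (l : List W.C) :
    W.toMTM.moves w (W.cfg (.L p) i (-1) l) = {W.mov (.R p) none 0 1} := by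
  rw [moves_eq, tp_neg]
  rfl

theorem next_L (p : W.P) (i j : ℤ) (l : List W.C) :
    W.toMTM.next (W.cfg (.L p) i j l) (W.mov (.L p) (W.tp l j) 0 (-1)) = W.cfg (.L p) i (j - 1) l := by
  rw [next_eq, update_self]
  unfold cfg
  simp
  rfl

theorem next_L_end (p : W.P) (i : ℤ) (l : List W.C) :
    W.toMTM.next (W.cfg (.L p) i (-1) l) (W.mov (.R p) none 0 1) = W.cfg (.R p) i 0 l := by
  rw [next_eq]
  have h := W.update_self l (-1)
  rw [tp_neg] at h
  rw [h]
  unfold cfg
  simp

theorem next_R_end (p : W.P) (q : MSt W.P) (g : Bool) (d d' : SignType) (i : ℤ) (l : List W.C) :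
    W.toMTM.next (W.cfg (.R p) i l.length l) (W.mov q (if g then some W.c0 else none) d d') =
      W.cfg q (i + (d : ℤ)) (l.length + (d' : ℤ)) (W.ext g l) := by
  rw [next_eq, tp_update_end]
  rfl

theorem moves_R_end (p : W.P) (i : ℤ) (l : List W.C) :
    W.toMTM.moves w (W.cfg (.R p) i l.length l) = W.delta (.R p) (MTM.read w i) none := by
  rw [moves_eq, tp_end]

/-! ### From computations to sweeps -/

theorem right_of_comp (S : ℕ) (i : ℤ) (suf : List W.C) : ∀ (pre : List W.C) (p : W.P) (T G : ℕ)
    (c' : MCfg W.toMTM), W.toMTM.Comp w S (W.cfg (.R p) i pre.length (pre ++ suf)) T G c' →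
    c'.q = MSt.acc → ∃ (p' : W.P) (suf' : List W.C) (G1 T2 G2 : ℕ), W.Sw p suf G1 p' suf' ∧
      W.toMTM.Comp w S (W.cfg (.R p') i (pre ++ suf').length (pre ++ suf')) T2 G2 c' ∧
      G = G1 + G2 ∧ T2 ≤ T := by
  induction suf with
  | nil =>
    intro pre p T G c' h _
    refine ⟨p, [], 0, T, G, Sw.nil p, ?_, by ring, le_rfl⟩
    simpa using h
  | cons c suf ih =>
    intro pre p T G c' h hq
    rcases h with _ | ⟨r, hSS, hr, h⟩
    · exact absurd hq (by simp [cfg])
    · rename_i T' G'
      rw [moves_eq, tp_mid] at hr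
      obtain ⟨p1, c1, hb, rfl⟩ := hr
      rw [next_R_some] at h
      obtain ⟨p', suf', G1, T2, G2, h1, h2, h3, h4⟩ := ih _ _ _ _ _ h hq
      refine ⟨p', c1 :: suf', W.ncost p c + G1, T2, G2, Sw.cons hb h1, ?_, ?_, by omega⟩
      · simpa using h2
      · rw [cost_R_some]; omega

theorem left_of_comp (S : ℕ) (i : ℤ) (l : List W.C) (p : W.P) : ∀ (j : ℕ) (T G : ℕ)
    (c' : MCfg W.toMTM), j ≤ l.length → W.toMTM.Comp w S (W.cfg (.L p) i ((j : ℤ) - 1) l) T G c' →
    c'.q = MSt.acc → ∃ T2, T2 < T ∧ W.toMTM.Comp w S (W.cfg (.R p) i 0 l) T2 G c' := by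
  intro j
  induction j with
  | zero =>
    intro T G c' _ h hq
    have e : ((0 : ℕ) : ℤ) - 1 = -1 := by norm_num
    rw [e] at h
    rcases h with _ | ⟨r, hSS, hr, h⟩
    · exact absurd hq (by simp [cfg])
    · rename_i T' G'
      have hc : W.toMTM.cost w (W.cfg (.L p) i (-1) l) = 0 :=
        W.cost_sub w (moves_L_end W w p i l).subset
      rw [moves_L_end] at hr
      rw [Set.mem_singleton_iff.mp hr, next_L_end] at h
      rw [hc]
      exact ⟨T', Nat.lt_succ_self _, h⟩
  | succ j ih =>
    intro T G c' hi h hq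
    have e : ((j + 1 : ℕ) : ℤ) - 1 = j := by push_cast; ring
    rw [e] at h
    have hmv := moves_L W w p i j l (by omega) (by omega)
    rcases h with _ | ⟨r, hSS, hr, h⟩
    · exact absurd hq (by simp [cfg])
    · rename_i T' G'
      have hc : W.toMTM.cost w (W.cfg (.L p) i j l) = 0 := W.cost_sub w hmv.subset
      rw [hmv] at hr
      rw [Set.mem_singleton_iff.mp hr, next_L] at h
      rw [hc]
      obtain ⟨T2, h2, h3⟩ := ih T' G' c' (by omega) h hq
      exact ⟨T2, by omega, h3⟩

theorem ext_length (g : Bool) (l : List W.C) : l.length ≤ (W.ext g l).length := by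
  unfold ext; split_ifs <;> simp

theorem ma_of_comp (S : ℕ) : ∀ (T : ℕ) (p : W.P) (i : ℤ) (l : List W.C) (G : ℕ)
    (c' : MCfg W.toMTM), W.toMTM.Comp w S (W.cfg (.R p) i 0 l) T G c' → c'.q = MSt.acc →
    ∃ m k, W.MA w m p i l k G := by
  intro T
  induction T using Nat.strong_induction_on with
  | _ T ih =>
  intro p i l G c' h hq
  obtain ⟨p', l', G1, T2, G2, h1, h2, h3, h4⟩ :=
    right_of_comp W w S i l [] p T G c' (by simpa using h) hq
  simp only [List.nil_append] at h2
  have key : ∀ a : W.Mov, W.delta (.R p') (MTM.read w i) none ⊆ {a} →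
      W.toMTM.cost w (W.cfg (.R p') i l'.length l') = 0 := by
    intro a ha
    apply W.cost_sub w (a := a)
    rw [moves_R_end]; exact ha
  rcases h2 with _ | ⟨r, hSS, hr, h2⟩
  · exact absurd hq (by simp [cfg])
  · rename_i T' G'
    rw [moves_R_end] at hr
    cases hf : W.fin p' (MTM.read w i) with
    | acc =>
      have hd : W.delta (.R p') (MTM.read w i) none = {W.mov .acc none 0 0} := by
        simp only [delta, hf]
      rw [key _ hd.subset] at h3
      rw [hd] at hr
      rw [Set.mem_singleton_iff.mp hr] at h2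
      have h2' := h2
      rw [show (none : Option W.C) = if false then some W.c0 else none from rfl, next_R_end] at h2'
      rcases h2' with _ | ⟨r', hSS', hr', h2'⟩
      · refine ⟨l.length, 1, ?_⟩
        rw [h3]
        exact MA.last le_rfl h1 hf
      · exfalso
        rw [moves_eq] at hr'
        exact hr'
    | rej =>
      exfalso
      simp only [delta, hf] at hr
      exact hr
    | cont p'' g d =>
      have hd : W.delta (.R p') (MTM.read w i) none
          = {W.mov (.L p'') (if g then some W.c0 else none) d (-1)} := by simp only [delta, hf]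
      rw [key _ hd.subset] at h3
      rw [hd] at hr
      rw [Set.mem_singleton_iff.mp hr, next_R_end] at h2
      have e : (l'.length : ℤ) + ((-1 : SignType) : ℤ) = ((l'.length : ℕ) : ℤ) - 1 := by
        simp; ring
      rw [e] at h2
      obtain ⟨T3, h5, h6⟩ := left_of_comp W w S (i + (d : ℤ)) (W.ext g l') p'' l'.length T' G' c'
        (ext_length W g l') h2 hq
      obtain ⟨m, k, hk⟩ := ih T3 (by omega) p'' (i + (d : ℤ)) (W.ext g l') G' c' h6 hq
      have hmono : ∀ {m m' : ℕ} {p i l k G}, m ≤ m' → W.MA w m p i l k G → W.MA w m' p i l k G := by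
        intro m m' p i l k G hmm hma
        induction hma with
        | last hm h hf => exact MA.last (hm.trans hmm) h hf
        | more hm h hf h' ih => exact MA.more (hm.trans hmm) h hf ih
      refine ⟨max m l.length, k + 1, ?_⟩
      rw [h3, add_zero]
      exact MA.more (le_max_right _ _) h1 hf (hmono (le_max_left _ _) hk)

/-! ### From sweeps to computations -/

theorem Sw.length {p p' : W.P} {l l' : List W.C} {G : ℕ} (h : W.Sw p l G p' l') :
    l'.length = l.length := by
  induction h with
  | nil p => rfl
  | cons b h ih => simp [ih]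

theorem comp_of_sw {S : ℕ} {i : ℤ} {p p' : W.P} {suf suf' : List W.C} {G : ℕ}
    (h : W.Sw p suf G p' suf') :
    ∀ (pre : List W.C) (T G2 : ℕ) (c' : MCfg W.toMTM), (pre ++ suf).length ≤ S →
      W.toMTM.Comp w S (W.cfg (.R p') i (pre ++ suf').length (pre ++ suf')) T G2 c' →
      W.toMTM.Comp w S (W.cfg (.R p) i pre.length (pre ++ suf)) (T + suf.length) (G + G2) c' := by
  induction h with
  | nil p =>
    intro pre T G2 c' _ h
    simpa using h
  | @cons p p1 c c1 l n p' l' hb h ih =>
    intro pre T G2 c' hS hc
    have h1 := ih (pre ++ [c1]) T G2 c' (by simpa using hS) (by simpa using hc)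
    have h2 : W.toMTM.Comp w S (W.toMTM.next (W.cfg (.R p) i pre.length (pre ++ c :: l))
        (W.mov (.R p1) (some c1) 0 1)) (T + l.length) (n + G2) c' := by
      rw [next_R_some]; exact h1
    have h3 := MTM.Comp.step (M := W.toMTM) (W.mov (.R p1) (some c1) 0 1)
      (by
        intro j
        simp only [cfg]
        rw [Nat.abs_cast]
        simp only [List.length_append, List.length_cons] at hS
        exact_mod_cast (by omega : pre.length ≤ S))
      (by rw [moves_eq, tp_mid]; exact ⟨p1, c1, hb, rfl⟩) h2
    rw [cost_R_some] at h3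
    have e1 : T + (c :: l).length = T + l.length + 1 := by simp; ring
    have e2 : W.ncost p c + n + G2 = n + G2 + W.ncost p c := by ring
    rw [e1, e2]
    exact h3

theorem comp_left {S : ℕ} {i : ℤ} (l : List W.C) (p : W.P) (hS : l.length + 1 ≤ S) {T G : ℕ}
    {c' : MCfg W.toMTM} (h : W.toMTM.Comp w S (W.cfg (.R p) i 0 l) T G c') :
    ∀ j : ℕ, j ≤ l.length →
      W.toMTM.Comp w S (W.cfg (.L p) i ((j : ℤ) - 1) l) (T + j + 1) G c' := by
  intro j
  induction j with
  | zero =>
    intro _
    have e : ((0 : ℕ) : ℤ) - 1 = -1 := by norm_num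
    rw [e]
    have h3 := MTM.Comp.step (M := W.toMTM) (w := w) (S := S) (c := W.cfg (.L p) i (-1) l) (W.mov (.R p) none 0 1)
      (by
        intro j
        simp only [cfg, abs_neg, abs_one]
        exact_mod_cast (by omega : 1 ≤ S))
      (by rw [moves_L_end]; rfl) (by rw [next_L_end]; exact h)
    rw [W.cost_sub w (moves_L_end W w p i l).subset] at h3
    exact h3
  | succ j ih =>
    intro hi
    have e : ((j + 1 : ℕ) : ℤ) - 1 = j := by push_cast; ring
    rw [e]
    have hmv := moves_L W w p i j l (by omega) (by omega)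
    have h3 := MTM.Comp.step (M := W.toMTM) (w := w) (S := S) (c := W.cfg (.L p) i j l)
      (W.mov (.L p) (W.tp l j) 0 (-1))
      (by
        intro _
        simp only [cfg]
        rw [Nat.abs_cast]
        exact_mod_cast (by omega : j ≤ S))
      (by rw [hmv]; rfl) (by rw [next_L]; exact ih (by omega))
    rw [W.cost_sub w hmv.subset] at h3
    exact h3

theorem comp_of_ma {m : ℕ} {p : W.P} {i : ℤ} {l : List W.C} {k G : ℕ} (h : W.MA w m p i l k G) :
    ∃ (T : ℕ) (c' : MCfg W.toMTM), T ≤ (2 * m + 3) * k ∧
      W.toMTM.Comp w (m + 2) (W.cfg (.R p) i 0 l) T G c' ∧ c'.q = MSt.acc := by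
  induction h with
  | @last p p' i l l' G hm h hf =>
    have hlen := Sw.length W h
    have hd : W.delta (.R p') (MTM.read w i) none = {W.mov .acc none 0 0} := by
      simp only [delta, hf]
    have hb : ∀ j : Fin W.toMTM.k, |(W.cfg (.R p') i l'.length l').head j| ≤ ((m + 2 : ℕ) : ℤ) := by
      intro j
      simp only [cfg]
      rw [Nat.abs_cast]
      exact_mod_cast (by omega : l'.length ≤ m + 2)
    have h1 := MTM.Comp.step (M := W.toMTM) (w := w) (S := m + 2)
      (c := W.cfg (.R p') i l'.length l') (W.mov .acc none 0 0) hb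
      (by rw [moves_R_end, hd]; rfl) (MTM.Comp.refl _ (by
        intro j
        have := hb j
        rw [next_eq]
        simpa [cfg] using this))
    rw [W.cost_sub w (a := W.mov .acc none 0 0) (by rw [moves_R_end]; exact hd.subset)] at h1
    have h2 := comp_of_sw W w (S := m + 2) (i := i) h [] 1 0 _ (by simp; omega) (by simpa using h1)
    refine ⟨_, _, ?_, by simpa using h2, rfl⟩
    omega
  | @more p p' p'' i l l' g d k G G' hm h hf h' ih =>
    obtain ⟨T, c', hT, hc, hq⟩ := ih
    have hlen := Sw.length W h
    have hle : (W.ext g l').length ≤ m := by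
      cases h' with
      | last hm' _ _ => exact hm'
      | more hm' _ _ _ => exact hm'
    have hd : W.delta (.R p') (MTM.read w i) none
        = {W.mov (.L p'') (if g then some W.c0 else none) d (-1)} := by simp only [delta, hf]
    have e : (l'.length : ℤ) + ((-1 : SignType) : ℤ) = ((l'.length : ℕ) : ℤ) - 1 := by
      simp; ring
    have h1 := MTM.Comp.step (M := W.toMTM) (w := w) (S := m + 2)
      (c := W.cfg (.R p') i l'.length l')
      (W.mov (.L p'') (if g then some W.c0 else none) d (-1))
      (by
        intro j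
        simp only [cfg]
        rw [Nat.abs_cast]
        exact_mod_cast (by omega : l'.length ≤ m + 2))
      (by rw [moves_R_end, hd]; rfl)
      (by rw [next_R_end, e]; exact comp_left W w _ p'' (by omega) hc l'.length (ext_length W g l'))
    rw [W.cost_sub w (a := W.mov (.L p'') (if g then some W.c0 else none) d (-1))
      (by rw [moves_R_end]; exact hd.subset)] at h1
    have h2 := comp_of_sw W w (S := m + 2) (i := i) h [] _ _ _ (by simp; omega) (by simpa using h1)
    refine ⟨_, c', ?_, by simpa using h2, hq⟩
    have : (2 * m + 3) * (k + 1) = (2 * m + 3) * k + (2 * m + 3) := by ring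
    omega

theorem accepts_of_ma {m k G : ℕ} (h : W.MA w m W.start 0 [] k G) :
    ∃ T, T ≤ (2 * m + 3) * k ∧ W.toMTM.AcceptsIn w T G (m + 2) := by
  obtain ⟨T, c', hT, hc, hq⟩ := comp_of_ma W w h
  exact ⟨T, hT, c', by rw [init_eq]; exact hc, hq⟩

theorem ma_of_accepts {T G S : ℕ} (h : W.toMTM.AcceptsIn w T G S) :
    ∃ m k, W.MA w m W.start 0 [] k G := by
  obtain ⟨c', hc, hq⟩ := h
  rw [init_eq] at hc
  exact ma_of_comp W w S T _ _ _ _ c' hc hq

end Mac

end Pool.Agent.helper24.OT
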