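import Pool.Agent.helper24.OT.Mem

/-!
# Multi-tape nondeterministic Turing machines with bounded time, space and nondeterminism
-/

namespace Pool.Agent.helper24.OT

/-- A nondeterministic Turing machine with a two-way read-only input tape and `k` work tapes
(all tapes are two-way infinite).  The input symbol `none` is read outside the input.  A move
consists of the new state, the symbols written on the work tapes, the move of the input head and the
moves of the work heads. -/
structure MTM (A : Type) where
  /-- the number of work tapes -/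
  k : ℕ
  /-- the states -/
  Q : Type
  /-- the work tape symbols -/
  Γ : Type
  /-- there are finitely many states -/
  finQ : Finite Q
  /-- there are finitely many work tape symbols -/
  finΓ : Finite Γ
  /-- the blank symbol -/
  blank : Γ
  /-- the initial state -/
  start : Q
  /-- the accepting states -/
  acc : Set Q
  /-- the transition relation -/
  δ : Q → Option A → (Fin k → Γ) → Set (Q × (Fin k → Γ) × SignType × (Fin k → SignType))

/-- A configuration: state, position of the input head, contents of the work tapes, positions of the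
work heads. -/
structure MCfg {A : Type} (M : MTM A) where
  /-- the current state -/
  q : M.Q
  /-- the position of the input head -/
  pos : ℤ
  /-- the contents of the work tapes -/
  tape : Fin M.k → ℤ → M.Γ
  /-- the positions of the work heads -/
  head : Fin M.k → ℤ

namespace MTM

variable {A : Type} (M : MTM A) (w : List A)

/-- The input symbol at position `i`: the input occupies the cells `0, …, |w| - 1`. -/
def read (w : List A) (i : ℤ) : Option A := if 0 ≤ i then w[i.toNat]? else none

/-- The moves available in a configuration. -/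
def moves (c : MCfg M) : Set (M.Q × (Fin M.k → M.Γ) × SignType × (Fin M.k → SignType)) :=
  M.δ c.q (read w c.pos) fun j => c.tape j (c.head j)

/-- The configuration reached by a move. -/
def next (c : MCfg M) (r : M.Q × (Fin M.k → M.Γ) × SignType × (Fin M.k → SignType)) : MCfg M :=
  ⟨r.1, c.pos + (r.2.2.1 : ℤ), fun j => Function.update (c.tape j) (c.head j) (r.2.1 j),
    fun j => c.head j + (r.2.2.2 j : ℤ)⟩

open Classical in
/-- `1` if the configuration offers a genuine choice (at least two different moves), else `0`. -/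
noncomputable def cost (c : MCfg M) : ℕ := if (M.moves w c).Nontrivial then 1 else 0

/-- `M.Comp w S c T G c'`: on input `w` there is a computation from `c` to `c'` with exactly `T`
steps, exactly `G` of which are nondeterministic, during which the work heads only visit cells with
numbers in `[-S, S]`. -/
inductive Comp (S : ℕ) : MCfg M → ℕ → ℕ → MCfg M → Prop
  | refl (c : MCfg M) (hS : ∀ j, |c.head j| ≤ S) : Comp S c 0 0 c
  | step {c c' : MCfg M} {T G : ℕ} (r : M.Q × (Fin M.k → M.Γ) × SignType × (Fin M.k → SignType))
      (hS : ∀ j, |c.head j| ≤ S) (hr : r ∈ M.moves w c) (h : Comp S (M.next c r) T G c') :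
      Comp S c (T + 1) (G + M.cost w c) c'

/-- The initial configuration: the work tapes are empty. -/
def init : MCfg M := ⟨M.start, 0, fun _ _ => M.blank, fun _ => 0⟩

/-- `M` accepts `w` by some computation with exactly `T` steps and exactly `G` nondeterministic
steps, during which the work heads only visit cells with numbers in `[-S, S]`. -/
def AcceptsIn (T G S : ℕ) : Prop := ∃ c : MCfg M, M.Comp w S M.init T G c ∧ c.q ∈ M.acc

end MTM

/-- `NTISG A t g s`: the languages `L` for which some multi-tape machine accepts no word outside `L`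
and accepts each `w ∈ L` by a computation with at most `t |w|` steps, at most `g |w|` of which are
nondeterministic, and with space at most `s |w|` (the work heads stay in `[-s |w|, s |w|]`). -/
def NTISG (A : Type) (t g s : ℕ → ℝ) : Set (Set (List A)) :=
  {L | ∃ M : MTM A, (∀ w T G S, M.AcceptsIn w T G S → w ∈ L) ∧
    ∀ w ∈ L, ∃ T G S : ℕ, M.AcceptsIn w T G S ∧ (T : ℝ) ≤ t w.length ∧ (G : ℝ) ≤ g w.length ∧
      (S : ℝ) ≤ s w.length}

/-- `TSG τ a μ`: time `O(n^τ)`, `O(n^a)` nondeterministic steps, space `O(n^μ)`. -/
def TSG (A : Type) (τ a μ : ℝ) : Set (Set (List A)) :=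
  {L | ∃ C : ℝ, L ∈ NTISG A (fun n => C * ((n : ℝ) + 1) ^ τ) (fun n => C * ((n : ℝ) + 1) ^ a)
    (fun n => C * ((n : ℝ) + 1) ^ μ)}

/-- `TLG σ b`: time `O(n^σ)`, `O(n^b)` nondeterministic steps, space `O(log n)`. -/
def TLG (A : Type) (σ b : ℝ) : Set (Set (List A)) :=
  {L | ∃ C : ℝ, L ∈ NTISG A (fun n => C * ((n : ℝ) + 1) ^ σ) (fun n => C * ((n : ℝ) + 1) ^ b)
    (fun n => C * Real.log ((n : ℝ) + 2))}

/-- Module E (the explicit logarithmic space machine), as a statement. -/
def ModuleE : Prop :=
  ∀ N u v : ℕ, u + 1 ≤ N → v + 1 ≤ N → ∃ (M : MTM (Fin 5)) (c : ℕ),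
    (∀ w T G S, M.AcceptsIn w T G S → ∃ T' G' S' e K R : ℕ, M.AcceptsIn w T' G' S' ∧
      K ≤ 2 ^ ((v + 1) * e) ∧ R ≤ 2 ^ ((u + 1) * e) ∧ 2 ^ (N * (e - 1)) ≤ w.length + 1 ∧
      T' ≤ c * (w.length + 2) * (R + 2) * (Nat.log 2 (w.length + 2) + 3) ∧
      G' ≤ c * K * (R + 2) * (Nat.log 2 (w.length + 2) + 3) ∧
      S' ≤ c * (Nat.log 2 (w.length + 2) + 3)) ∧
    ∀ (s r m e : ℕ) (z : Fin s → (Fin r → Fin m → Bool) × (Fin r → Fin m → Bool)),
      1 ≤ m → 1 ≤ r → 1 ≤ s → 1 ≤ e → 2 * s ≤ 2 ^ ((v + 1) * e) → 2 * r ≤ 2 ^ ((u + 1) * e) →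
      2 * 2 ^ (N * (e - 1)) ≤ (word z).length →
      ((∃ T G S, M.AcceptsIn (word z) T G S) ↔ Yes z)

end Pool.Agent.helper24.OT
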