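import Pool.Agent.helper24.OT.Dr

/-!
# The explicit program
-/

namespace Pool.Agent.helper24.OT.Pg

/-- the states of the program -/
inductive PSt where
  | s0 | s1 | s2 | s3 | s4 | s5 | si | s6 | s7 | s8 | s9 | s10 | s11 | sj | s15
  | T (t : Fin 4)
  | U (t : Fin 4)
  | V (t : Fin 4)
  deriving DecidableEq, Fintype

/-- a bit -/
abbrev isb (σ : Option (Fin 5)) : Prop := σ = some 0 ∨ σ = some 1

/-- a bit or `;` -/
abbrev isx (σ : Option (Fin 5)) : Prop := σ = some 0 ∨ σ = some 1 ∨ σ = some 2

/-- the direction in the four walks -/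
def dir (t : Fin 4) : SignType := if t = 0 ∨ t = 1 then 1 else -1

/-- the operations; registers: `0` number of regions, `1` number of blocks, `2` length of the `x`
part, `3` auxiliary, `4` guessed position -/
def pop : PSt → Op
  | .s0 => .inc 3
  | .s2 => .inc 0
  | .s3 => .reset 2
  | .s4 => .reset 1
  | .si => .inc 2
  | .s6 => .inc 1
  | .s9 => .guess 4
  | .s10 => .reset 3
  | .s11 => .eq 3 4
  | .sj => .inc 3
  | .T _ => .reset 3
  | .U _ => .eq 3 2
  | .V _ => .inc 3
  | _ => .nop

/-- the control -/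
def pctl : PSt → Bool → Option (Fin 5) → Verd PSt
  | .s0, f, σ => if σ = none then .cont .s1 false (-1) else .cont .s0 f 1
  | .s1, _, σ => if σ = none then .cont .s2 false 1 else .cont .s1 false (-1)
  | .s2, f, σ => if f = false ∧ σ = some 3 then .cont .s3 false 0 else .rej
  | .s3, _, _ => .cont .s5 false 1
  | .s5, _, σ => if isx σ then .cont .si false 0 else if σ = some 4 then .cont .s7 false (-1)
      else .rej
  | .si, f, _ => if f = false then .cont .s5 false 1 else .rej
  | .s7, _, σ => if σ = none then .rej else if σ = some 3 then .cont .s4 false 0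
      else .cont .s7 false (-1)
  | .s4, _, _ => .cont .s8 false 1
  | .s8, _, σ => if isb σ then .cont .s8 false 1 else if σ = some 2 then .cont .s6 false 0
      else if σ = some 4 then .cont .s15 false 1 else .rej
  | .s6, f, _ => if f = false then .cont .s9 false 1 else .rej
  | .s9, _, _ => .cont .s10 false 0
  | .s10, _, _ => .cont .s11 false 0
  | .s11, f, σ => if isb σ then (if f = true then (if σ = some 1 then .cont (.T 0) false 0 else .rej)
      else .cont .sj false 0) else .rej
  | .sj, f, _ => if f = false then .cont .s11 false 1 else .rej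
  | .T t, _, _ => .cont (.U t) false 0
  | .U t, f, σ => if f = true then (if t = 0 then .cont (.T 1) false 0
      else if t = 1 then (if σ = some 1 then .cont (.T 2) false 0 else .rej)
      else if t = 2 then .cont (.T 3) false 0 else .cont .s8 false 0)
      else .cont (.V t) false 0
  | .V t, f, _ => if f = false then .cont (.U t) false (dir t) else .rej
  | .s15, _, σ => if σ = none then .acc else if σ = some 3 then .cont .s2 false 0
      else .cont .s15 false 1

/-- the bases -/
def pbase (KS KR KA : ℕ) : Fin 5 → ℕ := ![KS, KR, KA, KA, KA]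

/-- the program -/
@[reducible] def prog (KS KR KA : ℕ) (hS : 2 ≤ KS) (hR : 2 ≤ KR) (hA : 2 ≤ KA) : RM (Fin 5) where
  Q := PSt
  finQ := inferInstance
  b := pbase KS KR KA
  hb := by
    intro r
    fin_cases r <;> simp [pbase] <;> assumption
  start := .s0
  op := pop
  heq := by
    intro q r r' h
    cases q <;> simp [pop] at h
    · obtain ⟨rfl, rfl⟩ := h; rfl
    · obtain ⟨rfl, rfl⟩ := h; rfl
  ctl := pctl

/-- the values of the registers -/
def vv (κ r h x j : ℕ) : Fin 5 → ℕ := ![κ, r, h, x, j]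

section vv
variable (κ r h x j y : ℕ)

lemma vv_zero : vv κ r h x j 0 = κ := rfl
lemma vv_one : vv κ r h x j 1 = r := rfl
lemma vv_two : vv κ r h x j 2 = h := rfl
lemma vv_three : vv κ r h x j 3 = x := rfl
lemma vv_four : vv κ r h x j 4 = j := rfl
lemma up_zero : Function.update (vv κ r h x j) 0 y = vv y r h x j := by
  funext i; fin_cases i <;> simp [vv, Function.update]
lemma up_one : Function.update (vv κ r h x j) 1 y = vv κ y h x j := by
  funext i; fin_cases i <;> simp [vv, Function.update]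
lemma up_two : Function.update (vv κ r h x j) 2 y = vv κ r y x j := by
  funext i; fin_cases i <;> simp [vv, Function.update]
lemma up_three : Function.update (vv κ r h x j) 3 y = vv κ r h y j := by
  funext i; fin_cases i <;> simp [vv, Function.update]
lemma up_four : Function.update (vv κ r h x j) 4 y = vv κ r h x y := by
  funext i; fin_cases i <;> simp [vv, Function.update]

end vv

section
variable (KS KR KA : ℕ) (hS : 2 ≤ KS) (hR : 2 ≤ KR) (hA : 2 ≤ KA)


variable {w : List (Fin 5)} {m e : ℕ}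

/-- one deterministic step without a new digit -/
lemma one {q q' : PSt} {i i' : ℤ} {v v' : Fin 5 → ℕ} {f : Bool} {d : SignType}
    (hd : RM.Det (pop q)) (ho : (prog KS KR KA hS hR hA).opf (pop q) v e = (f, v'))
    (hc : pctl q f (MTM.read w i) = .cont q' false d) (hi : i' = i + (d : ℤ)) :
    (prog KS KR KA hS hR hA).DR w q i v e 1 q' i' v' e :=
  RM.DR.step (M := prog KS KR KA hS hR hA) (gr := false) hd ho hc hi rfl (RM.DR.refl _ _ _ _)

lemma opf_inc (r : Fin 5) (v : Fin 5 → ℕ) : (prog KS KR KA hS hR hA).opf (.inc r) v e =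
    if v r + 1 < pbase KS KR KA r ^ e then (false, Function.update v r (v r + 1))
      else (true, Function.update v r 0) := rfl

lemma opf_reset (r : Fin 5) (v : Fin 5 → ℕ) : (prog KS KR KA hS hR hA).opf (.reset r) v e =
    (true, Function.update v r 0) := rfl

lemma opf_eq (r r' : Fin 5) (v : Fin 5 → ℕ) : (prog KS KR KA hS hR hA).opf (.eq r r') v e =
    (decide (v r = v r'), v) := rfl

lemma opf_nop (v : Fin 5 → ℕ) : (prog KS KR KA hS hR hA).opf .nop v e = (true, v) := rfl

variable {κ r h x j : ℕ} {i : ℤ} {k g : ℕ}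

/-! ### The walks -/

lemma d_T (t : Fin 4) : (prog KS KR KA hS hR hA).DR w (.T t) i (vv κ r h x j) e 1 (.U t) i (vv κ r h 0 j) e :=
  one KS KR KA hS hR hA (f := true) (d := 0) (by intro r; simp [pop])
    (by rw [pop, opf_reset, up_three]) (by simp [pctl]) (by simp)

lemma d_UV (t : Fin 4) (hx : x ≠ h) (hx2 : x + 1 < KA ^ e) :
    (prog KS KR KA hS hR hA).DR w (.U t) i (vv κ r h x j) e 2 (.U t) (i + (dir t : ℤ)) (vv κ r h (x + 1) j) e := by
  have h1 : (prog KS KR KA hS hR hA).DR w (.U t) i (vv κ r h x j) e 1 (.V t) i (vv κ r h x j) e :=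
    one KS KR KA hS hR hA (f := false) (d := 0) (by intro r; simp [pop])
      (by rw [pop, opf_eq]; simp [vv_two, vv_three, hx]) (by simp [pctl]) (by simp)
  have h2 : (prog KS KR KA hS hR hA).DR w (.V t) i (vv κ r h x j) e 1 (.U t) (i + (dir t : ℤ)) (vv κ r h (x + 1) j) e :=
    one KS KR KA hS hR hA (f := false) (d := dir t) (by intro r; simp [pop])
      (by rw [pop, opf_inc, vv_three, if_pos (by simpa [pbase] using hx2), up_three])
      (by simp [pctl]) rfl
  exact h1.trans h2

lemma d_U (t : Fin 4) (hh : h < KA ^ e) : ∀ a x (i : ℤ), x + a = h →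
    (prog KS KR KA hS hR hA).DR w (.U t) i (vv κ r h x j) e (2 * a) (.U t) (i + a * (dir t : ℤ)) (vv κ r h h j) e := by
  intro a
  induction a with
  | zero =>
    intro x i hx
    simp only [add_zero] at hx
    subst hx
    simp only [mul_zero, Nat.cast_zero, zero_mul, add_zero]
    exact RM.DR.refl _ _ _ _
  | succ a ih =>
    intro x i hx
    have h1 := d_UV KS KR KA hS hR hA (w := w) (κ := κ) (r := r) (h := h) (x := x) (j := j) (e := e)
      (i := i) t (by omega) (by omega)
    have h2 := h1.trans (ih (x + 1) (i + (dir t : ℤ)) (by omega))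
    have e1 : 2 + 2 * a = 2 * (a + 1) := by ring
    have e2 : i + (dir t : ℤ) + a * (dir t : ℤ) = i + ((a + 1 : ℕ) : ℤ) * (dir t : ℤ) := by
      push_cast; ring
    rw [e1, e2] at h2
    exact h2

lemma d_TU (t : Fin 4) (hh : h < KA ^ e) :
    (prog KS KR KA hS hR hA).DR w (.T t) i (vv κ r h x j) e (1 + 2 * h) (.U t) (i + h * (dir t : ℤ)) (vv κ r h h j) e :=
  (d_T KS KR KA hS hR hA t).trans (d_U KS KR KA hS hR hA t hh h 0 i (by omega))

lemma d_T0 (hh : h < KA ^ e) :
    (prog KS KR KA hS hR hA).DR w (.T 0) i (vv κ r h x j) e (4 * h + 3) (.U 1) (i + 2 * h) (vv κ r h h j) e := by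
  have h1 := d_TU KS KR KA hS hR hA (w := w) (i := i) (κ := κ) (r := r) (x := x) (j := j) 0 hh
  have h2 : (prog KS KR KA hS hR hA).DR w (.U 0) (i + h * (dir 0 : ℤ)) (vv κ r h h j) e 1 (.T 1)
      (i + h * (dir 0 : ℤ)) (vv κ r h h j) e :=
    one KS KR KA hS hR hA (f := true) (d := 0) (by intro r; simp [pop])
      (by rw [pop, opf_eq]; simp [vv_two, vv_three]) (by simp [pctl]) (by simp)
  have h3 := d_TU KS KR KA hS hR hA (w := w) (i := i + h * (dir 0 : ℤ)) (κ := κ) (r := r) (x := h)
    (j := j) 1 hh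
  have h4 := (h1.trans h2).trans h3
  have e1 : 1 + 2 * h + 1 + (1 + 2 * h) = 4 * h + 3 := by ring
  have e2 : i + h * (dir 0 : ℤ) + h * (dir 1 : ℤ) = i + 2 * h := by
    simp [dir]; ring
  rw [e1, e2] at h4
  exact h4

lemma d_U1 (hh : h < KA ^ e) (hi : MTM.read w i = some 1) :
    (prog KS KR KA hS hR hA).DR w (.U 1) i (vv κ r h h j) e (4 * h + 5) .s8 (i - 2 * h) (vv κ r h h j) e := by
  have h1 : (prog KS KR KA hS hR hA).DR w (.U 1) i (vv κ r h h j) e 1 (.T 2) i (vv κ r h h j) e :=
    one KS KR KA hS hR hA (f := true) (d := 0) (by intro r; simp [pop])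
      (by rw [pop, opf_eq]; simp [vv_two, vv_three]) (by simp [pctl, hi]) (by simp)
  have h2 := d_TU KS KR KA hS hR hA (w := w) (i := i) (κ := κ) (r := r) (x := h) (j := j) 2 hh
  have h3 : (prog KS KR KA hS hR hA).DR w (.U 2) (i + h * (dir 2 : ℤ)) (vv κ r h h j) e 1 (.T 3)
      (i + h * (dir 2 : ℤ)) (vv κ r h h j) e :=
    one KS KR KA hS hR hA (f := true) (d := 0) (by intro r; simp [pop])
      (by rw [pop, opf_eq]; simp [vv_two, vv_three]) (by simp [pctl]) (by simp)
  have h4 := d_TU KS KR KA hS hR hA (w := w) (i := i + h * (dir 2 : ℤ)) (κ := κ) (r := r) (x := h)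
    (j := j) 3 hh
  have h5 : (prog KS KR KA hS hR hA).DR w (.U 3) (i + h * (dir 2 : ℤ) + h * (dir 3 : ℤ)) (vv κ r h h j) e 1 .s8
      (i + h * (dir 2 : ℤ) + h * (dir 3 : ℤ)) (vv κ r h h j) e :=
    one KS KR KA hS hR hA (f := true) (d := 0) (by intro r; simp [pop])
      (by rw [pop, opf_eq]; simp [vv_two, vv_three]) (by simp [pctl]) (by simp)
  have h6 := (((h1.trans h2).trans h3).trans h4).trans h5
  have e1 : 1 + (1 + 2 * h) + 1 + (1 + 2 * h) + 1 = 4 * h + 5 := by ring
  have e2 : i + h * (dir 2 : ℤ) + h * (dir 3 : ℤ) = i - 2 * h := by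
    simp [dir]; ring
  rw [e1, e2] at h6
  exact h6

/-! ### A block -/

lemma d_s11 (hj : j < KA ^ e) : ∀ a x (i : ℤ), x + a = j → (∀ t < a, isb (MTM.read w (i + t))) →
    (prog KS KR KA hS hR hA).DR w .s11 i (vv κ r h x j) e (2 * a) .s11 (i + a) (vv κ r h j j) e := by
  intro a
  induction a with
  | zero =>
    intro x i hx _
    simp only [add_zero] at hx
    subst hx
    simp only [mul_zero, Nat.cast_zero, add_zero]
    exact RM.DR.refl _ _ _ _
  | succ a ih =>
    intro x i hx hb
    have hb0 : isb (MTM.read w i) := by simpa using hb 0 (by omega)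
    have h1 : (prog KS KR KA hS hR hA).DR w .s11 i (vv κ r h x j) e 1 .sj i (vv κ r h x j) e :=
      one KS KR KA hS hR hA (f := false) (d := 0) (by intro r; simp [pop])
        (by rw [pop, opf_eq]; simp [vv_four, vv_three]; omega) (by simp [pctl, hb0]) (by simp)
    have h2 : (prog KS KR KA hS hR hA).DR w .sj i (vv κ r h x j) e 1 .s11 (i + 1) (vv κ r h (x + 1) j) e :=
      one KS KR KA hS hR hA (f := false) (d := 1) (by intro r; simp [pop])
        (by rw [pop, opf_inc, vv_three, if_pos (by simp [pbase]; omega), up_three])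
        (by simp [pctl]) (by simp)
    have h3 := (h1.trans h2).trans (ih (x + 1) (i + 1) (by omega) (by
      intro t ht
      have := hb (t + 1) (by omega)
      push_cast at this
      rw [add_assoc, add_comm 1 (t : ℤ)]
      exact this))
    have e1 : 1 + 1 + 2 * a = 2 * (a + 1) := by ring
    have e2 : i + 1 + a = i + ((a + 1 : ℕ) : ℤ) := by push_cast; ring
    rw [e1, e2] at h3
    exact h3

lemma det_s11 : RM.Det (pop .s11) := by intro r; simp [pop]

lemma s11_T0 (hi : MTM.read w i = some 1) :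
    (prog KS KR KA hS hR hA).DR w .s11 i (vv κ r h j j) e 1 (.T 0) i (vv κ r h j j) e :=
  one KS KR KA hS hR hA (f := true) (d := 0) (by intro r; simp [pop])
    (by rw [pop, opf_eq]; simp [vv_four, vv_three]) (by simp [pctl, hi]) (by simp)

lemma rej {q : PSt} {i : ℤ} {v v' : Fin 5 → ℕ} {f : Bool}
    (hd : RM.Det (pop q)) (ho : (prog KS KR KA hS hR hA).opf (pop q) v e = (f, v'))
    (hc : pctl q f (MTM.read w i) = .rej) (hr : (prog KS KR KA hS hR hA).RA w m q i v e k g) : False :=
  RM.ra_rej (M := prog KS KR KA hS hR hA) hd ho hc hr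

/-- inversion of the walk to the guessed position -/
lemma inv_s11 (hj : j < KA ^ e) : ∀ a x (i : ℤ) k, x + a = j →
    (prog KS KR KA hS hR hA).RA w m .s11 i (vv κ r h x j) e k g → (∀ t < a + 1, isb (MTM.read w (i + t))) ∧
      MTM.read w (i + a) = some 1 ∧ ∃ k', k = k' + (2 * a + 1) ∧
        (prog KS KR KA hS hR hA).RA w m (.T 0) (i + a) (vv κ r h j j) e k' g := by
  intro a
  induction a with
  | zero =>
    intro x i k hx hr
    simp only [add_zero] at hx
    subst hx
    have ho : (prog KS KR KA hS hR hA).opf (pop .s11) (vv κ r h x x) e = (true, vv κ r h x x) := by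
      rw [pop, opf_eq]; simp [vv_four, vv_three]
    by_cases hb : isb (MTM.read w i)
    · by_cases h1' : MTM.read w i = some 1
      · obtain ⟨k', rfl, h2⟩ := (s11_T0 KS KR KA hS hR hA h1').inv hr
        refine ⟨?_, by simpa using h1', k', by ring, by simpa using h2⟩
        intro t ht
        have : t = 0 := by omega
        subst this
        simpa using hb
      · exact (rej KS KR KA hS hR hA det_s11 ho (by simp [pctl, h1']) hr).elim
    · exact (rej KS KR KA hS hR hA det_s11 ho (by simp only [pctl]; rw [if_neg hb]) hr).elim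
  | succ a ih =>
    intro x i k hx hr
    have hne : x ≠ j := by omega
    have ho : (prog KS KR KA hS hR hA).opf (pop .s11) (vv κ r h x j) e = (false, vv κ r h x j) := by
      rw [pop, opf_eq]; simp [vv_four, vv_three, hne]
    by_cases hb : isb (MTM.read w i)
    · have h0 : (prog KS KR KA hS hR hA).DR w .s11 i (vv κ r h x j) e 1 .sj i (vv κ r h x j) e :=
        one KS KR KA hS hR hA (f := false) (d := 0) det_s11 ho (by simp [pctl, hb]) (by simp)
      have h3 : (prog KS KR KA hS hR hA).DR w .sj i (vv κ r h x j) e 1 .s11 (i + 1) (vv κ r h (x + 1) j) e :=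
        one KS KR KA hS hR hA (f := false) (d := 1) (by intro r; simp [pop])
          (by rw [pop, opf_inc, vv_three, if_pos (by simp [pbase]; omega), up_three])
          (by simp [pctl]) (by simp)
      obtain ⟨k2, rfl, h4⟩ := (h0.trans h3).inv hr
      obtain ⟨h5, h6, k3, rfl, h7⟩ := ih (x + 1) (i + 1) k2 (by omega) h4
      have e2 : i + 1 + a = i + ((a + 1 : ℕ) : ℤ) := by push_cast; ring
      rw [e2] at h6 h7
      refine ⟨?_, h6, k3, by ring, h7⟩
      intro t ht
      rcases Nat.eq_zero_or_pos t with rfl | ht0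
      · simpa using hb
      · have := h5 (t - 1) (by omega)
        have e3 : i + 1 + ((t - 1 : ℕ) : ℤ) = i + t := by
          rw [Nat.cast_sub ht0]; push_cast; ring
        rw [e3] at this
        exact this
    · exact (rej KS KR KA hS hR hA det_s11 ho (by simp only [pctl]; rw [if_neg hb]) hr).elim

lemma inv_U1 (hr : (prog KS KR KA hS hR hA).RA w m (.U 1) i (vv κ r h h j) e k g) : MTM.read w i = some 1 := by
  by_contra hne
  refine rej KS KR KA hS hR hA (q := .U 1) (f := true) (v' := vv κ r h h j)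
    (by intro r; simp [pop])
    (by rw [pop, opf_eq]; simp [vv_two, vv_three]) ?_ hr
  simp [pctl, hne]

/-- what a block needs -/
def Good (w : List (Fin 5)) (i : ℤ) (h j : ℕ) : Prop :=
  (∀ t < j + 1, isb (MTM.read w (i + t))) ∧ MTM.read w (i + j) = some 1 ∧
    MTM.read w (i + j + 2 * h) = some 1

lemma d_s10 : (prog KS KR KA hS hR hA).DR w .s10 i (vv κ r h x j) e 1 .s11 i (vv κ r h 0 j) e :=
  one KS KR KA hS hR hA (f := true) (d := 0) (by intro r; simp [pop])
    (by rw [pop, opf_reset, up_three]) (by simp [pctl]) (by simp)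

theorem inv_s9 (hh : h < KA ^ e) (hr : (prog KS KR KA hS hR hA).RA w m .s9 i (vv κ r h x j) e k g) :
    ∃ j' k' g', j' < KA ^ e ∧ Good w i h j' ∧ k = k' + (8 * h + 2 * j' + 11) ∧ g = e + g' ∧
      (prog KS KR KA hS hR hA).RA w m .s8 (i + j') (vv κ r h h j') e k' g' := by
  obtain ⟨k0, g', j', hj', rfl, rfl, h'⟩ := RM.ra_guess_inv (M := prog KS KR KA hS hR hA) (q := PSt.s9) (q' := PSt.s10)
    (r := 4) (d := 0) rfl (fun _ => rfl) hr
  have hj'' : j' < KA ^ e := by simpa [pbase] using hj'
  rw [up_four] at h'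
  simp only [SignType.coe_zero, add_zero] at h'
  obtain ⟨k1, rfl, h3⟩ := (d_s10 KS KR KA hS hR hA).inv h'
  obtain ⟨h4, h5, k2, rfl, h6⟩ := inv_s11 KS KR KA hS hR hA hj'' j' 0 i k1 (by omega) h3
  obtain ⟨k3, rfl, h7⟩ := (d_T0 KS KR KA hS hR hA hh).inv h6
  have h8 := inv_U1 KS KR KA hS hR hA h7
  obtain ⟨k4, rfl, h9⟩ := (d_U1 KS KR KA hS hR hA hh h8).inv h7
  refine ⟨j', k4, g', hj'', ⟨h4, h5, h8⟩, by ring, rfl, ?_⟩
  have e1 : i + (j' : ℤ) + 2 * h - 2 * h = i + j' := by ring
  rw [e1] at h9
  exact h9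

theorem s9_of (hh : h < KA ^ e) {j' : ℕ} (hj' : j' < KA ^ e) (hG : Good w i h j')
    (hr : (prog KS KR KA hS hR hA).RA w m .s8 (i + j') (vv κ r h h j') e k g) (x j : ℕ) :
    ∃ k', (prog KS KR KA hS hR hA).RA w m .s9 i (vv κ r h x j) e k' (e + g) := by
  obtain ⟨h4, h5, h8⟩ := hG
  have e1 : i + (j' : ℤ) = i + j' + 2 * h - 2 * h := by ring
  rw [e1] at hr
  have h9 := (d_T0 KS KR KA hS hR hA hh (x := j')).ra ((d_U1 KS KR KA hS hR hA hh h8).ra hr)
  have h10 := (s11_T0 KS KR KA hS hR hA h5).ra h9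
  have h11 := (d_s11 KS KR KA hS hR hA hj' j' 0 i (by omega)
    (fun t ht => h4 t (by omega))).ra h10
  have h12 := (d_s10 KS KR KA hS hR hA (x := x)).ra h11
  refine ⟨_, RM.ra_guess (M := prog KS KR KA hS hR hA) (q := PSt.s9) (q' := PSt.s10) (r := 4) (d := 0) (x := j') rfl
    (fun _ => rfl) (by simpa [pbase] using hj')
    (k := k + (4 * h + 5) + (4 * h + 3) + 1 + 2 * j' + 1) ?_⟩
  rw [up_four]
  simpa using h12

end

end Pool.Agent.helper24.OT.Pg
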