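import Pool.Agent.helper24.OT.Prog

/-!
# The explicit program: regions, bounds
-/

namespace Pool.Agent.helper24.OT.Pg

section
variable (KS KR KA : ℕ) (hS : 2 ≤ KS) (hR : 2 ≤ KR) (hA : 2 ≤ KA)


variable {w : List (Fin 5)} {m e : ℕ} {κ r h x j : ℕ} {i : ℤ} {k g : ℕ}

lemma d_s2 (hi : MTM.read w i = some 3) (hκ : κ + 1 < KS ^ e) :
    (prog KS KR KA hS hR hA).DR w .s2 i (vv κ r h x j) e 2 .s5 (i + 1) (vv (κ + 1) r 0 x j) e := by
  have h1 : (prog KS KR KA hS hR hA).DR w .s2 i (vv κ r h x j) e 1 .s3 i (vv (κ + 1) r h x j) e :=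
    one KS KR KA hS hR hA (f := false) (d := 0) (by intro r; simp [pop])
      (by rw [pop, opf_inc, vv_zero, if_pos (by simpa [pbase] using hκ), up_zero])
      (by simp [pctl, hi]) (by simp)
  have h2 : (prog KS KR KA hS hR hA).DR w .s3 i (vv (κ + 1) r h x j) e 1 .s5 (i + 1) (vv (κ + 1) r 0 x j) e :=
    one KS KR KA hS hR hA (f := true) (d := 1) (by intro r; simp [pop])
      (by rw [pop, opf_reset, up_two]) (by simp [pctl]) (by simp)
  exact h1.trans h2

lemma inv_s2 (hr : (prog KS KR KA hS hR hA).RA w m .s2 i (vv κ r h x j) e k g) :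
    MTM.read w i = some 3 ∧ κ + 1 < KS ^ e := by
  have hd : RM.Det (pop .s2) := by intro r; simp [pop]
  by_cases hκ : κ + 1 < KS ^ e
  · refine ⟨?_, hκ⟩
    by_contra hne
    refine rej KS KR KA hS hR hA (q := .s2) (f := false) (v' := vv (κ + 1) r h x j) hd
      (by rw [pop, opf_inc, vv_zero, if_pos (by simpa [pbase] using hκ), up_zero])
      (by simp [pctl, hne]) hr
  · exfalso
    refine rej KS KR KA hS hR hA (q := .s2) (f := true) (v' := vv 0 r h x j) hd
      (by rw [pop, opf_inc, vv_zero, if_neg (by simpa [pbase] using hκ), up_zero])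
      (by simp [pctl]) hr

lemma d_s5a (hi : isx (MTM.read w i)) (hh : h + 1 < KA ^ e) :
    (prog KS KR KA hS hR hA).DR w .s5 i (vv κ r h x j) e 2 .s5 (i + 1) (vv κ r (h + 1) x j) e := by
  have h1 : (prog KS KR KA hS hR hA).DR w .s5 i (vv κ r h x j) e 1 .si i (vv κ r h x j) e :=
    one KS KR KA hS hR hA (f := true) (d := 0) (by intro r; simp [pop])
      (opf_nop KS KR KA hS hR hA _) (by simp only [pctl]; rw [if_pos hi]) (by simp)
  have h2 : (prog KS KR KA hS hR hA).DR w .si i (vv κ r h x j) e 1 .s5 (i + 1) (vv κ r (h + 1) x j) e :=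
    one KS KR KA hS hR hA (f := false) (d := 1) (by intro r; simp [pop])
      (by rw [pop, opf_inc, vv_two, if_pos (by simpa [pbase] using hh), up_two])
      (by simp [pctl]) (by simp)
  exact h1.trans h2

lemma d_s5 : ∀ a h (i : ℤ), h + a < KA ^ e → (∀ t < a, isx (MTM.read w (i + t))) →
    (prog KS KR KA hS hR hA).DR w .s5 i (vv κ r h x j) e (2 * a) .s5 (i + a) (vv κ r (h + a) x j) e := by
  intro a
  induction a with
  | zero =>
    intro h i _ _
    simp only [mul_zero, Nat.cast_zero, add_zero]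
    exact RM.DR.refl _ _ _ _
  | succ a ih =>
    intro h i hh hb
    have h1 := d_s5a KS KR KA hS hR hA (w := w) (κ := κ) (r := r) (h := h) (x := x) (j := j)
      (e := e) (i := i) (by simpa using hb 0 (by omega)) (by omega)
    have h3 := h1.trans (ih (h + 1) (i + 1) (by omega) (by
      intro t ht
      have := hb (t + 1) (by omega)
      push_cast at this
      rw [add_assoc, add_comm 1 (t : ℤ)]
      exact this))
    have e1 : 2 + 2 * a = 2 * (a + 1) := by ring
    have e2 : i + 1 + a = i + ((a + 1 : ℕ) : ℤ) := by push_cast; ring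
    have e3 : h + 1 + a = h + (a + 1) := by ring
    rw [e1, e2, e3] at h3
    exact h3

lemma d_s5b (hi : MTM.read w i = some 4) :
    (prog KS KR KA hS hR hA).DR w .s5 i (vv κ r h x j) e 1 .s7 (i - 1) (vv κ r h x j) e :=
  one KS KR KA hS hR hA (f := true) (d := -1) (by intro r; simp [pop])
    (opf_nop KS KR KA hS hR hA _) (by simp [pctl, hi]) (by simp; ring)

lemma inv_s5 : ∀ k h (i : ℤ), h < KA ^ e → (prog KS KR KA hS hR hA).RA w m .s5 i (vv κ r h x j) e k g →
    ∃ a k', h + a < KA ^ e ∧ (∀ t < a, isx (MTM.read w (i + t))) ∧ MTM.read w (i + a) = some 4 ∧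
      k = k' + (2 * a + 1) ∧ (prog KS KR KA hS hR hA).RA w m .s7 (i + a - 1) (vv κ r (h + a) x j) e k' g := by
  intro k
  induction k using Nat.strong_induction_on with
  | _ k ih =>
  intro h i hh hr
  by_cases hx : isx (MTM.read w i)
  · have h1 : (prog KS KR KA hS hR hA).DR w .s5 i (vv κ r h x j) e 1 .si i (vv κ r h x j) e :=
      one KS KR KA hS hR hA (f := true) (d := 0) (by intro r; simp [pop])
        (opf_nop KS KR KA hS hR hA _) (by simp only [pctl]; rw [if_pos hx]) (by simp)
    obtain ⟨k1, rfl, h2⟩ := h1.inv hr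
    by_cases hh' : h + 1 < KA ^ e
    · have h3 : (prog KS KR KA hS hR hA).DR w .si i (vv κ r h x j) e 1 .s5 (i + 1) (vv κ r (h + 1) x j) e :=
        one KS KR KA hS hR hA (f := false) (d := 1) (by intro r; simp [pop])
          (by rw [pop, opf_inc, vv_two, if_pos (by simpa [pbase] using hh'), up_two])
          (by simp [pctl]) (by simp)
      obtain ⟨k2, rfl, h4⟩ := h3.inv h2
      obtain ⟨a, k', h5, h6, h7, h8, h9⟩ := ih k2 (by omega) (h + 1) (i + 1) hh' h4
      have e2 : i + 1 + (a : ℤ) = i + ((a + 1 : ℕ) : ℤ) := by push_cast; ring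
      have e3 : h + 1 + a = h + (a + 1) := by ring
      rw [e2] at h7 h9
      rw [e3] at h5 h9
      refine ⟨a + 1, k', h5, ?_, h7, by omega, h9⟩
      intro t ht
      rcases Nat.eq_zero_or_pos t with rfl | ht0
      · simpa using hx
      · have := h6 (t - 1) (by omega)
        have e3 : i + 1 + ((t - 1 : ℕ) : ℤ) = i + t := by
          rw [Nat.cast_sub ht0]; push_cast; ring
        rw [e3] at this
        exact this
    · exfalso
      refine rej KS KR KA hS hR hA (q := .si) (f := true) (v' := vv κ r 0 x j)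
        (by intro r; simp [pop])
        (by rw [pop, opf_inc, vv_two, if_neg (by simpa [pbase] using hh'), up_two])
        (by simp [pctl]) h2
  · by_cases h4 : MTM.read w i = some 4
    · obtain ⟨k1, rfl, h2⟩ := (d_s5b KS KR KA hS hR hA h4).inv hr
      exact ⟨0, k1, by simpa using hh, by intro t ht; omega, by simpa using h4, by ring,
        by simpa using h2⟩
    · exfalso
      refine rej KS KR KA hS hR hA (q := .s5) (f := true) (v' := vv κ r h x j)
        (by intro r; simp [pop]) (opf_nop KS KR KA hS hR hA _)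
        (by simp only [pctl]; rw [if_neg hx, if_neg h4]) hr

lemma d_s7 (hi : MTM.read w i = some 3) : ∀ a : ℕ, (∀ t < a, isx (MTM.read w (i + 1 + t))) →
    (prog KS KR KA hS hR hA).DR w .s7 (i + a) (vv κ r h x j) e (a + 2) .s8 (i + 1) (vv κ 0 h x j) e := by
  intro a
  induction a with
  | zero =>
    intro _
    have h1 : (prog KS KR KA hS hR hA).DR w .s7 i (vv κ r h x j) e 1 .s4 i (vv κ r h x j) e :=
      one KS KR KA hS hR hA (f := true) (d := 0) (by intro r; simp [pop])
        (opf_nop KS KR KA hS hR hA _) (by simp [pctl, hi]) (by simp)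
    have h2 : (prog KS KR KA hS hR hA).DR w .s4 i (vv κ r h x j) e 1 .s8 (i + 1) (vv κ 0 h x j) e :=
      one KS KR KA hS hR hA (f := true) (d := 1) (by intro r; simp [pop])
        (by rw [pop, opf_reset, up_one]) (by simp [pctl]) (by simp)
    simpa using h1.trans h2
  | succ a ih =>
    intro hb
    have h0 : isx (MTM.read w (i + ((a + 1 : ℕ) : ℤ))) := by
      have := hb a (by omega)
      rw [add_assoc, add_comm 1 (a : ℤ)] at this
      push_cast; exact this
    have h1 : (prog KS KR KA hS hR hA).DR w .s7 (i + ((a + 1 : ℕ) : ℤ)) (vv κ r h x j) e 1 .s7 (i + a)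
        (vv κ r h x j) e := by
      refine one KS KR KA hS hR hA (f := true) (d := -1) (by intro r; simp [pop])
        (opf_nop KS KR KA hS hR hA _) ?_ (by push_cast; simp; ring)
      rcases h0 with h0 | h0 | h0 <;> rw [h0] <;> simp [pctl]
    have h2 := h1.trans (ih (fun t ht => hb t (by omega)))
    have e1 : 1 + (a + 2) = a + 1 + 2 := by ring
    rw [e1] at h2
    exact h2

/-! ### The scan of the blocks -/

lemma d_s8a (hi : isb (MTM.read w i)) :
    (prog KS KR KA hS hR hA).DR w .s8 i (vv κ r h x j) e 1 .s8 (i + 1) (vv κ r h x j) e :=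
  one KS KR KA hS hR hA (f := true) (d := 1) (by intro r; simp [pop])
    (opf_nop KS KR KA hS hR hA _) (by simp only [pctl]; rw [if_pos hi]) (by simp)

lemma d_s8 : ∀ (a : ℕ) (i : ℤ), (∀ t < a, isb (MTM.read w (i + t))) →
    (prog KS KR KA hS hR hA).DR w .s8 i (vv κ r h x j) e a .s8 (i + a) (vv κ r h x j) e := by
  intro a
  induction a with
  | zero =>
    intro i _
    simp only [Nat.cast_zero, add_zero]
    exact RM.DR.refl _ _ _ _
  | succ a ih =>
    intro i hb
    have h1 := d_s8a KS KR KA hS hR hA (w := w) (κ := κ) (r := r) (h := h) (x := x) (j := j)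
      (e := e) (i := i) (by simpa using hb 0 (by omega))
    have h3 := h1.trans (ih (i + 1) (by
      intro t ht
      have := hb (t + 1) (by omega)
      push_cast at this
      rw [add_assoc, add_comm 1 (t : ℤ)]
      exact this))
    have e1 : 1 + a = a + 1 := by ring
    have e2 : i + 1 + a = i + ((a + 1 : ℕ) : ℤ) := by push_cast; ring
    rw [e1, e2] at h3
    exact h3

lemma d_s8b (hi : MTM.read w i = some 2) (hr : r + 1 < KR ^ e) :
    (prog KS KR KA hS hR hA).DR w .s8 i (vv κ r h x j) e 2 .s9 (i + 1) (vv κ (r + 1) h x j) e := by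
  have h1 : (prog KS KR KA hS hR hA).DR w .s8 i (vv κ r h x j) e 1 .s6 i (vv κ r h x j) e :=
    one KS KR KA hS hR hA (f := true) (d := 0) (by intro r; simp [pop])
      (opf_nop KS KR KA hS hR hA _) (by simp [pctl, hi]) (by simp)
  have h2 : (prog KS KR KA hS hR hA).DR w .s6 i (vv κ r h x j) e 1 .s9 (i + 1) (vv κ (r + 1) h x j) e :=
    one KS KR KA hS hR hA (f := false) (d := 1) (by intro r; simp [pop])
      (by rw [pop, opf_inc, vv_one, if_pos (by simpa [pbase] using hr), up_one])
      (by simp [pctl]) (by simp)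
  exact h1.trans h2

lemma inv_s8b (hi : MTM.read w i = some 2) (hra : (prog KS KR KA hS hR hA).RA w m .s8 i (vv κ r h x j) e k g) :
    r + 1 < KR ^ e := by
  by_contra hr
  have h1 : (prog KS KR KA hS hR hA).DR w .s8 i (vv κ r h x j) e 1 .s6 i (vv κ r h x j) e :=
    one KS KR KA hS hR hA (f := true) (d := 0) (by intro r; simp [pop])
      (opf_nop KS KR KA hS hR hA _) (by simp [pctl, hi]) (by simp)
  obtain ⟨k1, rfl, h2⟩ := h1.inv hra
  refine rej KS KR KA hS hR hA (q := .s6) (f := true) (v' := vv κ 0 h x j)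
    (by intro r; simp [pop])
    (by rw [pop, opf_inc, vv_one, if_neg (by simpa [pbase] using hr), up_one])
    (by simp [pctl]) h2

lemma d_s8c (hi : MTM.read w i = some 4) :
    (prog KS KR KA hS hR hA).DR w .s8 i (vv κ r h x j) e 1 .s15 (i + 1) (vv κ r h x j) e :=
  one KS KR KA hS hR hA (f := true) (d := 1) (by intro r; simp [pop])
    (opf_nop KS KR KA hS hR hA _) (by simp [pctl, hi]) (by simp)

theorem inv_s8 (hh : h < KA ^ e) : ∀ b (i : ℤ) r x j k g, b ≤ h → r ≤ KR ^ e →
    (prog KS KR KA hS hR hA).RA w m .s8 i (vv κ r h x j) e k g → (∀ t < b, isx (MTM.read w (i + t))) →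
    MTM.read w (i + b) = some 4 → ∃ r' x' j' k' g',
      (prog KS KR KA hS hR hA).RA w m .s15 (i + b + 1) (vv κ r' h x' j') e k' g' ∧
      k ≤ k' + (b + 1) + (KR ^ e - r) * (10 * h + 13) ∧ g ≤ g' + (KR ^ e - r) * e := by
  intro b
  induction b using Nat.strong_induction_on with
  | _ b ih =>
  intro i r x j k g hb hr hra hx h4
  rcases Nat.eq_zero_or_pos b with rfl | hb0
  · simp only [Nat.cast_zero, add_zero] at h4 ⊢
    obtain ⟨k1, rfl, h1⟩ := (d_s8c KS KR KA hS hR hA h4).inv hra
    exact ⟨r, x, j, k1, g, h1, by omega, by omega⟩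
  · obtain ⟨b, rfl⟩ : ∃ c, b = c + 1 := ⟨b - 1, by omega⟩
    have hx0 : isx (MTM.read w i) := by simpa using hx 0 hb0
    have e0 : i + ((b + 1 : ℕ) : ℤ) = i + 1 + b := by push_cast; ring
    rw [e0] at h4 ⊢
    by_cases hbit : isb (MTM.read w i)
    · obtain ⟨k1, rfl, h1⟩ := (d_s8a KS KR KA hS hR hA hbit).inv hra
      obtain ⟨r', x', j', k', g', h2, h3, h5⟩ := ih b (by omega) (i + 1) r x j k1 g (by omega) hr h1
        (by
          intro t ht
          have := hx (t + 1) (by omega)
          push_cast at this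
          rw [add_assoc, add_comm 1 (t : ℤ)]
          exact this) h4
      exact ⟨r', x', j', k', g', h2, by omega, h5⟩
    · have h2 : MTM.read w i = some 2 := by
        rcases hx0 with h0 | h0 | h0
        · exact absurd (Or.inl h0) hbit
        · exact absurd (Or.inr h0) hbit
        · exact h0
      have hr1 := inv_s8b KS KR KA hS hR hA h2 hra
      obtain ⟨k1, rfl, h3⟩ := (d_s8b KS KR KA hS hR hA h2 hr1).inv hra
      obtain ⟨j', k2, g2, hj', hG, rfl, rfl, h5⟩ := inv_s9 KS KR KA hS hR hA hh h3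
      have hjb : j' < b := by
        by_contra hjb
        have := hG.1 b (by omega)
        rw [h4] at this
        rcases this with h6 | h6 <;> simp at h6
      have e1 : i + 1 + (j' : ℤ) + ((b - j' : ℕ) : ℤ) = i + 1 + b := by
        rw [Nat.cast_sub hjb.le]; ring
      obtain ⟨r', x'', j'', k', g', h6, h7, h8⟩ := ih (b - j') (by omega) (i + 1 + j') (r + 1) h j'
        k2 g2 (by omega) (by omega) h5
        (by
          intro t ht
          have := hx (j' + t + 1) (by omega)
          push_cast at this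
          have e2 : i + ((j' : ℤ) + t + 1) = i + 1 + j' + t := by ring
          rw [e2] at this
          exact this) (by rw [e1]; exact h4)
      rw [e1] at h6
      have e3 : KR ^ e - r = (KR ^ e - (r + 1)) + 1 := by omega
      refine ⟨r', x'', j'', k', g', h6, ?_, ?_⟩
      · rw [e3, Nat.add_mul, one_mul]
        omega
      · rw [e3, Nat.add_mul, one_mul]
        omega

/-! ### The scan to the next region -/

lemma d_s15a (h1 : MTM.read w i ≠ none) (h2 : MTM.read w i ≠ some 3) :
    (prog KS KR KA hS hR hA).DR w .s15 i (vv κ r h x j) e 1 .s15 (i + 1) (vv κ r h x j) e :=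
  one KS KR KA hS hR hA (f := true) (d := 1) (by intro r; simp [pop])
    (opf_nop KS KR KA hS hR hA _) (by simp only [pctl]; rw [if_neg h1, if_neg h2]) (by simp)

lemma d_s15b (h2 : MTM.read w i = some 3) :
    (prog KS KR KA hS hR hA).DR w .s15 i (vv κ r h x j) e 1 .s2 i (vv κ r h x j) e :=
  one KS KR KA hS hR hA (f := true) (d := 0) (by intro r; simp [pop])
    (opf_nop KS KR KA hS hR hA _) (by simp [pctl, h2]) (by simp)

lemma d_s15 : ∀ (a : ℕ) (i : ℤ), (∀ t < a, MTM.read w (i + t) ≠ none ∧ MTM.read w (i + t) ≠ some 3) →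
    (prog KS KR KA hS hR hA).DR w .s15 i (vv κ r h x j) e a .s15 (i + a) (vv κ r h x j) e := by
  intro a
  induction a with
  | zero =>
    intro i _
    simp only [Nat.cast_zero, add_zero]
    exact RM.DR.refl _ _ _ _
  | succ a ih =>
    intro i hb
    have h0 : MTM.read w i ≠ none ∧ MTM.read w i ≠ some 3 := by simpa using hb 0 (by omega)
    have h1 := d_s15a KS KR KA hS hR hA (w := w) (κ := κ) (r := r) (h := h) (x := x) (j := j)
      (e := e) (i := i) h0.1 h0.2
    have h3 := h1.trans (ih (i + 1) (by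
      intro t ht
      have := hb (t + 1) (by omega)
      push_cast at this
      rw [add_assoc, add_comm 1 (t : ℤ)]
      exact this))
    have e1 : 1 + a = a + 1 := by ring
    have e2 : i + 1 + a = i + ((a + 1 : ℕ) : ℤ) := by push_cast; ring
    rw [e1, e2] at h3
    exact h3

lemma inv_s15 : ∀ k (i : ℤ), (prog KS KR KA hS hR hA).RA w m .s15 i (vv κ r h x j) e k g →
    ∃ a : ℕ, (∀ t < a, MTM.read w (i + t) ≠ none) ∧ ((k = a + 1 ∧ g = 0) ∨
      ∃ k', k = k' + (a + 1) ∧ (prog KS KR KA hS hR hA).RA w m .s2 (i + a) (vv κ r h x j) e k' g) := by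
  intro k
  induction k using Nat.strong_induction_on with
  | _ k ih =>
  intro i hr
  by_cases h1 : MTM.read w i = none
  · obtain ⟨h2, h3⟩ := RM.ra_acc (M := prog KS KR KA hS hR hA) (q := PSt.s15) (f := true) (v' := vv κ r h x j)
      (by intro r; simp [pop]) (opf_nop KS KR KA hS hR hA _) (by simp [pctl, h1]) hr
    exact ⟨0, by intro t ht; omega, Or.inl ⟨h2, h3⟩⟩
  · by_cases h2 : MTM.read w i = some 3
    · obtain ⟨k1, rfl, h3⟩ := (d_s15b KS KR KA hS hR hA h2).inv hr
      exact ⟨0, by intro t ht; omega, Or.inr ⟨k1, by ring, by simpa using h3⟩⟩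
    · obtain ⟨k1, rfl, h3⟩ := (d_s15a KS KR KA hS hR hA h1 h2).inv hr
      obtain ⟨a, h4, h5⟩ := ih k1 (by omega) (i + 1) h3
      have e2 : i + 1 + (a : ℤ) = i + ((a + 1 : ℕ) : ℤ) := by push_cast; ring
      refine ⟨a + 1, ?_, ?_⟩
      · intro t ht
        rcases Nat.eq_zero_or_pos t with rfl | ht0
        · simpa using h1
        · have := h4 (t - 1) (by omega)
          have e3 : i + 1 + ((t - 1 : ℕ) : ℤ) = i + t := by
            rw [Nat.cast_sub ht0]; push_cast; ring
          rw [e3] at this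
          exact this
      · rcases h5 with ⟨h6, h7⟩ | ⟨k', h6, h7⟩
        · exact Or.inl ⟨by omega, h7⟩
        · rw [e2] at h7
          exact Or.inr ⟨k', by omega, h7⟩

/-! ### A region -/

theorem inv_region (hr : (prog KS KR KA hS hR hA).RA w m .s2 i (vv κ r h x j) e k g) :
    κ + 1 < KS ^ e ∧ ∃ L : ℕ, 0 < L ∧ (∀ t < L, MTM.read w (i + t) ≠ none) ∧
      ((k ≤ (5 + 10 * KR ^ e) * L ∧ g ≤ KR ^ e * e) ∨
      ∃ r' h' x' j' k' g', (prog KS KR KA hS hR hA).RA w m .s2 (i + L) (vv (κ + 1) r' h' x' j') e k' g' ∧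
        k ≤ k' + (5 + 10 * KR ^ e) * L ∧ g ≤ g' + KR ^ e * e) := by
  obtain ⟨h3, hκ⟩ := inv_s2 KS KR KA hS hR hA hr
  refine ⟨hκ, ?_⟩
  obtain ⟨k1, rfl, h1⟩ := (d_s2 KS KR KA hS hR hA h3 hκ).inv hr
  have hA0 : 0 < KA ^ e := Nat.pow_pos (by omega)
  obtain ⟨b, k2, hb, hx, h4, rfl, h2⟩ := inv_s5 KS KR KA hS hR hA k1 0 (i + 1) hA0 h1
  rw [zero_add] at hb h2
  have e1 : i + 1 + (b : ℤ) - 1 = i + b := by ring
  rw [e1] at h2
  obtain ⟨k3, rfl, h5⟩ := (d_s7 KS KR KA hS hR hA h3 b hx).inv h2
  obtain ⟨r', x', j', k4, g4, h6, h7, h8⟩ := inv_s8 KS KR KA hS hR hA hb b (i + 1) 0 x j k3 g le_rfl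
    (Nat.zero_le _) h5 hx h4
  obtain ⟨a, h9, h10⟩ := inv_s15 KS KR KA hS hR hA k4 _ h6
  have hall : ∀ t < b + 2 + a, MTM.read w (i + t) ≠ none := by
    intro t ht
    rcases Nat.eq_zero_or_pos t with rfl | ht0
    · simp [h3]
    · rcases Nat.lt_or_ge (t - 1) b with h11 | h11
      · have := hx (t - 1) h11
        have e3 : i + 1 + ((t - 1 : ℕ) : ℤ) = i + t := by
          rw [Nat.cast_sub ht0]; push_cast; ring
        rw [e3] at this
        rcases this with h12 | h12 | h12 <;> rw [h12] <;> simp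
      · rcases Nat.lt_or_ge (t - 1) (b + 1) with h12 | h12
        · have e3 : i + 1 + (b : ℤ) = i + t := by
            have : t - 1 = b := by omega
            rw [← this, Nat.cast_sub ht0]; push_cast; ring
          rw [e3] at h4
          rw [h4]; simp
        · have := h9 (t - 1 - (b + 1)) (by omega)
          have e3 : i + 1 + (b : ℤ) + 1 + ((t - 1 - (b + 1) : ℕ) : ℤ) = i + t := by
            rw [Nat.cast_sub h12, Nat.cast_sub ht0]; push_cast; ring
          rw [e3] at this
          exact this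
  have e4 : i + 1 + (b : ℤ) + 1 + (a : ℤ) = i + ((b + 2 + a : ℕ) : ℤ) := by push_cast; ring
  rw [Nat.sub_zero] at h7 h8
  have hbound : (b + 1) + KR ^ e * (10 * b + 13) + (b + 2) + (2 * b + 1) + 2 + (a + 1) ≤
      (5 + 10 * KR ^ e) * (b + 2 + a) := by
    have : KR ^ e * (10 * b + 13) ≤ 10 * KR ^ e * (b + 2 + a) := by
      calc KR ^ e * (10 * b + 13) ≤ KR ^ e * (10 * (b + 2 + a)) := Nat.mul_le_mul_left _ (by omega)
        _ = _ := by ring
    rw [Nat.add_mul]
    omega
  refine ⟨b + 2 + a, by omega, hall, ?_⟩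
  rcases h10 with ⟨h11, h12⟩ | ⟨k', h11, h12⟩
  · left
    constructor
    · omega
    · omega
  · right
    rw [e4] at h12
    refine ⟨r', b, x', j', k', g4, h12, ?_, h8⟩
    omega

theorem bounds : ∀ (N : ℕ) (i : ℤ) κ r h x j k g, 0 ≤ i → i + N = w.length →
    (prog KS KR KA hS hR hA).RA w m .s2 i (vv κ r h x j) e k g →
    k ≤ (5 + 10 * KR ^ e) * N ∧ g ≤ (KS ^ e - κ) * (KR ^ e * e) := by
  intro N
  induction N using Nat.strong_induction_on with
  | _ N ih =>
  intro i κ r h x j k g hi hN hr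
  obtain ⟨hκ, L, hL, hall, h1⟩ := inv_region KS KR KA hS hR hA hr
  have hLN : L ≤ N := by
    by_contra hlt
    have := hall N (by omega)
    rw [hN] at this
    simp [MTM.read] at this
  have e3 : KS ^ e - κ = (KS ^ e - (κ + 1)) + 1 := by omega
  rcases h1 with ⟨h2, h3⟩ | ⟨r', h', x', j', k', g', h2, h3, h4⟩
  · refine ⟨h2.trans (Nat.mul_le_mul_left _ hLN), h3.trans ?_⟩
    rw [e3, Nat.add_mul, one_mul]
    exact Nat.le_add_left _ _
  · obtain ⟨h5, h6⟩ := ih (N - L) (by omega) (i + L) (κ + 1) r' h' x' j' k' g' (by omega)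
      (by rw [Nat.cast_sub hLN, ← hN]; ring) h2
    constructor
    · calc k ≤ k' + (5 + 10 * KR ^ e) * L := h3
        _ ≤ (5 + 10 * KR ^ e) * (N - L) + (5 + 10 * KR ^ e) * L := by omega
        _ = (5 + 10 * KR ^ e) * N := by rw [← Nat.mul_add, Nat.sub_add_cancel hLN]
    · rw [e3, Nat.add_mul, one_mul]
      omega

end

end Pool.Agent.helper24.OT.Pg
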