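import Pool.Agent.helper24.OT.Prog2

/-!
# The explicit program: the first phase, the general bound
-/

namespace Pool.Agent.helper24.OT.Pg

/-- the sum `1 + b + ... + b^(e-1)` -/
def gs (b : ℕ) : ℕ → ℕ
  | 0 => 0
  | e + 1 => gs b e + b ^ e

lemma le_gs (b e : ℕ) (he : 1 ≤ e) : b ^ (e - 1) ≤ gs b e := by
  obtain ⟨e, rfl⟩ : ∃ c, e = c + 1 := ⟨e - 1, by omega⟩
  simp [gs]

lemma gs_le {b : ℕ} (hb : 2 ≤ b) (e : ℕ) : gs b (e + 1) ≤ 2 * b ^ e := by
  induction e with
  | zero => simp [gs]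
  | succ e ih =>
    have h1 : gs b (e + 1 + 1) = gs b (e + 1) + b ^ (e + 1) := rfl
    have h2 : 2 * b ^ e ≤ b ^ (e + 1) := by
      rw [pow_succ']; exact Nat.mul_le_mul_right _ hb
    omega

lemma gs_mono (b : ℕ) {e e' : ℕ} (h : e ≤ e') : gs b e ≤ gs b e' := by
  induction h with
  | refl => exact le_rfl
  | step _ ih => exact ih.trans (Nat.le_add_right _ _)

lemma read_nat (w : List (Fin 5)) (i : ℕ) : MTM.read w (i : ℤ) = w[i]? := by
  simp [MTM.read]

section
variable (KS KR KA : ℕ) (hS : 2 ≤ KS) (hR : 2 ≤ KR) (hA : 2 ≤ KA)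


variable {w : List (Fin 5)} {m : ℕ}

lemma vv_zeros : (fun _ => 0) = vv 0 0 0 0 0 := by
  funext i; fin_cases i <;> simp [vv]

lemma phase0 : ∀ i : ℕ, i ≤ w.length → ∃ e X, i = gs KA e + X ∧ X < KA ^ e ∧
    (prog KS KR KA hS hR hA).DR w .s0 0 (vv 0 0 0 0 0) 0 i .s0 i (vv 0 0 0 X 0) e := by
  intro i
  induction i with
  | zero =>
    intro _
    exact ⟨0, 0, rfl, by simp, RM.DR.refl _ _ _ _⟩
  | succ i ih =>
    intro hi
    obtain ⟨e, X, h1, h2, h3⟩ := ih (by omega)
    have hne : MTM.read w (i : ℤ) ≠ none := by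
      rw [read_nat]
      simp
      omega
    have hd : RM.Det (pop .s0) := by intro r; simp [pop]
    by_cases hX : X + 1 < KA ^ e
    · refine ⟨e, X + 1, by omega, hX, ?_⟩
      refine h3.trans ?_
      refine RM.DR.step (M := prog KS KR KA hS hR hA) (q := PSt.s0) (q' := PSt.s0) (f := false) (gr := false) (d := 1)
        (v' := vv 0 0 0 (X + 1) 0) (i' := ((i + 1 : ℕ) : ℤ)) (e' := e) hd
        ?_ ?_ (by push_cast; simp) rfl (RM.DR.refl _ _ _ _)
      · change (prog KS KR KA hS hR hA).opf (pop .s0) _ _ = _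
        rw [pop, opf_inc, vv_three, if_pos (by simpa [pbase] using hX), up_three]
      · change pctl .s0 _ _ = _
        simp [pctl, hne]
    · refine ⟨e + 1, 0, ?_, Nat.pow_pos (by omega), ?_⟩
      · simp only [gs]; omega
      · refine h3.trans ?_
        refine RM.DR.step (M := prog KS KR KA hS hR hA) (q := PSt.s0) (q' := PSt.s0) (f := true) (gr := true) (d := 1)
          (v' := vv 0 0 0 0 0) (i' := ((i + 1 : ℕ) : ℤ)) (e' := e + 1) hd
          ?_ ?_ (by push_cast; simp) rfl (RM.DR.refl _ _ _ _)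
        · change (prog KS KR KA hS hR hA).opf (pop .s0) _ _ = _
          rw [pop, opf_inc, vv_three, if_neg (by simpa [pbase] using hX), up_three]
        · change pctl .s0 _ _ = _
          simp [pctl, hne]

lemma d_s1 (e X : ℕ) : ∀ i : ℕ, i ≤ w.length →
    (prog KS KR KA hS hR hA).DR w .s1 ((i : ℤ) - 1) (vv 0 0 0 X 0) e (i + 1) .s2 0 (vv 0 0 0 X 0) e := by
  intro i
  induction i with
  | zero =>
    intro _
    exact one KS KR KA hS hR hA (f := true) (d := 1) (by intro r; simp [pop])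
      (opf_nop KS KR KA hS hR hA _) (by simp [pctl, MTM.read]) (by simp)
  | succ i ih =>
    intro hi
    have hne : MTM.read w (i : ℤ) ≠ none := by
      rw [read_nat]
      simp
      omega
    have e1 : (((i + 1 : ℕ) : ℤ) - 1) = i := by push_cast; ring
    rw [e1]
    have h1 : (prog KS KR KA hS hR hA).DR w .s1 (i : ℤ) (vv 0 0 0 X 0) e 1 .s1 ((i : ℤ) - 1) (vv 0 0 0 X 0) e :=
      one KS KR KA hS hR hA (f := true) (d := -1) (by intro r; simp [pop])
        (opf_nop KS KR KA hS hR hA _) (by simp [pctl, hne]) (by simp; ring)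
    have h2 := h1.trans (ih (by omega))
    have e2 : 1 + (i + 1) = i + 1 + 1 := by ring
    rw [e2] at h2
    exact h2

theorem phase : ∃ e X X', w.length = gs KA e + X ∧ X < KA ^ e ∧
    (prog KS KR KA hS hR hA).DR w .s0 0 (fun _ => 0) 0 (2 * w.length + 2) .s2 0 (vv 0 0 0 X' 0) e := by
  obtain ⟨e, X, h1, h2, h3⟩ := phase0 KS KR KA hS hR hA (w := w) w.length le_rfl
  have hn : MTM.read w (w.length : ℤ) = none := by rw [read_nat]; simp
  have hd : RM.Det (pop .s0) := by intro r; simp [pop]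
  obtain ⟨X', h4⟩ : ∃ X', (prog KS KR KA hS hR hA).DR w .s0 w.length (vv 0 0 0 X 0) e 1 .s1 ((w.length : ℤ) - 1)
      (vv 0 0 0 X' 0) e := by
    by_cases hX : X + 1 < KA ^ e
    · exact ⟨X + 1, one KS KR KA hS hR hA (f := false) (d := -1) hd
        (by rw [pop, opf_inc, vv_three, if_pos (by simpa [pbase] using hX), up_three])
        (by simp [pctl, hn]) (by simp; ring)⟩
    · exact ⟨0, one KS KR KA hS hR hA (f := true) (d := -1) hd
        (by rw [pop, opf_inc, vv_three, if_neg (by simpa [pbase] using hX), up_three])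
        (by simp [pctl, hn]) (by simp; ring)⟩
  have h5 := (h3.trans h4).trans (d_s1 KS KR KA hS hR hA e X' w.length le_rfl)
  refine ⟨e, X, X', h1, h2, ?_⟩
  rw [vv_zeros]
  have e1 : w.length + 1 + (w.length + 1) = 2 * w.length + 2 := by ring
  rw [e1] at h5
  exact h5

/-- after the first phase the number of digits does not change -/
theorem rebase {q : PSt} {i : ℤ} {v : Fin 5 → ℕ} {e k g : ℕ}
    (h : (prog KS KR KA hS hR hA).RA w m q i v e k g) (hq : q ≠ .s0) : (prog KS KR KA hS hR hA).RA w e q i v e k g := by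
  refine RM.ra_rebase (M := prog KS KR KA hS hR hA) (P := fun q => q ≠ PSt.s0) ?_ h hq
  intro q f σ q' gr d hq hf
  change pctl q f σ = _ at hf
  cases q <;> simp only [pctl] at hf <;> (try split_ifs at hf) <;>
    first
    | exact absurd rfl hq
    | (cases hf; exact ⟨rfl, by simp⟩)


theorem main_bound {T G S : ℕ} (h : (prog KS KR KA hS hR hA).toMac.toMTM.AcceptsIn w T G S) :
    ∃ T' G' S' e : ℕ, (prog KS KR KA hS hR hA).toMac.toMTM.AcceptsIn w T' G' S' ∧ KA ^ (e - 1) ≤ w.length + 1 ∧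
      T' ≤ (2 * e + 3) * ((5 + 10 * KR ^ e) * w.length + (2 * w.length + 2)) ∧
      G' ≤ KS ^ e * (KR ^ e * e) ∧ S' = e + 2 := by
  obtain ⟨m, k, h1⟩ := (prog KS KR KA hS hR hA).ra_of_accepts h
  obtain ⟨e, X, X', h2, h3, h4⟩ := phase KS KR KA hS hR hA (w := w)
  obtain ⟨k1, rfl, h5⟩ := h4.inv h1
  obtain ⟨h6, h7⟩ := bounds KS KR KA hS hR hA w.length 0 _ _ _ _ _ _ _ le_rfl (by simp) h5
  have h8 := h4.ra (rebase KS KR KA hS hR hA h5 (by simp))
  obtain ⟨T', h9, h10⟩ := (prog KS KR KA hS hR hA).accepts_of_ra h8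
  refine ⟨T', G, e + 2, e, h10, ?_, ?_, ?_, rfl⟩
  · rcases Nat.eq_zero_or_pos e with rfl | he
    · simp
    · have := le_gs KA e he
      omega
  · exact h9.trans (Nat.mul_le_mul_left _ (by omega))
  · simpa using h7

end

end Pool.Agent.helper24.OT.Pg
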