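import Pool.Agent.helper24.OT.Prog3

/-!
# The explicit program on the words of the lower bound
-/

namespace Pool.Agent.helper24.OT.Pg

lemma flatten_get {α : Type} {s L : ℕ} (f : Fin s → List α) (hf : ∀ k, (f k).length = L)
    (k : Fin s) {t : ℕ} (ht : t < L) : (List.ofFn f).flatten[k.val * L + t]? = (f k)[t]? := by
  induction s with
  | zero => exact k.elim0
  | succ s ih =>
    rw [List.ofFn_succ, List.flatten_cons]
    rcases Fin.eq_zero_or_eq_succ k with rfl | ⟨k', rfl⟩
    · rw [List.getElem?_append_left (by rw [hf]; simpa using ht)]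
      simp
    · rw [List.getElem?_append_right (by rw [hf]; simp only [Fin.val_succ, Nat.add_mul]; omega), hf]
      have e : (k'.succ : Fin (s + 1)).val * L + t - L = k'.val * L + t := by
        simp only [Fin.val_succ, Nat.add_mul]; omega
      rw [e]
      exact ih (fun k => f k.succ) (fun k => hf _) k'

/-- the letter of a bit -/
def bl (b : Bool) : Fin 5 := if b then 1 else 0

variable {s r m : ℕ}

lemma subw_length (x : Fin m → Bool) : (subw x).length = m + 1 := by simp [subw]

lemma part_length (x : Fin r → Fin m → Bool) : (part x).length = r * (m + 1) := by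
  simp [part, subw_length, List.length_flatten, List.map_ofFn, Function.comp_def]

lemma region_length (x y : Fin r → Fin m → Bool) :
    (region x y).length = 3 * (r * (m + 1)) + 1 := by
  simp [region, part_length]; ring

lemma word_length' (z : Fin s → (Fin r → Fin m → Bool) × (Fin r → Fin m → Bool)) :
    (word z).length = s * (3 * (r * (m + 1)) + 1) := by
  simp [word, region_length, List.length_flatten, List.map_ofFn, Function.comp_def]

lemma part_semi (x : Fin r → Fin m → Bool) (i : Fin r) : (part x)[i.val * (m + 1)]? = some 2 := by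
  have := flatten_get (fun i => subw (x i)) (fun i => subw_length (x i)) i (t := 0) (by omega)
  rw [add_zero] at this
  rw [part, this]
  simp [subw]

lemma part_bit (x : Fin r → Fin m → Bool) (i : Fin r) (j : Fin m) :
    (part x)[i.val * (m + 1) + (j.val + 1)]? = some (bl (x i j)) := by
  have := flatten_get (fun i => subw (x i)) (fun i => subw_length (x i)) i (t := j.val + 1)
    (by omega)
  rw [part, this]
  simp [subw, bl]

lemma part_isx (x : Fin r → Fin m → Bool) {t : ℕ} (ht : t < r * (m + 1)) : isx (part x)[t]? := by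
  have hm : 0 < m + 1 := Nat.succ_pos m
  obtain ⟨i, hi⟩ : ∃ i : Fin r, i.val = t / (m + 1) :=
    ⟨⟨t / (m + 1), Nat.div_lt_of_lt_mul (by rw [mul_comm]; exact ht)⟩, rfl⟩
  have h1 : t = i.val * (m + 1) + t % (m + 1) := by
    rw [hi, mul_comm]; exact (Nat.div_add_mod t (m + 1)).symm
  have h2 : t % (m + 1) < m + 1 := Nat.mod_lt _ hm
  rcases Nat.eq_zero_or_pos (t % (m + 1)) with h0 | h0
  · rw [h1, h0, add_zero, part_semi]
    simp [isx]
  · obtain ⟨j, hj⟩ : ∃ j : Fin m, j.val + 1 = t % (m + 1) := ⟨⟨t % (m + 1) - 1, by omega⟩, by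
      simp only; omega⟩
    rw [h1, ← hj, part_bit]
    unfold bl
    split_ifs <;> simp [isx]

/-- the letters of a region -/
structure RL (w : List (Fin 5)) (P : ℤ) (x y : Fin r → Fin m → Bool) : Prop where
  h3 : MTM.read w P = some 3
  hx : ∀ t < r * (m + 1), MTM.read w (P + 1 + t) = (part x)[t]?
  h4 : ∀ t < r * (m + 1), MTM.read w (P + 1 + (r * (m + 1) : ℕ) + t) = some 4
  hy : ∀ t < r * (m + 1), MTM.read w (P + 1 + 2 * (r * (m + 1) : ℕ) + t) = (part y)[t]?

lemma rl_word (z : Fin s → (Fin r → Fin m → Bool) × (Fin r → Fin m → Bool)) (k : Fin s) :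
    RL (word z) ((k.val * (3 * (r * (m + 1)) + 1) : ℕ) : ℤ) (z k).1 (z k).2 := by
  have key : ∀ t : ℕ, t < 3 * (r * (m + 1)) + 1 →
      MTM.read (word z) ((k.val * (3 * (r * (m + 1)) + 1) + t : ℕ) : ℤ)
        = (region (z k).1 (z k).2)[t]? := by
    intro t ht
    rw [read_nat, word]
    exact flatten_get (fun k => region (z k).1 (z k).2) (fun k => region_length _ _) k ht
  obtain ⟨h, hh⟩ : ∃ h, h = r * (m + 1) := ⟨_, rfl⟩
  have hl1 := part_length (z k).1
  rw [← hh] at key hl1 ⊢
  constructor
  · have := key 0 (by omega)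
    simpa [region] using this
  · intro t ht
    rw [← hh] at ht
    have := key (t + 1) (by omega)
    have e : ((k.val * (3 * h + 1) : ℕ) : ℤ) + 1 + t = ((k.val * (3 * h + 1) + (t + 1) : ℕ) : ℤ) := by
      push_cast; ring
    rw [e, this, region, List.getElem?_cons_succ, List.append_assoc,
      List.getElem?_append_left (by rw [hl1]; exact ht)]
  · intro t ht
    rw [← hh] at ht ⊢
    have := key (h + t + 1) (by omega)
    have e : ((k.val * (3 * h + 1) : ℕ) : ℤ) + 1 + (h : ℕ) + t
        = ((k.val * (3 * h + 1) + (h + t + 1) : ℕ) : ℤ) := by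
      push_cast; ring
    rw [e, this, region, List.getElem?_cons_succ, List.append_assoc,
      List.getElem?_append_right (by rw [hl1]; omega), hl1,
      List.getElem?_append_left (by rw [List.length_replicate, ← hh]; omega),
      List.getElem?_replicate, if_pos (by rw [← hh]; omega)]
  · intro t ht
    rw [← hh] at ht ⊢
    have := key (2 * h + t + 1) (by omega)
    have e : ((k.val * (3 * h + 1) : ℕ) : ℤ) + 1 + 2 * (h : ℕ) + t
        = ((k.val * (3 * h + 1) + (2 * h + t + 1) : ℕ) : ℤ) := by
      push_cast; ring
    rw [e, this, region, List.getElem?_cons_succ,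
      List.getElem?_append_right (by
        rw [List.length_append, hl1, List.length_replicate, ← hh]; omega)]
    congr 1
    rw [List.length_append, hl1, List.length_replicate, ← hh]; omega

end Pool.Agent.helper24.OT.Pg
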