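import Pool.Agent.helper24.OT.Prog4

/-!
# The explicit program decides the words of the lower bound
-/

namespace Pool.Agent.helper24.OT.Pg

lemma bl_eq_one {b : Bool} : some (bl b) = some 1 ↔ b = true := by
  cases b <;> simp [bl]

lemma isb_bl (b : Bool) : isb (some (bl b)) := by
  cases b <;> simp [bl, isb]

section letters

variable {r m : ℕ} {w : List (Fin 5)} {P : ℤ} {x y : Fin r → Fin m → Bool} (H : RL w P x y)

include H

lemma RL.semi (i : Fin r) : MTM.read w (P + 1 + (i.val * (m + 1) : ℕ)) = some 2 := by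
  have h1 : i.val * (m + 1) < r * (m + 1) := Nat.mul_lt_mul_of_pos_right i.isLt (Nat.succ_pos m)
  rw [H.hx _ h1, part_semi]

omit H in
lemma lt_aux (i : Fin r) (j : Fin m) : i.val * (m + 1) + (j.val + 1) < r * (m + 1) := by
  have h1 : (i.val + 1) * (m + 1) ≤ r * (m + 1) := Nat.mul_le_mul_right _ i.isLt
  rw [Nat.add_mul, one_mul] at h1
  have := j.isLt
  omega

lemma RL.xbit (i : Fin r) (j : Fin m) :
    MTM.read w (P + 1 + (i.val * (m + 1) : ℕ) + 1 + (j.val : ℕ)) = some (bl (x i j)) := by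
  have h1 := H.hx _ (lt_aux i j)
  rw [part_bit] at h1
  rw [← h1]
  congr 1
  push_cast; ring

lemma RL.ybit (i : Fin r) (j : Fin m) :
    MTM.read w (P + 1 + (i.val * (m + 1) : ℕ) + 1 + (j.val : ℕ) + 2 * ((r * (m + 1) : ℕ) : ℤ))
      = some (bl (y i j)) := by
  have h1 := H.hy _ (lt_aux i j)
  rw [part_bit] at h1
  rw [← h1]
  congr 1
  push_cast; ring

lemma RL.stop (i : Fin r) : ¬ isb (MTM.read w (P + 1 + (i.val * (m + 1) : ℕ) + 1 + (m : ℕ))) := by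
  rcases Nat.lt_or_ge (i.val + 1) r with h | h
  · have h1 := H.semi ⟨i.val + 1, h⟩
    have e : P + 1 + (i.val * (m + 1) : ℕ) + 1 + (m : ℕ)
        = P + 1 + (((i.val + 1) * (m + 1) : ℕ) : ℤ) := by push_cast; ring
    rw [e, h1]
    simp [isb]
  · have h0 : i.val + 1 = r := by have := i.isLt; omega
    have h1 := H.h4 0 (Nat.mul_pos (by omega) (Nat.succ_pos m))
    have e0 : r * (m + 1) = i.val * (m + 1) + (m + 1) := by
      conv_lhs => rw [← h0]
      ring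
    have e : P + 1 + (i.val * (m + 1) : ℕ) + 1 + (m : ℕ)
        = P + 1 + ((r * (m + 1) : ℕ) : ℤ) + ((0 : ℕ) : ℤ) := by rw [e0]; push_cast; ring
    rw [e, h1]
    simp [isb]

end letters

section
variable (KS KR KA : ℕ) (hS : 2 ≤ KS) (hR : 2 ≤ KR) (hA : 2 ≤ KA)


variable {w : List (Fin 5)} {M e : ℕ} {κ : ℕ} {r m : ℕ} {P : ℤ} {X Y : Fin r → Fin m → Bool}

lemma D1 (H : RL w P X Y) (hκ : κ + 1 < KS ^ e) (hr : 0 < r) (hh : r * (m + 1) < KA ^ e)
    (r0 h0 x0 j0 : ℕ) : ∃ n, (prog KS KR KA hS hR hA).DR w .s2 P (vv κ r0 h0 x0 j0) e n .s8 (P + 1)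
      (vv (κ + 1) 0 (r * (m + 1)) x0 j0) e := by
  have hpos : 0 < r * (m + 1) := Nat.mul_pos hr (Nat.succ_pos m)
  have hx : ∀ t < r * (m + 1), isx (MTM.read w (P + 1 + t)) := by
    intro t ht
    rw [H.hx t ht]
    exact part_isx X ht
  have h1 := d_s2 KS KR KA hS hR hA (w := w) (κ := κ) (r := r0) (h := h0) (x := x0) (j := j0)
    (e := e) (i := P) H.h3 hκ
  have h2 := d_s5 KS KR KA hS hR hA (w := w) (κ := κ + 1) (r := r0) (x := x0) (j := j0)
    (e := e) (r * (m + 1)) 0 (P + 1) (by omega) hx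
  have h4 := H.h4 0 hpos
  simp only [Nat.cast_zero, add_zero] at h4
  have h3 := d_s5b KS KR KA hS hR hA (w := w) (κ := κ + 1) (r := r0) (h := 0 + r * (m + 1))
    (x := x0) (j := j0) (e := e) h4
  have h5 := d_s7 KS KR KA hS hR hA (w := w) (κ := κ + 1) (r := r0) (h := 0 + r * (m + 1))
    (x := x0) (j := j0) (e := e) H.h3 (r * (m + 1)) hx
  have e1 : P + 1 + ((r * (m + 1) : ℕ) : ℤ) - 1 = P + ((r * (m + 1) : ℕ) : ℤ) := by ring
  rw [e1] at h3
  have h6 := ((h1.trans h2).trans h3).trans h5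
  rw [zero_add] at h6
  exact ⟨_, h6⟩

lemma D2 (H : RL w P X Y) (hr : 0 < r) (r0 h0 x0 j0 : ℕ) :
    ∃ n, (prog KS KR KA hS hR hA).DR w .s8 (P + 1 + (r * (m + 1) : ℕ)) (vv κ r0 h0 x0 j0) e n .s15
      (P + (3 * (r * (m + 1)) + 1 : ℕ)) (vv κ r0 h0 x0 j0) e := by
  have hpos : 0 < r * (m + 1) := Nat.mul_pos hr (Nat.succ_pos m)
  have h4 := H.h4 0 hpos
  simp only [Nat.cast_zero, add_zero] at h4
  have h1 := d_s8c KS KR KA hS hR hA (w := w) (κ := κ) (r := r0) (h := h0)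
    (x := x0) (j := j0) (e := e) h4
  have h2 := d_s15 KS KR KA hS hR hA (w := w) (κ := κ) (r := r0) (h := h0)
    (x := x0) (j := j0) (e := e) (2 * (r * (m + 1)) - 1) (P + 1 + (r * (m + 1) : ℕ) + 1) (by
      intro t ht
      rcases Nat.lt_or_ge (t + 1) (r * (m + 1)) with h | h
      · have h5 := H.h4 (t + 1) h
        have e1 : P + 1 + ((r * (m + 1) : ℕ) : ℤ) + ((t + 1 : ℕ) : ℤ)
          = P + 1 + ((r * (m + 1) : ℕ) : ℤ) + 1 + t := by push_cast; ring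
        rw [e1] at h5
        rw [h5]
        simp
      · have h5 := H.hy (t + 1 - r * (m + 1)) (by omega)
        have e1 : P + 1 + 2 * ((r * (m + 1) : ℕ) : ℤ) + ((t + 1 - r * (m + 1) : ℕ) : ℤ)
          = P + 1 + ((r * (m + 1) : ℕ) : ℤ) + 1 + t := by
          rw [Nat.cast_sub h]; push_cast; ring
        rw [e1] at h5
        have h6 := part_isx Y (t := t + 1 - r * (m + 1)) (by omega)
        rw [← h5] at h6
        rcases h6 with h6 | h6 | h6 <;> rw [h6] <;> simp)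
  have e1 : P + 1 + ((r * (m + 1) : ℕ) : ℤ) + 1 + ((2 * (r * (m + 1)) - 1 : ℕ) : ℤ)
      = P + ((3 * (r * (m + 1)) + 1 : ℕ) : ℤ) := by
    rw [Nat.cast_sub (by omega)]; push_cast; ring
  rw [e1] at h2
  exact ⟨_, h1.trans h2⟩

lemma D3 (H : RL w P X Y) (i : Fin r) {j' : ℕ} (hj' : j' ≤ m) (r0 h0 x0 j0 : ℕ) :
    (prog KS KR KA hS hR hA).DR w .s8 (P + 1 + (i.val * (m + 1) : ℕ) + 1 + j') (vv κ r0 h0 x0 j0) e (m - j') .s8
      (P + 1 + ((i.val + 1) * (m + 1) : ℕ)) (vv κ r0 h0 x0 j0) e := by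
  have h2 := d_s8 KS KR KA hS hR hA (w := w) (κ := κ) (r := r0) (h := h0)
    (x := x0) (j := j0) (e := e) (m - j') (P + 1 + (i.val * (m + 1) : ℕ) + 1 + j') (by
      intro t ht
      have h3 := H.xbit i ⟨j' + t, by omega⟩
      have e1 : P + 1 + ((i.val * (m + 1) : ℕ) : ℤ) + 1 + ((j' + t : ℕ) : ℤ)
        = P + 1 + ((i.val * (m + 1) : ℕ) : ℤ) + 1 + j' + t := by push_cast; ring
      simp only at h3
      rw [e1] at h3
      rw [h3]
      exact isb_bl _)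
  have e1 : P + 1 + ((i.val * (m + 1) : ℕ) : ℤ) + 1 + j' + ((m - j' : ℕ) : ℤ)
      = P + 1 + (((i.val + 1) * (m + 1) : ℕ) : ℤ) := by
    rw [Nat.cast_sub hj']; push_cast; ring
  rw [e1] at h2
  exact h2

lemma blocks_fwd (H : RL w P X Y) (hh : r * (m + 1) < KA ^ e) : ∀ c i x j k g, i + c = r →
    (prog KS KR KA hS hR hA).RA w M .s8 (P + 1 + (i * (m + 1) : ℕ)) (vv κ i (r * (m + 1)) x j) e k g →
    (∀ i' : Fin r, i ≤ i'.val → ∃ j', X i' j' = true ∧ Y i' j' = true) ∧ ∃ x' j' k' g',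
      (prog KS KR KA hS hR hA).RA w M .s8 (P + 1 + (r * (m + 1) : ℕ)) (vv κ r (r * (m + 1)) x' j') e k' g' := by
  intro c
  induction c with
  | zero =>
    intro i x j k g hi hra
    rw [add_zero] at hi
    subst hi
    exact ⟨fun i' hi' => absurd i'.isLt (by omega), x, j, k, g, hra⟩
  | succ c ih =>
    intro i x j k g hi hra
    obtain ⟨i0, hi0⟩ : ∃ i0 : Fin r, i0.val = i := ⟨⟨i, by omega⟩, rfl⟩
    subst hi0
    have h1 := H.semi i0
    have h2 := inv_s8b KS KR KA hS hR hA h1 hra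
    obtain ⟨k1, rfl, h3⟩ := (d_s8b KS KR KA hS hR hA h1 h2).inv hra
    obtain ⟨j', k2, g2, hj', hG, rfl, rfl, h5⟩ := inv_s9 KS KR KA hS hR hA hh h3
    have hjm : j' < m := by
      by_contra hjm
      exact H.stop i0 (hG.1 m (by omega))
    have h6 : X i0 ⟨j', hjm⟩ = true := by
      have h7 := hG.2.1
      have h8 := H.xbit i0 ⟨j', hjm⟩
      simp only at h8
      rw [h8] at h7
      exact bl_eq_one.mp h7
    have h7 : Y i0 ⟨j', hjm⟩ = true := by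
      have h7 := hG.2.2
      have h8 := H.ybit i0 ⟨j', hjm⟩
      simp only at h8
      rw [h8] at h7
      exact bl_eq_one.mp h7
    obtain ⟨k3, rfl, h8⟩ := (D3 KS KR KA hS hR hA H i0 hjm.le (κ := κ) (e := e) (i0.val + 1)
      (r * (m + 1)) (r * (m + 1)) j').inv h5
    obtain ⟨h9, h10⟩ := ih (i0.val + 1) _ _ _ _ (by omega) h8
    refine ⟨?_, h10⟩
    intro i' hi'
    rcases Nat.lt_or_ge i0.val i'.val with h | h
    · exact h9 i' h
    · have : i' = i0 := Fin.ext (by omega)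
      subst this
      exact ⟨_, h6, h7⟩

lemma blocks_bwd (H : RL w P X Y) (hh : r * (m + 1) < KA ^ e) (hr : r < KR ^ e)
    (hY : ∀ i, ∃ j, X i j = true ∧ Y i j = true) : ∀ c i, i + c = r →
    (∀ x j, ∃ k g, (prog KS KR KA hS hR hA).RA w M .s8 (P + 1 + (r * (m + 1) : ℕ)) (vv κ r (r * (m + 1)) x j) e k g) →
    ∀ x j, ∃ k g,
      (prog KS KR KA hS hR hA).RA w M .s8 (P + 1 + (i * (m + 1) : ℕ)) (vv κ i (r * (m + 1)) x j) e k g := by
  intro c
  induction c with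
  | zero =>
    intro i hi h
    rw [add_zero] at hi
    subst hi
    exact h
  | succ c ih =>
    intro i hi h x j
    obtain ⟨i0, hi0⟩ : ∃ i0 : Fin r, i0.val = i := ⟨⟨i, by omega⟩, rfl⟩
    subst hi0
    obtain ⟨j0, h1, h2⟩ := hY i0
    have hi1 : i0.val + 1 < KR ^ e := by have := i0.isLt; omega
    obtain ⟨k1, g1, h3⟩ := ih (i0.val + 1) (by omega) h (r * (m + 1)) j0.val
    have h4 := (D3 KS KR KA hS hR hA H i0 j0.isLt.le (κ := κ) (e := e) (i0.val + 1)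
      (r * (m + 1)) (r * (m + 1)) j0.val).ra h3
    have hG : Good w (P + 1 + (i0.val * (m + 1) : ℕ) + 1) (r * (m + 1)) j0.val := by
      refine ⟨?_, ?_, ?_⟩
      · intro t ht
        have h5 := H.xbit i0 ⟨t, by have := j0.isLt; omega⟩
        simp only at h5
        rw [h5]
        exact isb_bl _
      · rw [H.xbit i0 j0, h1]; rfl
      · rw [H.ybit i0 j0, h2]; rfl
    have hj : j0.val < KA ^ e := by
      have h5 := lt_aux i0 j0
      omega
    obtain ⟨k', h5⟩ := s9_of KS KR KA hS hR hA hh hj hG h4 x j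
    exact ⟨_, _, (d_s8b KS KR KA hS hR hA (H.semi i0) hi1).ra h5⟩

theorem reg_fwd (H : RL w P X Y) (hr : 0 < r) (hh : r * (m + 1) < KA ^ e) {r0 h0 x0 j0 k g : ℕ}
    (hra : (prog KS KR KA hS hR hA).RA w M .s2 P (vv κ r0 h0 x0 j0) e k g) :
    (∀ i, ∃ j, X i j = true ∧ Y i j = true) ∧ ∃ r' h' x' j' k' g',
      (prog KS KR KA hS hR hA).RA w M .s15 (P + (3 * (r * (m + 1)) + 1 : ℕ)) (vv (κ + 1) r' h' x' j') e k' g' := by
  obtain ⟨_, hκ⟩ := inv_s2 KS KR KA hS hR hA hra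
  obtain ⟨n, h1⟩ := D1 KS KR KA hS hR hA H hκ hr hh r0 h0 x0 j0
  obtain ⟨k1, rfl, h2⟩ := h1.inv hra
  obtain ⟨h3, x', j', k', g', h4⟩ := blocks_fwd KS KR KA hS hR hA H hh r 0 x0 j0 k1 g (by omega)
    (by simpa using h2)
  obtain ⟨n2, h5⟩ := D2 KS KR KA hS hR hA H (κ := κ + 1) (e := e) hr r (r * (m + 1)) x' j'
  obtain ⟨k2, rfl, h6⟩ := h5.inv h4
  exact ⟨fun i => h3 i (Nat.zero_le _), _, _, _, _, _, _, h6⟩

theorem reg_bwd (H : RL w P X Y) (hr : 0 < r) (hh : r * (m + 1) < KA ^ e) (hr' : r < KR ^ e)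
    (hκ : κ + 1 < KS ^ e) (hY : ∀ i, ∃ j, X i j = true ∧ Y i j = true)
    (hall : ∀ r' h' x' j', ∃ k' g',
      (prog KS KR KA hS hR hA).RA w M .s15 (P + (3 * (r * (m + 1)) + 1 : ℕ)) (vv (κ + 1) r' h' x' j') e k' g')
    (r0 h0 x0 j0 : ℕ) : ∃ k g, (prog KS KR KA hS hR hA).RA w M .s2 P (vv κ r0 h0 x0 j0) e k g := by
  obtain ⟨n, h1⟩ := D1 KS KR KA hS hR hA H hκ hr hh r0 h0 x0 j0
  obtain ⟨k, g, h2⟩ := blocks_bwd KS KR KA hS hR hA (M := M) (κ := κ + 1) H hh hr' hY r 0 (by omega)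
    (by
      intro x j
      obtain ⟨n2, h5⟩ := D2 KS KR KA hS hR hA H (κ := κ + 1) (e := e) hr r (r * (m + 1)) x j
      obtain ⟨k', g', h6⟩ := hall r (r * (m + 1)) x j
      exact ⟨_, _, h5.ra h6⟩) x0 j0
  exact ⟨_, _, h1.ra (by simpa using h2)⟩

end

end Pool.Agent.helper24.OT.Pg
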