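import Pool.Agent.helper24.OT.Mac

/-!
# Register machines with an input head, compiled to macro machines
-/

namespace Pool.Agent.helper24.OT

/-- the operations on the five registers -/
inductive Op where
  | nop : Op
  | inc (r : Fin 5) : Op
  | reset (r : Fin 5) : Op
  | eq (r r' : Fin 5) : Op
  | guess (r : Fin 5) : Op

/-- a register machine with bounded registers: all registers have the same number of digits, the
register `r` has base `b r` -/
structure RM (A : Type) where
  /-- states -/
  Q : Type
  /-- finitely many states -/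
  finQ : Finite Q
  /-- the bases -/
  b : Fin 5 → ℕ
  hb : ∀ r, 2 ≤ b r
  /-- initial state -/
  start : Q
  /-- the operation of a state -/
  op : Q → Op
  heq : ∀ q r r', op q = Op.eq r r' → b r = b r'
  /-- the decision after the operation -/
  ctl : Q → Bool → Option A → Verd Q

namespace RM

variable {A : Type} (M : RM A)

/-- the cells -/
abbrev Cell : Type := (r : Fin 5) → Fin (M.b r)

lemma b_pos (r : Fin 5) : 0 < M.b r := by have := M.hb r; omega

/-- the transducer -/
def stp (p : M.Q × Bool) (c : M.Cell) : Set ((M.Q × Bool) × M.Cell) :=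
  match M.op p.1 with
  | .nop => {(p, c)}
  | .inc r => if p.2 then (if h : (c r).val + 1 < M.b r then
      {((p.1, false), Function.update c r ⟨(c r).val + 1, h⟩)}
      else {((p.1, true), Function.update c r ⟨0, M.b_pos r⟩)}) else {(p, c)}
  | .reset r => {(p, Function.update c r ⟨0, M.b_pos r⟩)}
  | .eq r r' => {((p.1, p.2 && decide ((c r).val = (c r').val)), c)}
  | .guess r => {x | ∃ d : Fin (M.b r), x = (p, Function.update c r d)}

/-- the macro machine -/
@[reducible] def toMac : Mac A where
  P := M.Q × Bool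
  C := M.Cell
  finP := by
    have := M.finQ
    infer_instance
  finC := inferInstance
  c0 := fun r => ⟨0, M.b_pos r⟩
  start := (M.start, true)
  st := M.stp
  fin := fun p σ => match M.ctl p.1 p.2 σ with
    | .acc => .acc
    | .rej => .rej
    | .cont q g d => .cont (q, true) g d

/-- the value of the registers -/
def val : List M.Cell → Fin 5 → ℕ
  | [] => fun _ => 0
  | c :: l => fun r => (c r).val + M.b r * val l r

lemma val_lt (l : List M.Cell) (r : Fin 5) : M.val l r < M.b r ^ l.length := by
  induction l with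
  | nil => simp [val]
  | cons c l ih =>
    simp only [val, List.length_cons, pow_succ']
    have h1 := (c r).isLt
    have h2 : M.b r * (M.val l r + 1) ≤ M.b r * M.b r ^ l.length := Nat.mul_le_mul_left _ ih
    rw [Nat.mul_add] at h2
    omega

lemma val_append (l : List M.Cell) : M.val (l ++ [M.toMac.c0]) = M.val l := by
  induction l with
  | nil => funext r; simp [val]
  | cons c l ih => funext r; simp only [List.cons_append, val, ih]

lemma val_ext (g : Bool) (l : List M.Cell) : M.val (M.toMac.ext g l) = M.val l := by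
  unfold Mac.ext
  split_ifs
  · exact M.val_append l
  · rfl

lemma val_update (c : M.Cell) (l l' : List M.Cell) (r : Fin 5) (x : Fin (M.b r)) (y : ℕ)
    (h : M.val l' = Function.update (M.val l) r y) :
    M.val (Function.update c r x :: l') = Function.update (M.val (c :: l)) r (x.val + M.b r * y) := by
  funext s
  by_cases hs : s = r
  · subst hs; simp [val, h]
  · simp [val, h, Function.update_of_ne hs]

/-- the effect of a deterministic operation -/
def opf (o : Op) (v : Fin 5 → ℕ) (e : ℕ) : Bool × (Fin 5 → ℕ) :=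
  match o with
  | .nop => (true, v)
  | .inc r => if v r + 1 < M.b r ^ e then (false, Function.update v r (v r + 1))
      else (true, Function.update v r 0)
  | .reset r => (true, Function.update v r 0)
  | .eq r r' => (decide (v r = v r'), v)
  | .guess _ => (true, v)

/-- the effect of an operation: cost, flag, new values -/
def OpV (o : Op) (v : Fin 5 → ℕ) (e g : ℕ) (f : Bool) (v' : Fin 5 → ℕ) : Prop :=
  match o with
  | .guess r => g = e ∧ f = true ∧ ∃ x, x < M.b r ^ e ∧ v' = Function.update v r x
  | o => g = 0 ∧ (f, v') = M.opf o v e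

lemma ncost_single {p : M.toMac.P} {c : M.toMac.C} {x : M.toMac.P × M.toMac.C}
    (h : M.toMac.st p c = {x}) : M.toMac.ncost p c = 0 := by
  unfold Mac.ncost
  rw [if_neg]
  rw [h]
  exact Set.not_nontrivial_singleton

lemma sw_nop {q : M.Q} (ho : M.op q = .nop) {f : Bool} {l : List M.Cell} {g : ℕ} {p' : M.Q × Bool}
    {l' : List M.Cell} (h : M.toMac.Sw (q, f) l g p' l') : p' = (q, f) ∧ g = 0 ∧ l' = l := by
  obtain ⟨p, hp⟩ : ∃ p : M.toMac.P, p = (q, f) := ⟨_, rfl⟩
  rw [← hp] at h
  induction h with
  | nil p => exact ⟨hp, rfl, rfl⟩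
  | @cons p p1 c c1 l n p' l' hb h ih =>
    subst hp
    have hs : M.toMac.st (q, f) c = {((q, f), c)} := by
      change M.stp (q, f) c = _
      simp only [stp, ho]
    rw [hs] at hb
    simp only [Set.mem_singleton_iff, Prod.mk.injEq] at hb
    obtain ⟨rfl, rfl⟩ := hb
    obtain ⟨h1, h2, h3⟩ := ih rfl
    exact ⟨h1, by rw [M.ncost_single hs, h2], by rw [h3]⟩

lemma sw_reset {q : M.Q} {r : Fin 5} (ho : M.op q = .reset r) {f : Bool} {l : List M.Cell} {g : ℕ}
    {p' : M.Q × Bool} {l' : List M.Cell} (h : M.toMac.Sw (q, f) l g p' l') :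
    p' = (q, f) ∧ g = 0 ∧ M.val l' = Function.update (M.val l) r 0 := by
  obtain ⟨p, hp⟩ : ∃ p : M.toMac.P, p = (q, f) := ⟨_, rfl⟩
  rw [← hp] at h
  induction h with
  | nil p =>
    refine ⟨hp, rfl, ?_⟩
    funext s
    by_cases hs : s = r
    · subst hs; simp [val]
    · simp [val, Function.update_of_ne hs]
  | @cons p p1 c c1 l n p' l' hb h ih =>
    subst hp
    have hs : M.toMac.st (q, f) c = {((q, f), Function.update c r ⟨0, M.b_pos r⟩)} := by
      change M.stp (q, f) c = _
      simp only [stp, ho]
    rw [hs] at hb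
    simp only [Set.mem_singleton_iff, Prod.mk.injEq] at hb
    obtain ⟨rfl, rfl⟩ := hb
    obtain ⟨h1, h2, h3⟩ := ih rfl
    refine ⟨h1, by rw [M.ncost_single hs, h2], ?_⟩
    rw [M.val_update c l l' r _ 0 h3]
    simp

lemma sw_inc {q : M.Q} {r : Fin 5} (ho : M.op q = .inc r) {f : Bool} {l : List M.Cell} {g : ℕ}
    {p' : M.Q × Bool} {l' : List M.Cell} (h : M.toMac.Sw (q, f) l g p' l') :
    p'.1 = q ∧ g = 0 ∧ ((f = false ∧ p'.2 = false ∧ l' = l) ∨
      (f = true ∧ (p'.2, M.val l') = M.opf (.inc r) (M.val l) l.length)) := by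
  obtain ⟨p, hp⟩ : ∃ p : M.toMac.P, p = (q, f) := ⟨_, rfl⟩
  rw [← hp] at h
  induction h generalizing f with
  | nil p =>
    subst hp
    refine ⟨rfl, rfl, ?_⟩
    cases f with
    | false => exact Or.inl ⟨rfl, rfl, rfl⟩
    | true =>
      right
      refine ⟨rfl, ?_⟩
      simp only [opf, val, List.length_nil, pow_zero]
      rw [if_neg (by omega)]
      refine Prod.ext rfl ?_
      funext s
      by_cases hs : s = r
      · subst hs; simp
      · simp [Function.update_of_ne hs]
  | @cons p p1 c c1 l n p' l' hb h ih =>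
    subst hp
    cases f with
    | false =>
      have hs : M.toMac.st (q, false) c = {((q, false), c)} := by
        change M.stp (q, false) c = _
        simp only [stp, ho]
        simp
      rw [hs] at hb
      simp only [Set.mem_singleton_iff, Prod.mk.injEq] at hb
      obtain ⟨rfl, rfl⟩ := hb
      obtain ⟨h1, h2, h3⟩ := ih rfl
      rcases h3 with ⟨_, h4, h5⟩ | ⟨h4, _⟩
      · exact ⟨h1, by rw [M.ncost_single hs, h2], Or.inl ⟨rfl, h4, by rw [h5]⟩⟩
      · exact absurd h4 (by simp)
    | true =>
      by_cases hc : (c r).val + 1 < M.b r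
      · have hs : M.toMac.st (q, true) c
            = {((q, false), Function.update c r ⟨(c r).val + 1, hc⟩)} := by
          change M.stp (q, true) c = _
          simp only [stp, ho]
          simp [hc]
        rw [hs] at hb
        simp only [Set.mem_singleton_iff, Prod.mk.injEq] at hb
        obtain ⟨rfl, rfl⟩ := hb
        obtain ⟨h1, h2, h3⟩ := ih rfl
        rcases h3 with ⟨_, h4, h5⟩ | ⟨h4, _⟩
        · refine ⟨h1, by rw [M.ncost_single hs, h2], Or.inr ⟨rfl, ?_⟩⟩
          have h6 := M.val_lt l r
          have h7 : M.val (c :: l) r + 1 < M.b r ^ (c :: l).length := by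
            simp only [val, List.length_cons, pow_succ']
            have h2 : M.b r * (M.val l r + 1) ≤ M.b r * M.b r ^ l.length := Nat.mul_le_mul_left _ h6
            rw [Nat.mul_add] at h2
            omega
          simp only [opf]
          rw [if_pos h7]
          refine Prod.ext h4 ?_
          simp only
          rw [h5, M.val_update c l l r _ (M.val l r) (Function.update_eq_self _ _).symm]
          simp only [val]
          congr 1
          ring
        · exact absurd h4 (by simp)
      · have hs : M.toMac.st (q, true) c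
            = {((q, true), Function.update c r ⟨0, M.b_pos r⟩)} := by
          change M.stp (q, true) c = _
          simp only [stp, ho]
          simp [hc]
        rw [hs] at hb
        simp only [Set.mem_singleton_iff, Prod.mk.injEq] at hb
        obtain ⟨rfl, rfl⟩ := hb
        obtain ⟨h1, h2, h3⟩ := ih rfl
        have hcr : (c r).val + 1 = M.b r := by
          have := (c r).isLt
          omega
        rcases h3 with ⟨h4, _⟩ | ⟨_, h4⟩
        · exact absurd h4 (by simp)
        · refine ⟨h1, by rw [M.ncost_single hs, h2], Or.inr ⟨rfl, ?_⟩⟩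
          have h6 := M.val_lt l r
          simp only [opf] at h4 ⊢
          by_cases h7 : M.val l r + 1 < M.b r ^ l.length
          · rw [if_pos h7] at h4
            have h8 : M.val (c :: l) r + 1 < M.b r ^ (c :: l).length := by
              simp only [val, List.length_cons, pow_succ']
              have h2 : M.b r * (M.val l r + 1 + 1) ≤ M.b r * M.b r ^ l.length :=
                Nat.mul_le_mul_left _ h7
              have := M.b_pos r
              rw [Nat.mul_add, Nat.mul_add] at h2
              omega
            rw [if_pos h8]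
            have h9 : p'.2 = false := congrArg Prod.fst h4
            have h10 : M.val l' = Function.update (M.val l) r (M.val l r + 1) := congrArg Prod.snd h4
            refine Prod.ext h9 ?_
            simp only
            rw [M.val_update c l l' r _ _ h10]
            simp only [val]
            congr 1
            rw [Nat.mul_add]; omega
          · rw [if_neg h7] at h4
            have h8 : ¬ M.val (c :: l) r + 1 < M.b r ^ (c :: l).length := by
              simp only [val, List.length_cons, pow_succ']
              have h2 : M.b r * M.b r ^ l.length ≤ M.b r * (M.val l r + 1) :=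
                Nat.mul_le_mul_left _ (not_lt.mp h7)
              rw [Nat.mul_add] at h2
              omega
            rw [if_neg h8]
            have h9 : p'.2 = true := congrArg Prod.fst h4
            have h10 : M.val l' = Function.update (M.val l) r 0 := congrArg Prod.snd h4
            refine Prod.ext h9 ?_
            simp only
            rw [M.val_update c l l' r _ _ h10]
            simp

lemma sw_eq {q : M.Q} {r r' : Fin 5} (ho : M.op q = .eq r r') {f : Bool} {l : List M.Cell} {g : ℕ}
    {p' : M.Q × Bool} {l' : List M.Cell} (h : M.toMac.Sw (q, f) l g p' l') :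
    p'.1 = q ∧ g = 0 ∧ l' = l ∧ p'.2 = (f && decide (M.val l r = M.val l r')) := by
  have hbb := M.heq q r r' ho
  obtain ⟨p, hp⟩ : ∃ p : M.toMac.P, p = (q, f) := ⟨_, rfl⟩
  rw [← hp] at h
  induction h generalizing f with
  | nil p =>
    subst hp
    simp [val]
  | @cons p p1 c c1 l n p' l' hb h ih =>
    subst hp
    have hs : M.toMac.st (q, f) c = {((q, f && decide ((c r).val = (c r').val)), c)} := by
      change M.stp (q, f) c = _
      simp only [stp, ho]
    rw [hs] at hb
    simp only [Set.mem_singleton_iff, Prod.mk.injEq] at hb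
    obtain ⟨rfl, rfl⟩ := hb
    obtain ⟨h1, h2, h3, h4⟩ := ih rfl
    refine ⟨h1, by rw [M.ncost_single hs, h2], by rw [h3], ?_⟩
    rw [h4, Bool.and_assoc]
    congr 1
    rw [← Bool.decide_and]
    apply decide_eq_decide.mpr
    simp only [val]
    have l1 := (c1 r).isLt
    have l2 := (c1 r').isLt
    have hpos : 0 < M.b r' := M.b_pos r'
    generalize (c1 r).val = x at *
    generalize (c1 r').val = y at *
    rw [hbb] at l1 ⊢
    constructor
    · rintro ⟨e1, e2⟩; rw [e1, e2]
    · intro e
      have e1 : (x + M.b r' * M.val l r) % M.b r' = (y + M.b r' * M.val l r') % M.b r' := by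
        rw [e]
      rw [Nat.add_mul_mod_self_left, Nat.add_mul_mod_self_left, Nat.mod_eq_of_lt l1,
        Nat.mod_eq_of_lt l2] at e1
      refine ⟨e1, ?_⟩
      rw [e1] at e
      exact Nat.eq_of_mul_eq_mul_left hpos (Nat.add_left_cancel e)

lemma ncost_guess {q : M.Q} {r : Fin 5} (ho : M.op q = .guess r) (f : Bool) (c : M.Cell) :
    M.toMac.ncost (q, f) c = 1 := by
  unfold Mac.ncost
  rw [if_pos]
  have h2 := M.hb r
  refine ⟨((q, f), Function.update c r ⟨0, by omega⟩), ?_, ((q, f), Function.update c r ⟨1, by omega⟩), ?_, ?_⟩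
  · change _ ∈ M.stp (q, f) c
    simp only [stp, ho]; exact ⟨_, rfl⟩
  · change _ ∈ M.stp (q, f) c
    simp only [stp, ho]; exact ⟨_, rfl⟩
  · intro e
    have := congrFun (congrArg Prod.snd e) r
    simp at this

lemma sw_guess {q : M.Q} {r : Fin 5} (ho : M.op q = .guess r) {f : Bool} {l : List M.Cell} {g : ℕ}
    {p' : M.Q × Bool} {l' : List M.Cell} (h : M.toMac.Sw (q, f) l g p' l') :
    p' = (q, f) ∧ g = l.length ∧ ∃ x, x < M.b r ^ l.length ∧
      M.val l' = Function.update (M.val l) r x := by
  obtain ⟨p, hp⟩ : ∃ p : M.toMac.P, p = (q, f) := ⟨_, rfl⟩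
  rw [← hp] at h
  induction h with
  | nil p =>
    refine ⟨hp, rfl, 0, by simp, ?_⟩
    funext s
    by_cases hs : s = r
    · subst hs; simp [val]
    · simp [val, Function.update_of_ne hs]
  | @cons p p1 c c1 l n p' l' hb h ih =>
    subst hp
    have hs : M.toMac.st (q, f) c = {x | ∃ d : Fin (M.b r), x = ((q, f), Function.update c r d)} := by
      change M.stp (q, f) c = _
      simp only [stp, ho]
    rw [hs] at hb
    obtain ⟨d, hd⟩ := hb
    simp only [Prod.mk.injEq] at hd
    obtain ⟨rfl, rfl⟩ := hd
    obtain ⟨h1, h2, x, h3, h4⟩ := ih rfl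
    refine ⟨h1, by rw [M.ncost_guess ho, h2, List.length_cons, add_comm], d.val + M.b r * x, ?_, ?_⟩
    · rw [List.length_cons, pow_succ']
      have h5 : M.b r * (x + 1) ≤ M.b r * M.b r ^ l.length := Nat.mul_le_mul_left _ h3
      have := d.isLt
      rw [Nat.mul_add] at h5
      omega
    · exact M.val_update c l l' r d x h4

lemma guess_sw {q : M.Q} {r : Fin 5} (ho : M.op q = .guess r) (f : Bool) : ∀ (l : List M.Cell)
    (x : ℕ), x < M.b r ^ l.length → ∃ l', M.val l' = Function.update (M.val l) r x ∧
      l'.length = l.length ∧ M.toMac.Sw (q, f) l l.length (q, f) l' := by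
  intro l
  induction l with
  | nil =>
    intro x hx
    simp only [List.length_nil, pow_zero, Nat.lt_one_iff] at hx
    subst hx
    refine ⟨[], ?_, rfl, Mac.Sw.nil _⟩
    funext s
    by_cases hs : s = r
    · subst hs; simp [val]
    · simp [val, Function.update_of_ne hs]
  | cons c l ih =>
    intro x hx
    have hpos := M.b_pos r
    rw [List.length_cons, pow_succ'] at hx
    obtain ⟨l', h1, h2, h3⟩ := ih (x / M.b r) (Nat.div_lt_of_lt_mul hx)
    refine ⟨Function.update c r ⟨x % M.b r, Nat.mod_lt _ hpos⟩ :: l', ?_, by simp [h2], ?_⟩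
    · rw [M.val_update c l l' r _ _ h1]
      simp only [Nat.mod_add_div]
    · have h4 := Mac.Sw.cons (W := M.toMac) (p := (q, f)) (c := c) (p1 := (q, f))
        (c1 := Function.update c r ⟨x % M.b r, Nat.mod_lt _ hpos⟩) (by
          change _ ∈ M.stp (q, f) c
          simp only [stp, ho]; exact ⟨_, rfl⟩) h3
      rw [M.ncost_guess ho, add_comm] at h4
      exact h4

/-- deterministic operations -/
def Det (o : Op) : Prop := ∀ r, o ≠ .guess r

lemma det_sw {q : M.Q} (ho : Det (M.op q)) : ∀ (l : List M.Cell) (f : Bool),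
    ∃ f' l', l'.length = l.length ∧ M.toMac.Sw (q, f) l 0 (q, f') l' := by
  intro l
  induction l with
  | nil => exact fun f => ⟨f, [], rfl, Mac.Sw.nil _⟩
  | cons c l ih =>
    intro f
    have key : ∃ f1 c1, M.toMac.st (q, f) c = {((q, f1), c1)} := by
      cases h : M.op q with
      | nop => exact ⟨f, c, by change M.stp (q, f) c = _; simp only [stp, h]⟩
      | inc r =>
        cases f with
        | false => exact ⟨false, c, by change M.stp (q, false) c = _; simp only [stp, h]; simp⟩
        | true =>
          by_cases hc : (c r).val + 1 < M.b r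
          · exact ⟨false, _, by change M.stp (q, true) c = _; simp only [stp, h]; simp [hc]; rfl⟩
          · exact ⟨true, _, by change M.stp (q, true) c = _; simp only [stp, h]; simp [hc]; rfl⟩
      | reset r => exact ⟨f, _, by change M.stp (q, f) c = _; simp only [stp, h]; rfl⟩
      | eq r r' => exact ⟨_, c, by change M.stp (q, f) c = _; simp only [stp, h]; rfl⟩
      | guess r => exact absurd h (ho r)
    obtain ⟨f1, c1, h1⟩ := key
    obtain ⟨f', l', h2, h3⟩ := ih f1
    refine ⟨f', c1 :: l', by simp [h2], ?_⟩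
    have h4 := Mac.Sw.cons (W := M.toMac) (p := (q, f)) (c := c) (p1 := (q, f1)) (c1 := c1)
      (by rw [h1]; rfl) h3
    rw [M.ncost_single h1, zero_add] at h4
    exact h4

theorem sw_opv {q : M.Q} {l : List M.Cell} {g : ℕ} {p' : M.Q × Bool} {l' : List M.Cell}
    (h : M.toMac.Sw (q, true) l g p' l') :
    p'.1 = q ∧ M.OpV (M.op q) (M.val l) l.length g p'.2 (M.val l') := by
  cases ho : M.op q with
  | nop =>
    obtain ⟨h1, h2, h3⟩ := M.sw_nop ho h
    subst h1; subst h3
    exact ⟨rfl, h2, rfl⟩
  | inc r =>
    obtain ⟨h1, h2, h3⟩ := M.sw_inc ho h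
    rcases h3 with ⟨h4, _⟩ | ⟨_, h4⟩
    · exact absurd h4 (by simp)
    · exact ⟨h1, h2, h4⟩
  | reset r =>
    obtain ⟨h1, h2, h3⟩ := M.sw_reset ho h
    subst h1
    exact ⟨rfl, h2, by rw [h3]; rfl⟩
  | eq r r' =>
    obtain ⟨h1, h2, h3, h4⟩ := M.sw_eq ho h
    subst h3
    refine ⟨h1, h2, ?_⟩
    rw [h4]; simp [opf]
  | guess r =>
    obtain ⟨h1, h2, x, h3, h4⟩ := M.sw_guess ho h
    subst h1
    exact ⟨rfl, h2, rfl, x, h3, h4⟩

theorem opv_sw {q : M.Q} {l : List M.Cell} {g : ℕ} {f : Bool} {v' : Fin 5 → ℕ}
    (h : M.OpV (M.op q) (M.val l) l.length g f v') :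
    ∃ l', l'.length = l.length ∧ M.val l' = v' ∧ M.toMac.Sw (q, true) l g (q, f) l' := by
  by_cases hd : Det (M.op q)
  · obtain ⟨f', l', h1, h2⟩ := M.det_sw hd l true
    obtain ⟨_, h3⟩ := M.sw_opv h2
    have h4 : g = 0 ∧ (f, v') = M.opf (M.op q) (M.val l) l.length := by
      cases ho : M.op q with
      | guess r => exact absurd ho (hd r)
      | nop => rw [ho] at h; exact h
      | inc r => rw [ho] at h; exact h
      | reset r => rw [ho] at h; exact h
      | eq r r' => rw [ho] at h; exact h
    have h5 : (0:ℕ) = 0 ∧ (f', M.val l') = M.opf (M.op q) (M.val l) l.length := by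
      cases ho : M.op q with
      | guess r => exact absurd ho (hd r)
      | nop => rw [ho] at h3; exact h3
      | inc r => rw [ho] at h3; exact h3
      | reset r => rw [ho] at h3; exact h3
      | eq r r' => rw [ho] at h3; exact h3
    have h6 := h4.2.trans h5.2.symm
    simp only [Prod.mk.injEq] at h6
    refine ⟨l', h1, h6.2.symm, ?_⟩
    rw [h4.1, h6.1]; exact h2
  · unfold Det at hd
    push Not at hd
    obtain ⟨r, ho⟩ := hd
    rw [ho] at h
    obtain ⟨h1, h2, x, h3, h4⟩ := h
    obtain ⟨l', h5, h6, h7⟩ := M.guess_sw ho true l x h3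
    refine ⟨l', h6, by rw [h5, h4], ?_⟩
    rw [h1, h2]; exact h7

/-- acceptance of the register machine: state, position of the input head, values, number of digits,
number of steps, number of guessed digits -/
inductive RA (w : List A) (m : ℕ) : M.Q → ℤ → (Fin 5 → ℕ) → ℕ → ℕ → ℕ → Prop
  | last {q : M.Q} {i : ℤ} {v : Fin 5 → ℕ} {e g : ℕ} {f : Bool} {v' : Fin 5 → ℕ} (hm : e ≤ m)
      (h : M.OpV (M.op q) v e g f v') (hf : M.ctl q f (MTM.read w i) = .acc) : RA w m q i v e 1 g
  | more {q q' : M.Q} {i : ℤ} {v : Fin 5 → ℕ} {e g : ℕ} {f gr : Bool} {v' : Fin 5 → ℕ}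
      {d : SignType} {k g' : ℕ} (hm : e ≤ m)
      (h : M.OpV (M.op q) v e g f v') (hf : M.ctl q f (MTM.read w i) = .cont q' gr d)
      (h' : RA w m q' (i + (d : ℤ)) v' (if gr then e + 1 else e) k g') :
      RA w m q i v e (k + 1) (g + g')

lemma ext_len (g : Bool) (l : List M.Cell) :
    (M.toMac.ext g l).length = if g then l.length + 1 else l.length := by
  unfold Mac.ext; split_ifs <;> simp

theorem ra_of_ma {w : List A} {m : ℕ} {p : M.toMac.P} {i : ℤ} {l : List M.toMac.C} {k G : ℕ}
    (h : M.toMac.MA w m p i l k G) : ∀ q, p = (q, true) → M.RA w m q i (M.val l) l.length k G := by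
  induction h with
  | @last p p' i l l' G hm h hf =>
    rintro q rfl
    obtain ⟨h1, h2⟩ := M.sw_opv h
    refine RA.last hm h2 ?_
    change (match M.ctl p'.1 p'.2 (MTM.read w i) with
      | .acc => Verd.acc | .rej => .rej | .cont q g d => .cont (q, true) g d) = _ at hf
    rw [h1] at hf
    cases hc : M.ctl q p'.2 (MTM.read w i) with
    | acc => rfl
    | rej => rw [hc] at hf; exact absurd hf (by simp)
    | cont q g d => rw [hc] at hf; exact absurd hf (by simp)
  | @more p p' p'' i l l' gr d k G G' hm h hf h' ih =>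
    rintro q rfl
    obtain ⟨h1, h2⟩ := M.sw_opv h
    change (match M.ctl p'.1 p'.2 (MTM.read w i) with
      | .acc => Verd.acc | .rej => .rej | .cont q g d => .cont (q, true) g d) = _ at hf
    rw [h1] at hf
    cases hc : M.ctl q p'.2 (MTM.read w i) with
    | acc => rw [hc] at hf; exact absurd hf (by simp)
    | rej => rw [hc] at hf; exact absurd hf (by simp)
    | cont q1 g1 d1 =>
      rw [hc] at hf
      simp only [Verd.cont.injEq] at hf
      obtain ⟨rfl, rfl, rfl⟩ := hf
      have h3 := ih q1 rfl
      rw [M.val_ext, M.ext_len, Mac.Sw.length _ h] at h3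
      exact RA.more hm h2 hc h3

theorem ma_of_ra {w : List A} {m : ℕ} {q : M.Q} {i : ℤ} {v : Fin 5 → ℕ} {e k g : ℕ}
    (h : M.RA w m q i v e k g) : ∀ l : List M.Cell, M.val l = v → l.length = e →
      M.toMac.MA w m (q, true) i l k g := by
  induction h with
  | @last q i v e g f v' hm h hf =>
    rintro l rfl rfl
    obtain ⟨l', h1, h2, h3⟩ := M.opv_sw h
    refine Mac.MA.last hm h3 ?_
    change (match M.ctl q f (MTM.read w i) with
      | .acc => Verd.acc | .rej => .rej | .cont q g d => .cont (q, true) g d) = _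
    rw [hf]
  | @more q q' i v e g f gr v' d k g' hm h hf h' ih =>
    rintro l rfl rfl
    obtain ⟨l', h1, h2, h3⟩ := M.opv_sw h
    refine Mac.MA.more (p'' := (q', true)) (g := gr) (d := d) hm h3 ?_ (ih _ ?_ ?_)
    · change (match M.ctl q f (MTM.read w i) with
        | .acc => Verd.acc | .rej => .rej | .cont q g d => .cont (q, true) g d) = _
      rw [hf]
    · rw [M.val_ext, h2]
    · rw [M.ext_len, h1]

theorem accepts_of_ra {w : List A} {m k g : ℕ} (h : M.RA w m M.start 0 (fun _ => 0) 0 k g) :
    ∃ T, T ≤ (2 * m + 3) * k ∧ M.toMac.toMTM.AcceptsIn w T g (m + 2) :=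
  Mac.accepts_of_ma _ w (M.ma_of_ra h [] rfl rfl)

theorem ra_of_accepts {w : List A} {T G S : ℕ} (h : M.toMac.toMTM.AcceptsIn w T G S) :
    ∃ m k, M.RA w m M.start 0 (fun _ => 0) 0 k G := by
  obtain ⟨m, k, h1⟩ := Mac.ma_of_accepts _ w h
  exact ⟨m, k, M.ra_of_ma h1 _ rfl⟩

end RM

end Pool.Agent.helper24.OT
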