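import Pool.Agent.helper24.OT.Level

/-!
# The single-copy comparison inequality
-/

namespace Pool.Agent.helper24.OT

open Finset

variable {ι : Type} [Fintype ι] [DecidableEq ι]

lemma sum_split (k : ι) (g : (ι → Bool) → ℝ) :
    ∑ r, g r = ∑ r : ι → Bool, (g (Function.update r k true) + g (Function.update r k false)) / 2 := by
  classical
  let e : (ι → Bool) ≃ (ι → Bool) :=
    { toFun := fun r => Function.update r k (!(r k))
      invFun := fun r => Function.update r k (!(r k))
      left_inv := by intro r; funext i; by_cases h : i = k <;> simp [Function.update, h]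
      right_inv := by intro r; funext i; by_cases h : i = k <;> simp [Function.update, h] }
  have h1 : ∑ r, g r = ∑ r, g (e r) := (Equiv.sum_comp e g).symm
  have h2 : ∀ r : ι → Bool, g r + g (e r)
      = g (Function.update r k true) + g (Function.update r k false) := by
    intro r
    change g r + g (Function.update r k (!(r k))) = _
    cases hr : r k
    · have : r = Function.update r k false := by
        funext i; by_cases h : i = k
        · subst h; simp [hr]
        · simp [Function.update, h]
      simp only [Bool.not_false]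
      conv_lhs => rw [this]
      simp only [Function.update_idem]
      ring
    · have : r = Function.update r k true := by
        funext i; by_cases h : i = k
        · subst h; simp [hr]
        · simp [Function.update, h]
      simp only [Bool.not_true]
      conv_lhs => rw [this]
      simp only [Function.update_idem]
  have h3 : 2 * ∑ r, g r = ∑ r : ι → Bool, (g (Function.update r k true) + g (Function.update r k false)) := by
    calc 2 * ∑ r, g r = ∑ r, g r + ∑ r, g (e r) := by rw [← h1]; ring
      _ = ∑ r, (g r + g (e r)) := by rw [Finset.sum_add_distrib]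
      _ = _ := Finset.sum_congr rfl fun r _ => h2 r
  rw [← Finset.sum_div, ← h3]; ring

lemma cavg_split (k : ι) (g : (ι → Bool) → ℝ) :
    cavg g = cavg fun r => (g (Function.update r k true) + g (Function.update r k false)) / 2 := by
  unfold cavg; rw [sum_split k g]

/-- the point with `1` planted at `j` and `k`, random bits on the support of `E` -/
def pt2 (j k : ι) (E r : ι → Bool) : ι → Bool := fun i => if i = j ∨ i = k then true else (r i && E i)

/-- the point with `1` planted at `j`, `0` at `k`, random bits on the support of `E` elsewhere -/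
def pt1 (j k : ι) (E r : ι → Bool) : ι → Bool :=
  fun i => if i = j then true else if i = k then false else (r i && E i)

/-- mean of `a` with `1` planted at `j` and `k` -/
noncomputable def pl (a : (ι → Bool) → ℝ) (j k : ι) (E : ι → Bool) : ℝ := cavg fun r => a (pt2 j k E r)

/-- mean of `a` with `1` planted at `j`, `0` at `k` -/
noncomputable def pz (a : (ι → Bool) → ℝ) (j k : ι) (E : ι → Bool) : ℝ := cavg fun r => a (pt1 j k E r)

/-- `L_p` norm of `a` with `1` planted at `j` and `k` -/
noncomputable def nm (a : (ι → Bool) → ℝ) (p : ℝ) (j k : ι) (E : ι → Bool) : ℝ :=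
  (cavg fun r => a (pt2 j k E r) ^ p) ^ (1 / p)

lemma pt2_comm (j k : ι) (E r : ι → Bool) : pt2 j k E r = pt2 k j E r := by
  funext i; simp [pt2, or_comm]

lemma pl_comm (a : (ι → Bool) → ℝ) (j k : ι) (E : ι → Bool) : pl a j k E = pl a k j E := by
  unfold pl; simp_rw [pt2_comm j k]

lemma pl_nonneg {a : (ι → Bool) → ℝ} (ha : ∀ x, 0 ≤ a x) (j k : ι) (E : ι → Bool) : 0 ≤ pl a j k E :=
  cavg_nonneg fun _ => ha _

lemma pz_nonneg {a : (ι → Bool) → ℝ} (ha : ∀ x, 0 ≤ a x) (j k : ι) (E : ι → Bool) : 0 ≤ pz a j k E :=
  cavg_nonneg fun _ => ha _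

lemma pl_update (a : (ι → Bool) → ℝ) (j k : ι) (E : ι → Bool) (u : Bool) :
    pl a j k (Function.update E k u) = pl a j k E := by
  unfold pl; congr 1; funext r; congr 1; funext i
  by_cases h : i = k <;> simp [pt2, Function.update, h]

lemma pz_update (a : (ι → Bool) → ℝ) (j k : ι) (E : ι → Bool) (u : Bool) :
    pz a j k (Function.update E k u) = pz a j k E := by
  unfold pz; congr 1; funext r; congr 1; funext i
  by_cases h : i = k <;> simp [pt1, Function.update, h]

lemma pl_true (a : (ι → Bool) → ℝ) {j k : ι} (hjk : j ≠ k) {E : ι → Bool} (hE : E k = true) :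
    pl a j j E = (pz a j k E + pl a j k E) / 2 := by
  unfold pl pz
  rw [cavg_split k]
  have : (fun r => (a (pt2 j j E (Function.update r k true)) + a (pt2 j j E (Function.update r k false))) / 2)
      = fun r => (1 / 2 : ℝ) * a (pt1 j k E r) + (1 / 2 : ℝ) * a (pt2 j k E r) := by
    funext r
    have e1 : pt2 j j E (Function.update r k true) = pt2 j k E r := by
      funext i
      by_cases h : i = k
      · subst h; simp [pt2, hE]
      · by_cases h' : i = j <;> simp [pt2, h, h']
    have e2 : pt2 j j E (Function.update r k false) = pt1 j k E r := by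
      funext i
      by_cases h : i = k
      · subst h; simp [pt2, pt1, Ne.symm hjk]
      · by_cases h' : i = j <;> simp [pt2, pt1, h, h']
    rw [e1, e2]; ring
  rw [this, cavg_add, cavg_mul_left, cavg_mul_left]; ring

lemma pl_false (a : (ι → Bool) → ℝ) {j k : ι} (hjk : j ≠ k) {E : ι → Bool} (hE : E k = false) :
    pl a j j E = pz a j k E := by
  unfold pl pz
  congr 1; funext r; congr 1; funext i
  by_cases h : i = k
  · subst h; simp [pt2, pt1, Ne.symm hjk, hE]
  · by_cases h' : i = j <;> simp [pt2, pt1, h, h']

lemma cavg_sg (a : (ι → Bool) → ℝ) {j k : ι} (hjk : j ≠ k) {E : ι → Bool} (hE : E k = true) :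
    cavg (fun r => a (pt2 j j E r) * sg (r k)) = (pl a j k E - pz a j k E) / 2 := by
  unfold pl pz
  rw [cavg_split k]
  have : (fun r => (a (pt2 j j E (Function.update r k true)) * sg (Function.update r k true k)
      + a (pt2 j j E (Function.update r k false)) * sg (Function.update r k false k)) / 2)
      = fun r => (1 / 2 : ℝ) * a (pt2 j k E r) + (-(1 / 2) : ℝ) * a (pt1 j k E r) := by
    funext r
    have e1 : pt2 j j E (Function.update r k true) = pt2 j k E r := by
      funext i
      by_cases h : i = k
      · subst h; simp [pt2, hE]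
      · by_cases h' : i = j <;> simp [pt2, h, h']
    have e2 : pt2 j j E (Function.update r k false) = pt1 j k E r := by
      funext i
      by_cases h : i = k
      · subst h; simp [pt2, pt1, Ne.symm hjk]
      · by_cases h' : i = j <;> simp [pt2, pt1, h, h']
    rw [e1, e2]; simp [sg]; ring
  rw [this, cavg_add, cavg_mul_left, cavg_mul_left]; ring

/-- the bias at `k` is large -/
def Bad (a : (ι → Bool) → ℝ) (j k : ι) (E : ι → Bool) : Prop :=
  (1 / 20) * (pl a j k E + pz a j k E) < |pl a j k E - pz a j k E|

open Classical in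
/-- few coordinates are biased -/
lemma bad_count {p q : ℝ} (hpq : p.HolderConjugate q) {a : (ι → Bool) → ℝ} (ha : ∀ x, 0 ≤ a x)
    (j : ι) (E : ι → Bool) :
    ∑ k, (if j ≠ k ∧ E k = true ∧ Bad a j k E then pl a j j E else 0)
      ≤ 800 * q * nm a p j j E := by
  have hq0 : 0 < q := hpq.symm.pos
  have hN : 0 ≤ nm a p j j E :=
    Real.rpow_nonneg (cavg_nonneg fun r => Real.rpow_nonneg (ha _) _) _
  rcases (pl_nonneg ha j j E).eq_or_lt with h0 | hpos
  · have : ∀ k, (if j ≠ k ∧ E k = true ∧ Bad a j k E then pl a j j E else 0) = 0 := by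
      intro k; rw [← h0]; simp
    simp only [this, Finset.sum_const_zero]
    positivity
  · have hL := level_one hpq (f := fun r => a (pt2 j j E r)) (fun r => ha _) hpos
    have hL' : pl a j j E * ∑ k, (cavg (fun r => a (pt2 j j E r) * sg (r k)) / pl a j j E) ^ 2
        ≤ 2 * q * nm a p j j E := hL
    have hterm : ∀ k, (if j ≠ k ∧ E k = true ∧ Bad a j k E then pl a j j E else 0)
        ≤ 400 * (pl a j j E * (cavg (fun r => a (pt2 j j E r) * sg (r k)) / pl a j j E) ^ 2) := by
      intro k
      split_ifs with h
      · obtain ⟨hjk, hE, hb⟩ := h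
        have e := cavg_sg a hjk hE
        have e' := pl_true a hjk hE
        unfold Bad at hb
        have hs : 0 ≤ pl a j k E + pz a j k E := add_nonneg (pl_nonneg ha _ _ _) (pz_nonneg ha _ _ _)
        have hF : pl a j j E = (pl a j k E + pz a j k E) / 2 := by rw [e']; ring
        have h1 : (1/20 : ℝ) ^ 2 ≤ (cavg (fun r => a (pt2 j j E r) * sg (r k)) / pl a j j E) ^ 2 := by
          rw [e]
          rw [← sq_abs ((pl a j k E - pz a j k E) / 2 / pl a j j E)]
          apply pow_le_pow_left₀ (by norm_num)
          rw [abs_div, abs_div, abs_of_pos hpos, abs_two, le_div_iff₀ hpos, hF]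
          linarith
        nlinarith
      · positivity
    calc _ ≤ ∑ k, 400 * (pl a j j E * (cavg (fun r => a (pt2 j j E r) * sg (r k)) / pl a j j E) ^ 2) :=
          Finset.sum_le_sum fun k _ => hterm k
      _ = 400 * (pl a j j E * ∑ k, (cavg (fun r => a (pt2 j j E r) * sg (r k)) / pl a j j E) ^ 2) := by
          rw [← Finset.mul_sum, ← Finset.mul_sum]
      _ ≤ 400 * (2 * q * nm a p j j E) := by gcongr
      _ = 800 * q * nm a p j j E := by ring

lemma pl_le_nm {p q : ℝ} (hpq : p.HolderConjugate q) {a : (ι → Bool) → ℝ} (ha : ∀ x, 0 ≤ a x)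
    (j k : ι) (E : ι → Bool) : pl a j k E ≤ nm a p j k E := by
  have h := cavg_holder hpq (f := fun r => a (pt2 j k E r)) (g := fun _ => (1:ℝ)) (fun r => ha _)
    (fun _ => zero_le_one)
  simpa [cavg_const, pl, nm] using h

end Pool.Agent.helper24.OT
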