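import Pool.Agent.helper24.OT.Single

/-!
# The single-copy comparison inequality, summed form
-/

namespace Pool.Agent.helper24.OT

open Finset

variable {ι : Type} [Fintype ι] [DecidableEq ι]

/-- complement of a set -/
def cD (D : ι → Bool) : ι → Bool := fun i => !D i

omit [Fintype ι] in
lemma cD_update (D : ι → Bool) (k : ι) (u : Bool) :
    cD (Function.update D k u) = Function.update (cD D) k (!u) := by
  funext i; by_cases h : i = k <;> simp [cD, Function.update, h]

/-- value with the random bit at `k` on the `x`-side -/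
noncomputable def U1 (a b : (ι → Bool) → ℝ) (j k : ι) (D : ι → Bool) : ℝ :=
  (pz a j k D + pl a j k D) / 2 * pz b j k (cD D)

/-- value with the random bit at `k` on the `y`-side -/
noncomputable def U0 (a b : (ι → Bool) → ℝ) (j k : ι) (D : ι → Bool) : ℝ :=
  pz a j k D * ((pz b j k (cD D) + pl b j k (cD D)) / 2)

/-- the product of means -/
noncomputable def XY (a b : (ι → Bool) → ℝ) (j : ι) (D : ι → Bool) : ℝ :=
  pl a j j D * pl b j j (cD D)

lemma XY_true (a b : (ι → Bool) → ℝ) {j k : ι} (hjk : j ≠ k) (D : ι → Bool) :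
    XY a b j (Function.update D k true) = U1 a b j k D := by
  unfold XY U1
  rw [pl_true a hjk (E := Function.update D k true) (by simp), cD_update,
    pl_false b hjk (E := Function.update (cD D) k (!true)) (by simp), pz_update, pl_update, pz_update]

lemma XY_false (a b : (ι → Bool) → ℝ) {j k : ι} (hjk : j ≠ k) (D : ι → Bool) :
    XY a b j (Function.update D k false) = U0 a b j k D := by
  unfold XY U0
  rw [pl_false a hjk (E := Function.update D k false) (by simp), cD_update,
    pl_true b hjk (E := Function.update (cD D) k (!false)) (by simp), pz_update, pl_update, pz_update]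

lemma Bad_update (a : (ι → Bool) → ℝ) (j k : ι) (E : ι → Bool) (u : Bool) :
    Bad a j k (Function.update E k u) ↔ Bad a j k E := by
  unfold Bad; rw [pl_update, pz_update]

/-- the good event -/
def Good (a b : (ι → Bool) → ℝ) (j k : ι) (D : ι → Bool) : Prop :=
  ¬ Bad a j k D ∧ ¬ Bad b j k (cD D)

lemma pz_mul_eq_zero {a b : (ι → Bool) → ℝ} (ha : ∀ x, 0 ≤ a x) (hb : ∀ y, 0 ≤ b y)
    (hrect : ∀ x y, 0 < a x → 0 < b y → ∃ i, x i = true ∧ y i = true) {j k : ι} (hjk : j ≠ k)
    (D : ι → Bool) : pz a j k D * pz b k j (cD D) = 0 := by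
  by_contra hne
  have h1 : pz a j k D ≠ 0 := left_ne_zero_of_mul hne
  have h2 : pz b k j (cD D) ≠ 0 := right_ne_zero_of_mul hne
  have h3 : ∃ r, 0 < a (pt1 j k D r) := by
    by_contra hcon
    push Not at hcon
    apply h1
    unfold pz
    have : (fun r => a (pt1 j k D r)) = fun _ => (0:ℝ) := by
      funext r; exact le_antisymm (hcon r) (ha _)
    rw [this, cavg_const]
  have h4 : ∃ r, 0 < b (pt1 k j (cD D) r) := by
    by_contra hcon
    push Not at hcon
    apply h2
    unfold pz
    have : (fun r => b (pt1 k j (cD D) r)) = fun _ => (0:ℝ) := by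
      funext r; exact le_antisymm (hcon r) (hb _)
    rw [this, cavg_const]
  obtain ⟨r, hr⟩ := h3
  obtain ⟨r', hr'⟩ := h4
  obtain ⟨i, hx, hy⟩ := hrect _ _ hr hr'
  unfold pt1 at hx hy
  by_cases hij : i = j
  · subst hij; simp [hjk] at hy
  · by_cases hik : i = k
    · subst hik; simp [hij] at hx
    · simp [hij, hik, cD] at hx hy
      rw [hx.2] at hy; simp at hy

/-- bounds from `¬ Bad` -/
lemma not_bad {a : (ι → Bool) → ℝ} {j k : ι} {E : ι → Bool}
    (h : ¬ Bad a j k E) :
    19 * pl a j k E ≤ 21 * pz a j k E ∧ 19 * pz a j k E ≤ 21 * pl a j k E := by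
  unfold Bad at h
  push Not at h
  have := abs_le.mp h
  constructor <;> linarith [this.1, this.2]

open Classical in
/-- the good part, pointwise -/
lemma good_part {a b : (ι → Bool) → ℝ} (ha : ∀ x, 0 ≤ a x) (hb : ∀ y, 0 ≤ b y)
    (hrect : ∀ x y, 0 < a x → 0 < b y → ∃ i, x i = true ∧ y i = true) {j k : ι} (hjk : j ≠ k)
    (D : ι → Bool) :
    (if Good a b j k D then (U1 a b j k D + U0 a b j k D) / 2 else 0)
      + (if Good a b k j D then (U1 a b k j D + U0 a b k j D) / 2 else 0)
      ≤ 6 / 5 * (pl a j k D * pl b j k (cD D)) := by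
  have key : ∀ j k : ι, j ≠ k → Good a b j k D →
      (U1 a b j k D + U0 a b j k D) / 2 ≤ 6 / 5 * (pl a j k D * pl b j k (cD D)) := by
    intro j k hjk hG
    obtain ⟨h1, h2⟩ := not_bad hG.1
    obtain ⟨h3, h4⟩ := not_bad hG.2
    unfold U1 U0
    have hp1 := pl_nonneg ha j k D
    have hp0 := pz_nonneg ha j k D
    have hq1 := pl_nonneg hb j k (cD D)
    have hq0 := pz_nonneg hb j k (cD D)
    set p1 := pl a j k D
    set p0 := pz a j k D
    set q1 := pl b j k (cD D)
    set q0 := pz b j k (cD D)
    have e1 : p0 ≤ 21 / 19 * p1 := by linarith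
    have e2 : q0 ≤ 21 / 19 * q1 := by linarith
    have m1 : p0 * q0 ≤ (21/19 * p1) * (21/19 * q1) := by gcongr
    have m2 : p1 * q0 ≤ p1 * (21/19 * q1) := by gcongr
    have m3 : p0 * q1 ≤ (21/19 * p1) * q1 := by gcongr
    have m4 : 0 ≤ p1 * q1 := by positivity
    nlinarith
  have hnn : 0 ≤ 6 / 5 * (pl a j k D * pl b j k (cD D)) := by
    have := pl_nonneg ha j k D; have := pl_nonneg hb j k (cD D); positivity
  by_cases hG : Good a b j k D
  · by_cases hG' : Good a b k j D
    · -- both good: everything vanishes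
      have hz : pl a j k D * pl b j k (cD D) = 0 := by
        have h0 := pz_mul_eq_zero ha hb hrect hjk D
        rcases mul_eq_zero.mp h0 with h | h
        · have := (not_bad hG.1).1
          rw [h] at this
          have hp := pl_nonneg ha j k D
          have : pl a j k D = 0 := by linarith
          rw [this, zero_mul]
        · have := (not_bad hG'.2).1
          rw [h] at this
          have hp := pl_nonneg hb k j (cD D)
          have h5 : pl b k j (cD D) = 0 := by linarith
          rw [pl_comm b j k, h5, mul_zero]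
      rw [if_pos hG, if_pos hG']
      have k1 := key j k hjk hG
      have k2 := key k j hjk.symm hG'
      rw [pl_comm a k j, pl_comm b k j] at k2
      rw [hz] at k1 k2 ⊢
      linarith
    · rw [if_pos hG, if_neg hG', add_zero]; exact key j k hjk hG
  · by_cases hG' : Good a b k j D
    · rw [if_neg hG, if_pos hG', zero_add]
      have k2 := key k j hjk.symm hG'
      rw [pl_comm a k j, pl_comm b k j] at k2
      exact k2
    · rw [if_neg hG, if_neg hG', add_zero]; exact hnn

open Classical in
/-- the bad part, pointwise -/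
lemma bad_part {a b : (ι → Bool) → ℝ} (ha : ∀ x, 0 ≤ a x) (hb : ∀ y, 0 ≤ b y)
    (j k : ι) (D : ι → Bool) :
    (if Good a b j k D then 0 else (U1 a b j k D + U0 a b j k D) / 2)
      ≤ 8 / 5 * ((if Bad a j k D then U1 a b j k D else 0)
        + (if Bad b j k (cD D) then U0 a b j k D else 0)) := by
  have hp1 := pl_nonneg ha j k D
  have hp0 := pz_nonneg ha j k D
  have hq1 := pl_nonneg hb j k (cD D)
  have hq0 := pz_nonneg hb j k (cD D)
  have hU1 : 0 ≤ U1 a b j k D := by unfold U1; positivity
  have hU0 : 0 ≤ U0 a b j k D := by unfold U0; positivity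
  by_cases hG : Good a b j k D
  · rw [if_pos hG]
    positivity
  · rw [if_neg hG]
    have h1 : ¬ Bad a j k D → U1 a b j k D ≤ 40 / 19 * U0 a b j k D := by
      intro h
      have h1 := (not_bad h).1
      unfold U1 U0
      set p1 := pl a j k D
      set p0 := pz a j k D
      set q1 := pl b j k (cD D)
      set q0 := pz b j k (cD D)
      have e1 : (p0 + p1) / 2 ≤ 20 / 19 * p0 := by linarith
      calc (p0 + p1) / 2 * q0 ≤ (20 / 19 * p0) * (q0 + q1) := by gcongr; linarith
        _ = 40 / 19 * (p0 * ((q0 + q1) / 2)) := by ring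
    have h2 : ¬ Bad b j k (cD D) → U0 a b j k D ≤ 40 / 19 * U1 a b j k D := by
      intro h
      have h1 := (not_bad h).1
      unfold U1 U0
      set p1 := pl a j k D
      set p0 := pz a j k D
      set q1 := pl b j k (cD D)
      set q0 := pz b j k (cD D)
      have e1 : (q0 + q1) / 2 ≤ 20 / 19 * q0 := by linarith
      calc p0 * ((q0 + q1) / 2) ≤ (p0 + p1) * (20 / 19 * q0) := by gcongr; linarith
        _ = 40 / 19 * ((p0 + p1) / 2 * q0) := by ring
    by_cases hP : Bad a j k D
    · by_cases hQ : Bad b j k (cD D)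
      · rw [if_pos hP, if_pos hQ]; linarith
      · rw [if_pos hP, if_neg hQ]
        have := h2 hQ
        linarith
    · by_cases hQ : Bad b j k (cD D)
      · rw [if_neg hP, if_pos hQ]
        have := h1 hP
        linarith
      · exact absurd ⟨hP, hQ⟩ hG

/-- **Single copy, summed form.** -/
theorem single_sum {p q : ℝ} (hpq : p.HolderConjugate q) {a b : (ι → Bool) → ℝ}
    (ha : ∀ x, 0 ≤ a x) (hb : ∀ y, 0 ≤ b y)
    (hrect : ∀ x y, 0 < a x → 0 < b y → ∃ i, x i = true ∧ y i = true) :
    ((Fintype.card ι : ℝ) - 1) * ∑ j, ∑ D, XY a b j D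
      ≤ 3 / 5 * ∑ j, ∑ k, (if j = k then 0 else ∑ D, pl a j k D * pl b j k (cD D))
        + 5120 * q * ∑ j, ∑ D, nm a p j j D * nm b p j j (cD D) := by
  classical
  have hq0 : 0 < q := hpq.symm.pos
  set W : ι → ι → (ι → Bool) → ℝ := fun j k D => (U1 a b j k D + U0 a b j k D) / 2 with hW
  -- step 1
  have s1 : ((Fintype.card ι : ℝ) - 1) * ∑ j, ∑ D, XY a b j D
      = ∑ j, ∑ k, (if j = k then 0 else ∑ D, W j k D) := by
    rw [Finset.mul_sum]
    refine Finset.sum_congr rfl fun j _ => ?_
    have e1 : ∀ k, (if j = k then 0 else ∑ D, W j k D) = (if j = k then 0 else ∑ D, XY a b j D) := by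
      intro k
      split_ifs with h
      · rfl
      · rw [sum_split k (fun D => XY a b j D)]
        refine Finset.sum_congr rfl fun D _ => ?_
        rw [XY_true a b h, XY_false a b h]
    simp_rw [e1]
    rw [Finset.sum_ite, Finset.sum_const_zero, zero_add, Finset.sum_const]
    have : (Finset.univ.filter fun k => ¬ j = k).card = Fintype.card ι - 1 := by
      have h1 : (Finset.univ.filter fun k => ¬ j = k) = Finset.univ.erase j := by
        ext k; simp [eq_comm]
      rw [h1, Finset.card_erase_of_mem (Finset.mem_univ _), Finset.card_univ]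
    rw [this, nsmul_eq_mul]
    have hc : 1 ≤ Fintype.card ι := Fintype.card_pos_iff.mpr ⟨j⟩
    push_cast [Nat.cast_sub hc]
    ring
  -- step 2: split good and bad
  have s2 : ∑ j, ∑ k, (if j = k then 0 else ∑ D, W j k D)
      = ∑ j, ∑ k, (if j = k then 0 else ∑ D, (if Good a b j k D then W j k D else 0))
        + ∑ j, ∑ k, (if j = k then 0 else ∑ D, (if Good a b j k D then 0 else W j k D)) := by
    rw [← Finset.sum_add_distrib]
    refine Finset.sum_congr rfl fun j _ => ?_
    rw [← Finset.sum_add_distrib]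
    refine Finset.sum_congr rfl fun k _ => ?_
    split_ifs with h
    · simp
    · rw [← Finset.sum_add_distrib]
      refine Finset.sum_congr rfl fun D _ => ?_
      split_ifs <;> simp
  -- the good part
  have s3 : ∑ j, ∑ k, (if j = k then 0 else ∑ D, (if Good a b j k D then W j k D else 0))
      ≤ 3 / 5 * ∑ j, ∑ k, (if j = k then 0 else ∑ D, pl a j k D * pl b j k (cD D)) := by
    have e1 : 2 * ∑ j, ∑ k, (if j = k then 0 else ∑ D, (if Good a b j k D then W j k D else 0))
        ≤ 6 / 5 * ∑ j, ∑ k, (if j = k then 0 else ∑ D, pl a j k D * pl b j k (cD D)) := by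
      have e2 : ∑ j, ∑ k, (if j = k then 0 else ∑ D, (if Good a b j k D then W j k D else 0))
          = ∑ j, ∑ k, (if j = k then 0 else ∑ D, (if Good a b k j D then W k j D else 0)) := by
        rw [Finset.sum_comm]
        refine Finset.sum_congr rfl fun j _ => Finset.sum_congr rfl fun k _ => ?_
        simp only [eq_comm]
      rw [two_mul]
      nth_rewrite 2 [e2]
      rw [← Finset.sum_add_distrib, Finset.mul_sum]
      refine Finset.sum_le_sum fun j _ => ?_
      rw [← Finset.sum_add_distrib, Finset.mul_sum]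
      refine Finset.sum_le_sum fun k _ => ?_
      split_ifs with h
      · simp
      · rw [← Finset.sum_add_distrib, Finset.mul_sum]
        exact Finset.sum_le_sum fun D _ => good_part ha hb hrect h D
    linarith
  -- the bad part
  have s4 : ∑ j, ∑ k, (if j = k then 0 else ∑ D, (if Good a b j k D then 0 else W j k D))
      ≤ 16 / 5 * (∑ j, ∑ k, ∑ D, (if j ≠ k ∧ D k = true ∧ Bad a j k D then XY a b j D else 0)
        + ∑ j, ∑ k, ∑ D, (if j ≠ k ∧ cD D k = true ∧ Bad b j k (cD D) then XY a b j D else 0)) := by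
    rw [← Finset.sum_add_distrib, Finset.mul_sum]
    refine Finset.sum_le_sum fun j _ => ?_
    rw [← Finset.sum_add_distrib, Finset.mul_sum]
    refine Finset.sum_le_sum fun k _ => ?_
    split_ifs with h
    · have h1 : ∑ D : ι → Bool, (if j ≠ k ∧ D k = true ∧ Bad a j k D then XY a b j D else 0) = 0 := by
        refine Finset.sum_eq_zero fun D _ => if_neg ?_
        tauto
      have h2 : ∑ D : ι → Bool, (if j ≠ k ∧ cD D k = true ∧ Bad b j k (cD D) then XY a b j D else 0) = 0 := by
        refine Finset.sum_eq_zero fun D _ => if_neg ?_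
        tauto
      rw [h1, h2]; simp
    · rw [sum_split k (fun D => if j ≠ k ∧ D k = true ∧ Bad a j k D then XY a b j D else 0),
        sum_split k (fun D => if j ≠ k ∧ cD D k = true ∧ Bad b j k (cD D) then XY a b j D else 0),
        ← Finset.sum_add_distrib, Finset.mul_sum]
      refine Finset.sum_le_sum fun D _ => ?_
      have hb' := bad_part ha hb j k D
      rw [XY_true a b h, XY_false a b h, cD_update, cD_update, Bad_update, Bad_update, Bad_update,
        Bad_update]
      simp only [Function.update_self, Bool.not_true, Bool.not_false, ne_eq, h, not_false_eq_true,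
        true_and, Bool.false_eq_true, false_and, if_false, add_zero, zero_add]
      calc _ ≤ _ := hb'
        _ = _ := by ring
  have s5 : ∑ j, ∑ k, ∑ D, (if j ≠ k ∧ D k = true ∧ Bad a j k D then XY a b j D else 0)
      ≤ 800 * q * ∑ j, ∑ D, nm a p j j D * nm b p j j (cD D) := by
    rw [Finset.mul_sum]
    refine Finset.sum_le_sum fun j _ => ?_
    rw [Finset.sum_comm, Finset.mul_sum]
    refine Finset.sum_le_sum fun D _ => ?_
    have h1 := bad_count hpq ha j D
    have h2 := pl_le_nm hpq hb j j (cD D)
    have h3 := pl_nonneg hb j j (cD D)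
    have h4 : 0 ≤ 800 * q * nm a p j j D :=
      (Finset.sum_nonneg fun k _ => by split_ifs; exacts [pl_nonneg ha _ _ _, le_rfl]).trans h1
    calc ∑ k, (if j ≠ k ∧ D k = true ∧ Bad a j k D then XY a b j D else 0)
        = (∑ k, (if j ≠ k ∧ D k = true ∧ Bad a j k D then pl a j j D else 0)) * pl b j j (cD D) := by
          rw [Finset.sum_mul]
          refine Finset.sum_congr rfl fun k _ => ?_
          split_ifs <;> simp [XY]
      _ ≤ (800 * q * nm a p j j D) * nm b p j j (cD D) := by gcongr
      _ = _ := by ring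
  have s6 : ∑ j, ∑ k, ∑ D, (if j ≠ k ∧ cD D k = true ∧ Bad b j k (cD D) then XY a b j D else 0)
      ≤ 800 * q * ∑ j, ∑ D, nm a p j j D * nm b p j j (cD D) := by
    rw [Finset.mul_sum]
    refine Finset.sum_le_sum fun j _ => ?_
    rw [Finset.sum_comm, Finset.mul_sum]
    refine Finset.sum_le_sum fun D _ => ?_
    have h1 := bad_count hpq hb j (cD D)
    have h2 := pl_le_nm hpq ha j j D
    have h3 := pl_nonneg ha j j D
    have h4 : 0 ≤ 800 * q * nm b p j j (cD D) :=
      (Finset.sum_nonneg fun k _ => by split_ifs; exacts [pl_nonneg hb _ _ _, le_rfl]).trans h1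
    calc ∑ k, (if j ≠ k ∧ cD D k = true ∧ Bad b j k (cD D) then XY a b j D else 0)
        = pl a j j D * (∑ k, (if j ≠ k ∧ cD D k = true ∧ Bad b j k (cD D) then pl b j j (cD D) else 0)) := by
          rw [Finset.mul_sum]
          refine Finset.sum_congr rfl fun k _ => ?_
          split_ifs <;> simp [XY]
      _ ≤ nm a p j j D * (800 * q * nm b p j j (cD D)) := by
          refine mul_le_mul h2 h1 (Finset.sum_nonneg fun k _ => ?_) (h3.trans h2)
          split_ifs
          exacts [pl_nonneg hb _ _ _, le_rfl]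
      _ = _ := by ring
  rw [s1, s2]
  calc _ ≤ 3 / 5 * ∑ j, ∑ k, (if j = k then 0 else ∑ D, pl a j k D * pl b j k (cD D))
        + 16 / 5 * (800 * q * ∑ j, ∑ D, nm a p j j D * nm b p j j (cD D)
          + 800 * q * ∑ j, ∑ D, nm a p j j D * nm b p j j (cD D)) := by
        refine add_le_add s3 (s4.trans ?_)
        gcongr
    _ = _ := by ring

end Pool.Agent.helper24.OT
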