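import Mathlib

/-!
# Tensorization of the comparison inequality (Minkowski)
-/

namespace Pool.Agent.helper24.OT

open Finset

variable {α X Y F : Type} [Fintype α] [Fintype X] [Fintype Y] [Fintype F]

/-- weighted mean -/
def mean (w : α → ℝ) (a : α → ℝ) : ℝ := ∑ x, w x * a x

/-- weighted `L_p` norm -/
noncomputable def lpn (w : α → ℝ) (p : ℝ) (a : α → ℝ) : ℝ := (∑ x, w x * a x ^ p) ^ (1 / p)

lemma lpn_nonneg {w : α → ℝ} (hw : ∀ x, 0 ≤ w x) (p : ℝ) {a : α → ℝ} (ha : ∀ x, 0 ≤ a x) :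
    0 ≤ lpn w p a :=
  Real.rpow_nonneg (Finset.sum_nonneg fun x _ => mul_nonneg (hw x) (Real.rpow_nonneg (ha x) _)) _

lemma mean_nonneg {w : α → ℝ} (hw : ∀ x, 0 ≤ w x) {a : α → ℝ} (ha : ∀ x, 0 ≤ a x) :
    0 ≤ mean w a := Finset.sum_nonneg fun x _ => mul_nonneg (hw x) (ha x)

lemma lpn_eq {w : α → ℝ} (hw : ∀ x, 0 ≤ w x) {p : ℝ} (hp : 1 ≤ p) {a : α → ℝ} (ha : ∀ x, 0 ≤ a x) :
    lpn w p a = (∑ x, (w x ^ (1 / p) * a x) ^ p) ^ (1 / p) := by
  unfold lpn
  congr 1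
  refine Finset.sum_congr rfl fun x _ => ?_
  rw [Real.mul_rpow (Real.rpow_nonneg (hw x) _) (ha x), ← Real.rpow_mul (hw x)]
  have : p ≠ 0 := by linarith
  rw [one_div_mul_cancel this, Real.rpow_one]

lemma lpn_zero {w : α → ℝ} {p : ℝ} (hp : 1 ≤ p) : lpn w p (fun _ : α => (0:ℝ)) = 0 := by
  unfold lpn
  have : p ≠ 0 := by linarith
  simp [Real.zero_rpow this, this]

lemma lpn_smul {w : α → ℝ} (hw : ∀ x, 0 ≤ w x) {p : ℝ} (hp : 1 ≤ p) {a : α → ℝ}
    (ha : ∀ x, 0 ≤ a x) {c : ℝ} (hc : 0 ≤ c) : lpn w p (fun x => c * a x) = c * lpn w p a := by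
  unfold lpn
  have hp0 : p ≠ 0 := by linarith
  have h1 : ∑ x, w x * (c * a x) ^ p = c ^ p * ∑ x, w x * a x ^ p := by
    rw [Finset.mul_sum]
    refine Finset.sum_congr rfl fun x _ => ?_
    rw [Real.mul_rpow hc (ha x)]; ring
  rw [h1, Real.mul_rpow (Real.rpow_nonneg hc _)
    (Finset.sum_nonneg fun x _ => mul_nonneg (hw x) (Real.rpow_nonneg (ha x) _)),
    ← Real.rpow_mul hc, mul_one_div_cancel hp0, Real.rpow_one]

lemma lpn_add {w : α → ℝ} (hw : ∀ x, 0 ≤ w x) {p : ℝ} (hp : 1 ≤ p) {a b : α → ℝ}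
    (ha : ∀ x, 0 ≤ a x) (hb : ∀ x, 0 ≤ b x) :
    lpn w p (fun x => a x + b x) ≤ lpn w p a + lpn w p b := by
  rw [lpn_eq hw hp (fun x => add_nonneg (ha x) (hb x)), lpn_eq hw hp ha, lpn_eq hw hp hb]
  have h := Real.Lp_add_le_of_nonneg (Finset.univ : Finset α) hp
    (f := fun x => w x ^ (1 / p) * a x) (g := fun x => w x ^ (1 / p) * b x)
    (fun x _ => mul_nonneg (Real.rpow_nonneg (hw x) _) (ha x))
    (fun x _ => mul_nonneg (Real.rpow_nonneg (hw x) _) (hb x))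
  simpa only [mul_add] using h

lemma lpn_sum {β : Type} {w : α → ℝ} (hw : ∀ x, 0 ≤ w x) {p : ℝ} (hp : 1 ≤ p)
    (s : Finset β) {u : β → ℝ} (hu : ∀ z, 0 ≤ u z) {c : β → α → ℝ} (hc : ∀ z x, 0 ≤ c z x) :
    lpn w p (fun x => ∑ z ∈ s, u z * c z x) ≤ ∑ z ∈ s, u z * lpn w p (c z) := by
  classical
  induction s using Finset.induction_on with
  | empty => simp [lpn_zero hp]
  | insert z s hz ih =>
    simp only [Finset.sum_insert hz]
    refine (lpn_add hw hp (fun x => mul_nonneg (hu z) (hc z x))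
      (fun x => Finset.sum_nonneg fun z' _ => mul_nonneg (hu z') (hc z' x))).trans ?_
    rw [lpn_smul hw hp (hc z) (hu z)]
    exact add_le_add le_rfl ih

lemma lpn_mono {w : α → ℝ} (hw : ∀ x, 0 ≤ w x) {p : ℝ} (hp : 1 ≤ p) {a b : α → ℝ}
    (ha : ∀ x, 0 ≤ a x) (h : ∀ x, a x ≤ b x) : lpn w p a ≤ lpn w p b := by
  unfold lpn
  have hp0 : 0 < p := by linarith
  refine Real.rpow_le_rpow (Finset.sum_nonneg fun x _ => mul_nonneg (hw x) (Real.rpow_nonneg (ha x) _))
    ?_ (by positivity)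
  refine Finset.sum_le_sum fun x _ => mul_le_mul_of_nonneg_left ?_ (hw x)
  exact Real.rpow_le_rpow (ha x) (h x) hp0.le

/-- the comparison inequality with constant `L` and exponent `p` -/
def Cmp (μ ν : F → ℝ) (P : F → X → ℝ) (Q : F → Y → ℝ) (R : X → Y → Prop) (p L : ℝ) : Prop :=
  ∀ (a : X → ℝ) (b : Y → ℝ), (∀ x, 0 ≤ a x) → (∀ y, 0 ≤ b y) →
    (∀ x y, 0 < a x → 0 < b y → R x y) →
    ∑ T, μ T * (mean (P T) a * mean (Q T) b) ≤ L * ∑ T, ν T * (lpn (P T) p a * lpn (Q T) p b)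

/-- product weight -/
def pw {n : ℕ} {β : Type} (w : β → ℝ) (x : Fin n → β) : ℝ := ∏ i, w (x i)

/-- product kernel -/
def pk {n : ℕ} {β γ : Type} (P : β → γ → ℝ) (T : Fin n → β) (x : Fin n → γ) : ℝ :=
  ∏ i, P (T i) (x i)

lemma sum_cons {n : ℕ} {β : Type} [Fintype β] (f : (Fin (n + 1) → β) → ℝ) :
    ∑ x, f x = ∑ x0 : β, ∑ x' : Fin n → β, f (Fin.cons x0 x') := by
  rw [← (Fin.consEquiv (fun _ : Fin (n + 1) => β)).sum_comp, Fintype.sum_prod_type]
  rfl

lemma pw_cons {n : ℕ} {β : Type} (w : β → ℝ) (x0 : β) (x' : Fin n → β) :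
    pw w (Fin.cons x0 x' : Fin (n + 1) → β) = w x0 * pw w x' := by
  unfold pw; rw [Fin.prod_univ_succ]; simp

lemma pk_cons {n : ℕ} {β γ : Type} (P : β → γ → ℝ) (T0 : β) (T' : Fin n → β) (x0 : γ)
    (x' : Fin n → γ) :
    pk P (Fin.cons T0 T' : Fin (n + 1) → β) (Fin.cons x0 x' : Fin (n + 1) → γ)
      = P T0 x0 * pk P T' x' := by
  unfold pk; rw [Fin.prod_univ_succ]; simp

lemma pk_nonneg {n : ℕ} {β γ : Type} {P : β → γ → ℝ} (hP : ∀ T x, 0 ≤ P T x) (T : Fin n → β)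
    (x : Fin n → γ) : 0 ≤ pk P T x := Finset.prod_nonneg fun _ _ => hP _ _

lemma pw_nonneg {n : ℕ} {β : Type} {w : β → ℝ} (hw : ∀ T, 0 ≤ w T) (T : Fin n → β) :
    0 ≤ pw w T := Finset.prod_nonneg fun _ _ => hw _

/-- **Tensorization.** -/
theorem Cmp.tensor {μ ν : F → ℝ} {P : F → X → ℝ} {Q : F → Y → ℝ} {R : X → Y → Prop} {p L : ℝ}
    (hμ : ∀ T, 0 ≤ μ T) (hν : ∀ T, 0 ≤ ν T) (hP : ∀ T x, 0 ≤ P T x) (hQ : ∀ T y, 0 ≤ Q T y)
    (hp : 1 ≤ p) (hL : 0 ≤ L) (h : Cmp μ ν P Q R p L) (n : ℕ) :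
    Cmp (pw μ : (Fin n → F) → ℝ) (pw ν) (pk P) (pk Q) (fun x y => ∀ i, R (x i) (y i)) p (L ^ n) := by
  induction n with
  | zero =>
    intro a b ha hb _
    have hp0 : p ≠ 0 := by linarith
    have e : ∀ (c : ℝ), 0 ≤ c → (c ^ p) ^ (1 / p) = c := by
      intro c hc; rw [← Real.rpow_mul hc, mul_one_div_cancel hp0, Real.rpow_one]
    simp only [pw, pk, mean, lpn, Finset.univ_eq_empty, Finset.prod_empty, one_mul, pow_zero,
      Finset.univ_unique, Finset.sum_singleton]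
    rw [e _ (ha _), e _ (hb _)]
  | succ n ih =>
    intro a b ha hb hR
    -- step 1: apply `h` in the zeroth coordinate
    set a1 : (Fin n → F) → X → ℝ := fun T' x0 => ∑ x', pk P T' x' * a (Fin.cons x0 x') with ha1
    set b1 : (Fin n → F) → Y → ℝ := fun T' y0 => ∑ y', pk Q T' y' * b (Fin.cons y0 y') with hb1
    have ha1n : ∀ T' x0, 0 ≤ a1 T' x0 := fun T' x0 =>
      Finset.sum_nonneg fun x' _ => mul_nonneg (pk_nonneg hP _ _) (ha _)
    have hb1n : ∀ T' y0, 0 ≤ b1 T' y0 := fun T' y0 =>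
      Finset.sum_nonneg fun y' _ => mul_nonneg (pk_nonneg hQ _ _) (hb _)
    have hpos : ∀ {β : Type} [Fintype β] (w c : β → ℝ), (∀ z, 0 ≤ w z) → (∀ z, 0 ≤ c z) →
        0 < ∑ z, w z * c z → ∃ z, 0 < c z := by
      intro β _ w c hw hc hs
      by_contra hcon
      push Not at hcon
      have : ∑ z, w z * c z = 0 := Finset.sum_eq_zero fun z _ => by
        rw [le_antisymm (hcon z) (hc z), mul_zero]
      linarith
    have hR1 : ∀ T' x0 y0, 0 < a1 T' x0 → 0 < b1 T' y0 → R x0 y0 := by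
      intro T' x0 y0 hx hy
      obtain ⟨x', hx'⟩ := hpos _ _ (fun x' => pk_nonneg hP T' x') (fun x' => ha (Fin.cons x0 x')) hx
      obtain ⟨y', hy'⟩ := hpos _ _ (fun y' => pk_nonneg hQ T' y') (fun y' => hb (Fin.cons y0 y')) hy
      have := hR _ _ hx' hy' 0
      simpa using this
    have m1 : ∀ (T0 : F) (T' : Fin n → F), mean (pk P (Fin.cons T0 T' : Fin (n + 1) → F)) a
        = mean (P T0) (a1 T') := by
      intro T0 T'
      unfold mean
      rw [sum_cons]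
      refine Finset.sum_congr rfl fun x0 _ => ?_
      rw [ha1]
      simp only [Finset.mul_sum]
      refine Finset.sum_congr rfl fun x' _ => ?_
      rw [pk_cons]; ring
    have m2 : ∀ (T0 : F) (T' : Fin n → F), mean (pk Q (Fin.cons T0 T' : Fin (n + 1) → F)) b
        = mean (Q T0) (b1 T') := by
      intro T0 T'
      unfold mean
      rw [sum_cons]
      refine Finset.sum_congr rfl fun x0 _ => ?_
      rw [hb1]
      simp only [Finset.mul_sum]
      refine Finset.sum_congr rfl fun x' _ => ?_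
      rw [pk_cons]; ring
    -- step 2 functions
    set a2 : F → (Fin n → X) → ℝ := fun T0 x' => lpn (P T0) p (fun x0 => a (Fin.cons x0 x')) with ha2
    set b2 : F → (Fin n → Y) → ℝ := fun T0 y' => lpn (Q T0) p (fun y0 => b (Fin.cons y0 y')) with hb2
    have ha2n : ∀ T0 x', 0 ≤ a2 T0 x' := fun T0 x' => lpn_nonneg (hP T0) p fun x0 => ha _
    have hb2n : ∀ T0 y', 0 ≤ b2 T0 y' := fun T0 y' => lpn_nonneg (hQ T0) p fun y0 => hb _
    have hlpos : ∀ {β : Type} [Fintype β] (w c : β → ℝ), (∀ z, 0 ≤ w z) → (∀ z, 0 ≤ c z) →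
        0 < lpn w p c → ∃ z, 0 < c z := by
      intro β _ w c hw hc hs
      by_contra hcon
      push Not at hcon
      have h0 : c = fun _ => (0:ℝ) := by funext z; exact le_antisymm (hcon z) (hc z)
      rw [h0, lpn_zero hp] at hs
      exact lt_irrefl _ hs
    have hR2 : ∀ T0 x' y', 0 < a2 T0 x' → 0 < b2 T0 y' → ∀ i, R (x' i) (y' i) := by
      intro T0 x' y' hx hy i
      obtain ⟨x0, hx0⟩ := hlpos _ _ (hP T0) (fun x0 => ha (Fin.cons x0 x')) hx
      obtain ⟨y0, hy0⟩ := hlpos _ _ (hQ T0) (fun y0 => hb (Fin.cons y0 y')) hy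
      have := hR _ _ hx0 hy0 i.succ
      simpa using this
    have mink1 : ∀ T0 T', lpn (P T0) p (a1 T') ≤ mean (pk P T') (a2 T0) := by
      intro T0 T'
      exact lpn_sum (hP T0) hp Finset.univ (fun x' => pk_nonneg hP T' x') (fun x' x0 => ha (Fin.cons x0 x'))
    have mink2 : ∀ T0 T', lpn (Q T0) p (b1 T') ≤ mean (pk Q T') (b2 T0) := by
      intro T0 T'
      exact lpn_sum (hQ T0) hp Finset.univ (fun x' => pk_nonneg hQ T' x') (fun x' x0 => hb (Fin.cons x0 x'))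
    have l1 : ∀ (T0 : F) (T' : Fin n → F), lpn (pk P T') p (a2 T0)
        = lpn (pk P (Fin.cons T0 T' : Fin (n + 1) → F)) p a := by
      intro T0 T'
      have hp0 : p ≠ 0 := by linarith
      rw [ha2]
      unfold lpn
      congr 1
      rw [sum_cons]
      rw [Finset.sum_comm]
      refine Finset.sum_congr rfl fun x' _ => ?_
      rw [← Real.rpow_mul (Finset.sum_nonneg fun x _ => mul_nonneg (hP T0 x) (Real.rpow_nonneg (ha _) _)),
        one_div_mul_cancel hp0, Real.rpow_one, Finset.mul_sum]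
      refine Finset.sum_congr rfl fun x0 _ => ?_
      rw [pk_cons]; ring
    have l2 : ∀ (T0 : F) (T' : Fin n → F), lpn (pk Q T') p (b2 T0)
        = lpn (pk Q (Fin.cons T0 T' : Fin (n + 1) → F)) p b := by
      intro T0 T'
      have hp0 : p ≠ 0 := by linarith
      rw [hb2]
      unfold lpn
      congr 1
      rw [sum_cons]
      rw [Finset.sum_comm]
      refine Finset.sum_congr rfl fun x' _ => ?_
      rw [← Real.rpow_mul (Finset.sum_nonneg fun x _ => mul_nonneg (hQ T0 x) (Real.rpow_nonneg (hb _) _)),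
        one_div_mul_cancel hp0, Real.rpow_one, Finset.mul_sum]
      refine Finset.sum_congr rfl fun x0 _ => ?_
      rw [pk_cons]; ring
    calc ∑ T : Fin (n + 1) → F, pw μ T * (mean (pk P T) a * mean (pk Q T) b)
        = ∑ T' : Fin n → F, pw μ T' * ∑ T0 : F, μ T0 * (mean (P T0) (a1 T') * mean (Q T0) (b1 T')) := by
          rw [sum_cons, Finset.sum_comm]
          refine Finset.sum_congr rfl fun T' _ => ?_
          rw [Finset.mul_sum]
          refine Finset.sum_congr rfl fun T0 _ => ?_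
          rw [pw_cons, m1, m2]; ring
      _ ≤ ∑ T' : Fin n → F, pw μ T' * (L * ∑ T0 : F, ν T0 * (lpn (P T0) p (a1 T') * lpn (Q T0) p (b1 T'))) := by
          refine Finset.sum_le_sum fun T' _ => mul_le_mul_of_nonneg_left ?_ (pw_nonneg hμ T')
          exact h (a1 T') (b1 T') (ha1n T') (hb1n T') (hR1 T')
      _ ≤ ∑ T' : Fin n → F, pw μ T' * (L * ∑ T0 : F, ν T0 * (mean (pk P T') (a2 T0) * mean (pk Q T') (b2 T0))) := by
          refine Finset.sum_le_sum fun T' _ => mul_le_mul_of_nonneg_left ?_ (pw_nonneg hμ T')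
          refine mul_le_mul_of_nonneg_left ?_ hL
          refine Finset.sum_le_sum fun T0 _ => mul_le_mul_of_nonneg_left ?_ (hν T0)
          exact mul_le_mul (mink1 T0 T') (mink2 T0 T') (lpn_nonneg (hQ T0) p (hb1n T'))
            (mean_nonneg (pk_nonneg hP T') (ha2n T0))
      _ = L * ∑ T0 : F, ν T0 * ∑ T' : Fin n → F, pw μ T' * (mean (pk P T') (a2 T0) * mean (pk Q T') (b2 T0)) := by
          simp only [Finset.mul_sum]
          rw [Finset.sum_comm]
          refine Finset.sum_congr rfl fun T0 _ => Finset.sum_congr rfl fun T' _ => ?_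
          ring
      _ ≤ L * ∑ T0 : F, ν T0 * (L ^ n * ∑ T' : Fin n → F, pw ν T' * (lpn (pk P T') p (a2 T0) * lpn (pk Q T') p (b2 T0))) := by
          refine mul_le_mul_of_nonneg_left ?_ hL
          refine Finset.sum_le_sum fun T0 _ => mul_le_mul_of_nonneg_left ?_ (hν T0)
          exact ih (a2 T0) (b2 T0) (ha2n T0) (hb2n T0) (hR2 T0)
      _ = L ^ (n + 1) * ∑ T : Fin (n + 1) → F, pw ν T * (lpn (pk P T) p a * lpn (pk Q T) p b) := by
          rw [sum_cons]
          simp only [Finset.mul_sum]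
          refine Finset.sum_congr rfl fun T0 _ => Finset.sum_congr rfl fun T' _ => ?_
          rw [pw_cons, l1, l2]; ring

end Pool.Agent.helper24.OT
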